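import Pool.Agent.Lib.H87.HopfKC.Coord
import Pool.Agent.Lib.H91.HopfMax

/-!
# Averaging over the sign changes of the coordinate axes
-/

set_option autoImplicit false

namespace HopfKC

open Finset H91.Split

/-- The character of the sign pattern `D` belonging to the set `m` of axes (both as bit masks). -/
def ch (D m : ℕ) : ℤ :=
  ∏ a ∈ range 6, if (D.testBit a && m.testBit a) = true then -1 else 1

/-- Set of axes (as a bit mask) that occur an odd number of times in coordinate `i`. -/
def mask (i : ℕ) : ℕ :=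
  2 ^ ((qd i).1 : ℕ) ^^^ (2 ^ ((qd i).2.1 : ℕ) ^^^
    (2 ^ ((qd i).2.2.1 : ℕ) ^^^ 2 ^ ((qd i).2.2.2 : ℕ)))

/-- Sign of coordinate `i` under the sign pattern `D`. -/
def chi (D i : ℕ) : ℤ := ch D (mask i)

theorem ch_xor (D m n : ℕ) : ch D (m ^^^ n) = ch D m * ch D n := by
  unfold ch
  rw [← Finset.prod_mul_distrib]
  refine Finset.prod_congr rfl fun a _ => ?_
  rw [Nat.testBit_xor]
  cases D.testBit a <;> cases m.testBit a <;> cases n.testBit a <;> simp

theorem ch_two_pow (D : ℕ) (a : Fin 6) : ch D (2 ^ (a : ℕ)) = if D.testBit a = true then -1 else 1 := by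
  unfold ch
  rw [Finset.prod_eq_single (a : ℕ)]
  · rw [Nat.testBit_two_pow_self, Bool.and_true]
  · intro b _ hb
    rw [Nat.testBit_two_pow, decide_eq_false (fun h => hb h.symm), Bool.and_false]
    simp
  · intro h
    exact absurd (Finset.mem_range.2 a.2) h

theorem ch_sum_zero : ∀ m < 64, m ≠ 0 → ∑ D ∈ range 64, ch D m = 0 := by
  unfold ch
  decide +kernel

theorem mask_lt (i : ℕ) : mask i < 64 := by
  have h : ∀ a : Fin 6, 2 ^ (a : ℕ) < 2 ^ 6 := fun a => Nat.pow_lt_pow_right (by norm_num) a.2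
  have : mask i < 2 ^ 6 := by
    unfold mask
    exact Nat.xor_lt_two_pow (h _) (Nat.xor_lt_two_pow (h _) (Nat.xor_lt_two_pow (h _) (h _)))
  simpa using this

theorem chi_sum_zero {k i j : ℕ} (h : mask k ^^^ mask i ^^^ mask j ≠ 0) :
    ∑ D ∈ range 64, chi D k * chi D i * chi D j = 0 := by
  have h1 : ∀ D, chi D k * chi D i * chi D j = ch D (mask k ^^^ mask i ^^^ mask j) := by
    intro D
    rw [ch_xor, ch_xor]
    rfl
  simp only [h1]
  refine ch_sum_zero _ ?_ h
  have : mask k ^^^ mask i ^^^ mask j < 2 ^ 6 :=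
    Nat.xor_lt_two_pow (Nat.xor_lt_two_pow (by simpa using mask_lt k) (by simpa using mask_lt i))
      (by simpa using mask_lt j)
  simpa using this

theorem chi_mul_eq_one {D k i j : ℕ} (h : mask k ^^^ mask i ^^^ mask j = 0) :
    chi D k * chi D i * chi D j = 1 := by
  have h1 : chi D k * chi D i * chi D j = ch D (mask k ^^^ mask i ^^^ mask j) := by
    rw [ch_xor, ch_xor]
    rfl
  rw [h1, h]
  simp [ch]

/-- Sum over the six orders of the indices. -/
def sym6 (z : ℕ → ℕ → ℕ → ℝ) (k i j : ℕ) : ℝ :=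
  z k i j + z k j i + z i k j + z i j k + z j k i + z j i k

theorem sum_sym6 (n : ℕ) (z : ℕ → ℕ → ℕ → ℝ) :
    ∑ k ∈ range n, ∑ i ∈ range n, ∑ j ∈ range n, sym6 z k i j
      = 6 * ∑ k ∈ range n, ∑ i ∈ range n, ∑ j ∈ range n, z k i j := by
  have c23 : ∀ w : ℕ → ℕ → ℕ → ℝ, ∑ k ∈ range n, ∑ i ∈ range n, ∑ j ∈ range n, w k j i
      = ∑ k ∈ range n, ∑ i ∈ range n, ∑ j ∈ range n, w k i j := by
    intro w
    exact Finset.sum_congr rfl fun k _ => Finset.sum_comm
  have c12 : ∀ w : ℕ → ℕ → ℕ → ℝ, ∑ k ∈ range n, ∑ i ∈ range n, ∑ j ∈ range n, w i k j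
      = ∑ k ∈ range n, ∑ i ∈ range n, ∑ j ∈ range n, w k i j := by
    intro w
    exact Finset.sum_comm
  have e1 := c23 z
  have e2 := c12 z
  have e3 : ∑ k ∈ range n, ∑ i ∈ range n, ∑ j ∈ range n, z i j k
      = ∑ k ∈ range n, ∑ i ∈ range n, ∑ j ∈ range n, z k i j := by
    rw [c12 (fun k i j => z k j i)]
    exact c23 z
  have e4 : ∑ k ∈ range n, ∑ i ∈ range n, ∑ j ∈ range n, z j k i
      = ∑ k ∈ range n, ∑ i ∈ range n, ∑ j ∈ range n, z k i j := by
    rw [c23 (fun k i j => z i k j)]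
    exact c12 z
  have e5 : ∑ k ∈ range n, ∑ i ∈ range n, ∑ j ∈ range n, z j i k
      = ∑ k ∈ range n, ∑ i ∈ range n, ∑ j ∈ range n, z k i j := by
    rw [c23 (fun k i j => z i j k)]
    exact e3
  simp only [sym6, Finset.sum_add_distrib]
  rw [e1, e2, e3, e4, e5]
  ring

/-- Vanishing of a symmetric function of three indices follows from the sorted case. -/
theorem sym6_sorted {z : ℕ → ℕ → ℕ → ℝ} {n : ℕ}
    (H : ∀ k i j, k ≤ i → i ≤ j → j < n → mask k ^^^ mask i ^^^ mask j = 0 → sym6 z k i j = 0)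
    {k i j : ℕ} (hk : k < n) (hi : i < n) (hj : j < n)
    (hm : mask k ^^^ mask i ^^^ mask j = 0) : sym6 z k i j = 0 := by
  have m1 : mask k ^^^ mask j ^^^ mask i = 0 := by
    rw [Nat.xor_assoc, Nat.xor_comm (mask j), ← Nat.xor_assoc]; exact hm
  have m2 : mask i ^^^ mask k ^^^ mask j = 0 := by
    rw [Nat.xor_comm (mask i)]; exact hm
  have m3 : mask i ^^^ mask j ^^^ mask k = 0 := by
    rw [Nat.xor_assoc, Nat.xor_comm (mask j), ← Nat.xor_assoc]; exact m2
  have m4 : mask j ^^^ mask k ^^^ mask i = 0 := by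
    rw [Nat.xor_comm (mask j)]; exact m1
  have m5 : mask j ^^^ mask i ^^^ mask k = 0 := by
    rw [Nat.xor_comm (mask j)]; exact m3
  rcases le_total k i with h1 | h1 <;> rcases le_total i j with h2 | h2 <;>
    rcases le_total k j with h3 | h3
  · exact H _ _ _ h1 h2 hj hm
  · exact H _ _ _ h1 h2 hj hm
  · have := H k j i h3 h2 hi m1
    unfold sym6 at this ⊢; linarith
  · have := H j k i h3 h1 hi m4
    unfold sym6 at this ⊢; linarith
  · have := H i k j h1 h3 hj m2
    unfold sym6 at this ⊢; linarith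
  · have := H i j k h2 h3 hk m3
    unfold sym6 at this ⊢; linarith
  · have := H j i k h2 h1 hk m5
    unfold sym6 at this ⊢; linarith
  · have := H j i k h2 h1 hk m5
    unfold sym6 at this ⊢; linarith

/-- **Sign average**: a cubic form whose sign invariant monomials all have coefficient zero has
average zero over the sign changes. -/
theorem sum_sign_eq_zero (z : ℕ → ℕ → ℕ → ℝ) (n : ℕ)
    (H : ∀ k i j, k ≤ i → i ≤ j → j < n → mask k ^^^ mask i ^^^ mask j = 0 → sym6 z k i j = 0)
    (v : ℕ → ℝ) :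
    ∑ D ∈ range 64, ∑ k ∈ range n, ∑ i ∈ range n, ∑ j ∈ range n,
      z k i j * (((chi D k : ℝ) * v k) * ((chi D i : ℝ) * v i) * ((chi D j : ℝ) * v j)) = 0 := by
  have h1 : ∑ D ∈ range 64, ∑ k ∈ range n, ∑ i ∈ range n, ∑ j ∈ range n,
      z k i j * (((chi D k : ℝ) * v k) * ((chi D i : ℝ) * v i) * ((chi D j : ℝ) * v j))
      = ∑ k ∈ range n, ∑ i ∈ range n, ∑ j ∈ range n,
        z k i j * ((((∑ D ∈ range 64, chi D k * chi D i * chi D j : ℤ)) : ℝ) * (v k * v i * v j)) := by
    rw [Finset.sum_comm]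
    refine Finset.sum_congr rfl fun k _ => ?_
    rw [Finset.sum_comm]
    refine Finset.sum_congr rfl fun i _ => ?_
    rw [Finset.sum_comm]
    refine Finset.sum_congr rfl fun j _ => ?_
    push_cast
    rw [Finset.sum_mul, Finset.mul_sum]
    refine Finset.sum_congr rfl fun D _ => ?_
    ring
  rw [h1]
  have h2 := sum_sym6 n (fun k i j =>
    z k i j * ((((∑ D ∈ range 64, chi D k * chi D i * chi D j : ℤ)) : ℝ) * (v k * v i * v j)))
  have h3 : ∑ k ∈ range n, ∑ i ∈ range n, ∑ j ∈ range n, sym6 (fun k i j =>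
      z k i j * ((((∑ D ∈ range 64, chi D k * chi D i * chi D j : ℤ)) : ℝ) * (v k * v i * v j))) k i j
      = 0 := by
    refine Finset.sum_eq_zero fun k hk => Finset.sum_eq_zero fun i hi => Finset.sum_eq_zero
      fun j hj => ?_
    have p1 : (∑ D ∈ range 64, chi D k * chi D j * chi D i)
        = ∑ D ∈ range 64, chi D k * chi D i * chi D j :=
      Finset.sum_congr rfl fun D _ => by ring
    have p2 : (∑ D ∈ range 64, chi D i * chi D k * chi D j)
        = ∑ D ∈ range 64, chi D k * chi D i * chi D j :=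
      Finset.sum_congr rfl fun D _ => by ring
    have p3 : (∑ D ∈ range 64, chi D i * chi D j * chi D k)
        = ∑ D ∈ range 64, chi D k * chi D i * chi D j :=
      Finset.sum_congr rfl fun D _ => by ring
    have p4 : (∑ D ∈ range 64, chi D j * chi D k * chi D i)
        = ∑ D ∈ range 64, chi D k * chi D i * chi D j :=
      Finset.sum_congr rfl fun D _ => by ring
    have p5 : (∑ D ∈ range 64, chi D j * chi D i * chi D k)
        = ∑ D ∈ range 64, chi D k * chi D i * chi D j :=
      Finset.sum_congr rfl fun D _ => by ring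
    have e : sym6 (fun k i j =>
        z k i j * ((((∑ D ∈ range 64, chi D k * chi D i * chi D j : ℤ)) : ℝ) * (v k * v i * v j)))
          k i j
        = sym6 z k i j *
          ((((∑ D ∈ range 64, chi D k * chi D i * chi D j : ℤ)) : ℝ) * (v k * v i * v j)) := by
      simp only [sym6, p1, p2, p3, p4, p5]
      ring
    rw [e]
    by_cases hm : mask k ^^^ mask i ^^^ mask j = 0
    · rw [sym6_sorted H (Finset.mem_range.1 hk) (Finset.mem_range.1 hi) (Finset.mem_range.1 hj) hm,
        zero_mul]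
    · rw [chi_sum_zero hm]
      simp
  rw [h3] at h2
  linarith

/-- A cubic form with sign invariant monomials only is sign invariant. -/
theorem sum_sign_inv (f : ℕ → ℕ → ℕ → ℝ) (n : ℕ)
    (H : ∀ k i j, f k i j ≠ 0 → mask k ^^^ mask i ^^^ mask j = 0) (D : ℕ) (v : ℕ → ℝ) :
    ∑ k ∈ range n, ∑ i ∈ range n, ∑ j ∈ range n,
      f k i j * (((chi D k : ℝ) * v k) * ((chi D i : ℝ) * v i) * ((chi D j : ℝ) * v j))
    = ∑ k ∈ range n, ∑ i ∈ range n, ∑ j ∈ range n, f k i j * (v k * v i * v j) := by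
  refine Finset.sum_congr rfl fun k _ => Finset.sum_congr rfl fun i _ =>
    Finset.sum_congr rfl fun j _ => ?_
  by_cases h : f k i j = 0
  · rw [h, zero_mul, zero_mul]
  · have h1 : ((chi D k : ℝ) * (chi D i : ℝ) * (chi D j : ℝ)) = 1 := by
      exact_mod_cast chi_mul_eq_one (D := D) (H k i j h)
    calc f k i j * (((chi D k : ℝ) * v k) * ((chi D i : ℝ) * v i) * ((chi D j : ℝ) * v j))
        = f k i j * (((chi D k : ℝ) * (chi D i : ℝ) * (chi D j : ℝ)) * (v k * v i * v j)) := by
          ring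
      _ = _ := by rw [h1, one_mul]

/-- The diagonal matrix of the sign pattern `D`. -/
noncomputable def dg (D : ℕ) : M6 :=
  Matrix.diagonal fun a : Fin 6 => if D.testBit a = true then (-1 : ℝ) else 1

theorem dg_orth (D : ℕ) : (dg D).transpose * dg D = 1 := by
  rw [dg, Matrix.diagonal_transpose, Matrix.diagonal_mul_diagonal, ← Matrix.diagonal_one]
  congr 1
  funext a
  by_cases h : D.testBit a = true <;> simp [h]

theorem dg_blk (D : ℕ) : IsBlk (dg D) := by
  intro a α
  have h : lo a ≠ hi α := fun h => hi_ne_lo α a h.symm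
  exact ⟨Matrix.diagonal_apply_ne _ h, Matrix.diagonal_apply_ne _ h.symm⟩

theorem rot_diagonal (s : Fin 6 → ℝ) (R : T6') (i j k l : Fin 6) :
    rot (Matrix.diagonal s) R i j k l = s i * s j * s k * s l * R i j k l := by
  unfold rot
  rw [Finset.sum_eq_single i, Finset.sum_eq_single j, Finset.sum_eq_single k,
    Finset.sum_eq_single l]
  · simp only [Matrix.diagonal_apply_eq]
  · intro b _ hb; rw [Matrix.diagonal_apply_ne _ hb]; ring
  · intro h; exact absurd (mem_univ _) h
  · intro b _ hb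
    refine Finset.sum_eq_zero fun c _ => ?_
    rw [Matrix.diagonal_apply_ne _ hb]; ring
  · intro h; exact absurd (mem_univ _) h
  · intro b _ hb
    refine Finset.sum_eq_zero fun c _ => Finset.sum_eq_zero fun d _ => ?_
    rw [Matrix.diagonal_apply_ne _ hb]; ring
  · intro h; exact absurd (mem_univ _) h
  · intro b _ hb
    refine Finset.sum_eq_zero fun c _ => Finset.sum_eq_zero fun d _ =>
      Finset.sum_eq_zero fun e _ => ?_
    rw [Matrix.diagonal_apply_ne _ hb]; ring
  · intro h; exact absurd (mem_univ _) h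

theorem cv_rot_dg (c : ℝ) (R : T6') (D i : ℕ) :
    cv c (rot (dg D) R) i = (chi D i : ℝ) * cv c R i := by
  by_cases hi : i = 0
  · subst hi
    have h0 : chi D 0 = 1 := by
      have hm : mask 0 = 0 := by decide
      rw [chi, hm]
      simp [ch]
    simp only [cv, if_true, h0, Int.cast_one, one_mul]
  · simp only [cv, hi, if_false, dg, rot_diagonal]
    have h1 : (chi D i : ℝ) =
        (if D.testBit (qd i).1 = true then (-1 : ℝ) else 1) *
        ((if D.testBit (qd i).2.1 = true then (-1 : ℝ) else 1) *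
        ((if D.testBit (qd i).2.2.1 = true then (-1 : ℝ) else 1) *
        (if D.testBit (qd i).2.2.2 = true then (-1 : ℝ) else 1))) := by
      unfold chi mask
      rw [ch_xor, ch_xor, ch_xor, ch_two_pow, ch_two_pow, ch_two_pow, ch_two_pow]
      push_cast
      rfl
    rw [h1]
    ring

end HopfKC
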