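import Mathlib

open Finset

namespace Pool.Agent.H26

noncomputable section

/-- The real group algebra. -/
abbrev GA (G : Type*) := AddMonoidAlgebra ℝ G

variable {G : Type*} [AddCommGroup G]

/-- The `P`-th power of the `ℓ_P` norm of an element of the group algebra. -/
def npow (P : ℝ) (a : GA G) : ℝ := a.coeff.sum (fun _ c => |c| ^ P)

/-- The `ℓ_P` norm. -/
def nrm (P : ℝ) (a : GA G) : ℝ := (npow P a) ^ (1 / P)

/-- The `ℓ_1` norm. -/
def l1 (a : GA G) : ℝ := a.coeff.sum (fun _ c => |c|)

lemma npow_eq_sum {P : ℝ} (hP : 0 < P) (a : GA G) {F : Finset G} (hF : a.coeff.support ⊆ F) :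
    npow P a = ∑ v ∈ F, |a.coeff v| ^ P := by
  unfold npow
  apply Finsupp.sum_of_support_subset _ hF
  intro i _
  simp [Real.zero_rpow hP.ne']

lemma l1_eq_sum (a : GA G) {F : Finset G} (hF : a.coeff.support ⊆ F) :
    l1 a = ∑ v ∈ F, |a.coeff v| := by
  unfold l1
  apply Finsupp.sum_of_support_subset _ hF
  intro i _
  simp

lemma npow_nonneg (P : ℝ) (a : GA G) : 0 ≤ npow P a := by
  unfold npow
  apply Finset.sum_nonneg
  intro i _
  positivity

lemma l1_nonneg (a : GA G) : 0 ≤ l1 a := by
  unfold l1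
  apply Finset.sum_nonneg
  intro i _
  positivity

lemma nrm_nonneg (P : ℝ) (a : GA G) : 0 ≤ nrm P a :=
  Real.rpow_nonneg (npow_nonneg P a) _

lemma nrm_rpow {P : ℝ} (hP : 0 < P) (a : GA G) : nrm P a ^ P = npow P a := by
  unfold nrm
  rw [← Real.rpow_mul (npow_nonneg P a), one_div, inv_mul_cancel₀ hP.ne', Real.rpow_one]

lemma nrm_zero {P : ℝ} (hP : 0 < P) : nrm P (0 : GA G) = 0 := by
  unfold nrm npow
  simp [Real.zero_rpow (inv_pos.mpr hP).ne']

lemma l1_zero : l1 (0 : GA G) = 0 := by simp [l1]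

lemma nrm_add_le {P : ℝ} (hP : 1 ≤ P) (a b : GA G) : nrm P (a + b) ≤ nrm P a + nrm P b := by
  classical
  have hP0 : 0 < P := by linarith
  have h1 : a.coeff.support ⊆ a.coeff.support ∪ b.coeff.support := subset_union_left
  have h2 : b.coeff.support ⊆ a.coeff.support ∪ b.coeff.support := subset_union_right
  have h3 : (a + b).coeff.support ⊆ a.coeff.support ∪ b.coeff.support := by
    rw [AddMonoidAlgebra.coeff_add]
    exact Finsupp.support_add
  unfold nrm
  rw [npow_eq_sum hP0 a h1, npow_eq_sum hP0 b h2, npow_eq_sum hP0 (a + b) h3]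
  simp only [AddMonoidAlgebra.coeff_add, Finsupp.add_apply]
  exact Real.Lp_add_le _ _ _ hP

lemma l1_add_le (a b : GA G) : l1 (a + b) ≤ l1 a + l1 b := by
  classical
  have h1 : a.coeff.support ⊆ a.coeff.support ∪ b.coeff.support := subset_union_left
  have h2 : b.coeff.support ⊆ a.coeff.support ∪ b.coeff.support := subset_union_right
  have h3 : (a + b).coeff.support ⊆ a.coeff.support ∪ b.coeff.support := by
    rw [AddMonoidAlgebra.coeff_add]
    exact Finsupp.support_add
  rw [l1_eq_sum a h1, l1_eq_sum b h2, l1_eq_sum (a + b) h3, ← Finset.sum_add_distrib]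
  apply Finset.sum_le_sum
  intro i _
  simp only [AddMonoidAlgebra.coeff_add, Finsupp.add_apply]
  exact abs_add_le _ _

lemma nrm_sum_le {P : ℝ} (hP : 1 ≤ P) {ι : Type*} (F : Finset ι) (a : ι → GA G) :
    nrm P (∑ i ∈ F, a i) ≤ ∑ i ∈ F, nrm P (a i) := by
  classical
  have hP0 : 0 < P := by linarith
  induction F using Finset.induction_on with
  | empty => simp [nrm_zero hP0]
  | insert i F hi ih =>
    rw [Finset.sum_insert hi, Finset.sum_insert hi]
    exact (nrm_add_le hP _ _).trans (by gcongr)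

lemma l1_sum_le {ι : Type*} (F : Finset ι) (a : ι → GA G) :
    l1 (∑ i ∈ F, a i) ≤ ∑ i ∈ F, l1 (a i) := by
  classical
  induction F using Finset.induction_on with
  | empty => simp [l1_zero]
  | insert i F hi ih =>
    rw [Finset.sum_insert hi, Finset.sum_insert hi]
    exact (l1_add_le _ _).trans (by gcongr)

lemma npow_smul {P : ℝ} (hP : 0 < P) (c : ℝ) (a : GA G) :
    npow P (c • a) = |c| ^ P * npow P a := by
  have h : (c • a).coeff.support ⊆ a.coeff.support := by
    rw [AddMonoidAlgebra.coeff_smul]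
    exact Finsupp.support_smul
  rw [npow_eq_sum hP (c • a) h, npow_eq_sum hP a (subset_refl _), Finset.mul_sum]
  apply Finset.sum_congr rfl
  intro i _
  rw [AddMonoidAlgebra.coeff_smul, Finsupp.smul_apply, smul_eq_mul, abs_mul,
    Real.mul_rpow (abs_nonneg _) (abs_nonneg _)]

lemma nrm_smul {P : ℝ} (hP : 0 < P) (c : ℝ) (a : GA G) : nrm P (c • a) = |c| * nrm P a := by
  unfold nrm
  rw [npow_smul hP, Real.mul_rpow (by positivity) (npow_nonneg _ _),
    ← Real.rpow_mul (abs_nonneg c), mul_one_div_cancel hP.ne', Real.rpow_one]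

lemma l1_smul (c : ℝ) (a : GA G) : l1 (c • a) = |c| * l1 a := by
  have h : (c • a).coeff.support ⊆ a.coeff.support := by
    rw [AddMonoidAlgebra.coeff_smul]
    exact Finsupp.support_smul
  rw [l1_eq_sum (c • a) h, l1_eq_sum a (subset_refl _), Finset.mul_sum]
  apply Finset.sum_congr rfl
  intro i _
  rw [AddMonoidAlgebra.coeff_smul, Finsupp.smul_apply, smul_eq_mul, abs_mul]

lemma nrm_neg {P : ℝ} (hP : 0 < P) (a : GA G) : nrm P (-a) = nrm P a := by
  have : -a = (-1 : ℝ) • a := by simp
  rw [this, nrm_smul hP]; simp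

lemma nrm_sub_le {P : ℝ} (hP : 1 ≤ P) (a b : GA G) : nrm P (a - b) ≤ nrm P a + nrm P b := by
  rw [sub_eq_add_neg]
  refine (nrm_add_le hP _ _).trans ?_
  rw [nrm_neg (by linarith)]

lemma l1_neg (a : GA G) : l1 (-a) = l1 a := by
  have : -a = (-1 : ℝ) • a := by simp
  rw [this, l1_smul]; simp

lemma l1_sub_le (a b : GA G) : l1 (a - b) ≤ l1 a + l1 b := by
  rw [sub_eq_add_neg]
  refine (l1_add_le _ _).trans ?_
  rw [l1_neg]

lemma npow_single {P : ℝ} (hP : 0 < P) (v : G) (c : ℝ) :
    npow P (AddMonoidAlgebra.single v c) = |c| ^ P := by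
  unfold npow
  rw [AddMonoidAlgebra.coeff_single]
  exact Finsupp.sum_single_index (by simp [Real.zero_rpow hP.ne'])

lemma nrm_single {P : ℝ} (hP : 0 < P) (v : G) (c : ℝ) :
    nrm P (AddMonoidAlgebra.single v c) = |c| := by
  unfold nrm
  rw [npow_single hP, ← Real.rpow_mul (abs_nonneg _), mul_one_div_cancel hP.ne', Real.rpow_one]

lemma l1_single (v : G) (c : ℝ) : l1 (AddMonoidAlgebra.single v c) = |c| := by
  unfold l1
  rw [AddMonoidAlgebra.coeff_single]
  exact Finsupp.sum_single_index (by simp)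

lemma nrm_one {P : ℝ} (hP : 0 < P) : nrm P (1 : GA G) = 1 := by
  rw [AddMonoidAlgebra.one_def, nrm_single hP, abs_one]

lemma l1_one : l1 (1 : GA G) = 1 := by
  rw [AddMonoidAlgebra.one_def, l1_single, abs_one]

lemma npow_single_mul {P : ℝ} (hP : 0 < P) (v : G) (c : ℝ) (a : GA G) :
    npow P (AddMonoidAlgebra.single v c * a) = |c| ^ P * npow P a := by
  classical
  have h : (AddMonoidAlgebra.single v c * a).coeff.support ⊆
      a.coeff.support.map (addLeftEmbedding v) := by
    intro w hw
    rw [Finsupp.mem_support_iff, AddMonoidAlgebra.coeff_single_mul_apply] at hw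
    rw [Finset.mem_map]
    refine ⟨-v + w, ?_, ?_⟩
    · rw [Finsupp.mem_support_iff]
      exact right_ne_zero_of_mul hw
    · simp
  rw [npow_eq_sum hP _ h, npow_eq_sum hP a (subset_refl _), Finset.sum_map, Finset.mul_sum]
  apply Finset.sum_congr rfl
  intro w _
  rw [AddMonoidAlgebra.coeff_single_mul_apply, abs_mul,
    Real.mul_rpow (abs_nonneg _) (abs_nonneg _)]
  simp

lemma nrm_single_mul {P : ℝ} (hP : 0 < P) (v : G) (c : ℝ) (a : GA G) :
    nrm P (AddMonoidAlgebra.single v c * a) = |c| * nrm P a := by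
  unfold nrm
  rw [npow_single_mul hP, Real.mul_rpow (by positivity) (npow_nonneg _ _),
    ← Real.rpow_mul (abs_nonneg c), mul_one_div_cancel hP.ne', Real.rpow_one]

lemma l1_single_mul (v : G) (c : ℝ) (a : GA G) :
    l1 (AddMonoidAlgebra.single v c * a) = |c| * l1 a := by
  have h1 : ∀ b : GA G, l1 b = npow 1 b := by
    intro b
    unfold l1 npow
    simp
  rw [h1, h1, npow_single_mul one_pos, Real.rpow_one]

lemma eq_sum_single (a : GA G) :
    a = ∑ v ∈ a.coeff.support, AddMonoidAlgebra.single v (a.coeff v) := by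
  conv_lhs => rw [← AddMonoidAlgebra.sum_coeff_single a]
  rfl

lemma nrm_mul_le {P : ℝ} (hP : 1 ≤ P) (a b : GA G) : nrm P (a * b) ≤ l1 a * nrm P b := by
  have hP0 : 0 < P := by linarith
  conv_lhs => rw [eq_sum_single a, Finset.sum_mul]
  refine (nrm_sum_le hP _ _).trans ?_
  rw [l1_eq_sum a (subset_refl _), Finset.sum_mul]
  apply le_of_eq
  apply Finset.sum_congr rfl
  intro v _
  rw [nrm_single_mul hP0]

lemma l1_mul_le (a b : GA G) : l1 (a * b) ≤ l1 a * l1 b := by
  conv_lhs => rw [eq_sum_single a, Finset.sum_mul]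
  refine (l1_sum_le _ _).trans ?_
  rw [l1_eq_sum a (subset_refl _), Finset.sum_mul]
  apply le_of_eq
  apply Finset.sum_congr rfl
  intro v _
  rw [l1_single_mul]

lemma l1_prod_le {ι : Type*} (F : Finset ι) (a : ι → GA G) {c : ℝ} (hc : ∀ i ∈ F, l1 (a i) ≤ c) :
    l1 (∏ i ∈ F, a i) ≤ c ^ F.card := by
  classical
  induction F using Finset.induction_on with
  | empty => simp [l1_one]
  | insert i F hi ih =>
    rw [Finset.prod_insert hi, Finset.card_insert_of_notMem hi, pow_succ, mul_comm]
    refine (l1_mul_le _ _).trans ?_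
    have h1 := ih (fun j hj => hc j (Finset.mem_insert_of_mem hj))
    have h2 := hc i (Finset.mem_insert_self i F)
    have h3 := l1_nonneg (a i)
    have h4 := l1_nonneg (∏ x ∈ F, a x)
    calc l1 (∏ x ∈ F, a x) * l1 (a i) ≤ c ^ F.card * c := by
          apply mul_le_mul h1 h2 h3 (h4.trans h1)
      _ = _ := by ring

lemma nrm_le_l1 {P : ℝ} (hP : 1 ≤ P) (a : GA G) : nrm P a ≤ l1 a := by
  have h := nrm_mul_le hP a 1
  rwa [mul_one, nrm_one (by linarith), mul_one] at h

lemma abs_coeff_le_nrm {P : ℝ} (hP : 0 < P) (a : GA G) (v : G) : |a.coeff v| ≤ nrm P a := by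
  by_cases hv : v ∈ a.coeff.support
  · have h1 : |a.coeff v| ^ P ≤ npow P a := by
      rw [npow_eq_sum hP a (subset_refl _)]
      exact Finset.single_le_sum (f := fun v => |a.coeff v| ^ P)
        (fun i _ => by positivity) hv
    calc |a.coeff v| = (|a.coeff v| ^ P) ^ (1 / P) := by
          rw [← Real.rpow_mul (abs_nonneg _), mul_one_div_cancel hP.ne', Real.rpow_one]
      _ ≤ nrm P a := by
          unfold nrm
          gcongr
  · rw [Finsupp.notMem_support_iff.mp hv, abs_zero]
    exact nrm_nonneg P a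

lemma npow_add_of_disjoint {P : ℝ} (a b : GA G)
    (h : Disjoint a.coeff.support b.coeff.support) : npow P (a + b) = npow P a + npow P b := by
  classical
  unfold npow
  rw [AddMonoidAlgebra.coeff_add]
  exact Finsupp.sum_add_index_of_disjoint h _

lemma npow_zero' {P : ℝ} : npow P (0 : GA G) = 0 := by
  simp [npow]

lemma support_sum_subset {ι : Type*} [DecidableEq G] (F : Finset ι) (a : ι → GA G) :
    (∑ i ∈ F, a i).coeff.support ⊆ F.biUnion (fun i => (a i).coeff.support) := by
  rw [AddMonoidAlgebra.coeff_sum]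
  exact Finsupp.support_finset_sum

lemma npow_sum_of_disjoint {P : ℝ} {ι : Type*} (F : Finset ι) (a : ι → GA G)
    (h : ∀ i ∈ F, ∀ j ∈ F, i ≠ j → Disjoint (a i).coeff.support (a j).coeff.support) :
    npow P (∑ i ∈ F, a i) = ∑ i ∈ F, npow P (a i) := by
  classical
  induction F using Finset.induction_on with
  | empty => simp [npow_zero']
  | insert i F hi ih =>
    rw [Finset.sum_insert hi, Finset.sum_insert hi, npow_add_of_disjoint, ih]
    · exact fun j hj k hk => h j (Finset.mem_insert_of_mem hj) k (Finset.mem_insert_of_mem hk)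
    · apply Finset.disjoint_of_subset_right (support_sum_subset F a)
      rw [Finset.disjoint_biUnion_right]
      intro j hj
      exact h i (Finset.mem_insert_self i F) j (Finset.mem_insert_of_mem hj)
        (fun hij => hi (hij ▸ hj))

/-- The support of `a` lies in the subgroup `U`. -/
def Liv (U : AddSubgroup G) (a : GA G) : Prop := ∀ v ∈ a.coeff.support, v ∈ U

lemma npow_mul_of_disjoint {P : ℝ} (hP : 0 < P) {U U' : AddSubgroup G} (hU : Disjoint U U')
    {a b : GA G} (ha : Liv U a) (hb : Liv U' b) : npow P (a * b) = npow P a * npow P b := by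
  classical
  conv_lhs => rw [eq_sum_single a, Finset.sum_mul]
  rw [npow_sum_of_disjoint]
  · rw [npow_eq_sum hP a (subset_refl _), Finset.sum_mul]
    apply Finset.sum_congr rfl
    intro v _
    rw [npow_single_mul hP]
  · intro v hv v' hv' hne
    rw [Finset.disjoint_left]
    intro w hw hw'
    rw [Finsupp.mem_support_iff, AddMonoidAlgebra.coeff_single_mul_apply] at hw hw'
    have h1 : -v + w ∈ U' := hb _ (Finsupp.mem_support_iff.mpr (right_ne_zero_of_mul hw))
    have h2 : -v' + w ∈ U' := hb _ (Finsupp.mem_support_iff.mpr (right_ne_zero_of_mul hw'))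
    have h3 : v - v' ∈ U' := by
      have := U'.sub_mem h2 h1
      have e : -v' + w - (-v + w) = v - v' := by abel
      rwa [e] at this
    have h4 : v - v' ∈ U := U.sub_mem (ha v hv) (ha v' hv')
    have h5 : v - v' = 0 := by
      have := AddSubgroup.disjoint_def.mp hU h4 h3
      exact this
    exact hne (sub_eq_zero.mp h5)

lemma nrm_mul_of_disjoint {P : ℝ} (hP : 0 < P) {U U' : AddSubgroup G} (hU : Disjoint U U')
    {a b : GA G} (ha : Liv U a) (hb : Liv U' b) : nrm P (a * b) = nrm P a * nrm P b := by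
  unfold nrm
  rw [npow_mul_of_disjoint hP hU ha hb, Real.mul_rpow (npow_nonneg _ _) (npow_nonneg _ _)]

lemma Liv.mul {U U' : AddSubgroup G} {a b : GA G} (ha : Liv U a) (hb : Liv U' b) :
    Liv (U ⊔ U') (a * b) := by
  classical
  intro w hw
  have h := AddMonoidAlgebra.support_coeff_mul_subset a b hw
  rw [Finset.mem_add] at h
  obtain ⟨v, hv, v', hv', rfl⟩ := h
  exact add_mem (SetLike.le_def.mp le_sup_left (ha v hv)) (SetLike.le_def.mp le_sup_right (hb v' hv'))

lemma Liv.mul_same {U : AddSubgroup G} {a b : GA G} (ha : Liv U a) (hb : Liv U b) :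
    Liv U (a * b) := by
  have := ha.mul hb
  rwa [sup_idem] at this

lemma Liv.mono {U U' : AddSubgroup G} (h : U ≤ U') {a : GA G} (ha : Liv U a) : Liv U' a :=
  fun v hv => h (ha v hv)

lemma Liv.one (U : AddSubgroup G) : Liv U (1 : GA G) := by
  classical
  intro v hv
  have := AddMonoidAlgebra.support_coeff_one_subset hv
  rw [Finset.mem_zero] at this
  rw [this]
  exact zero_mem U

lemma Liv.add {U : AddSubgroup G} {a b : GA G} (ha : Liv U a) (hb : Liv U b) : Liv U (a + b) := by
  classical
  intro v hv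
  rw [AddMonoidAlgebra.coeff_add] at hv
  rcases Finset.mem_union.mp (Finsupp.support_add hv) with h | h
  · exact ha v h
  · exact hb v h

lemma Liv.neg {U : AddSubgroup G} {a : GA G} (ha : Liv U a) : Liv U (-a) := by
  intro v hv
  rw [AddMonoidAlgebra.coeff_neg, Finsupp.support_neg] at hv
  exact ha v hv

lemma Liv.sub {U : AddSubgroup G} {a b : GA G} (ha : Liv U a) (hb : Liv U b) : Liv U (a - b) := by
  rw [sub_eq_add_neg]
  exact ha.add hb.neg

lemma Liv.smul {U : AddSubgroup G} {a : GA G} (c : ℝ) (ha : Liv U a) : Liv U (c • a) := by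
  intro v hv
  rw [AddMonoidAlgebra.coeff_smul] at hv
  exact ha v (Finsupp.support_smul hv)

lemma Liv.prod {ι : Type*} {U : AddSubgroup G} (F : Finset ι) {a : ι → GA G}
    (ha : ∀ i ∈ F, Liv U (a i)) : Liv U (∏ i ∈ F, a i) := by
  classical
  induction F using Finset.induction_on with
  | empty => simpa using Liv.one U
  | insert i F hi ih =>
    rw [Finset.prod_insert hi]
    exact (ha i (Finset.mem_insert_self i F)).mul_same
      (ih (fun j hj => ha j (Finset.mem_insert_of_mem hj)))

lemma Liv.sum {ι : Type*} {U : AddSubgroup G} (F : Finset ι) {a : ι → GA G}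
    (ha : ∀ i ∈ F, Liv U (a i)) : Liv U (∑ i ∈ F, a i) := by
  classical
  induction F using Finset.induction_on with
  | empty =>
    intro v hv
    simp at hv
  | insert i F hi ih =>
    rw [Finset.sum_insert hi]
    exact (ha i (Finset.mem_insert_self i F)).add
      (ih (fun j hj => ha j (Finset.mem_insert_of_mem hj)))

lemma Liv.single {U : AddSubgroup G} {v : G} (hv : v ∈ U) (c : ℝ) :
    Liv U (AddMonoidAlgebra.single v c) := by
  classical
  intro w hw
  rw [AddMonoidAlgebra.coeff_single] at hw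
  have := Finsupp.support_single_subset hw
  rw [Finset.mem_singleton] at this
  rw [this]; exact hv

/-! ### Push forward along a homomorphism -/

/-- Push-forward of a Laurent polynomial along `n ↦ n • g`. -/
def emb (g : G) : GA ℤ →ₐ[ℝ] GA G :=
  AddMonoidAlgebra.mapDomainAlgHom ℝ ℝ ((zmultiplesHom G) g)

lemma emb_apply (g : G) (x : GA ℤ) :
    emb g x = AddMonoidAlgebra.mapDomain ((zmultiplesHom G) g) x := rfl

lemma emb_single (g : G) (n : ℤ) (c : ℝ) :
    emb g (AddMonoidAlgebra.single n c) = AddMonoidAlgebra.single (n • g) c := by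
  rw [emb_apply, AddMonoidAlgebra.mapDomain_single]
  simp

lemma emb_liv (g : G) (x : GA ℤ) : Liv (AddSubgroup.zmultiples g) (emb g x) := by
  classical
  rw [eq_sum_single x, map_sum]
  apply Liv.sum
  intro n _
  rw [emb_single]
  exact Liv.single (AddSubgroup.zsmul_mem_zmultiples g n) _

lemma npow_emb {P : ℝ} (hP : 0 < P) {g : G} (hg : Function.Injective (fun n : ℤ => n • g))
    (x : GA ℤ) : npow P (emb g x) = npow P x := by
  unfold npow
  rw [emb_apply, AddMonoidAlgebra.coeff_mapDomain]
  have : Function.Injective ((zmultiplesHom G) g) := by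
    intro a b h
    apply hg
    simpa using h
  rw [Finsupp.sum_mapDomain_index_inj this]

lemma nrm_emb {P : ℝ} (hP : 0 < P) {g : G} (hg : Function.Injective (fun n : ℤ => n • g))
    (x : GA ℤ) : nrm P (emb g x) = nrm P x := by
  unfold nrm
  rw [npow_emb hP hg]

lemma l1_emb_le (g : G) (x : GA ℤ) : l1 (emb g x) ≤ l1 x := by
  conv_lhs => rw [eq_sum_single x, map_sum]
  refine (l1_sum_le _ _).trans ?_
  rw [l1_eq_sum x (subset_refl _)]
  apply Finset.sum_le_sum
  intro n _
  rw [emb_single, l1_single]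

end

end Pool.Agent.H26
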