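import Pool.Agent.Lib.H26.Exp
import Pool.Agent.Lib.H26.Alg

open MeasureTheory Filter Topology Set
open scoped ENNReal

namespace Pool.Agent.H26

noncomputable section

variable {p : ℝ≥0∞} [Fact (1 ≤ p)] {G : Type*} [AddCommGroup G]

/-- The representation of `G` on `X p` by translations. -/
def actHom (pos : G →+ ℝ) : Multiplicative G →* (X p →L[ℝ] X p) where
  toFun g := (T (pos g.toAdd)).toContinuousLinearMap
  map_one' := by
    ext1 x
    simp [T_zero]
  map_mul' a b := by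
    ext1 x
    simp [T_comp]

/-- The action of the group algebra on `X p` by translations. -/
def act (pos : G →+ ℝ) : GA G →ₐ[ℝ] (X p →L[ℝ] X p) :=
  AddMonoidAlgebra.lift ℝ _ G (actHom pos)

lemma act_single (pos : G →+ ℝ) (v : G) (c : ℝ) (φ : X p) :
    act pos (AddMonoidAlgebra.single v c) φ = c • T (pos v) φ := by
  simp [act, actHom]

lemma act_apply (pos : G →+ ℝ) (a : GA G) (φ : X p) :
    act pos a φ = ∑ v ∈ a.coeff.support, a.coeff v • T (pos v) φ := by
  conv_lhs => rw [eq_sum_single a, map_sum, sum_apply]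
  apply Finset.sum_congr rfl
  intro v _
  rw [act_single]

lemma act_T (pos : G →+ ℝ) (a : GA G) (δ : ℝ) (φ : X p) :
    act pos a (T δ φ) = T δ (act pos a φ) := by
  rw [act_apply, act_apply, map_sum]
  apply Finset.sum_congr rfl
  intro v _
  rw [map_smul, T_comm]

lemma act_mul (pos : G →+ ℝ) (a b : GA G) (φ : X p) :
    act pos (a * b) φ = act pos a (act pos b φ) := by
  rw [map_mul]; rfl

lemma act_one (pos : G →+ ℝ) (φ : X p) : act pos 1 φ = φ := by
  rw [map_one]; rfl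

lemma act_zero (pos : G →+ ℝ) (φ : X p) : act pos 0 φ = 0 := by
  rw [map_zero]; rfl

lemma act_add (pos : G →+ ℝ) (a b : GA G) (φ : X p) :
    act pos (a + b) φ = act pos a φ + act pos b φ := by
  rw [map_add]; rfl

lemma act_sub (pos : G →+ ℝ) (a b : GA G) (φ : X p) :
    act pos (a - b) φ = act pos a φ - act pos b φ := by
  rw [map_sub]; rfl

lemma act_smul (pos : G →+ ℝ) (c : ℝ) (a : GA G) (φ : X p) :
    act pos (c • a) φ = c • act pos a φ := by
  rw [map_smul]; rfl

lemma act_sum (pos : G →+ ℝ) {ι : Type*} (F : Finset ι) (a : ι → GA G) (φ : X p) :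
    act pos (∑ i ∈ F, a i) φ = ∑ i ∈ F, act pos (a i) φ := by
  rw [map_sum, sum_apply]

lemma norm_act_le (pos : G →+ ℝ) (a : GA G) (φ : X p) : ‖act pos a φ‖ ≤ l1 a * ‖φ‖ := by
  rw [act_apply, l1_eq_sum a (Finset.Subset.refl _), Finset.sum_mul]
  refine (norm_sum_le _ _).trans ?_
  apply Finset.sum_le_sum
  intro v _
  rw [norm_smul, norm_T, Real.norm_eq_abs]

/-- The region covered by translates of `[-b,b)`. -/
def reg (pos : G →+ ℝ) (F : Finset G) (b : ℝ) : Set ℝ :=
  ⋃ v ∈ F, Ico (pos v - b) (pos v + b)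

lemma measurableSet_reg (pos : G →+ ℝ) (F : Finset G) (b : ℝ) : MeasurableSet (reg pos F b) :=
  Finset.measurableSet_biUnion F (fun _ _ => measurableSet_Ico)

/-- The points of `F` are mapped to points with gaps at least `2b`. -/
def Sep (pos : G →+ ℝ) (F : Finset G) (b : ℝ) : Prop :=
  ∀ v ∈ F, ∀ w ∈ F, v ≠ w → 2 * b ≤ |pos v - pos w|

lemma Sep.mono {pos : G →+ ℝ} {F F' : Finset G} {b : ℝ} (h : Sep pos F' b) (hF : F ⊆ F') :
    Sep pos F b := fun v hv w hw => h v (hF hv) w (hF hw)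

lemma Ico_disj_of_sep {a c b : ℝ} (h : 2 * b ≤ |a - c|) :
    Disjoint (Ico (a - b) (a + b)) (Ico (c - b) (c + b)) := by
  rw [Set.disjoint_left]
  rintro t ⟨h1, h2⟩ ⟨h3, h4⟩
  rcases abs_cases (a - c) with ⟨h5, h6⟩ | ⟨h5, h6⟩ <;> linarith

lemma Sep.disjoint {pos : G →+ ℝ} {F : Finset G} {b : ℝ} (h : Sep pos F b) {v w : G}
    (hv : v ∈ F) (hw : w ∈ F) (hne : v ≠ w) :
    Disjoint (Ico (pos v - b) (pos v + b)) (Ico (pos w - b) (pos w + b)) :=
  Ico_disj_of_sep (h v hv w hw hne)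

lemma disjoint_reg {pos : G →+ ℝ} {E : Finset G} {b : ℝ} (h : Sep pos E b) {F F' : Finset G}
    (hF : F ⊆ E) (hF' : F' ⊆ E) (hd : Disjoint F F') :
    Disjoint (reg pos F b) (reg pos F' b) := by
  unfold reg
  rw [Set.disjoint_iUnion₂_left]
  intro v hv
  rw [Set.disjoint_iUnion₂_right]
  intro w hw
  apply h.disjoint (hF hv) (hF' hw)
  rintro rfl
  exact Finset.disjoint_left.mp hd hv hw

lemma R_T_win {b : ℝ} {φ : X p} (hφ : R (win b) φ = φ) (a : ℝ) :
    R (Ico (a - b) (a + b)) (T a φ) = T a φ := by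
  conv_rhs => rw [← hφ]
  unfold win
  rw [T_R_Ico]
  congr 2
  ring_nf

lemma R_reg_act (pos : G →+ ℝ) {a : GA G} {F : Finset G} (hF : a.coeff.support ⊆ F) {b : ℝ}
    {φ : X p} (hφ : R (win b) φ = φ) : R (reg pos F b) (act pos a φ) = act pos a φ := by
  rw [act_apply, map_sum]
  apply Finset.sum_congr rfl
  intro v hv
  rw [map_smul]
  congr 1
  apply R_of_subset measurableSet_Ico (measurableSet_reg pos F b) _ (R_T_win hφ (pos v))
  exact Set.subset_biUnion_of_mem (u := fun v => Ico (pos v - b) (pos v + b)) (hF hv)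

lemma norm_act_rpow (hp : p ≠ ∞) (pos : G →+ ℝ) {a : GA G} {b : ℝ}
    (hs : Sep pos a.coeff.support b) {φ : X p} (hφ : R (win b) φ = φ) :
    ‖act pos a φ‖ ^ p.toReal = npow p.toReal a * ‖φ‖ ^ p.toReal := by
  rw [act_apply, norm_sum_of_disj hp _ (fun v => Ico (pos v - b) (pos v + b))
    (fun v _ => measurableSet_Ico) (fun v hv w hw hne => hs.disjoint hv hw hne),
    npow_eq_sum (pt_pos hp) a (Finset.Subset.refl _), Finset.sum_mul]
  · apply Finset.sum_congr rfl
    intro v _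
    rw [norm_smul, norm_T, Real.norm_eq_abs, Real.mul_rpow (abs_nonneg _) (norm_nonneg _)]
  · intro v _
    rw [map_smul, R_T_win hφ]

lemma norm_act (hp : p ≠ ∞) (pos : G →+ ℝ) {a : GA G} {b : ℝ}
    (hs : Sep pos a.coeff.support b) {φ : X p} (hφ : R (win b) φ = φ) :
    ‖act pos a φ‖ = nrm p.toReal a * ‖φ‖ := by
  have hP := pt_pos (p := p) hp
  have h := norm_act_rpow hp pos hs hφ
  rw [← nrm_rpow hP, ← Real.mul_rpow (nrm_nonneg _ _) (norm_nonneg _)] at h
  exact (Real.rpow_left_inj (norm_nonneg _)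
    (mul_nonneg (nrm_nonneg _ _) (norm_nonneg _)) hP.ne').mp h

/-! ### Existence of separating positions -/

lemma exists_pos {ι : Type*} [Fintype ι] (E : Finset (ι → ℤ)) (c : ℝ) :
    ∃ pos : (ι → ℤ) →+ ℝ, (∀ v, ∃ k : ℤ, pos v = k) ∧
      ∀ v ∈ E, ∀ w ∈ E, v ≠ w → c ≤ |pos v - pos w| := by
  classical
  let e := Fintype.equivFin ι
  let q : (ι → ℤ) → Polynomial ℤ := fun d => ∑ i, Polynomial.C (d i) * Polynomial.X ^ (e i : ℕ)
  have hq : ∀ d, d ≠ 0 → q d ≠ 0 := by
    intro d hd h0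
    apply hd
    ext i
    have h1 : (q d).coeff (e i : ℕ) = d i := by
      simp only [q, Polynomial.finsetSum_coeff, Polynomial.coeff_C_mul, Polynomial.coeff_X_pow]
      rw [Finset.sum_eq_single i]
      · simp
      · intro j _ hj
        have : (e i : ℕ) ≠ (e j : ℕ) := by
          intro h
          apply hj
          exact (e.injective (Fin.ext h)).symm
        simp [this]
      · simp
    rw [h0] at h1
    simpa using h1.symm
  let D : Finset (ι → ℤ) := (E ×ˢ E).image (fun x => x.1 - x.2) |>.filter (· ≠ 0)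
  have hQ : (∏ d ∈ D, q d) ≠ 0 := by
    rw [Finset.prod_ne_zero_iff]
    intro d hd
    exact hq d (Finset.mem_filter.mp hd).2
  obtain ⟨x, hx⟩ : ∃ x : ℤ, (∏ d ∈ D, q d).eval x ≠ 0 := by
    by_contra hcon
    push Not at hcon
    apply hQ
    apply Polynomial.funext
    intro r
    rw [hcon r, Polynomial.eval_zero]
  obtain ⟨M, hM⟩ := exists_nat_ge c
  let pos : (ι → ℤ) →+ ℝ :=
    { toFun := fun v => ((M : ℤ) * (q v).eval x : ℤ)
      map_zero' := by simp [q]
      map_add' := by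
        intro a b
        have : q (a + b) = q a + q b := by
          simp only [q, Pi.add_apply, Polynomial.C_add, add_mul, Finset.sum_add_distrib]
        rw [this, Polynomial.eval_add]
        push_cast
        ring }
  refine ⟨pos, fun v => ⟨_, rfl⟩, ?_⟩
  intro v hv w hw hne
  have hd : v - w ∈ D := by
    simp only [D, Finset.mem_filter, Finset.mem_image, Finset.mem_product]
    exact ⟨⟨(v, w), ⟨hv, hw⟩, rfl⟩, sub_ne_zero.mpr hne⟩
  have h1 : (q (v - w)).eval x ≠ 0 := by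
    rw [Polynomial.eval_prod, Finset.prod_ne_zero_iff] at hx
    exact hx _ hd
  have h2 : pos v - pos w = pos (v - w) := (map_sub pos v w).symm
  rw [h2]
  change c ≤ |(((M : ℤ) * (q (v - w)).eval x : ℤ) : ℝ)|
  rw [← Int.cast_abs, abs_mul]
  have h3 : (1 : ℤ) ≤ |(q (v - w)).eval x| := Int.one_le_abs h1
  have h4 : (M : ℝ) ≤ ((|(M : ℤ)| * |(q (v - w)).eval x| : ℤ) : ℝ) := by
    have : (M : ℤ) ≤ |(M : ℤ)| * |(q (v - w)).eval x| := by
      rw [abs_of_nonneg (by positivity : (0 : ℤ) ≤ M)]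
      nlinarith [Int.natCast_nonneg M]
    exact_mod_cast this
  linarith

end

end Pool.Agent.H26
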