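import Pool.Agent.Lib.H26.Exp

open MeasureTheory Filter Topology Set
open scoped ENNReal

namespace Pool.Agent.H26

noncomputable section

/-! ### Burkholder's function -/

/-- Auxiliary one-variable function. -/
def kk (Q A B r : ℝ) : ℝ := A * (r - r ^ Q) + B * (r ^ (Q + 1) - 1)

lemma kk_one (Q A B : ℝ) : kk Q A B 1 = 0 := by simp [kk]

/-- Its derivative. -/
def kk' (Q A B r : ℝ) : ℝ := A * (1 - Q * r ^ (Q - 1)) + B * ((Q + 1) * r ^ Q)

lemma hasDerivAt_kk (Q A B : ℝ) {r : ℝ} (hr : 0 < r) : HasDerivAt (kk Q A B) (kk' Q A B r) r := by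
  have h1 : HasDerivAt (fun r : ℝ => r ^ Q) (Q * r ^ (Q - 1)) r :=
    Real.hasDerivAt_rpow_const (Or.inl hr.ne')
  have h2 : HasDerivAt (fun r : ℝ => r ^ (Q + 1)) ((Q + 1) * r ^ Q) r := by
    have := Real.hasDerivAt_rpow_const (x := r) (p := Q + 1) (Or.inl hr.ne')
    rwa [add_sub_cancel_right] at this
  exact (((hasDerivAt_id r).sub h1).const_mul A).add ((h2.sub_const 1).const_mul B)

lemma hasDerivAt_kk' (Q A B : ℝ) {r : ℝ} (hr : 0 < r) :
    HasDerivAt (kk' Q A B) (Q * r ^ (Q - 2) * (B * (Q + 1) * r - A * (Q - 1))) r := by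
  have h1 : HasDerivAt (fun r : ℝ => r ^ Q) (Q * r ^ (Q - 1)) r :=
    Real.hasDerivAt_rpow_const (Or.inl hr.ne')
  have h2 : HasDerivAt (fun r : ℝ => r ^ (Q - 1)) ((Q - 1) * r ^ (Q - 1 - 1)) r :=
    Real.hasDerivAt_rpow_const (Or.inl hr.ne')
  have h3 := (((h2.const_mul Q).const_sub 1).const_mul A).add ((h1.const_mul (Q + 1)).const_mul B)
  have e1 : r ^ (Q - 1) = r ^ (Q - 2) * r := by
    rw [← Real.rpow_add_one hr.ne']
    congr 1
    ring
  have e2 : Q - 1 - 1 = Q - 2 := by ring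
  refine h3.congr_deriv ?_
  rw [e2, e1]
  ring

lemma kk'_mono {Q A B : ℝ} (hQ : 0 < Q) (hB : 0 ≤ B) (h : A * (Q - 1) ≤ B * (Q + 1)) :
    MonotoneOn (kk' Q A B) (Ici 1) := by
  apply monotoneOn_of_deriv_nonneg (convex_Ici 1)
  · intro r hr
    exact (hasDerivAt_kk' Q A B (by rw [mem_Ici] at hr; linarith)).continuousAt.continuousWithinAt
  · intro r hr
    rw [interior_Ici] at hr
    exact (hasDerivAt_kk' Q A B
      (by rw [mem_Ioi] at hr; linarith)).differentiableAt.differentiableWithinAt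
  · intro r hr
    rw [interior_Ici, mem_Ioi] at hr
    have hr0 : 0 < r := by linarith
    rw [(hasDerivAt_kk' Q A B hr0).deriv]
    have h1 : B * (Q + 1) ≤ B * (Q + 1) * r := by
      have : 0 ≤ B * (Q + 1) := by positivity
      nlinarith
    have h2 : 0 ≤ B * (Q + 1) * r - A * (Q - 1) := by linarith
    positivity

lemma kk'_nonneg {Q A B : ℝ} (hQ : 0 < Q) (hB : 0 ≤ B) (h : A * (Q - 1) ≤ B * (Q + 1)) {r : ℝ}
    (hr : 1 ≤ r) : 0 ≤ kk' Q A B r := by
  have h1 : kk' Q A B 1 ≤ kk' Q A B r := kk'_mono hQ hB h (mem_Ici.mpr le_rfl) hr hr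
  have h2 : kk' Q A B 1 = B * (Q + 1) - A * (Q - 1) := by
    simp [kk']
    ring
  linarith

lemma kk_mono {Q A B : ℝ} (hQ : 0 < Q) (hB : 0 ≤ B) (h : A * (Q - 1) ≤ B * (Q + 1)) :
    MonotoneOn (kk Q A B) (Ici 1) := by
  apply monotoneOn_of_deriv_nonneg (convex_Ici 1)
  · intro r hr
    exact (hasDerivAt_kk Q A B (by rw [mem_Ici] at hr; linarith)).continuousAt.continuousWithinAt
  · intro r hr
    rw [interior_Ici] at hr
    exact (hasDerivAt_kk Q A B
      (by rw [mem_Ioi] at hr; linarith)).differentiableAt.differentiableWithinAt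
  · intro r hr
    rw [interior_Ici, mem_Ioi] at hr
    rw [(hasDerivAt_kk Q A B (by linarith)).deriv]
    exact kk'_nonneg hQ hB h hr.le

lemma kk_convex {Q A B : ℝ} (hQ : 0 < Q) (hB : 0 ≤ B) (h : A * (Q - 1) ≤ B * (Q + 1)) :
    ConvexOn ℝ (Ici 1) (kk Q A B) := by
  apply MonotoneOn.convexOn_of_deriv (convex_Ici 1)
  · intro r hr
    exact (hasDerivAt_kk Q A B (by rw [mem_Ici] at hr; linarith)).continuousAt.continuousWithinAt
  · intro r hr
    rw [interior_Ici] at hr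
    exact (hasDerivAt_kk Q A B
      (by rw [mem_Ioi] at hr; linarith)).differentiableAt.differentiableWithinAt
  · intro r hr r' hr' hrr'
    rw [interior_Ici, mem_Ioi] at hr hr'
    rw [(hasDerivAt_kk Q A B (by linarith)).deriv, (hasDerivAt_kk Q A B (by linarith)).deriv]
    exact kk'_mono hQ hB h hr.le hr'.le hrr'

lemma kk_max {Q A B : ℝ} (hQ : 0 < Q) (hB : 0 ≤ B) (h : A * (Q - 1) ≤ B * (Q + 1)) (a b : ℝ) :
    2 * kk Q A B (max ((a + b) / 2) 1) ≤ kk Q A B (max a 1) + kk Q A B (max b 1) := by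
  have h1 : kk Q A B (max ((a + b) / 2) 1) ≤ kk Q A B ((1 / 2 : ℝ) • max a 1 + (1 / 2 : ℝ) • max b 1) := by
    apply kk_mono hQ hB h
    · exact mem_Ici.mpr (le_max_right _ _)
    · rw [mem_Ici, smul_eq_mul, smul_eq_mul]
      linarith [le_max_right a 1, le_max_right b 1]
    · rw [smul_eq_mul, smul_eq_mul]
      apply max_le
      · linarith [le_max_left a 1, le_max_left b 1]
      · linarith [le_max_right a 1, le_max_right b 1]
  have h2 := (kk_convex hQ hB h).2 (mem_Ici.mpr (le_max_right a 1)) (mem_Ici.mpr (le_max_right b 1))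
    (show (0 : ℝ) ≤ 1 / 2 by norm_num) (show (0 : ℝ) ≤ 1 / 2 by norm_num) (by norm_num)
  simp only [smul_eq_mul] at h1 h2
  linarith

/-- Burkholder's function on the line `y - x = 1`. -/
def burkFF (Q c s : ℝ) : ℝ :=
  (1 + c) * s - (c - 1) - kk Q (1 + c) (c - 1) (max s 1) - kk Q (-(1 + c)) (c - 1) (max (-s) 1)

lemma FF_concave {Q c : ℝ} (hQ : 0 < Q) (hc : 1 ≤ c) (h1 : Q ≤ c) (h2 : 1 ≤ c * Q) (a b : ℝ) :
    burkFF Q c a + burkFF Q c b ≤ 2 * burkFF Q c ((a + b) / 2) := by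
  have k1 := kk_max (Q := Q) (A := 1 + c) (B := c - 1) hQ (by linarith) (by nlinarith) a b
  have k2 := kk_max (Q := Q) (A := -(1 + c)) (B := c - 1) hQ (by linarith) (by nlinarith) (-a) (-b)
  have e : -((a + b) / 2) = (-a + -b) / 2 := by ring
  unfold burkFF
  rw [e]
  linarith

/-- Burkholder's function, with exponent `Q + 1`. -/
def Ub (Q c x y : ℝ) : ℝ := (|y| - c * |x|) * (|x| + |y|) ^ Q

lemma Ub_eq {Q c x y : ℝ} (hxy : x < y) :
    2 * Ub Q c x y = (y - x) ^ (Q + 1) * burkFF Q c ((x + y) / (y - x)) := by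
  have hd : 0 < y - x := by linarith
  unfold Ub burkFF
  rcases le_or_gt 0 x with hx | hx
  · -- `0 ≤ x < y`
    have hy : 0 < y := by linarith
    have hs : 0 < x + y := by linarith
    have m1 : max ((x + y) / (y - x)) 1 = (x + y) / (y - x) := by
      apply max_eq_left
      rw [le_div_iff₀ hd]; linarith
    have m2 : max (-((x + y) / (y - x))) 1 = 1 := by
      apply max_eq_right
      have : 0 < (x + y) / (y - x) := by positivity
      linarith
    rw [m1, m2, kk_one, abs_of_nonneg hx, abs_of_pos hy]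
    unfold kk
    rw [Real.div_rpow hs.le hd.le, Real.div_rpow hs.le hd.le, Real.rpow_add_one hd.ne',
      Real.rpow_add_one hs.ne']
    have hdQ : 0 < (y - x) ^ Q := by positivity
    field_simp
    ring
  · rcases le_or_gt y 0 with hy | hy
    · -- `x < y ≤ 0`
      have hs : 0 < -x + -y := by linarith
      have m1 : max ((x + y) / (y - x)) 1 = 1 := by
        apply max_eq_right
        rw [div_le_iff₀ hd]; linarith
      have m2 : max (-((x + y) / (y - x))) 1 = (-x + -y) / (y - x) := by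
        rw [max_eq_left]
        · ring
        · rw [← neg_div, le_div_iff₀ hd]; linarith
      have e : (x + y) / (y - x) = -((-x + -y) / (y - x)) := by ring
      rw [m1, m2, kk_one, abs_of_neg hx, abs_of_nonpos hy, e]
      unfold kk
      rw [Real.div_rpow hs.le hd.le, Real.div_rpow hs.le hd.le, Real.rpow_add_one hd.ne',
        Real.rpow_add_one hs.ne']
      have hdQ : 0 < (y - x) ^ Q := by positivity
      field_simp
      ring
    · -- `x < 0 < y`
      have m1 : max ((x + y) / (y - x)) 1 = 1 := by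
        apply max_eq_right
        rw [div_le_iff₀ hd]; linarith
      have m2 : max (-((x + y) / (y - x))) 1 = 1 := by
        apply max_eq_right
        rw [← neg_div, div_le_iff₀ hd]; linarith
      rw [m1, m2, kk_one, kk_one, abs_of_neg hx, abs_of_pos hy, Real.rpow_add_one hd.ne']
      have e : -x + y = y - x := by ring
      rw [e]
      field_simp
      ring

lemma Ub_neg (Q c x y : ℝ) : Ub Q c (-x) (-y) = Ub Q c x y := by
  unfold Ub
  rw [abs_neg, abs_neg]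

lemma Ub_neg_right (Q c x y : ℝ) : Ub Q c x (-y) = Ub Q c x y := by
  unfold Ub
  rw [abs_neg]

lemma Ub_zigzag_lt {Q c : ℝ} (hQ : 0 < Q) (hc : 1 ≤ c) (h1 : Q ≤ c) (h2 : 1 ≤ c * Q)
    {x y : ℝ} (hxy : x < y) (t : ℝ) :
    Ub Q c (x + t) (y + t) + Ub Q c (x - t) (y - t) ≤ 2 * Ub Q c x y := by
  have e1 := Ub_eq (Q := Q) (c := c) (show x + t < y + t by linarith)
  have e2 := Ub_eq (Q := Q) (c := c) (show x - t < y - t by linarith)
  have e3 := Ub_eq (Q := Q) (c := c) hxy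
  have d1 : y + t - (x + t) = y - x := by ring
  have d2 : y - t - (x - t) = y - x := by ring
  rw [d1] at e1
  rw [d2] at e2
  have k := FF_concave hQ hc h1 h2 ((x + t + (y + t)) / (y - x)) ((x - t + (y - t)) / (y - x))
  have m : ((x + t + (y + t)) / (y - x) + (x - t + (y - t)) / (y - x)) / 2
      = (x + y) / (y - x) := by ring
  rw [m] at k
  have hd : 0 < y - x := by linarith
  have hp : 0 ≤ (y - x) ^ (Q + 1) := by positivity
  have := mul_le_mul_of_nonneg_left k hp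
  nlinarith

lemma Ub_diag {Q c x : ℝ} (hQ : 0 < Q) : Ub Q c x x = -((c - 1) * 2 ^ Q) * |x| ^ (Q + 1) := by
  unfold Ub
  have e : |x| + |x| = 2 * |x| := by ring
  rw [e, Real.mul_rpow (by norm_num) (abs_nonneg x),
    Real.rpow_add_one' (abs_nonneg x) (by linarith)]
  ring

lemma Ub_zigzag {Q c : ℝ} (hQ : 0 < Q) (hc : 1 ≤ c) (h1 : Q ≤ c) (h2 : 1 ≤ c * Q)
    (x y t : ℝ) :
    Ub Q c (x + t) (y + t) + Ub Q c (x - t) (y - t) ≤ 2 * Ub Q c x y := by
  rcases lt_trichotomy x y with h | h | h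
  · exact Ub_zigzag_lt hQ hc h1 h2 h t
  · subst h
    rw [Ub_diag hQ, Ub_diag hQ, Ub_diag hQ]
    have hcv := (convexOn_rpow (p := Q + 1) (by linarith)).2
      (mem_Ici.mpr (abs_nonneg (x + t))) (mem_Ici.mpr (abs_nonneg (x - t)))
      (show (0 : ℝ) ≤ 1 / 2 by norm_num) (show (0 : ℝ) ≤ 1 / 2 by norm_num) (by norm_num)
    simp only [smul_eq_mul] at hcv
    have h3 : |x| ≤ 1 / 2 * |x + t| + 1 / 2 * |x - t| := by
      have := abs_add_le (x + t) (x - t)
      have e : x + t + (x - t) = 2 * x := by ring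
      rw [e, abs_mul, abs_two] at this
      linarith
    have h4 : |x| ^ (Q + 1) ≤ (1 / 2 * |x + t| + 1 / 2 * |x - t|) ^ (Q + 1) :=
      Real.rpow_le_rpow (abs_nonneg x) h3 (by linarith)
    have h5 : 0 ≤ (c - 1) * 2 ^ Q := by
      have : (0 : ℝ) ≤ 2 ^ Q := by positivity
      apply mul_nonneg <;> linarith
    nlinarith
  · have k := Ub_zigzag_lt hQ hc h1 h2 (show -x < -y by linarith) t
    have e1 : -x + t = -(x - t) := by ring
    have e2 : -y + t = -(y - t) := by ring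
    have e3 : -x - t = -(x + t) := by ring
    have e4 : -y - t = -(y + t) := by ring
    rw [e1, e2, e3, e4, Ub_neg, Ub_neg, Ub_neg] at k
    linarith

lemma Ub_zigzag_sign {Q c : ℝ} (hQ : 0 < Q) (hc : 1 ≤ c) (h1 : Q ≤ c) (h2 : 1 ≤ c * Q)
    (x y t : ℝ) {e : ℝ} (he : |e| = 1) :
    Ub Q c (x + t) (y + e * t) + Ub Q c (x - t) (y - e * t) ≤ 2 * Ub Q c x y := by
  rcases eq_or_eq_neg_of_abs_eq he with rfl | rfl
  · rw [one_mul]
    exact Ub_zigzag hQ hc h1 h2 x y t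
  · have k := Ub_zigzag hQ hc h1 h2 x (-y) t
    have e1 : -y + t = -(y + -1 * t) := by ring
    have e2 : -y - t = -(y - -1 * t) := by ring
    rw [e1, e2, Ub_neg_right, Ub_neg_right, Ub_neg_right] at k
    exact k

lemma Ub_init {Q c : ℝ} (hc : 1 ≤ c) (x : ℝ) {e : ℝ} (he : |e| = 1) :
    Ub Q c x (e * x) ≤ 0 := by
  unfold Ub
  rw [abs_mul, he, one_mul]
  apply mul_nonpos_of_nonpos_of_nonneg
  · nlinarith [abs_nonneg x]
  · positivity

/-- The lower bound for Burkholder's function. -/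
lemma Ub_lower {Q c : ℝ} (hQ : 0 < Q) (hc : 1 ≤ c) (x y : ℝ) :
    |y| ^ (Q + 1) / 2 - (c * (1 + 2 * c) ^ Q + (2 * c) ^ (Q + 1) / 2) * |x| ^ (Q + 1)
      ≤ Ub Q c x y := by
  unfold Ub
  have hQ1 : Q + 1 ≠ 0 := by linarith
  have hx := abs_nonneg x
  have hy := abs_nonneg y
  rcases le_or_gt (2 * c * |x|) |y| with h | h
  · have h1 : |y| / 2 ≤ |y| - c * |x| := by linarith
    have h2 : |y| ^ Q ≤ (|x| + |y|) ^ Q := Real.rpow_le_rpow hy (by linarith) hQ.le
    have h3 : |y| / 2 * |y| ^ Q ≤ (|y| - c * |x|) * (|x| + |y|) ^ Q := by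
      apply mul_le_mul h1 h2 (by positivity)
      linarith
    have h4 : |y| / 2 * |y| ^ Q = |y| ^ (Q + 1) / 2 := by
      rw [Real.rpow_add_one' hy hQ1]; ring
    have h5 : 0 ≤ (c * (1 + 2 * c) ^ Q + (2 * c) ^ (Q + 1) / 2) * |x| ^ (Q + 1) := by positivity
    linarith
  · have h1 : -(c * |x|) ≤ |y| - c * |x| := by linarith
    have h2 : (|x| + |y|) ^ Q ≤ (1 + 2 * c) ^ Q * |x| ^ Q := by
      rw [← Real.mul_rpow (by positivity) hx]
      apply Real.rpow_le_rpow (by positivity) _ hQ.le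
      linarith
    have h3 : -(c * |x|) * (|x| + |y|) ^ Q ≤ (|y| - c * |x|) * (|x| + |y|) ^ Q :=
      mul_le_mul_of_nonneg_right h1 (by positivity)
    have h4 : c * |x| * (|x| + |y|) ^ Q ≤ c * |x| * ((1 + 2 * c) ^ Q * |x| ^ Q) :=
      mul_le_mul_of_nonneg_left h2 (by positivity)
    have h5 : c * |x| * ((1 + 2 * c) ^ Q * |x| ^ Q) = c * (1 + 2 * c) ^ Q * |x| ^ (Q + 1) := by
      rw [Real.rpow_add_one' hx hQ1]; ring
    have h6 : |y| ^ (Q + 1) ≤ (2 * c) ^ (Q + 1) * |x| ^ (Q + 1) := by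
      rw [← Real.mul_rpow (by positivity) hx]
      apply Real.rpow_le_rpow hy h.le (by linarith)
    nlinarith

/-! ### Dyadic sums -/

variable {p : ℝ≥0∞} [Fact (1 ≤ p)]

/-- The index window of level `n`. -/
def WW (n : ℕ) : Finset ℤ := Finset.Ico (-((n : ℤ) * 2 ^ n)) (n * 2 ^ n)

/-- The index window of the parents of level `n + 1`. -/
def WP (n : ℕ) : Finset ℤ := Finset.Ico (-(((n : ℤ) + 1) * 2 ^ n)) (((n : ℤ) + 1) * 2 ^ n)

lemma sum_double {M : Type*} [AddCommMonoid M] (f : ℤ → M) (a : ℤ) (n : ℕ) :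
    ∑ j ∈ Finset.Ico (2 * a) (2 * (a + n)), f j
      = ∑ j ∈ Finset.Ico a (a + n), (f (2 * j) + f (2 * j + 1)) := by
  induction n with
  | zero => simp
  | succ n ih =>
    have e1 : Finset.Ico (2 * a) (2 * (a + (n + 1 : ℕ)))
        = insert (2 * (a + n) + 1) (insert (2 * (a + n)) (Finset.Ico (2 * a) (2 * (a + n)))) := by
      ext k
      simp only [Finset.mem_Ico, Finset.mem_insert]
      omega
    have e2 : Finset.Ico a (a + (n + 1 : ℕ)) = insert (a + n) (Finset.Ico a (a + n)) := by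
      ext k
      simp only [Finset.mem_Ico, Finset.mem_insert]
      omega
    rw [e1, e2, Finset.sum_insert, Finset.sum_insert, Finset.sum_insert, ih, ← add_assoc,
      add_comm (f (2 * (a + n) + 1))]
    · simp only [Finset.mem_Ico]; omega
    · simp only [Finset.mem_Ico]; omega
    · simp only [Finset.mem_Ico, Finset.mem_insert]; omega

lemma sum_WW_succ {M : Type*} [AddCommMonoid M] (f : ℤ → M) (n : ℕ) :
    ∑ j ∈ WW (n + 1), f j = ∑ j ∈ WP n, (f (2 * j) + f (2 * j + 1)) := by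
  have h := sum_double f (-(((n : ℤ) + 1) * 2 ^ n)) (2 * ((n + 1) * 2 ^ n))
  have e1 : -(((n : ℤ) + 1) * 2 ^ n) + ((2 * ((n + 1) * 2 ^ n) : ℕ) : ℤ)
      = ((n : ℤ) + 1) * 2 ^ n := by push_cast; ring
  rw [e1] at h
  have e2 : WW (n + 1) = Finset.Ico (2 * -(((n : ℤ) + 1) * 2 ^ n)) (2 * (((n : ℤ) + 1) * 2 ^ n)) := by
    unfold WW
    congr 1
    · push_cast; ring
    · push_cast; ring
  rw [e2, h]
  rfl

lemma WW_subset_WP (n : ℕ) : WW n ⊆ WP n := by
  intro j hj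
  unfold WW at hj
  unfold WP
  rw [Finset.mem_Ico] at hj ⊢
  have : (0 : ℤ) < 2 ^ n := by positivity
  constructor <;> nlinarith [hj.1, hj.2]

lemma mem_WW_succ_of_mem_WP {n : ℕ} {j : ℤ} (hj : j ∈ WP n) :
    2 * j ∈ WW (n + 1) ∧ 2 * j + 1 ∈ WW (n + 1) := by
  unfold WP at hj
  unfold WW
  rw [Finset.mem_Ico] at hj
  rw [Finset.mem_Ico, Finset.mem_Ico]
  have e : ((n + 1 : ℕ) : ℤ) * 2 ^ (n + 1) = 2 * (((n : ℤ) + 1) * 2 ^ n) := by
    push_cast; ring
  rw [e]
  omega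

lemma atom_split (n : ℕ) (j : ℤ) :
    (atom n j : X p) = atom (n + 1) (2 * j) + atom (n + 1) (2 * j + 1) := by
  unfold atom
  have h2 : (2 : ℝ) ^ n ≠ 0 := by positivity
  have e1 : ((2 * j : ℤ) : ℝ) / 2 ^ (n + 1) = j / 2 ^ n := by
    push_cast; rw [pow_succ]; field_simp
  have e2 : (((2 * j : ℤ) : ℝ) + 1) / 2 ^ (n + 1) = ((2 * j + 1 : ℤ) : ℝ) / 2 ^ (n + 1) := by
    push_cast; ring
  have e3 : (((2 * j + 1 : ℤ) : ℝ) + 1) / 2 ^ (n + 1) = (j + 1) / 2 ^ n := by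
    push_cast; rw [pow_succ]; field_simp; ring
  rw [e1, e2, e3, ind_add]
  · rw [← e1]
    push_cast
    gcongr
    linarith
  · rw [← e3]
    gcongr
    linarith

lemma av_split (hp : p ≠ ∞) (n : ℕ) (j : ℤ) (x : X p) :
    av hp (n + 1) (2 * j) x + av hp (n + 1) (2 * j + 1) x = 2 * av hp n j x := by
  unfold av
  simp only [_root_.smul_apply, smul_eq_mul, intI_apply]
  have h2 : (2 : ℝ) ^ n ≠ 0 := by positivity
  have e1 : ((2 * j : ℤ) : ℝ) / 2 ^ (n + 1) = j / 2 ^ n := by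
    push_cast; rw [pow_succ]; field_simp
  have e2 : (((2 * j : ℤ) : ℝ) + 1) / 2 ^ (n + 1) = ((2 * j + 1 : ℤ) : ℝ) / 2 ^ (n + 1) := by
    push_cast; ring
  have e3 : (((2 * j + 1 : ℤ) : ℝ) + 1) / 2 ^ (n + 1) = (j + 1) / 2 ^ n := by
    push_cast; rw [pow_succ]; field_simp; ring
  have hab : (j : ℝ) / 2 ^ n ≤ ((2 * j + 1 : ℤ) : ℝ) / 2 ^ (n + 1) := by
    rw [← e1]; push_cast; gcongr; linarith
  have hbc : ((2 * j + 1 : ℤ) : ℝ) / 2 ^ (n + 1) ≤ ((j : ℝ) + 1) / 2 ^ n := by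
    rw [← e3]; gcongr; linarith
  have h := intI_add hp hab hbc x
  simp only [intI_apply] at h
  rw [e1, e2, e3, h, pow_succ]
  ring

/-- Extend a sum of atoms to the next level. -/
lemma refine_sum (n : ℕ) (g : ℤ → ℝ) (hg : ∀ j, j ∉ WW n → g j = 0) :
    ∑ j ∈ WW n, g j • (atom n j : X p) = ∑ j ∈ WW (n + 1), g (j / 2) • (atom (n + 1) j : X p) := by
  rw [sum_WW_succ]
  rw [Finset.sum_subset (WW_subset_WP n)
    (fun j _ hj => by rw [hg j hj, zero_smul])]
  apply Finset.sum_congr rfl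
  intro j _
  have e1 : 2 * j / 2 = j := by omega
  have e2 : (2 * j + 1) / 2 = j := by omega
  rw [e1, e2, ← smul_add, ← atom_split]

lemma cell_disjoint' (n : ℕ) {i j : ℤ} (hij : i ≠ j) : Disjoint (cell n i) (cell n j) := by
  have key : ∀ i j : ℤ, i < j → Disjoint (cell n i) (cell n j) := by
    intro i j h
    rw [Set.disjoint_left]
    intro t ht ht'
    unfold cell at ht ht'
    rw [mem_Ico] at ht ht'
    have h1 : ((i : ℝ) + 1) / 2 ^ n ≤ (j : ℝ) / 2 ^ n := by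
      have : (i : ℝ) + 1 ≤ j := by exact_mod_cast h
      gcongr
    linarith [ht.2, ht'.1]
  rcases lt_or_gt_of_ne hij with h | h
  · exact key i j h
  · exact (key j i h).symm

lemma norm_sum_atoms (hp : p ≠ ∞) (n : ℕ) (F : Finset ℤ) (g : ℤ → ℝ) :
    ‖∑ j ∈ F, g j • (atom n j : X p)‖ ^ p.toReal = (2 ^ n : ℝ)⁻¹ * ∑ j ∈ F, |g j| ^ p.toReal := by
  rw [norm_sum_of_disj hp F (cell n) (fun i _ => measurableSet_cell n i)
    (fun i _ j _ hij => cell_disjoint' n hij) (fun j => g j • (atom n j : X p)) ?_, Finset.mul_sum]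
  · apply Finset.sum_congr rfl
    intro j _
    rw [norm_smul, Real.norm_eq_abs, Real.mul_rpow (abs_nonneg _) (norm_nonneg _)]
    have : ‖(atom n j : X p)‖ ^ p.toReal = (2 ^ n : ℝ)⁻¹ := by
      unfold atom
      rw [norm_ind hp (div_pow_le n j)]
      ring
    rw [this]
    ring
  · intro j _
    rw [map_smul]
    congr 1
    exact R_ind_self _ _

/-- The coefficients of `EE n x`. -/
def cA (hp : p ≠ ∞) (x : X p) (n : ℕ) (j : ℤ) : ℝ := if j ∈ WW n then av hp n j x else 0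

/-- The coefficients of the martingale transform. -/
def cY (hp : p ≠ ∞) (x : X p) (e : ℕ → ℝ) : ℕ → ℤ → ℝ
  | 0, _ => 0
  | n + 1, j => if j ∈ WW (n + 1) then
      cY hp x e n (j / 2) + e n * (cA hp x (n + 1) j - cA hp x n (j / 2)) else 0

lemma cA_of_notMem (hp : p ≠ ∞) (x : X p) {n : ℕ} {j : ℤ} (hj : j ∉ WW n) : cA hp x n j = 0 := by
  unfold cA
  rw [if_neg hj]

lemma cY_of_notMem (hp : p ≠ ∞) (x : X p) (e : ℕ → ℝ) {n : ℕ} {j : ℤ} (hj : j ∉ WW n) :
    cY hp x e n j = 0 := by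
  cases n with
  | zero => rfl
  | succ n => rw [cY, if_neg hj]

lemma EE_eq_cA (hp : p ≠ ∞) (x : X p) (n : ℕ) :
    EE hp n x = ∑ j ∈ WW n, cA hp x n j • (atom n j : X p) := by
  rw [EE_apply]
  apply Finset.sum_congr rfl
  intro j hj
  have hj' : j ∈ WW n := hj
  unfold cA
  rw [if_pos hj']

lemma transform_eq (hp : p ≠ ∞) (x : X p) (e : ℕ → ℝ) (n : ℕ) :
    ∑ m ∈ Finset.range n, e m • (EE hp (m + 1) x - EE hp m x)
      = ∑ j ∈ WW n, cY hp x e n j • (atom n j : X p) := by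
  induction n with
  | zero => simp [cY]
  | succ n ih =>
    rw [Finset.sum_range_succ, ih, refine_sum n _ (fun j hj => cY_of_notMem hp x e hj),
      EE_eq_cA hp x n, refine_sum n _ (fun j hj => cA_of_notMem hp x hj), EE_eq_cA hp x (n + 1),
      ← Finset.sum_sub_distrib, Finset.smul_sum, ← Finset.sum_add_distrib]
    apply Finset.sum_congr rfl
    intro j hj
    rw [cY, if_pos hj, ← sub_smul, smul_smul, ← add_smul]

lemma Ub_zero (Q c : ℝ) : Ub Q c 0 0 = 0 := by simp [Ub]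

lemma phi_step (hp : p ≠ ∞) {Q c : ℝ} (hQ : 0 < Q) (hc : 1 ≤ c) (h1 : Q ≤ c) (h2 : 1 ≤ c * Q)
    (x : X p) (e : ℕ → ℝ) (he : ∀ n, |e n| = 1) (n : ℕ) :
    ∑ j ∈ WW (n + 1), Ub Q c (cA hp x (n + 1) j) (cY hp x e (n + 1) j)
      ≤ 2 * ∑ j ∈ WW n, Ub Q c (cA hp x n j) (cY hp x e n j) := by
  rw [sum_WW_succ, Finset.sum_subset (WW_subset_WP n) (fun j _ hj => by
    rw [cA_of_notMem hp x hj, cY_of_notMem hp x e hj, Ub_zero]), Finset.mul_sum]
  apply Finset.sum_le_sum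
  intro j hj
  obtain ⟨m1, m2⟩ := mem_WW_succ_of_mem_WP hj
  have e1 : 2 * j / 2 = j := by omega
  have e2 : (2 * j + 1) / 2 = j := by omega
  rw [cY, cY, if_pos m1, if_pos m2, e1, e2]
  by_cases hjn : j ∈ WW n
  · set t := cA hp x (n + 1) (2 * j) - cA hp x n j with ht
    have a1 : cA hp x (n + 1) (2 * j) = cA hp x n j + t := by rw [ht]; ring
    have a2 : cA hp x (n + 1) (2 * j + 1) = cA hp x n j - t := by
      have := av_split hp n j x
      rw [ht]
      unfold cA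
      rw [if_pos m1, if_pos m2, if_pos hjn]
      linarith
    have a3 : cA hp x n j - t - cA hp x n j = -t := by ring
    rw [a2, a3, a1, mul_neg, ← sub_eq_add_neg]
    exact Ub_zigzag_sign hQ hc h1 h2 _ _ _ (he n)
  · rw [cA_of_notMem hp x hjn, cY_of_notMem hp x e hjn, Ub_zero, zero_add, zero_add, sub_zero,
      sub_zero, mul_zero]
    have b1 := Ub_init (Q := Q) hc (cA hp x (n + 1) (2 * j)) (he n)
    have b2 := Ub_init (Q := Q) hc (cA hp x (n + 1) (2 * j + 1)) (he n)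
    linarith

lemma phi_nonpos (hp : p ≠ ∞) {Q c : ℝ} (hQ : 0 < Q) (hc : 1 ≤ c) (h1 : Q ≤ c) (h2 : 1 ≤ c * Q)
    (x : X p) (e : ℕ → ℝ) (he : ∀ n, |e n| = 1) (n : ℕ) :
    ∑ j ∈ WW n, Ub Q c (cA hp x n j) (cY hp x e n j) ≤ 0 := by
  induction n with
  | zero => simp [WW]
  | succ n ih =>
    have := phi_step hp hQ hc h1 h2 x e he n
    linarith

/-- The martingale transform inequality for the dyadic filtration (Burkholder). -/
theorem burkholder (hp1 : 1 < p) (hp : p ≠ ∞) :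
    ∃ C : ℝ, ∀ (e : ℕ → ℝ), (∀ n, |e n| = 1) → ∀ (N : ℕ) (x : X p),
      ‖∑ n ∈ Finset.range N, e n • (EE hp (n + 1) x - EE hp n x)‖ ≤ C * ‖x‖ := by
  have hP1 : 1 < p.toReal := by
    have := (ENNReal.toReal_lt_toReal ENNReal.one_ne_top hp).mpr hp1
    simpa using this
  have hP : 0 < p.toReal := by linarith
  set Q : ℝ := p.toReal - 1 with hQdef
  have hQ : 0 < Q := by linarith
  have hPQ : p.toReal = Q + 1 := by linarith
  set c : ℝ := max Q Q⁻¹ with hcdef
  have h1 : Q ≤ c := le_max_left _ _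
  have h2 : 1 ≤ c * Q := by
    have : Q⁻¹ ≤ c := le_max_right _ _
    calc (1 : ℝ) = Q⁻¹ * Q := by rw [inv_mul_cancel₀ hQ.ne']
      _ ≤ c * Q := by gcongr
  have hc : 1 ≤ c := by
    by_contra h
    push Not at h
    have h0 : 0 < c := lt_of_lt_of_le hQ h1
    nlinarith
  set K : ℝ := c * (1 + 2 * c) ^ Q + (2 * c) ^ (Q + 1) / 2 with hK
  have hK0 : 0 ≤ K := by positivity
  refine ⟨(2 * K) ^ (1 / p.toReal), fun e he N x => ?_⟩
  rw [transform_eq]
  have hN := norm_sum_atoms hp N (WW N) (cY hp x e N)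
  have hA : ‖EE hp N x‖ ^ p.toReal = (2 ^ N : ℝ)⁻¹ * ∑ j ∈ WW N, |cA hp x N j| ^ p.toReal := by
    rw [EE_eq_cA]
    exact norm_sum_atoms hp N (WW N) (cA hp x N)
  have hsum : ∑ j ∈ WW N, |cY hp x e N j| ^ p.toReal
      ≤ 2 * K * ∑ j ∈ WW N, |cA hp x N j| ^ p.toReal := by
    have hphi := phi_nonpos hp hQ hc h1 h2 x e he N
    have hlow : ∑ j ∈ WW N, (|cY hp x e N j| ^ (Q + 1) / 2 - K * |cA hp x N j| ^ (Q + 1))
        ≤ ∑ j ∈ WW N, Ub Q c (cA hp x N j) (cY hp x e N j) :=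
      Finset.sum_le_sum fun j _ => Ub_lower hQ hc _ _
    rw [Finset.sum_sub_distrib, ← Finset.sum_div, ← Finset.mul_sum] at hlow
    rw [hPQ]
    linarith
  have hfin : ‖∑ j ∈ WW N, cY hp x e N j • (atom N j : X p)‖ ^ p.toReal
      ≤ ((2 * K) ^ (1 / p.toReal) * ‖x‖) ^ p.toReal := by
    rw [Real.mul_rpow (by positivity) (norm_nonneg _), ← Real.rpow_mul (by positivity),
      one_div_mul_cancel hP.ne', Real.rpow_one, hN]
    calc (2 ^ N : ℝ)⁻¹ * ∑ j ∈ WW N, |cY hp x e N j| ^ p.toReal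
        ≤ (2 ^ N : ℝ)⁻¹ * (2 * K * ∑ j ∈ WW N, |cA hp x N j| ^ p.toReal) := by gcongr
      _ = 2 * K * ‖EE hp N x‖ ^ p.toReal := by rw [hA]; ring
      _ ≤ 2 * K * ‖x‖ ^ p.toReal := by
        gcongr
        exact norm_EE_le hp N x
  exact (Real.rpow_le_rpow_iff (norm_nonneg _) (by positivity) hP).mp hfin

end

end Pool.Agent.H26
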