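import Mathlib

open Filter Topology Set

namespace Pool.Agent.H26

noncomputable section

/-- `E` is a finite-dimensional decomposition (FDD) of the normed space `V`: each `E k` is finite
dimensional and every vector has a unique expansion `∑ y k` with `y k ∈ E k`. -/
def IsFDD {𝕜 V : Type*} [RCLike 𝕜] [NormedAddCommGroup V] [NormedSpace 𝕜 V]
    (E : ℕ → Submodule 𝕜 V) : Prop :=
  (∀ k, FiniteDimensional 𝕜 (E k)) ∧
    ∀ x : V, ∃! y : ℕ → V, (∀ k, y k ∈ E k) ∧
      Tendsto (fun n => ∑ k ∈ Finset.range n, y k) atTop (𝓝 x)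

/-- The FDD `E` is unconditional: the expansion of every vector converges unconditionally. -/
def IsUnconditionalFDD {𝕜 V : Type*} [RCLike 𝕜] [NormedAddCommGroup V] [NormedSpace 𝕜 V]
    (E : ℕ → Submodule 𝕜 V) : Prop :=
  IsFDD E ∧ ∀ (x : V) (y : ℕ → V), (∀ k, y k ∈ E k) →
    Tendsto (fun n => ∑ k ∈ Finset.range n, y k) atTop (𝓝 x) → HasSum y x

/-- The image of an unconditional system of coordinate projections under an isomorphism. -/
theorem fdd_of_iso {V : Type*} [NormedAddCommGroup V] [NormedSpace ℝ V]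
    (Q U : ℕ → V →L[ℝ] V) (hQQ : ∀ i x, Q i (Q i x) = Q i x)
    (hQd : ∀ i j x, i ≠ j → Q i (Q j x) = 0)
    (hfin : ∀ k, FiniteDimensional ℝ (LinearMap.range (Q k).toLinearMap))
    (hsum : ∀ x, HasSum (fun k => Q k x) x)
    (W W' : V →L[ℝ] V) (hWW' : ∀ x, W (W' x) = x) (hW'W : ∀ x, W' (W x) = x)
    (hWQ : ∀ k x, W (Q k x) = U k x) :
    IsUnconditionalFDD (fun k => LinearMap.range (U k).toLinearMap) := by
  -- the expansion of `x`
  have hex : ∀ x, HasSum (fun k => U k (W' x)) x := by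
    intro x
    have h1 := (hsum (W' x)).mapL W
    rw [hWW'] at h1
    have h2 : (fun k => W (Q k (W' x))) = fun k => U k (W' x) := by
      funext k
      exact hWQ k (W' x)
    rwa [h2] at h1
  have huniq : ∀ (x : V) (y : ℕ → V), (∀ k, y k ∈ LinearMap.range (U k).toLinearMap) →
      Tendsto (fun n => ∑ k ∈ Finset.range n, y k) atTop (𝓝 x) → ∀ j, y j = U j (W' x) := by
    intro x y hy hlim j
    choose w hw using hy
    have hw' : ∀ k, W (Q k (w k)) = y k := fun k => by rw [hWQ]; exact hw k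
    have h1 : Tendsto (fun n => (Q j) (W' (∑ k ∈ Finset.range n, y k))) atTop
        (𝓝 (Q j (W' x))) :=
      ((Q j).continuous.tendsto _).comp ((W'.continuous.tendsto _).comp hlim)
    have h2 : ∀ᶠ n in atTop, (Q j) (W' (∑ k ∈ Finset.range n, y k)) = Q j (w j) := by
      filter_upwards [eventually_gt_atTop j] with n hn
      rw [map_sum, map_sum, Finset.sum_eq_single j]
      · rw [← hw' j, hW'W, hQQ]
      · intro k _ hkj
        rw [← hw' k, hW'W, hQd j k _ (Ne.symm hkj)]
      · intro hj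
        exact absurd (Finset.mem_range.mpr hn) hj
    have h3 : Tendsto (fun n => (Q j) (W' (∑ k ∈ Finset.range n, y k))) atTop
        (𝓝 (Q j (w j))) := tendsto_const_nhds.congr' (h2.mono fun n hn => hn.symm)
    have h4 := tendsto_nhds_unique h1 h3
    rw [← hw' j, ← h4, hWQ]
  refine ⟨⟨?_, ?_⟩, ?_⟩
  · intro k
    have hmap : LinearMap.range (U k).toLinearMap
        = (LinearMap.range (Q k).toLinearMap).map W.toLinearMap := by
      ext z
      constructor
      · rintro ⟨x, rfl⟩
        exact ⟨Q k x, ⟨x, rfl⟩, hWQ k x⟩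
      · rintro ⟨_, ⟨x, rfl⟩, rfl⟩
        exact ⟨x, (hWQ k x).symm⟩
    show FiniteDimensional ℝ (LinearMap.range (U k).toLinearMap)
    rw [hmap]
    have := hfin k
    infer_instance
  · intro x
    refine ⟨fun k => U k (W' x), ⟨fun k => ⟨W' x, rfl⟩, (hex x).tendsto_sum_nat⟩, ?_⟩
    rintro y ⟨hy1, hy2⟩
    funext j
    exact huniq x y hy1 hy2 j
  · intro x y hy hlim
    have := huniq x y hy hlim
    have h1 : y = fun k => U k (W' x) := funext this
    rw [h1]
    exact hex x

/-- Abstract perturbation lemma: if `Q k` are the coordinate projections of an unconditional FDD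
and the operators `U k` (with `U k ∘ Q k = U k`) are summably close to `Q k`, with total distance
less than one, then the ranges of the `U k` form an unconditional FDD. -/
theorem perturb {V : Type*} [NormedAddCommGroup V] [NormedSpace ℝ V] [CompleteSpace V]
    (Q U : ℕ → V →L[ℝ] V) (hQQ : ∀ i x, Q i (Q i x) = Q i x)
    (hQd : ∀ i j x, i ≠ j → Q i (Q j x) = 0)
    (hfin : ∀ k, FiniteDimensional ℝ (LinearMap.range (Q k).toLinearMap))
    (hsum : ∀ x, HasSum (fun k => Q k x) x)
    (hUQ : ∀ k x, U k (Q k x) = U k x)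
    (c : ℕ → ℝ) (hc : ∀ k, ‖U k - Q k‖ ≤ c k) (hcs : Summable c) (hc1 : ∑' k, c k < 1) :
    IsUnconditionalFDD (fun k => LinearMap.range (U k).toLinearMap) := by
  have hs1 : Summable (fun k => ‖U k - Q k‖) :=
    Summable.of_nonneg_of_le (fun k => norm_nonneg _) hc hcs
  have hs : Summable (fun k => U k - Q k) := hs1.of_norm
  set D : V →L[ℝ] V := ∑' k, (U k - Q k) with hD
  have hDn : ‖D‖ < 1 := by
    calc ‖D‖ ≤ ∑' k, ‖U k - Q k‖ := norm_tsum_le_tsum_norm hs1
      _ ≤ ∑' k, c k := hs1.tsum_le_tsum hc hcs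
      _ < 1 := hc1
  have hDQ : ∀ k x, D (Q k x) = U k x - Q k x := by
    intro k x
    have h1 : HasSum (fun i => (U i - Q i) (Q k x)) (D (Q k x)) :=
      hs.hasSum.mapL ((ContinuousLinearMap.apply ℝ V) (Q k x))
    have h2 : HasSum (fun i => (U i - Q i) (Q k x)) ((U k - Q k) (Q k x)) := by
      apply hasSum_single
      intro i hi
      rw [sub_apply, ← hUQ i, hQd i k x hi, map_zero, sub_zero]
    rw [h1.unique h2, sub_apply, hUQ, hQQ]
  set u : (V →L[ℝ] V)ˣ := Units.oneSub (-D) (by rwa [norm_neg]) with hu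
  have huv : (u : V →L[ℝ] V) = 1 + D := by
    rw [hu, Units.val_oneSub, sub_neg_eq_add]
  apply fdd_of_iso Q U hQQ hQd hfin hsum (u : V →L[ℝ] V) ((u⁻¹ : (V →L[ℝ] V)ˣ) : V →L[ℝ] V)
  · intro x
    exact congrArg (fun A : V →L[ℝ] V => A x) u.mul_inv
  · intro x
    exact congrArg (fun A : V →L[ℝ] V => A x) u.inv_mul
  · intro k x
    rw [huv, add_apply, one_apply_eq_self, hDQ]
    abel

end

end Pool.Agent.H26
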