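import Pool.Agent.Lib.H26.AsmA
import Pool.Agent.Lib.H26.Burk
import Pool.Agent.Lib.H26.Pert

open MeasureTheory Filter Topology Set
open scoped ENNReal

namespace Pool.Agent.H26

noncomputable section

variable {p : ℝ≥0∞} [Fact (1 ≤ p)]

/-- Subset version of the martingale transform inequality. -/
lemma burkholder_subset (hp1 : 1 < p) (hp : p ≠ ∞) :
    ∃ C : ℝ, 0 ≤ C ∧ ∀ (S : Finset ℕ) (x : X p),
      ‖∑ n ∈ S, (EE hp (n + 1) x - EE hp n x)‖ ≤ C * ‖x‖ := by
  obtain ⟨C, hC⟩ := burkholder (p := p) hp1 hp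
  refine ⟨(1 + |C|) / 2, by positivity, fun S x => ?_⟩
  obtain ⟨N, hN⟩ : ∃ N, S ⊆ Finset.range N :=
    ⟨S.sup id + 1, fun i hi => Finset.mem_range.mpr
      (Nat.lt_succ_of_le (Finset.le_sup (f := id) hi))⟩
  set d : ℕ → X p := fun n => EE hp (n + 1) x - EE hp n x with hd
  set e : ℕ → ℝ := fun n => if n ∈ S then 1 else -1 with he
  have he1 : ∀ n, |e n| = 1 := by
    intro n
    simp only [he]
    split_ifs <;> simp
  have h1 := hC e he1 N x
  have h2 : ∑ n ∈ S, d n = (1 / 2 : ℝ) • (∑ n ∈ Finset.range N, d n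
      + ∑ n ∈ Finset.range N, e n • d n) := by
    rw [← Finset.sum_add_distrib, Finset.smul_sum]
    rw [← Finset.sum_subset hN (f := fun n => (1 / 2 : ℝ) • (d n + e n • d n))]
    · apply Finset.sum_congr rfl
      intro n hn
      have : e n = 1 := by simp only [he, hn, if_true]
      rw [this, one_smul, ← two_smul ℝ (d n), smul_smul]
      norm_num
    · intro n _ hn
      have : e n = -1 := by simp only [he, hn, if_false]
      rw [this, neg_one_smul, add_neg_cancel, smul_zero]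
  have h3 : ∑ n ∈ Finset.range N, d n = EE hp N x := by
    simp only [hd]
    rw [Finset.sum_range_sub (fun n => EE hp n x), EE_zero]
    simp
  rw [h2, norm_smul]
  have h4 : C * ‖x‖ ≤ |C| * ‖x‖ := mul_le_mul_of_nonneg_right (le_abs_self C) (norm_nonneg _)
  have h5 : ‖∑ n ∈ Finset.range N, d n + ∑ n ∈ Finset.range N, e n • d n‖
      ≤ ‖x‖ + |C| * ‖x‖ := by
    refine (norm_add_le _ _).trans (add_le_add ?_ (h1.trans h4))
    rw [h3]
    exact norm_EE_le hp N x
  calc ‖(1 / 2 : ℝ)‖ * ‖∑ n ∈ Finset.range N, d n + ∑ n ∈ Finset.range N, e n • d n‖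
      ≤ ‖(1 / 2 : ℝ)‖ * (‖x‖ + |C| * ‖x‖) := by gcongr
    _ = (1 + |C|) / 2 * ‖x‖ := by
        rw [Real.norm_eq_abs, abs_of_pos (by norm_num : (0 : ℝ) < 1 / 2)]
        ring

section Bounds

variable {hp : p ≠ ∞} {C : ℝ} (s : ℕ → St hp C) (hs : ∀ k, (s (k + 1)).m = (s k).n)

include hs

lemma m_lt_succ (k : ℕ) : (s k).m < (s (k + 1)).m := by
  rw [hs]
  exact (s k).hmn

lemma m_strictMono : StrictMono (fun k => (s k).m) := strictMono_nat_of_lt_succ (m_lt_succ s hs)

/-- The annulus attached to the `k`-th stage. -/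
lemma ann_disj {i j : ℕ} (hij : i ≠ j) :
    Disjoint (win (s i).n \ win (s i).m) (win (s j).n \ win (s j).m) := by
  have key : ∀ i j, i < j → Disjoint (win (s i).n \ win (s i).m) (win (s j).n \ win (s j).m) := by
    intro i j h
    rw [Set.disjoint_left]
    rintro t ⟨ht1, _⟩ ⟨_, ht2⟩
    apply ht2
    have h1 : (s i).n ≤ (s j).m := by
      rw [← hs]
      exact (m_strictMono s hs).monotone (by omega : i + 1 ≤ j)
    exact win_mono (by exact_mod_cast h1) ht1
  rcases lt_or_gt_of_ne hij with h | h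
  · exact key i j h
  · exact (key j i h).symm

lemma bound_G (hC : 0 ≤ C) (A : Finset ℕ) (x : X p) :
    ‖∑ k ∈ A, (s k).P (EE hp (s k).n x)‖ ≤ C * ‖x‖ := by
  have hP := pt_pos (p := p) hp
  have hm : ∀ k, MeasurableSet (win (s k).n \ win (s k).m) := fun k =>
    (measurableSet_win _).diff (measurableSet_win _)
  have hRan : ∀ k (y : X p), R (win (s k).n \ win (s k).m) y
      = R (win (s k).n) (R (win (s k).m)ᶜ y) := by
    intro k y
    rw [R_R (measurableSet_win _) (measurableSet_win _).compl]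
    rfl
  have h1 : ∀ k, R (win (s k).n \ win (s k).m) ((s k).P (EE hp (s k).n x))
      = (s k).P (EE hp (s k).n x) := by
    intro k
    rw [hRan, R_compl (measurableSet_win _), (s k).hRP, sub_zero]
    have := R_win_EE hp (s k).n ((s k).P (EE hp (s k).n x))
    rwa [(s k).hPE] at this
  have h2 : ∀ k, (s k).P (EE hp (s k).n x)
      = (s k).P (EE hp (s k).n (R (win (s k).n \ win (s k).m) x)) := by
    intro k
    rw [hRan, EE_R_self, R_compl (measurableSet_win _), map_sub, map_sub, EE_R_win,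
      (s k).hPR, sub_zero]
  have h3 : ∀ k, ‖(s k).P (EE hp (s k).n x)‖ ≤ C * ‖R (win (s k).n \ win (s k).m) x‖ := by
    intro k
    rw [h2 k]
    calc ‖(s k).P (EE hp (s k).n (R (win (s k).n \ win (s k).m) x))‖
        ≤ ‖(s k).P‖ * ‖EE hp (s k).n (R (win (s k).n \ win (s k).m) x)‖ := (s k).P.le_opNorm _
      _ ≤ C * ‖R (win (s k).n \ win (s k).m) x‖ := by
          apply mul_le_mul (s k).hPC (norm_EE_le hp _ _) (norm_nonneg _) hC
  have h4 : ‖∑ k ∈ A, (s k).P (EE hp (s k).n x)‖ ^ p.toReal ≤ (C * ‖x‖) ^ p.toReal := by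
    rw [norm_sum_of_disj hp A (fun k => win (s k).n \ win (s k).m) (fun k _ => hm k)
      (fun i _ j _ hij => ann_disj s hs hij) _ (fun k _ => h1 k)]
    calc ∑ k ∈ A, ‖(s k).P (EE hp (s k).n x)‖ ^ p.toReal
        ≤ ∑ k ∈ A, (C * ‖R (win (s k).n \ win (s k).m) x‖) ^ p.toReal := by
          apply Finset.sum_le_sum
          intro k _
          exact Real.rpow_le_rpow (norm_nonneg _) (h3 k) hP.le
      _ = C ^ p.toReal * ∑ k ∈ A, ‖R (win (s k).n \ win (s k).m) x‖ ^ p.toReal := by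
          rw [Finset.mul_sum]
          apply Finset.sum_congr rfl
          intro k _
          rw [Real.mul_rpow hC (norm_nonneg _)]
      _ ≤ C ^ p.toReal * ‖x‖ ^ p.toReal := by
          gcongr
          exact sum_norm_R_le hp A _ (fun k _ => hm k) (fun i _ j _ hij => ann_disj s hs hij) x
      _ = (C * ‖x‖) ^ p.toReal := (Real.mul_rpow hC (norm_nonneg _)).symm
  exact (Real.rpow_le_rpow_iff (norm_nonneg _) (by positivity) hP).mp h4

lemma bound_E {CB : ℝ} (hCB : ∀ (S : Finset ℕ) (x : X p),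
      ‖∑ n ∈ S, (EE hp (n + 1) x - EE hp n x)‖ ≤ CB * ‖x‖) (A : Finset ℕ) (x : X p) :
    ‖∑ k ∈ A, (EE hp (s (k + 1)).m x - EE hp (s k).m x)‖ ≤ CB * ‖x‖ := by
  classical
  have h1 : ∑ k ∈ A, (EE hp (s (k + 1)).m x - EE hp (s k).m x)
      = ∑ n ∈ A.biUnion (fun k => Finset.Ico (s k).m (s (k + 1)).m),
        (EE hp (n + 1) x - EE hp n x) := by
    rw [Finset.sum_biUnion]
    · apply Finset.sum_congr rfl
      intro k _
      rw [Finset.sum_Ico_sub (fun n => EE hp n x) (m_lt_succ s hs k).le]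
    · intro i _ j _ hij
      have key : ∀ i j, i < j → Disjoint (Finset.Ico (s i).m (s (i + 1)).m)
          (Finset.Ico (s j).m (s (j + 1)).m) := by
        intro i j h
        rw [Finset.disjoint_left]
        intro t ht1 ht2
        rw [Finset.mem_Ico] at ht1 ht2
        have h1 : (s (i + 1)).m ≤ (s j).m := (m_strictMono s hs).monotone (by omega : i + 1 ≤ j)
        omega
      rcases lt_or_gt_of_ne hij with h | h
      · exact key i j h
      · exact (key j i h).symm
  rw [h1]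
  exact hCB _ x

lemma bound_Q (hC : 0 ≤ C) {CB : ℝ} (hCB : ∀ (S : Finset ℕ) (x : X p),
      ‖∑ n ∈ S, (EE hp (n + 1) x - EE hp n x)‖ ≤ CB * ‖x‖) (A : Finset ℕ) (x : X p) :
    ‖∑ k ∈ A, ((s (k + 1)).Pi - (s k).Pi) x‖ ≤ (CB + 2 * C) * ‖x‖ := by
  classical
  have h1 : ∑ k ∈ A, ((s (k + 1)).Pi - (s k).Pi) x
      = ∑ k ∈ A, (EE hp (s (k + 1)).m x - EE hp (s k).m x)
        + ∑ k ∈ A.image (· + 1), (s k).P (EE hp (s k).n x)
        - ∑ k ∈ A, (s k).P (EE hp (s k).n x) := by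
    rw [Finset.sum_image (fun a _ b _ h => Nat.succ_injective h), ← Finset.sum_add_distrib,
      ← Finset.sum_sub_distrib]
    apply Finset.sum_congr rfl
    intro k _
    rw [sub_apply, St.Pi_apply, St.Pi_apply]
    abel
  rw [h1]
  calc ‖∑ k ∈ A, (EE hp (s (k + 1)).m x - EE hp (s k).m x)
        + ∑ k ∈ A.image (· + 1), (s k).P (EE hp (s k).n x)
        - ∑ k ∈ A, (s k).P (EE hp (s k).n x)‖
      ≤ ‖∑ k ∈ A, (EE hp (s (k + 1)).m x - EE hp (s k).m x)‖
        + ‖∑ k ∈ A.image (· + 1), (s k).P (EE hp (s k).n x)‖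
        + ‖∑ k ∈ A, (s k).P (EE hp (s k).n x)‖ :=
        (norm_sub_le _ _).trans (add_le_add_left (norm_add_le _ _) _)
    _ ≤ CB * ‖x‖ + C * ‖x‖ + C * ‖x‖ :=
        add_le_add (add_le_add (bound_E s hs hCB A x) (bound_G s hs hC _ x)) (bound_G s hs hC A x)
    _ = (CB + 2 * C) * ‖x‖ := by ring

lemma dense_Q (x : X p) (ε : ℝ) (hε : 0 < ε) :
    ∃ (z : X p) (N : ℕ), ‖x - z‖ < ε ∧ ∀ k, N ≤ k → (s k).Pi z = z := by
  have h1 := EE_tendsto hp x
  have h2 : Tendsto (fun k => (s k).m) atTop atTop := (m_strictMono s hs).tendsto_atTop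
  have h3 := h1.comp h2
  rw [Metric.tendsto_atTop] at h3
  obtain ⟨N, hN⟩ := h3 ε hε
  refine ⟨EE hp (s N).m x, N, ?_, ?_⟩
  · have := hN N le_rfl
    rw [dist_comm, dist_eq_norm] at this
    exact this
  · intro k hk
    have h4 : (s N).m ≤ (s k).m := (m_strictMono s hs).monotone hk
    have h5 : EE hp (s k).m (EE hp (s N).m x) = EE hp (s N).m x := EE_EE_of_ge hp h4 x
    rw [St.Pi_apply, EE_EE_of_ge hp (h4.trans (s k).hmn.le), h5]
    have h6 : (s k).P (EE hp (s N).m x) = 0 := by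
      rw [← h5]
      exact (s k).PEm _
    rw [h6, add_zero]

end Bounds

/-- Concatenation of finite blocks. -/
lemma flatten (r : ℕ → ℕ) (hr : ∀ k, 0 < r k) (lam : ∀ k, Fin (r k) → ℝ) :
    ∃ (L : ℕ → ℝ) (n : ℕ → ℕ), n 0 = 0 ∧ StrictMono n ∧
      ∀ k, ∀ y : ℝ, (∃ i, n k ≤ i ∧ i < n (k + 1) ∧ y = L i) ↔ ∃ j, y = lam k j := by
  classical
  set n : ℕ → ℕ := fun k => ∑ i ∈ Finset.range k, r i with hn
  have hsucc : ∀ k, n (k + 1) = n k + r k := fun k => Finset.sum_range_succ _ _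
  have hmono : StrictMono n := strictMono_nat_of_lt_succ (fun k => by rw [hsucc]; have := hr k; omega)
  have hn0 : n 0 = 0 := by simp [hn]
  have hex : ∀ i, ∃ k, n k ≤ i ∧ i < n (k + 1) := by
    intro i
    have h1 : i < n (i + 1) := lt_of_lt_of_le (Nat.lt_succ_self i) (hmono.le_apply)
    have h2 : ∃ k, i < n (k + 1) := ⟨i, h1⟩
    refine ⟨Nat.find h2, ?_, Nat.find_spec h2⟩
    rcases Nat.eq_zero_or_pos (Nat.find h2) with h3 | h3
    · rw [h3, hn0]
      exact Nat.zero_le _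
    · have := Nat.find_min h2 (m := Nat.find h2 - 1) (by omega)
      rw [Nat.sub_add_cancel h3] at this
      exact not_lt.mp this
  choose kf hk1 hk2 using hex
  have huniq : ∀ i k, n k ≤ i → i < n (k + 1) → kf i = k := by
    intro i k h1 h2
    rcases lt_trichotomy (kf i) k with h | h | h
    · have := hmono.monotone (show kf i + 1 ≤ k from h)
      have := hk2 i
      omega
    · exact h
    · have := hmono.monotone (show k + 1 ≤ kf i from h)
      have := hk1 i
      omega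
  let lam' : ℕ → ℕ → ℝ := fun k j => if h : j < r k then lam k ⟨j, h⟩ else 0
  refine ⟨fun i => lam' (kf i) (i - n (kf i)), n, hn0, hmono, ?_⟩
  intro k y
  constructor
  · rintro ⟨i, h1, h2, rfl⟩
    have h3 := huniq i k h1 h2
    rw [hsucc] at h2
    refine ⟨⟨i - n k, by omega⟩, ?_⟩
    simp only [h3, lam']
    rw [dif_pos]
  · rintro ⟨j, rfl⟩
    have h1 := j.2
    have h3 := huniq (n k + j) k (Nat.le_add_right _ _) (by rw [hsucc]; omega)
    refine ⟨n k + j, Nat.le_add_right _ _, by rw [hsucc]; omega, ?_⟩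
    simp only [h3, lam']
    rw [Nat.add_sub_cancel_left, dif_pos h1]

/-- The real case of the main theorem. -/
theorem real_main (hp1 : 1 < p) (hp : p ≠ ∞) :
    ∃ (f : X p) (lam : ℕ → ℝ) (n : ℕ → ℕ), n 0 = 0 ∧ StrictMono n ∧
      IsUnconditionalFDD (fun k => Submodule.span ℝ
        {g : X p | ∃ i, n k ≤ i ∧ i < n (k + 1) ∧ g = T (lam i) f}) := by
  obtain ⟨C, hC0, hC⟩ := block_lemma (p := p) hp1 hp
  obtain ⟨CB, hCB0, hCB⟩ := burkholder_subset (p := p) hp1 hp
  set M : ℝ := CB + 2 * C + 1 with hM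
  have hM0 : 0 < M := by positivity
  -- the initial state
  have hf0D : Dyad (atom 0 0 : X p) := ⟨0, Submodule.subset_span ⟨0, rfl⟩⟩
  have hat : (atom 0 0 : X p) = ind 0 1 := by
    unfold atom
    norm_num
  have hf00 : (atom 0 0 : X p) ≠ 0 := by
    rw [hat]
    exact ind_ne_zero hp one_pos
  obtain ⟨n₀, hn₀⟩ := (Dyad_iff hp _).mp hf0D
  let s₀ : St (p := p) hp C :=
    { f := atom 0 0
      m := 0
      n := n₀ + 1
      P := 0
      τ := 1
      hfD := hf0D
      hf0 := hf00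
      hmn := Nat.succ_pos _
      hPC := by simpa using hC0
      hPP := fun x => by simp
      hPE := fun x => by simp
      hRP := fun x => by simp
      hPR := fun x => by simp
      hnd := ⟨atom 0 0, by
        rw [← hn₀]
        exact EE_EE_of_ge hp (Nat.le_succ _) _, by
        rw [EE_zero]
        simpa using hf00.symm⟩
      hτ := one_pos }
  -- the tolerances
  set ε : ℕ → ℝ := fun k => 1 / (8 * M) * (1 / 2) ^ k with hε
  have hε0 : ∀ k, 0 < ε k := fun k => by
    simp only [hε]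
    positivity
  -- the sequence of states
  choose F hF using fun (k : ℕ) (s : St (p := p) hp C) => St.exists_rel hC (hε0 k) s
  let s : ℕ → St (p := p) hp C := fun k => Nat.rec s₀ (fun k t => F k t) k
  have hrel : ∀ k, St.Rel (ε k) (s k) (s (k + 1)) := fun k => hF k (s k)
  have hs0 : s 0 = s₀ := rfl
  have hsm : ∀ k, (s (k + 1)).m = (s k).n := fun k => (hrel k).1
  -- the limit function
  have hτ : ∀ k j, (s (k + j)).τ ≤ (s k).τ / 2 ^ j := by
    intro k j
    induction j with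
    | zero => simp
    | succ j ih =>
      have := (hrel (k + j)).2.2.1
      calc (s (k + (j + 1))).τ ≤ (s (k + j)).τ / 2 := this
        _ ≤ (s k).τ / 2 ^ j / 2 := by linarith
        _ = (s k).τ / 2 ^ (j + 1) := by rw [pow_succ]; field_simp
  have hdist : ∀ k j, dist ((s (k + j)).f) ((s (k + j + 1)).f) ≤ (s k).τ / 2 / 2 ^ j := by
    intro k j
    rw [dist_comm, dist_eq_norm]
    have h1 := (hrel (k + j)).2.1
    have h2 := hτ k j
    calc ‖(s (k + j + 1)).f - (s (k + j)).f‖ ≤ (s (k + j)).τ / 2 := h1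
      _ ≤ (s k).τ / 2 ^ j / 2 := by linarith
      _ = (s k).τ / 2 / 2 ^ j := by ring
  have hcau : CauchySeq (fun j => (s j).f) := by
    apply cauchySeq_of_le_geometric_two (C := (s 0).τ)
    intro j
    have := hdist 0 j
    simpa only [Nat.zero_add] using this
  obtain ⟨f, hf⟩ := cauchySeq_tendsto_of_complete hcau
  have hfk : ∀ k, ‖f - (s k).f‖ ≤ (s k).τ := by
    intro k
    have h1 : Tendsto (fun j => (s (k + j)).f) atTop (𝓝 f) := by
      have : (fun j => (s (k + j)).f) = (fun j => (s j).f) ∘ (fun j => k + j) := rfl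
      rw [this]
      exact hf.comp (tendsto_atTop_mono (fun j => Nat.le_add_left j k) tendsto_id)
    have h2 := dist_le_of_le_geometric_two_of_tendsto (C := (s k).τ) (hdist k) h1 0
    rw [dist_comm, dist_eq_norm] at h2
    simpa using h2
  -- the blocks
  have hblock : ∀ k, ∃ (r : ℕ) (lam : Fin r → ℝ) (I : (Fin r → ℝ) →ₗ[ℝ] X p), 0 < r ∧
      Function.Injective I ∧
      LinearMap.range I = LinearMap.range ((s (k + 1)).Pi - (s k).Pi).toLinearMap ∧
      ∀ b, ‖∑ i, b i • T (lam i) f - I b‖ ≤ 2 * ε k * ‖I b‖ := by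
    intro k
    obtain ⟨h1, -, -, r, lam, I, hr, hI, hIr, hIe⟩ := hrel k
    exact ⟨r, lam, I, hr, hI, by rw [hIr, St.range_diff h1], hIe f (hfk (k + 1))⟩
  choose r lam I hr hI hIr hIe using hblock
  -- the projections
  set Pi : ℕ → X p →L[ℝ] X p := fun k => (s k).Pi with hPi
  set Q : ℕ → X p →L[ℝ] X p := fun k => Pi (k + 1) - Pi k with hQ
  have hPi0 : Pi 0 = 0 := by
    ext1 x
    show (s 0).Pi x = 0
    rw [hs0, St.Pi_apply]
    show EE hp 0 x + (0 : X p →L[ℝ] X p) _ = 0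
    rw [EE_zero]
    simp
  have hb0 : ∀ k x, Pi k (Pi k x) = Pi k x := fun k x => (s k).Pi_idem x
  have hb1 : ∀ k x, Pi (k + 1) (Pi k x) = Pi k x := fun k x => St.Pi'_Pi (hsm k) x
  have hb2 : ∀ k x, Pi k (Pi (k + 1) x) = Pi k x := fun k x => St.Pi_Pi' (hsm k) x
  have hQQ : ∀ i x, Q i (Q i x) = Q i x := proj_diff_idem Pi hb0 hb1 hb2
  have hQd : ∀ i j x, i ≠ j → Q i (Q j x) = 0 := proj_diff_orth Pi hb0 hb1 hb2
  have hQb : ∀ (A : Finset ℕ) (x : X p), ‖∑ k ∈ A, Q k x‖ ≤ M * ‖x‖ := by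
    intro A x
    refine (bound_Q s hsm hC0 hCB A x).trans ?_
    apply mul_le_mul_of_nonneg_right _ (norm_nonneg _)
    rw [hM]
    linarith
  have hQsum : ∀ x, HasSum (fun k => Q k x) x :=
    hasSum_of_bound Pi hPi0 M hM0.le hQb (dense_Q s hsm)
  have hQn : ∀ k x, ‖Q k x‖ ≤ M * ‖x‖ := by
    intro k x
    have := hQb {k} x
    rwa [Finset.sum_singleton] at this
  have hQfin : ∀ k, FiniteDimensional ℝ (LinearMap.range (Q k).toLinearMap) := by
    intro k
    have h1 : LinearMap.range (Q k).toLinearMap = LinearMap.range (I k) := (hIr k).symm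
    rw [h1]
    infer_instance
  -- the coordinate maps
  have hQmem : ∀ k x, Q k x ∈ LinearMap.range (I k) := by
    intro k x
    rw [hIr k]
    exact ⟨x, rfl⟩
  let L : ∀ k, X p →ₗ[ℝ] (Fin (r k) → ℝ) := fun k =>
    (LinearEquiv.ofInjective (I k) (hI k)).symm.toLinearMap ∘ₗ
      LinearMap.codRestrict (LinearMap.range (I k)) (Q k).toLinearMap (hQmem k)
  have hIL : ∀ k x, I k (L k x) = Q k x := by
    intro k x
    have h1 := (LinearEquiv.ofInjective (I k) (hI k)).apply_symm_apply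
      (LinearMap.codRestrict (LinearMap.range (I k)) (Q k).toLinearMap (hQmem k) x)
    exact congrArg Subtype.val h1
  let Y : ∀ k, (Fin (r k) → ℝ) →ₗ[ℝ] X p := fun k =>
    Fintype.linearCombination ℝ (fun j => T (lam k j) f)
  have hY : ∀ k b, Y k b = ∑ j, b j • T (lam k j) f := fun k b =>
    Fintype.linearCombination_apply ℝ _ b
  have hYI : ∀ k b, ‖Y k b - I k b‖ ≤ 2 * ε k * ‖I k b‖ := by
    intro k b
    rw [hY]
    exact hIe k b
  have hUb : ∀ k x, ‖(Y k ∘ₗ L k) x‖ ≤ ((1 + 2 * ε k) * M) * ‖x‖ := by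
    intro k x
    have h1 := hYI k (L k x)
    rw [hIL] at h1
    have h2 := hQn k x
    have h3 := hε0 k
    calc ‖Y k (L k x)‖ = ‖Q k x + (Y k (L k x) - Q k x)‖ := by congr 1; abel
      _ ≤ ‖Q k x‖ + ‖Y k (L k x) - Q k x‖ := norm_add_le _ _
      _ ≤ ‖Q k x‖ + 2 * ε k * ‖Q k x‖ := by gcongr
      _ = (1 + 2 * ε k) * ‖Q k x‖ := by ring
      _ ≤ (1 + 2 * ε k) * (M * ‖x‖) := by gcongr
      _ = ((1 + 2 * ε k) * M) * ‖x‖ := by ring
  let U : ℕ → X p →L[ℝ] X p := fun k =>
    LinearMap.mkContinuous (Y k ∘ₗ L k) ((1 + 2 * ε k) * M) (hUb k)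
  have hU : ∀ k x, U k x = Y k (L k x) := fun k x => rfl
  have hUQ : ∀ k x, U k (Q k x) = U k x := by
    intro k x
    have h1 : L k (Q k x) = L k x := by
      apply hI k
      rw [hIL, hIL, hQQ]
    rw [hU, hU, h1]
  have hUdiff : ∀ k, ‖U k - Q k‖ ≤ 2 * M * ε k := by
    intro k
    have h3 := hε0 k
    apply ContinuousLinearMap.opNorm_le_bound _ (by positivity)
    intro x
    have h1 := hYI k (L k x)
    rw [hIL] at h1
    have h2 := hQn k x
    calc ‖(U k - Q k) x‖ = ‖Y k (L k x) - Q k x‖ := rfl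
      _ ≤ 2 * ε k * ‖Q k x‖ := h1
      _ ≤ 2 * ε k * (M * ‖x‖) := by gcongr
      _ = 2 * M * ε k * ‖x‖ := by ring
  have hc1 : (fun k => 2 * M * ε k) = fun k => (1 / 4 : ℝ) * (1 / 2) ^ k := by
    funext k
    simp only [hε]
    field_simp
    norm_num
  have hcs : Summable (fun k => 2 * M * ε k) := by
    rw [hc1]
    exact (summable_geometric_two).mul_left _
  have hct : ∑' k, 2 * M * ε k < 1 := by
    rw [hc1, tsum_mul_left, tsum_geometric_two]
    norm_num
  have hmain := perturb Q U hQQ hQd hQfin hQsum hUQ (fun k => 2 * M * ε k) hUdiff hcs hct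
  -- flatten the blocks
  obtain ⟨lm, n, hn0, hnm, hfl⟩ := flatten r hr lam
  refine ⟨f, lm, n, hn0, hnm, ?_⟩
  have hspan : (fun k => Submodule.span ℝ
        {g : X p | ∃ i, n k ≤ i ∧ i < n (k + 1) ∧ g = T (lm i) f})
      = fun k => LinearMap.range (U k).toLinearMap := by
    funext k
    have h1 : {g : X p | ∃ i, n k ≤ i ∧ i < n (k + 1) ∧ g = T (lm i) f}
        = Set.range (fun j => T (lam k j) f) := by
      ext g
      constructor
      · rintro ⟨i, h1, h2, rfl⟩
        obtain ⟨j, hj⟩ := (hfl k (lm i)).mp ⟨i, h1, h2, rfl⟩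
        exact ⟨j, by rw [hj]⟩
      · rintro ⟨j, rfl⟩
        obtain ⟨i, h1, h2, h3⟩ := (hfl k (lam k j)).mpr ⟨j, rfl⟩
        exact ⟨i, h1, h2, by rw [← h3]⟩
    rw [h1, ← Fintype.range_linearCombination]
    apply le_antisymm
    · rintro _ ⟨b, rfl⟩
      obtain ⟨x, hx⟩ : I k b ∈ LinearMap.range (Q k).toLinearMap := by
        have h2 : I k b ∈ LinearMap.range (I k) := ⟨b, rfl⟩
        rwa [hIr k] at h2
      have h3 : L k x = b := by
        apply hI k
        rw [hIL]
        exact hx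
      exact ⟨x, by rw [← h3]; rfl⟩
    · rintro _ ⟨x, rfl⟩
      exact ⟨L k x, rfl⟩
  rw [hspan]
  exact hmain

end

end Pool.Agent.H26
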