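import Pool.Agent.Lib.H26.Block

open MeasureTheory Filter Topology Set
open scoped ENNReal

namespace Pool.Agent.H26

noncomputable section

/-! ### Abstract facts on increasing sequences of projections -/

section Abstract

variable {V : Type*} [NormedAddCommGroup V] [NormedSpace ℝ V]

lemma proj_up (Pi : ℕ → V →L[ℝ] V) (h0 : ∀ k x, Pi k (Pi k x) = Pi k x)
    (h1 : ∀ k x, Pi (k + 1) (Pi k x) = Pi k x) {k l : ℕ} (hkl : k ≤ l) (x : V) :
    Pi l (Pi k x) = Pi k x := by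
  induction l, hkl using Nat.le_induction with
  | base => exact h0 k x
  | succ l hl ih => rw [← ih, h1]

lemma proj_down (Pi : ℕ → V →L[ℝ] V) (h0 : ∀ k x, Pi k (Pi k x) = Pi k x)
    (h1 : ∀ k x, Pi k (Pi (k + 1) x) = Pi k x) {k l : ℕ} (hkl : k ≤ l) (x : V) :
    Pi k (Pi l x) = Pi k x := by
  induction l, hkl using Nat.le_induction generalizing x with
  | base => exact h0 k x
  | succ l hl ih => rw [← ih (Pi (l + 1) x), h1, ih]

lemma proj_diff_idem (Pi : ℕ → V →L[ℝ] V) (h0 : ∀ k x, Pi k (Pi k x) = Pi k x)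
    (h1 : ∀ k x, Pi (k + 1) (Pi k x) = Pi k x) (h2 : ∀ k x, Pi k (Pi (k + 1) x) = Pi k x)
    (i : ℕ) (x : V) :
    (Pi (i + 1) - Pi i) ((Pi (i + 1) - Pi i) x) = (Pi (i + 1) - Pi i) x := by
  simp only [sub_apply, map_sub, h0, h1, h2]
  abel

lemma proj_diff_orth (Pi : ℕ → V →L[ℝ] V) (h0 : ∀ k x, Pi k (Pi k x) = Pi k x)
    (h1 : ∀ k x, Pi (k + 1) (Pi k x) = Pi k x) (h2 : ∀ k x, Pi k (Pi (k + 1) x) = Pi k x)
    (i j : ℕ) (x : V) (hij : i ≠ j) :
    (Pi (i + 1) - Pi i) ((Pi (j + 1) - Pi j) x) = 0 := by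
  rcases lt_or_gt_of_ne hij with h | h
  · simp only [sub_apply, map_sub]
    rw [proj_down Pi h0 h2 (show i + 1 ≤ j + 1 by omega), proj_down Pi h0 h2 (show i + 1 ≤ j by omega),
      proj_down Pi h0 h2 (show i ≤ j + 1 by omega), proj_down Pi h0 h2 (show i ≤ j by omega)]
    abel
  · simp only [sub_apply, map_sub]
    rw [proj_up Pi h0 h1 (show j + 1 ≤ i + 1 by omega), proj_up Pi h0 h1 (show j ≤ i + 1 by omega),
      proj_up Pi h0 h1 (show j + 1 ≤ i by omega), proj_up Pi h0 h1 (show j ≤ i by omega)]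
    abel

lemma hasSum_of_bound (Pi : ℕ → V →L[ℝ] V) (hPi0 : Pi 0 = 0) (M : ℝ) (hM : 0 ≤ M)
    (hb : ∀ (A : Finset ℕ) (x : V), ‖∑ k ∈ A, (Pi (k + 1) - Pi k) x‖ ≤ M * ‖x‖)
    (hd : ∀ (x : V) (ε : ℝ), 0 < ε → ∃ (z : V) (N : ℕ), ‖x - z‖ < ε ∧ ∀ k, N ≤ k → Pi k z = z)
    (x : V) : HasSum (fun k => (Pi (k + 1) - Pi k) x) x := by
  simp only [HasSum, SummationFilter.unconditional_filter]
  rw [Metric.tendsto_atTop]
  intro ε hε
  obtain ⟨z, N, hz, hN⟩ := hd x (ε / (M + 1)) (by positivity)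
  refine ⟨Finset.range N, fun A hA => ?_⟩
  have h1 : ∑ k ∈ A, (Pi (k + 1) - Pi k) z = z := by
    have h2 : ∑ k ∈ A, (Pi (k + 1) - Pi k) z = ∑ k ∈ Finset.range N, (Pi (k + 1) - Pi k) z := by
      symm
      apply Finset.sum_subset hA
      intro k _ hk
      have hk' : N ≤ k := by simpa using hk
      rw [sub_apply, hN k hk', hN (k + 1) (by omega), sub_self]
    rw [h2]
    have h3 : ∑ k ∈ Finset.range N, (Pi (k + 1) - Pi k) z
        = ∑ k ∈ Finset.range N, (Pi (k + 1) z - Pi k z) := rfl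
    rw [h3, Finset.sum_range_sub (fun k => Pi k z), hN N le_rfl, hPi0]
    simp
  have h4 : ∑ k ∈ A, (Pi (k + 1) - Pi k) x - x
      = ∑ k ∈ A, (Pi (k + 1) - Pi k) (x - z) - (x - z) := by
    have : ∑ k ∈ A, (Pi (k + 1) - Pi k) (x - z)
        = ∑ k ∈ A, (Pi (k + 1) - Pi k) x - ∑ k ∈ A, (Pi (k + 1) - Pi k) z := by
      rw [← Finset.sum_sub_distrib]
      apply Finset.sum_congr rfl
      intro k _
      rw [map_sub]
    rw [this, h1]
    abel
  show dist (∑ k ∈ A, (Pi (k + 1) - Pi k) x) x < ε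
  rw [dist_eq_norm, h4]
  calc ‖∑ k ∈ A, (Pi (k + 1) - Pi k) (x - z) - (x - z)‖
      ≤ ‖∑ k ∈ A, (Pi (k + 1) - Pi k) (x - z)‖ + ‖x - z‖ := norm_sub_le _ _
    _ ≤ M * ‖x - z‖ + ‖x - z‖ := by gcongr; exact hb A _
    _ = (M + 1) * ‖x - z‖ := by ring
    _ < (M + 1) * (ε / (M + 1)) := by gcongr
    _ = ε := by field_simp

end Abstract

/-! ### The state of the construction -/

variable {p : ℝ≥0∞} [Fact (1 ≤ p)]

lemma EE_R_self (hp : p ≠ ∞) (n : ℕ) (x : X p) : EE hp n (R (win n) x) = EE hp n x := by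
  rw [EE_R_win, R_win_EE]

/-- State of the construction. -/
structure St (hp : p ≠ ∞) (C : ℝ) where
  f : X p
  m : ℕ
  n : ℕ
  P : X p →L[ℝ] X p
  τ : ℝ
  hfD : Dyad f
  hf0 : f ≠ 0
  hmn : m < n
  hPC : ‖P‖ ≤ C
  hPP : ∀ x, P (P x) = P x
  hPE : ∀ x, EE hp n (P x) = P x
  hRP : ∀ x, R (win m) (P x) = 0
  hPR : ∀ x, P (R (win m) x) = 0
  hnd : ∃ x, EE hp n x = x ∧ EE hp m x + P x ≠ x
  hτ : 0 < τ

namespace St

variable {hp : p ≠ ∞} {C : ℝ} (s s' : St hp C)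

/-- The projection attached to a state. -/
def Pi : X p →L[ℝ] X p := EE hp s.m + s.P ∘L EE hp s.n

lemma Pi_apply (x : X p) : s.Pi x = EE hp s.m x + s.P (EE hp s.n x) := rfl

/-- The target space attached to a state. -/
def H : Submodule ℝ (X p) := LinearMap.ker s.Pi.toLinearMap ⊓ LinearMap.range (EE hp s.n).toLinearMap

lemma EP (x : X p) : EE hp s.m (s.P x) = 0 := by
  rw [← EE_R_self, s.hRP, map_zero]

lemma PEm (x : X p) : s.P (EE hp s.m x) = 0 := by
  rw [← R_win_EE hp s.m x, s.hPR]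

lemma Pi_idem (x : X p) : s.Pi (s.Pi x) = s.Pi x := by
  simp only [Pi_apply, map_add]
  rw [EE_EE_of_le hp le_rfl, s.EP, EE_EE_of_ge hp s.hmn.le, s.PEm, s.hPE, s.hPP]
  abel

lemma En_Pi (x : X p) : EE hp s.n (s.Pi x) = s.Pi x := by
  rw [Pi_apply, map_add, EE_EE_of_ge hp s.hmn.le, s.hPE]

lemma Pi_En (x : X p) : s.Pi (EE hp s.n x) = s.Pi x := by
  rw [Pi_apply, Pi_apply, EE_EE_of_le hp s.hmn.le, EE_EE_of_le hp le_rfl]

lemma mem_H (x : X p) : x ∈ s.H ↔ s.Pi x = 0 ∧ EE hp s.n x = x := by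
  unfold H
  rw [Submodule.mem_inf]
  constructor
  · rintro ⟨h1, y, hy⟩
    refine ⟨h1, ?_⟩
    rw [← hy]
    exact EE_EE_of_le hp le_rfl y
  · rintro ⟨h1, h2⟩
    exact ⟨h1, x, h2⟩

/-- One step of the construction. -/
def Rel (ε : ℝ) (s s' : St hp C) : Prop :=
  s'.m = s.n ∧ ‖s'.f - s.f‖ ≤ s.τ / 2 ∧ s'.τ ≤ s.τ / 2 ∧
    ∃ (r : ℕ) (lam : Fin r → ℝ) (I : (Fin r → ℝ) →ₗ[ℝ] X p), 0 < r ∧ Function.Injective I ∧
      LinearMap.range I = s.H ⊔ LinearMap.range s'.P.toLinearMap ∧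
      ∀ g : X p, ‖g - s'.f‖ ≤ s'.τ → ∀ b, ‖∑ i, b i • T (lam i) g - I b‖ ≤ 2 * ε * ‖I b‖

lemma exists_rel
    (hC : ∀ (f : X p), Dyad f → f ≠ 0 → ∀ (H : Submodule ℝ (X p)),
      FiniteDimensional ℝ H → (∀ x ∈ H, Dyad x) → ∀ (B ε : ℝ), 0 < B → 0 < ε →
      (∀ x ∈ H, R (win B) x = x) → BlockAt hp C f H B ε) {ε : ℝ} (hε : 0 < ε) (s : St hp C) :
    ∃ s' : St hp C, Rel ε s s' := by
  have hτ := s.hτ
  have hfn : 0 < ‖s.f‖ := norm_pos_iff.mpr s.hf0
  have hHE : ∀ x ∈ s.H, EE hp s.n x = x := fun x hx => ((s.mem_H x).mp hx).2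
  have hHfd : FiniteDimensional ℝ s.H := by
    have h1 := finiteDimensional_range_EE (p := p) hp s.n
    exact Submodule.finiteDimensional_of_le
      (inf_le_right : s.H ≤ LinearMap.range (EE hp s.n).toLinearMap)
  have hn0 : (0 : ℝ) < s.n := by
    have := s.hmn
    exact_mod_cast (by omega : 0 < s.n)
  obtain ⟨f', P', r, lam, I, hf'D, hf'f, hP'C, hP'P, hP'fd, hP'D, hP'R, hP'R', hI, hIr, hIe⟩ :=
    hC s.f s.hfD s.hf0 s.H hHfd (fun x hx => by rw [← hHE x hx]; exact Dyad_EE hp _ _) s.n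
      (min ε (min (s.τ / 2) ‖s.f‖)) hn0 (by positivity)
      (fun x hx => by
        have := R_win_EE hp s.n x
        rwa [hHE x hx] at this)
  have h1 : ‖f' - s.f‖ < s.τ / 2 := hf'f.trans_le ((min_le_right _ _).trans (min_le_left _ _))
  have h2 : ‖f' - s.f‖ < ‖s.f‖ := hf'f.trans_le ((min_le_right _ _).trans (min_le_right _ _))
  have hf'0 : f' ≠ 0 := by
    intro h0
    rw [h0, zero_sub, norm_neg] at h2
    exact lt_irrefl _ h2
  obtain ⟨N, hN⟩ := exists_EE_eq hp (LinearMap.range P'.toLinearMap) (by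
    rintro _ ⟨x, rfl⟩
    exact hP'D x)
  set N₁ := max N s.n with hN₁
  set x₀ : X p := atom 0 N₁ with hx₀
  have hx₀D : Dyad x₀ := ⟨0, Submodule.subset_span ⟨N₁, rfl⟩⟩
  obtain ⟨n₀, hn₀⟩ := (Dyad_iff hp x₀).mp hx₀D
  set n' := max (max N₁ n₀) (s.n + 1) with hn'
  have hx₀' : x₀ = ind (N₁ : ℝ) (N₁ + 1) := by
    rw [hx₀]
    unfold atom
    norm_num
  have hx₀0 : x₀ ≠ 0 := by
    rw [hx₀']
    exact ind_ne_zero hp (by linarith)
  have hx₀R : R (win N₁) x₀ = 0 := by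
    have h3 : R (Ico (N₁ : ℝ) (N₁ + 1)) x₀ = x₀ := by
      rw [hx₀']
      exact R_ind_self _ _
    apply R_zero_of_disj (measurableSet_win _) measurableSet_Ico _ h3
    rw [Set.disjoint_left]
    intro t h4 h5
    exact absurd h4.2 (not_lt.mpr h5.1)
  have hx₀E : EE hp n' x₀ = x₀ := by
    rw [← hn₀]
    exact EE_EE_of_ge hp ((le_max_right _ _).trans (le_max_left _ _)) _
  have hnd' : EE hp s.n x₀ + P' x₀ ≠ x₀ := by
    intro h3
    have h4 : EE hp N₁ (EE hp s.n x₀ + P' x₀) = EE hp s.n x₀ + P' x₀ := by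
      rw [map_add, EE_EE_of_ge hp (le_max_right _ _), hN N₁ (le_max_left _ _) (P' x₀) ⟨x₀, rfl⟩]
    rw [h3] at h4
    have h5 := R_win_EE hp N₁ x₀
    rw [h4, hx₀R] at h5
    exact hx₀0 h5.symm
  obtain ⟨K, hK, hKb⟩ := exists_bound_of_injective I hI
  have hn'N : N ≤ n' := (le_max_left _ _).trans ((le_max_left _ _).trans (le_max_left _ _))
  have hn'n : s.n < n' := lt_of_lt_of_le (Nat.lt_succ_self _) (le_max_right _ _)
  let s' : St hp C :=
    { f := f'
      m := s.n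
      n := n'
      P := P'
      τ := min (s.τ / 2) (ε / (r * K + 1))
      hfD := hf'D
      hf0 := hf'0
      hmn := hn'n
      hPC := hP'C
      hPP := hP'P
      hPE := fun x => hN n' hn'N (P' x) ⟨x, rfl⟩
      hRP := hP'R
      hPR := hP'R'
      hnd := ⟨x₀, hx₀E, hnd'⟩
      hτ := by positivity }
  refine ⟨s', rfl, h1.le, min_le_left _ _, r, lam, I, ?_, hI, hIr, ?_⟩
  · -- nonempty block
    rcases Nat.eq_zero_or_pos r with hr | hr
    · exfalso
      subst hr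
      have h3 : LinearMap.range I = ⊥ := by
        rw [LinearMap.range_eq_bot]
        ext b
        fin_cases b
      obtain ⟨x, hx1, hx2⟩ := s.hnd
      have h4 : x - s.Pi x ∈ s.H := by
        rw [s.mem_H]
        constructor
        · rw [map_sub, s.Pi_idem, sub_self]
        · rw [map_sub, s.En_Pi, hx1]
      have h5 : x - s.Pi x ∈ LinearMap.range I := by
        rw [hIr]
        exact Submodule.mem_sup_left h4
      rw [h3, Submodule.mem_bot, sub_eq_zero, s.Pi_apply, hx1] at h5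
      exact hx2 h5.symm
    · exact hr
  · intro g hg b
    have hτ1 : s'.τ ≤ ε / (r * K + 1) := min_le_right _ _
    have hτ0 : 0 < s'.τ := s'.hτ
    have hIn := norm_nonneg (I b)
    have e1 : ∑ i, b i • T (lam i) g - I b
        = ∑ i, b i • T (lam i) (g - f') + (∑ i, b i • T (lam i) f' - I b) := by
      have : ∑ i, b i • T (lam i) g
          = ∑ i, b i • T (lam i) (g - f') + ∑ i, b i • T (lam i) f' := by
        rw [← Finset.sum_add_distrib]
        apply Finset.sum_congr rfl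
        intro i _
        rw [← smul_add, ← map_add, sub_add_cancel]
      rw [this]
      abel
    have e2 : ‖∑ i, b i • T (lam i) (g - f')‖ ≤ (r * K * s'.τ) * ‖I b‖ := by
      calc ‖∑ i, b i • T (lam i) (g - f')‖
          ≤ ∑ i, ‖b i • T (lam i) (g - f')‖ := norm_sum_le _ _
        _ ≤ ∑ _i : Fin r, (K * ‖I b‖) * s'.τ := by
            apply Finset.sum_le_sum
            intro i _
            rw [norm_smul, norm_T]
            have h1 : ‖b i‖ ≤ ‖b‖ := norm_le_pi_norm _ i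
            exact mul_le_mul (h1.trans (hKb _)) hg (norm_nonneg _) (by positivity)
        _ = (r * K * s'.τ) * ‖I b‖ := by
            rw [Finset.sum_const, Finset.card_univ, Fintype.card_fin, nsmul_eq_mul]
            ring
    have e3 : ‖∑ i, b i • T (lam i) f' - I b‖ ≤ ε * ‖I b‖ :=
      (hIe b).trans (mul_le_mul_of_nonneg_right (min_le_left _ _) hIn)
    have e4 : r * K * s'.τ ≤ ε := by
      calc r * K * s'.τ ≤ (r * K + 1) * s'.τ := by
            apply mul_le_mul_of_nonneg_right _ hτ0.le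
            linarith
        _ ≤ (r * K + 1) * (ε / (r * K + 1)) := by gcongr
        _ = ε := by field_simp
    rw [e1]
    calc ‖∑ i, b i • T (lam i) (g - f') + (∑ i, b i • T (lam i) f' - I b)‖
        ≤ ‖∑ i, b i • T (lam i) (g - f')‖ + ‖∑ i, b i • T (lam i) f' - I b‖ := norm_add_le _ _
      _ ≤ ε * ‖I b‖ + ε * ‖I b‖ :=
          add_le_add (e2.trans (mul_le_mul_of_nonneg_right e4 hIn)) e3
      _ = 2 * ε * ‖I b‖ := by ring

variable {s s'}

lemma E'P (h : s'.m = s.n) (x : X p) : EE hp s.n (s'.P x) = 0 := by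
  rw [← h]
  exact s'.EP x

lemma P'E (h : s'.m = s.n) (x : X p) : s'.P (EE hp s.n x) = 0 := by
  rw [← h]
  exact s'.PEm x

lemma Pi_Pi' (h : s'.m = s.n) (x : X p) : s.Pi (s'.Pi x) = s.Pi x := by
  rw [← s.Pi_En, s'.Pi_apply, map_add, E'P h, add_zero, h, EE_EE_of_le hp le_rfl, s.Pi_En]

lemma Pi'_of_En (h : s'.m = s.n) {x : X p} (hx : EE hp s.n x = x) : s'.Pi x = x := by
  have h1 : EE hp s'.n x = x := by
    rw [← hx]
    exact EE_EE_of_ge hp (by rw [← h]; exact s'.hmn.le) x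
  rw [s'.Pi_apply, h1, h, hx]
  have h2 : s'.P x = 0 := by
    rw [← hx]
    exact P'E h x
  rw [h2, add_zero]

lemma Pi'_Pi (h : s'.m = s.n) (x : X p) : s'.Pi (s.Pi x) = s.Pi x :=
  Pi'_of_En h (s.En_Pi x)

lemma range_diff (h : s'.m = s.n) :
    LinearMap.range (s'.Pi - s.Pi).toLinearMap = s.H ⊔ LinearMap.range s'.P.toLinearMap := by
  apply le_antisymm
  · rintro _ ⟨x, rfl⟩
    have h1 : (s'.Pi - s.Pi).toLinearMap x
        = (EE hp s.n x - s.Pi x) + s'.P (EE hp s'.n x) := by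
      show s'.Pi x - s.Pi x = _
      rw [s'.Pi_apply, h]
      abel
    rw [h1]
    apply Submodule.add_mem_sup
    · rw [s.mem_H]
      constructor
      · rw [map_sub, s.Pi_En, s.Pi_idem, sub_self]
      · rw [map_sub, EE_EE_of_le hp le_rfl, s.En_Pi]
    · exact ⟨_, rfl⟩
  · apply sup_le
    · intro x hx
      rw [s.mem_H] at hx
      refine ⟨x, ?_⟩
      show s'.Pi x - s.Pi x = x
      rw [hx.1, sub_zero, Pi'_of_En h hx.2]
    · rintro _ ⟨x, rfl⟩
      refine ⟨s'.P x, ?_⟩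
      show s'.Pi (s'.P x) - s.Pi (s'.P x) = s'.P x
      rw [← s.Pi_En, E'P h, map_zero, sub_zero, s'.Pi_apply, s'.EP, zero_add, s'.hPE, s'.hPP]

end St

end

end Pool.Agent.H26
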