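import Pool.Agent.Lib.H26.Single

open MeasureTheory Filter Topology Set
open scoped ENNReal

namespace Pool.Agent.H26

noncomputable section

/-- An injective linear map out of a finite-dimensional space is bounded below. -/
lemma exists_bound_of_injective {E F : Type*} [NormedAddCommGroup E] [NormedSpace ℝ E]
    [NormedAddCommGroup F] [NormedSpace ℝ F] [FiniteDimensional ℝ E] (L : E →ₗ[ℝ] F)
    (hL : Function.Injective L) : ∃ K : ℝ, 0 < K ∧ ∀ x, ‖x‖ ≤ K * ‖L x‖ := by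
  obtain ⟨K, hK, h⟩ := L.exists_antilipschitzWith (LinearMap.ker_eq_bot.mpr hL)
  refine ⟨K, by exact_mod_cast hK, fun x => ?_⟩
  have := h.le_mul_dist x 0
  simpa using this

variable {p : ℝ≥0∞} [Fact (1 ≤ p)]

/-- A finite-dimensional space of dyadic step functions is contained in one of the
finite-dimensional spaces `range (EE n)`. -/
lemma exists_EE_eq (hp : p ≠ ∞) (E : Submodule ℝ (X p)) [FiniteDimensional ℝ E]
    (hE : ∀ x ∈ E, Dyad x) : ∃ N : ℕ, ∀ n, N ≤ n → ∀ x ∈ E, EE hp n x = x := by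
  obtain ⟨S, hS⟩ := (Submodule.fg_iff_finiteDimensional E).mpr inferInstance
  have h1 : ∀ s : S, ∃ n, EE hp n (s : X p) = s := by
    intro s
    apply (Dyad_iff hp _).mp
    apply hE
    rw [← hS]
    exact Submodule.subset_span s.2
  choose m hm using h1
  refine ⟨Finset.univ.sup m, fun n hn x hx => ?_⟩
  have h2 : E ≤ LinearMap.ker ((EE hp n - ContinuousLinearMap.id ℝ (X p) : X p →L[ℝ] X p).toLinearMap) := by
    rw [← hS, Submodule.span_le]
    intro s hs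
    have h3 : m ⟨s, hs⟩ ≤ n := (Finset.le_sup (f := m) (Finset.mem_univ (⟨s, hs⟩ : S))).trans hn
    have h4 := hm ⟨s, hs⟩
    simp only at h4
    have h5 : EE hp n s = s := by
      rw [← h4, EE_EE_of_ge hp h3]
    show (EE hp n - ContinuousLinearMap.id ℝ (X p)) s = 0
    rw [sub_apply, h5]
    simp
  have h3 := h2 hx
  have h4 : (EE hp n - ContinuousLinearMap.id ℝ (X p)) x = 0 := h3
  rw [sub_apply, sub_eq_zero] at h4
  simpa using h4

lemma win_mono {a b : ℝ} (h : a ≤ b) : win a ⊆ win b := by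
  intro t ht
  exact ⟨by have := ht.1; linarith, by have := ht.2; linarith⟩

/-- Combining two complemented blocks. -/
lemma norm_comb_le (hp : p ≠ ∞) {C : ℝ} (hC : 0 ≤ C) {s : Set ℝ} (hs : MeasurableSet s)
    (P₁ P₂ : X p →L[ℝ] X p) (h1 : ‖P₁‖ ≤ C) (h2 : ‖P₂‖ ≤ C)
    (h1s : ∀ x, R s (P₁ x) = P₁ x) (h2s : ∀ x, R s (P₂ x) = 0) (h2s' : ∀ x, P₂ (R s x) = 0) :
    ‖P₁ ∘L R s + P₂‖ ≤ C := by
  have hP := pt_pos (p := p) hp
  apply ContinuousLinearMap.opNorm_le_bound _ hC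
  intro x
  have e1 : (P₁ ∘L R s + P₂) x = P₁ (R s x) + P₂ x := rfl
  have e2 : P₂ x = P₂ (R sᶜ x) := by
    rw [R_compl hs, map_sub, h2s', sub_zero]
  have e3 : ‖P₁ (R s x) + P₂ x‖ ^ p.toReal ≤ (C * ‖x‖) ^ p.toReal := by
    rw [norm_add_of_disj hp hs (h1s _) (h2s _), Real.mul_rpow hC (norm_nonneg _),
      ← norm_R_add hp hs x, mul_add]
    apply add_le_add
    · rw [← Real.mul_rpow hC (norm_nonneg _)]
      apply Real.rpow_le_rpow (norm_nonneg _) _ hP.le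
      exact (P₁.le_opNorm _).trans (mul_le_mul_of_nonneg_right h1 (norm_nonneg _))
    · rw [← Real.mul_rpow hC (norm_nonneg _), e2]
      apply Real.rpow_le_rpow (norm_nonneg _) _ hP.le
      exact (P₂.le_opNorm _).trans (mul_le_mul_of_nonneg_right h2 (norm_nonneg _))
  rw [e1]
  exact (Real.rpow_le_rpow_iff (norm_nonneg _) (by positivity) hP).mp e3

/-- Extension of a block by one further target vector. -/
lemma block_step (hp : p ≠ ∞) {C : ℝ} (hC : 0 ≤ C)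
    (hsing : ∀ (f h : X p), Dyad f → f ≠ 0 → Dyad h → h ≠ 0 → ∀ (B ε : ℝ), 0 < B → 0 < ε →
      R (win B) h = h → BlockAt hp C f (Submodule.span ℝ {h}) B ε)
    (f : X p) (hf0 : f ≠ 0) (H : Submodule ℝ (X p)) [FiniteDimensional ℝ H]
    (hHD : ∀ x ∈ H, Dyad x) (B : ℝ) (hB : 0 < B) (hHB : ∀ x ∈ H, R (win B) x = x)
    (h : X p) (hh : h ∉ H) (hhD : Dyad h) (hhB : R (win B) h = h)
    (ih : ∀ ε : ℝ, 0 < ε → BlockAt hp C f H B ε) (ε : ℝ) (hε : 0 < ε) :
    BlockAt hp C f (H ⊔ Submodule.span ℝ {h}) B ε := by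
  have hh0 : h ≠ 0 := fun h0 => hh (h0 ▸ H.zero_mem)
  have hP := pt_pos (p := p) hp
  -- the constant coming from the independence of `H` and `h`
  let L : (H × ℝ) →ₗ[ℝ] X p := LinearMap.coprod H.subtype (LinearMap.toSpanSingleton ℝ (X p) h)
  have hLapp : ∀ (u : H) (s : ℝ), L (u, s) = (u : X p) + s • h := fun u s => by
    simp [L]
  have hLinj : Function.Injective L := by
    rw [← LinearMap.ker_eq_bot, LinearMap.ker_eq_bot']
    rintro ⟨u, s⟩ hus
    rw [hLapp] at hus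
    have hs : s = 0 := by
      by_contra hs
      apply hh
      have : h = (-s⁻¹) • (u : X p) := by
        have h1 : s • h = -(u : X p) := by
          rw [add_comm] at hus
          exact eq_neg_of_add_eq_zero_left hus
        rw [neg_smul, ← smul_neg, ← h1, smul_smul, inv_mul_cancel₀ hs, one_smul]
      rw [this]
      exact H.smul_mem _ u.2
    rw [hs, zero_smul, add_zero] at hus
    have hu : u = 0 := Subtype.ext hus
    rw [hs, hu]
    rfl
  obtain ⟨K, hK, hKb⟩ := exists_bound_of_injective L hLinj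
  -- first block
  have hfn : 0 < ‖f‖ := norm_pos_iff.mpr hf0
  obtain ⟨f₁, P₁, n₁, lam₁, I₁, hf₁D, hf₁f, hP₁C, hP₁P, hP₁fd, hP₁D, hP₁R, hP₁R', hI₁, hI₁r,
    hI₁e⟩ := ih (min (ε / 2) (min (ε / (4 * (K + K * ‖h‖ + 1))) (‖f‖))) (by positivity)
  set ε₁ := min (ε / 2) (min (ε / (4 * (K + K * ‖h‖ + 1))) (‖f‖)) with hε₁
  have hε₁0 : 0 < ε₁ := by positivity
  have hε₁a : ε₁ ≤ ε / 2 := min_le_left _ _
  have hε₁b : ε₁ ≤ ε / (4 * (K + K * ‖h‖ + 1)) := (min_le_right _ _).trans (min_le_left _ _)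
  have hε₁c : ε₁ ≤ ‖f‖ := (min_le_right _ _).trans (min_le_right _ _)
  have hf₁0 : f₁ ≠ 0 := by
    intro h0
    rw [h0, zero_sub, norm_neg] at hf₁f
    linarith
  have := hP₁fd
  obtain ⟨N, hN⟩ := exists_EE_eq hp (LinearMap.range P₁.toLinearMap) (by
    rintro _ ⟨x, rfl⟩
    exact hP₁D x)
  obtain ⟨N', hN'⟩ := exists_nat_ge B
  set B₁ : ℝ := ((max N N' : ℕ) : ℝ) with hB₁
  have hBB₁ : B ≤ B₁ := hN'.trans (by rw [hB₁]; exact_mod_cast le_max_right _ _)
  have hB₁0 : 0 < B₁ := hB.trans_le hBB₁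
  have hmB := measurableSet_win B
  have hmB₁ := measurableSet_win B₁
  have hsub := win_mono hBB₁
  have hP₁s : ∀ x, R (win B₁) (P₁ x) = P₁ x := by
    intro x
    have h1 := hN (max N N') (le_max_left _ _) (P₁ x) ⟨x, rfl⟩
    have h2 := R_win_EE hp (max N N') (P₁ x)
    rw [h1] at h2
    exact h2
  have hhB₁ : R (win B₁) h = h := R_of_subset hmB hmB₁ hsub hhB
  have hHB₁ : ∀ x ∈ H, R (win B₁) x = x := fun x hx => R_of_subset hmB hmB₁ hsub (hHB x hx)
  obtain ⟨K₁, hK₁, hK₁b⟩ := exists_bound_of_injective I₁ hI₁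
  -- second block
  obtain ⟨f₂, P₂, n₂, lam₂, I₂, hf₂D, hf₂f, hP₂C, hP₂P, hP₂fd, hP₂D, hP₂R, hP₂R', hI₂, hI₂r,
    hI₂e⟩ := hsing f₁ h hf₁D hf₁0 hhD hh0 B₁
      (min (ε / 2) (ε / (4 * (K + K * ‖h‖ + 1) * (n₁ * K₁ + 1)))) hB₁0 (by positivity) hhB₁
  set ε₂ := min (ε / 2) (ε / (4 * (K + K * ‖h‖ + 1) * (n₁ * K₁ + 1))) with hε₂
  have hε₂0 : 0 < ε₂ := by positivity
  have hε₂a : ε₂ ≤ ε / 2 := min_le_left _ _
  have hε₂b : ε₂ ≤ ε / (4 * (K + K * ‖h‖ + 1) * (n₁ * K₁ + 1)) := min_le_right _ _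
  have hP₂B : ∀ x, R (win B) (P₂ x) = 0 := by
    intro x
    rw [← R_subset hmB hmB₁ hsub, hP₂R, map_zero]
  have hP₂P₁ : ∀ x, P₂ (P₁ x) = 0 := fun x => by rw [← hP₁s, hP₂R']
  -- decomposition of the elements of the ranges
  have hr₁ : ∀ b, ∃ u ∈ H, ∃ v, I₁ b = u + P₁ v := by
    intro b
    have h1 : I₁ b ∈ H ⊔ LinearMap.range P₁.toLinearMap := by rw [← hI₁r]; exact ⟨b, rfl⟩
    obtain ⟨u, hu, w, ⟨v, rfl⟩, hw⟩ := Submodule.mem_sup.mp h1
    exact ⟨u, hu, v, hw.symm⟩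
  have hr₂ : ∀ b, ∃ (s : ℝ) (v : X p), I₂ b = s • h + P₂ v := by
    intro b
    have h1 : I₂ b ∈ Submodule.span ℝ {h} ⊔ LinearMap.range P₂.toLinearMap := by
      rw [← hI₂r]; exact ⟨b, rfl⟩
    obtain ⟨u, hu, w, ⟨v, rfl⟩, hw⟩ := Submodule.mem_sup.mp h1
    obtain ⟨s, rfl⟩ := Submodule.mem_span_singleton.mp hu
    exact ⟨s, v, hw.symm⟩
  -- the combined map
  let A₁ : (Fin (n₁ + n₂) → ℝ) →ₗ[ℝ] (Fin n₁ → ℝ) :=
    { toFun := fun b i => b (Fin.castAdd n₂ i)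
      map_add' := fun _ _ => rfl
      map_smul' := fun _ _ => rfl }
  let A₂ : (Fin (n₁ + n₂) → ℝ) →ₗ[ℝ] (Fin n₂ → ℝ) :=
    { toFun := fun b i => b (Fin.natAdd n₁ i)
      map_add' := fun _ _ => rfl
      map_smul' := fun _ _ => rfl }
  have hA : ∀ (b₁ : Fin n₁ → ℝ) (b₂ : Fin n₂ → ℝ),
      A₁ (Fin.append b₁ b₂) = b₁ ∧ A₂ (Fin.append b₁ b₂) = b₂ := by
    intro b₁ b₂
    constructor
    · funext i
      exact Fin.append_left b₁ b₂ i
    · funext i
      exact Fin.append_right b₁ b₂ i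
  let I : (Fin (n₁ + n₂) → ℝ) →ₗ[ℝ] X p := I₁ ∘ₗ A₁ + I₂ ∘ₗ A₂
  have hIapp : ∀ b, I b = I₁ (A₁ b) + I₂ (A₂ b) := fun b => rfl
  -- norm control
  have hctrl : ∀ b, ‖I₁ (A₁ b)‖ ≤ (K + K * ‖h‖ + 1) * ‖I b‖ ∧
      ‖I₂ (A₂ b)‖ ≤ (K + K * ‖h‖ + 1) * ‖I b‖ := by
    intro b
    obtain ⟨u, hu, v, e1⟩ := hr₁ (A₁ b)
    obtain ⟨s, w, e2⟩ := hr₂ (A₂ b)
    have e3 : R (win B) (I b) = u + s • h := by
      rw [hIapp, e1, e2]
      simp only [map_add, map_smul, hHB u hu, hhB, hP₁R, hP₂B, add_zero]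
    have e4 : R (win B₁) (I b) = u + P₁ v + s • h := by
      rw [hIapp, e1, e2]
      simp only [map_add, map_smul, hHB₁ u hu, hhB₁, hP₁s, hP₂R, add_zero]
    have e5 : P₁ v = R (win B)ᶜ (R (win B₁) (I b)) := by
      rw [R_compl hmB, R_subset hmB hmB₁ hsub, e3, e4]
      abel
    have e6 : P₂ w = R (win B₁)ᶜ (I b) := by
      rw [R_compl hmB₁, e4, hIapp, e1, e2]
      abel
    have e7 : ‖P₁ v‖ ≤ ‖I b‖ := by
      rw [e5]
      exact (norm_R_le _ _).trans (norm_R_le _ _)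
    have e8 : ‖P₂ w‖ ≤ ‖I b‖ := by
      rw [e6]
      exact norm_R_le _ _
    have e9 : ‖u + s • h‖ ≤ ‖I b‖ := by
      rw [← e3]
      exact norm_R_le _ _
    have e10 := hKb (⟨u, hu⟩, s)
    rw [hLapp] at e10
    have e11 : ‖u‖ ≤ K * ‖I b‖ := by
      have : ‖(⟨u, hu⟩ : H)‖ ≤ ‖((⟨u, hu⟩ : H), s)‖ := by
        rw [Prod.norm_def]
        exact le_max_left _ _
      exact (this.trans e10).trans (mul_le_mul_of_nonneg_left e9 hK.le)
    have e12 : ‖s‖ ≤ K * ‖I b‖ := by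
      have : ‖s‖ ≤ ‖((⟨u, hu⟩ : H), s)‖ := by
        rw [Prod.norm_def]
        exact le_max_right _ _
      exact (this.trans e10).trans (mul_le_mul_of_nonneg_left e9 hK.le)
    have hIn := norm_nonneg (I b)
    have hhn := norm_nonneg h
    constructor
    · rw [e1]
      calc ‖u + P₁ v‖ ≤ ‖u‖ + ‖P₁ v‖ := norm_add_le _ _
        _ ≤ K * ‖I b‖ + ‖I b‖ := add_le_add e11 e7
        _ ≤ (K + K * ‖h‖ + 1) * ‖I b‖ := by
            have : 0 ≤ K * ‖h‖ * ‖I b‖ := by positivity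
            nlinarith
    · rw [e2]
      calc ‖s • h + P₂ w‖ ≤ ‖s • h‖ + ‖P₂ w‖ := norm_add_le _ _
        _ ≤ K * ‖I b‖ * ‖h‖ + ‖I b‖ := by
            rw [norm_smul]
            exact add_le_add (mul_le_mul_of_nonneg_right e12 hhn) e8
        _ ≤ (K + K * ‖h‖ + 1) * ‖I b‖ := by
            have : 0 ≤ K * ‖I b‖ := by positivity
            nlinarith
  refine ⟨f₂, P₁ ∘L R (win B₁) + P₂, n₁ + n₂, Fin.append lam₁ lam₂, I, hf₂D, ?_, ?_, ?_, ?_, ?_,
    ?_, ?_, ?_, ?_, ?_⟩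
  · calc ‖f₂ - f‖ = ‖(f₂ - f₁) + (f₁ - f)‖ := by congr 1; abel
      _ ≤ ‖f₂ - f₁‖ + ‖f₁ - f‖ := norm_add_le _ _
      _ < ε₂ + ε₁ := add_lt_add hf₂f hf₁f
      _ ≤ ε := by linarith
  · exact norm_comb_le hp hC hmB₁ P₁ P₂ hP₁C hP₂C hP₁s hP₂R hP₂R'
  · intro x
    show P₁ (R (win B₁) (P₁ (R (win B₁) x) + P₂ x)) + P₂ (P₁ (R (win B₁) x) + P₂ x)
      = P₁ (R (win B₁) x) + P₂ x
    rw [map_add, hP₁s, hP₂R, add_zero, hP₁P, map_add, hP₂P₁, zero_add, hP₂P]
  · have hfd := hP₁fd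
    have hfd2 := hP₂fd
    have hle : LinearMap.range (P₁ ∘L R (win B₁) + P₂).toLinearMap
        ≤ LinearMap.range P₁.toLinearMap ⊔ LinearMap.range P₂.toLinearMap := by
      rintro _ ⟨x, rfl⟩
      exact Submodule.add_mem_sup ⟨R (win B₁) x, rfl⟩ ⟨x, rfl⟩
    exact Submodule.finiteDimensional_of_le hle
  · intro x
    exact Dyad_add (hP₁D _) (hP₂D _)
  · intro x
    show R (win B) (P₁ (R (win B₁) x) + P₂ x) = 0
    rw [map_add, hP₁R, hP₂B, add_zero]
  · intro x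
    show P₁ (R (win B₁) (R (win B) x)) + P₂ (R (win B) x) = 0
    have e1 : R (win B₁) (R (win B) x) = R (win B) x :=
      R_of_subset hmB hmB₁ hsub (R_idem hmB x)
    rw [e1, hP₁R', ← e1, hP₂R', add_zero]
  · rw [← LinearMap.ker_eq_bot, LinearMap.ker_eq_bot']
    intro b hb
    have h1 := hctrl b
    rw [hb, norm_zero, mul_zero] at h1
    have h2 : A₁ b = 0 := hI₁ (by rw [map_zero]; exact norm_le_zero_iff.mp h1.1)
    have h3 : A₂ b = 0 := hI₂ (by rw [map_zero]; exact norm_le_zero_iff.mp h1.2)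
    funext i
    refine Fin.addCases (fun j => ?_) (fun j => ?_) i
    · exact congrFun h2 j
    · exact congrFun h3 j
  · have hrI : LinearMap.range I = LinearMap.range I₁ ⊔ LinearMap.range I₂ := by
      apply le_antisymm
      · rintro _ ⟨b, rfl⟩
        exact Submodule.add_mem_sup ⟨A₁ b, rfl⟩ ⟨A₂ b, rfl⟩
      · apply sup_le
        · rintro _ ⟨b, rfl⟩
          refine ⟨Fin.append b 0, ?_⟩
          rw [hIapp, (hA b 0).1, (hA b 0).2, map_zero, add_zero]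
        · rintro _ ⟨b, rfl⟩
          refine ⟨Fin.append 0 b, ?_⟩
          rw [hIapp, (hA 0 b).1, (hA 0 b).2, map_zero, zero_add]
    have hrP : LinearMap.range (P₁ ∘L R (win B₁) + P₂).toLinearMap
        = LinearMap.range P₁.toLinearMap ⊔ LinearMap.range P₂.toLinearMap := by
      apply le_antisymm
      · rintro _ ⟨x, rfl⟩
        exact Submodule.add_mem_sup ⟨R (win B₁) x, rfl⟩ ⟨x, rfl⟩
      · apply sup_le
        · rintro _ ⟨x, rfl⟩
          refine ⟨P₁ x, ?_⟩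
          show P₁ (R (win B₁) (P₁ x)) + P₂ (P₁ x) = P₁ x
          rw [hP₁s, hP₁P, hP₂P₁, add_zero]
        · rintro _ ⟨x, rfl⟩
          refine ⟨P₂ x, ?_⟩
          show P₁ (R (win B₁) (P₂ x)) + P₂ (P₂ x) = P₂ x
          rw [hP₂R, map_zero, zero_add, hP₂P]
    rw [hrI, hrP, hI₁r, hI₂r]
    rw [sup_assoc, sup_assoc]
    congr 1
    rw [← sup_assoc, ← sup_assoc, sup_comm (LinearMap.range P₁.toLinearMap)]
  · intro b
    obtain ⟨c1, c2⟩ := hctrl b
    have hIn := norm_nonneg (I b)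
    set M := K + K * ‖h‖ + 1 with hM
    have hM0 : 0 < M := by positivity
    have e1 : ∑ i, b i • T (Fin.append lam₁ lam₂ i) f₂
        = ∑ i, A₁ b i • T (lam₁ i) f₂ + ∑ i, A₂ b i • T (lam₂ i) f₂ := by
      rw [Fin.sum_univ_add]
      congr 1
      · apply Finset.sum_congr rfl
        intro i _
        rw [Fin.append_left]
        rfl
      · apply Finset.sum_congr rfl
        intro i _
        rw [Fin.append_right]
        rfl
    have e2 : ∑ i, A₁ b i • T (lam₁ i) f₂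
        = ∑ i, A₁ b i • T (lam₁ i) (f₂ - f₁) + ∑ i, A₁ b i • T (lam₁ i) f₁ := by
      rw [← Finset.sum_add_distrib]
      apply Finset.sum_congr rfl
      intro i _
      rw [← smul_add, ← map_add, sub_add_cancel]
    have e3 : ‖∑ i, A₁ b i • T (lam₁ i) (f₂ - f₁)‖ ≤ (n₁ * K₁ * ε₂) * ‖I₁ (A₁ b)‖ := by
      calc ‖∑ i, A₁ b i • T (lam₁ i) (f₂ - f₁)‖
          ≤ ∑ i, ‖A₁ b i • T (lam₁ i) (f₂ - f₁)‖ := norm_sum_le _ _
        _ ≤ ∑ _i : Fin n₁, (K₁ * ‖I₁ (A₁ b)‖) * ε₂ := by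
            apply Finset.sum_le_sum
            intro i _
            rw [norm_smul, norm_T]
            have h1 : ‖A₁ b i‖ ≤ ‖A₁ b‖ := norm_le_pi_norm _ i
            exact mul_le_mul (h1.trans (hK₁b _)) hf₂f.le (norm_nonneg _) (by positivity)
        _ = (n₁ * K₁ * ε₂) * ‖I₁ (A₁ b)‖ := by
            rw [Finset.sum_const, Finset.card_univ, Fintype.card_fin, nsmul_eq_mul]
            ring
    have e4 : ∑ i, b i • T (Fin.append lam₁ lam₂ i) f₂ - I b
        = ∑ i, A₁ b i • T (lam₁ i) (f₂ - f₁)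
          + (∑ i, A₁ b i • T (lam₁ i) f₁ - I₁ (A₁ b))
          + (∑ i, A₂ b i • T (lam₂ i) f₂ - I₂ (A₂ b)) := by
      rw [e1, e2, hIapp]
      abel
    have e5 : ε₂ * (n₁ * K₁ + 1) ≤ ε / (4 * M) := by
      calc ε₂ * (n₁ * K₁ + 1) ≤ ε / (4 * M * (n₁ * K₁ + 1)) * (n₁ * K₁ + 1) := by gcongr
        _ = ε / (4 * M) := by field_simp
    have e6 : 0 ≤ ε₂ * (n₁ * K₁) := by positivity
    rw [e4]
    calc ‖∑ i, A₁ b i • T (lam₁ i) (f₂ - f₁)
          + (∑ i, A₁ b i • T (lam₁ i) f₁ - I₁ (A₁ b))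
          + (∑ i, A₂ b i • T (lam₂ i) f₂ - I₂ (A₂ b))‖
        ≤ ‖∑ i, A₁ b i • T (lam₁ i) (f₂ - f₁)‖
          + ‖∑ i, A₁ b i • T (lam₁ i) f₁ - I₁ (A₁ b)‖
          + ‖∑ i, A₂ b i • T (lam₂ i) f₂ - I₂ (A₂ b)‖ := norm_add₃_le
      _ ≤ (n₁ * K₁ * ε₂) * ‖I₁ (A₁ b)‖ + ε₁ * ‖I₁ (A₁ b)‖ + ε₂ * ‖I₂ (A₂ b)‖ :=
          add_le_add (add_le_add e3 (hI₁e _)) (hI₂e _)
      _ ≤ (n₁ * K₁ * ε₂) * (M * ‖I b‖) + ε₁ * (M * ‖I b‖) + ε₂ * (M * ‖I b‖) := by
          gcongr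
      _ = (ε₂ * (n₁ * K₁ + 1)) * M * ‖I b‖ + ε₁ * M * ‖I b‖ := by ring
      _ ≤ (ε / (4 * M)) * M * ‖I b‖ + (ε / (4 * M)) * M * ‖I b‖ := by
          gcongr
      _ = ε / 2 * ‖I b‖ := by field_simp; ring
      _ ≤ ε * ‖I b‖ := by
          apply mul_le_mul_of_nonneg_right _ hIn
          linarith

/-- The block lemma: a finite-dimensional target space. -/
theorem block_lemma (hp1 : 1 < p) (hp : p ≠ ∞) :
    ∃ C : ℝ, 0 ≤ C ∧ ∀ (f : X p), Dyad f → f ≠ 0 → ∀ (H : Submodule ℝ (X p)),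
      FiniteDimensional ℝ H → (∀ x ∈ H, Dyad x) → ∀ (B ε : ℝ), 0 < B → 0 < ε →
      (∀ x ∈ H, R (win B) x = x) → BlockAt hp C f H B ε := by
  obtain ⟨C, hC, hsing⟩ := single_target (p := p) hp1 hp
  refine ⟨C, hC, ?_⟩
  intro f hfD hf0 H
  -- induction on the dimension
  induction hd : Module.finrank ℝ H using Nat.strong_induction_on generalizing H with
  | _ d IH =>
    intro hHfd hHD B ε hB hε hHB
    by_cases hH : H = ⊥
    · subst hH
      refine ⟨f, 0, 0, fun i => i.elim0, 0, hfD, by simpa using hε, by simpa using hC, ?_, ?_, ?_,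
        ?_, ?_, ?_, ?_, ?_⟩
      · intro x
        simp
      · have : LinearMap.range (0 : X p →L[ℝ] X p).toLinearMap = ⊥ := by
          rw [LinearMap.range_eq_bot]
          rfl
        rw [this]
        infer_instance
      · intro x
        exact Dyad_zero
      · intro x
        simp
      · intro x
        simp
      · intro a b _
        exact Subsingleton.elim a b
      · have : LinearMap.range (0 : X p →L[ℝ] X p).toLinearMap = ⊥ := by
          rw [LinearMap.range_eq_bot]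
          rfl
        rw [this, LinearMap.range_zero, sup_bot_eq]
      · intro b
        simp
    · obtain ⟨h, hhH, hh0⟩ := Submodule.exists_mem_ne_zero_of_ne_bot hH
      obtain ⟨D, hD⟩ := Submodule.exists_isCompl (Submodule.span ℝ {h})
      have hspan : Submodule.span ℝ {h} ≤ H := by
        rw [Submodule.span_singleton_le_iff_mem]
        exact hhH
      have hsup : (D ⊓ H) ⊔ Submodule.span ℝ {h} = H := by
        rw [sup_comm, ← sup_inf_assoc_of_le D hspan, hD.sup_eq_top, top_inf_eq]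
      have hhD' : h ∉ D ⊓ H := by
        intro h1
        apply hh0
        have h2 : h ∈ Submodule.span ℝ {h} ⊓ D :=
          ⟨Submodule.mem_span_singleton_self h, h1.1⟩
        rw [hD.inf_eq_bot] at h2
        exact (Submodule.mem_bot ℝ).mp h2
      have hlt : D ⊓ H < H := by
        refine lt_of_le_of_ne inf_le_right ?_
        intro h1
        apply hhD'
        rw [h1]
        exact hhH
      have hfr : Module.finrank ℝ (D ⊓ H : Submodule ℝ (X p)) < d := by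
        rw [← hd]
        exact Submodule.finrank_lt_finrank_of_lt hlt
      have hfd' : FiniteDimensional ℝ (D ⊓ H : Submodule ℝ (X p)) :=
        Submodule.finiteDimensional_of_le (inf_le_right (a := D) (b := H))
      have := block_step hp hC hsing f hf0 (D ⊓ H) (fun x hx => hHD x hx.2) B hB
        (fun x hx => hHB x hx.2) h hhD' (hHD h hhH) (hHB h hhH)
        (fun ε' hε' => IH _ hfr (D ⊓ H) rfl hfd' (fun x hx => hHD x hx.2) B ε' hB hε'
          (fun x hx => hHB x hx.2)) ε hε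
      rwa [hsup] at this

end

end Pool.Agent.H26
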