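import Mathlib

open MeasureTheory Filter Topology Set
open scoped ENNReal

namespace Pool.Agent.H26

noncomputable section

variable {p : ℝ≥0∞} [Fact (1 ≤ p)]

/-- The real space `L_p(ℝ)`. -/
abbrev X (p : ℝ≥0∞) := Lp ℝ p (volume : Measure ℝ)

/-- Translation by `a` as a linear isometry. -/
def T (a : ℝ) : X p →ₗᵢ[ℝ] X p :=
  Lp.compMeasurePreservingₗᵢ ℝ (fun x => x - a) (measurePreserving_sub_right volume a)

lemma T_coe (a : ℝ) (x : X p) : ⇑(T a x) =ᵐ[volume] fun t => x (t - a) :=
  Lp.coeFn_compMeasurePreserving x (measurePreserving_sub_right volume a)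

lemma T_comp (a b : ℝ) (x : X p) : T a (T b x) = T (a + b) x := by
  apply Lp.ext
  have h1 := T_coe a (T b x)
  have h2 := T_coe (a + b) x
  have h3 := (measurePreserving_sub_right volume a).quasiMeasurePreserving.ae (T_coe b x)
  filter_upwards [h1, h2, h3] with t h1 h2 h3
  rw [h1, h2, h3]
  congr 1
  ring

lemma T_zero (x : X p) : T 0 x = x := by
  apply Lp.ext
  filter_upwards [T_coe 0 x] with t h1
  rw [h1, sub_zero]

lemma T_comm (a b : ℝ) (x : X p) : T a (T b x) = T b (T a x) := by
  rw [T_comp, T_comp, add_comm]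

lemma T_neg_T (a : ℝ) (x : X p) : T (-a) (T a x) = x := by
  rw [T_comp, neg_add_cancel, T_zero]

lemma T_T_neg (a : ℝ) (x : X p) : T a (T (-a) x) = x := by
  rw [T_comp, add_neg_cancel, T_zero]

@[simp] lemma norm_T (a : ℝ) (x : X p) : ‖T a x‖ = ‖x‖ := (T a).norm_map x

lemma indicator_memLp (s : Set ℝ) (hs : MeasurableSet s) (x : X p) :
    MemLp (s.indicator x) p volume := (Lp.memLp x).indicator hs

lemma norm_toLp_indicator_le (s : Set ℝ) (hs : MeasurableSet s) (x : X p) :
    ‖(indicator_memLp s hs x).toLp _‖ ≤ ‖x‖ := by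
  rw [Lp.norm_toLp, Lp.norm_def]
  apply ENNReal.toReal_mono (Lp.eLpNorm_ne_top x)
  exact eLpNorm_indicator_le _

open Classical in
/-- Restriction of functions to a (measurable) set. -/
def R (s : Set ℝ) : X p →L[ℝ] X p :=
  if hs : MeasurableSet s then
    LinearMap.mkContinuous
      { toFun := fun x => (indicator_memLp s hs x).toLp _
        map_add' := fun x y => by
          apply Lp.ext
          filter_upwards [(indicator_memLp s hs (x + y)).coeFn_toLp,
            (indicator_memLp s hs x).coeFn_toLp, (indicator_memLp s hs y).coeFn_toLp,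
            Lp.coeFn_add x y,
            Lp.coeFn_add ((indicator_memLp s hs x).toLp _) ((indicator_memLp s hs y).toLp _)]
            with t h1 h2 h3 h4 h5
          rw [h1, h5, Pi.add_apply, h2, h3]
          by_cases ht : t ∈ s
          · simp only [indicator_of_mem ht, h4, Pi.add_apply]
          · simp only [indicator_of_notMem ht, add_zero]
        map_smul' := fun c x => by
          apply Lp.ext
          filter_upwards [(indicator_memLp s hs (c • x)).coeFn_toLp,
            (indicator_memLp s hs x).coeFn_toLp,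
            Lp.coeFn_smul c x,
            Lp.coeFn_smul c ((indicator_memLp s hs x).toLp _)]
            with t h1 h2 h4 h5
          simp only [RingHom.id_apply]
          rw [h1, h5, Pi.smul_apply, h2]
          by_cases ht : t ∈ s
          · simp only [indicator_of_mem ht, h4, Pi.smul_apply]
          · simp only [indicator_of_notMem ht, smul_zero] } 1
      (fun x => by
        rw [one_mul]
        exact norm_toLp_indicator_le s hs x)
  else 0

lemma R_coe {s : Set ℝ} (hs : MeasurableSet s) (x : X p) :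
    ⇑(R s x) =ᵐ[volume] s.indicator x := by
  have : R s x = (indicator_memLp s hs x).toLp _ := by
    unfold R
    rw [dif_pos hs]
    rfl
  rw [this]
  exact (indicator_memLp s hs x).coeFn_toLp

lemma R_R {s t : Set ℝ} (hs : MeasurableSet s) (ht : MeasurableSet t) (x : X p) :
    R s (R t x) = R (s ∩ t) x := by
  apply Lp.ext
  filter_upwards [R_coe hs (R t x), R_coe ht x, R_coe (hs.inter ht) x] with u h1 h2 h3
  rw [h1, h3]
  by_cases h : u ∈ s
  · rw [indicator_of_mem h, h2]
    by_cases h' : u ∈ t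
    · rw [indicator_of_mem h', indicator_of_mem (show u ∈ s ∩ t from ⟨h, h'⟩)]
    · rw [indicator_of_notMem h', indicator_of_notMem (fun hh => h' hh.2)]
  · rw [indicator_of_notMem h, indicator_of_notMem (fun hh => h hh.1)]

lemma R_idem {s : Set ℝ} (hs : MeasurableSet s) (x : X p) : R s (R s x) = R s x := by
  rw [R_R hs hs, inter_self]

lemma R_comm {s t : Set ℝ} (hs : MeasurableSet s) (ht : MeasurableSet t) (x : X p) :
    R s (R t x) = R t (R s x) := by
  rw [R_R hs ht, R_R ht hs, inter_comm]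

lemma R_empty (x : X p) : R ∅ x = 0 := by
  apply Lp.ext
  filter_upwards [R_coe MeasurableSet.empty x, Lp.coeFn_zero ℝ p volume] with u h1 h2
  rw [h1, h2]
  simp

lemma R_univ (x : X p) : R univ x = x := by
  apply Lp.ext
  filter_upwards [R_coe MeasurableSet.univ x] with u h1
  rw [h1]
  simp

lemma R_disj {s t : Set ℝ} (hs : MeasurableSet s) (ht : MeasurableSet t) (hst : Disjoint s t)
    (x : X p) : R s (R t x) = 0 := by
  rw [R_R hs ht, hst.inter_eq, R_empty]

lemma R_of_subset {s t : Set ℝ} (hs : MeasurableSet s) (ht : MeasurableSet t) (hst : s ⊆ t)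
    {x : X p} (hx : R s x = x) : R t x = x := by
  rw [← hx, R_R ht hs, inter_eq_self_of_subset_right hst]

lemma R_subset {s t : Set ℝ} (hs : MeasurableSet s) (ht : MeasurableSet t) (hst : s ⊆ t)
    (x : X p) : R s (R t x) = R s x := by
  rw [R_R hs ht, inter_eq_self_of_subset_left hst]

lemma R_zero_of_disj {s t : Set ℝ} (hs : MeasurableSet s) (ht : MeasurableSet t)
    (hst : Disjoint s t) {x : X p} (hx : R t x = x) : R s x = 0 := by
  rw [← hx, R_disj hs ht hst]

lemma R_union {s t : Set ℝ} (hs : MeasurableSet s) (ht : MeasurableSet t) (hst : Disjoint s t)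
    (x : X p) : R (s ∪ t) x = R s x + R t x := by
  apply Lp.ext
  filter_upwards [R_coe (hs.union ht) x, R_coe hs x, R_coe ht x,
    Lp.coeFn_add (R s x) (R t x)] with u h1 h2 h3 h4
  rw [h1, h4, Pi.add_apply, h2, h3, indicator_union_of_disjoint hst]

lemma R_compl {s : Set ℝ} (hs : MeasurableSet s) (x : X p) : R sᶜ x = x - R s x := by
  have := R_union hs hs.compl disjoint_compl_right x
  rw [union_compl_self, R_univ] at this
  rw [eq_sub_iff_add_eq, add_comm]
  exact this.symm

lemma R_add_compl {s : Set ℝ} (hs : MeasurableSet s) (x : X p) : R s x + R sᶜ x = x := by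
  rw [R_compl hs]; abel

lemma norm_R_le (s : Set ℝ) (x : X p) : ‖R s x‖ ≤ ‖x‖ := by
  unfold R
  split_ifs with hs
  · exact norm_toLp_indicator_le s hs x
  · simp

lemma T_R {s : Set ℝ} (hs : MeasurableSet s) (a : ℝ) (x : X p) :
    T a (R s x) = R ((fun t => t - a) ⁻¹' s) (T a x) := by
  have hm : MeasurableSet ((fun t : ℝ => t - a) ⁻¹' s) := (measurable_sub_const a) hs
  apply Lp.ext
  have h1 := T_coe a (R s x)
  have h2 := R_coe hm (T a x)
  have h3 := (measurePreserving_sub_right volume a).quasiMeasurePreserving.ae (R_coe hs x)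
  filter_upwards [h1, h2, h3, T_coe a x] with t h1 h2 h3 h4
  rw [h1, h2, h3]
  by_cases h : t - a ∈ s
  · rw [indicator_of_mem h, indicator_of_mem (show t ∈ (fun t => t - a) ⁻¹' s from h), h4]
  · rw [indicator_of_notMem h, indicator_of_notMem (show t ∉ (fun t => t - a) ⁻¹' s from h)]

lemma T_R_Ico (u v a : ℝ) (x : X p) :
    T a (R (Ico u v) x) = R (Ico (u + a) (v + a)) (T a x) := by
  rw [T_R measurableSet_Ico]
  congr 2
  ext t
  simp only [mem_preimage, mem_Ico]
  constructor <;> rintro ⟨h1, h2⟩ <;> constructor <;> linarith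

/-! ### The power-norm identity -/

lemma norm_rpow_eq (hp : p ≠ ∞) (x : X p) :
    ENNReal.ofReal (‖x‖ ^ p.toReal) = ∫⁻ t, ‖x t‖ₑ ^ p.toReal := by
  have hp0 : p ≠ 0 := (zero_lt_one.trans_le (Fact.out : 1 ≤ p)).ne'
  have hP : 0 < p.toReal := ENNReal.toReal_pos hp0 hp
  rw [Lp.norm_def, eLpNorm_eq_lintegral_rpow_enorm_toReal hp0 hp, ENNReal.toReal_rpow,
    ← ENNReal.rpow_mul, one_div, inv_mul_cancel₀ hP.ne', ENNReal.rpow_one,
    ENNReal.ofReal_toReal]
  have := Lp.eLpNorm_ne_top x
  rw [eLpNorm_eq_lintegral_rpow_enorm_toReal hp0 hp] at this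
  intro h
  apply this
  rw [h, ENNReal.top_rpow_of_pos (by positivity)]

lemma norm_R_add (hp : p ≠ ∞) {s : Set ℝ} (hs : MeasurableSet s) (x : X p) :
    ‖R s x‖ ^ p.toReal + ‖R sᶜ x‖ ^ p.toReal = ‖x‖ ^ p.toReal := by
  have hp0 : p ≠ 0 := (zero_lt_one.trans_le (Fact.out : 1 ≤ p)).ne'
  have hP : 0 < p.toReal := ENNReal.toReal_pos hp0 hp
  have key : ENNReal.ofReal (‖R s x‖ ^ p.toReal + ‖R sᶜ x‖ ^ p.toReal)
      = ENNReal.ofReal (‖x‖ ^ p.toReal) := by
    rw [ENNReal.ofReal_add (by positivity) (by positivity), norm_rpow_eq hp, norm_rpow_eq hp,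
      norm_rpow_eq hp, ← lintegral_add_compl (fun t => ‖x t‖ₑ ^ p.toReal) hs]
    congr 1
    · rw [← lintegral_indicator hs]
      apply lintegral_congr_ae
      filter_upwards [R_coe hs x] with t h1
      rw [h1]
      by_cases h : t ∈ s
      · rw [indicator_of_mem h, indicator_of_mem h]
      · rw [indicator_of_notMem h, indicator_of_notMem h, enorm_zero,
          ENNReal.zero_rpow_of_pos hP]
    · rw [← lintegral_indicator hs.compl]
      apply lintegral_congr_ae
      filter_upwards [R_coe hs.compl x] with t h1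
      rw [h1]
      by_cases h : t ∈ sᶜ
      · rw [indicator_of_mem h, indicator_of_mem h]
      · rw [indicator_of_notMem h, indicator_of_notMem h, enorm_zero,
          ENNReal.zero_rpow_of_pos hP]
  have h1 : 0 ≤ ‖R s x‖ ^ p.toReal + ‖R sᶜ x‖ ^ p.toReal := by positivity
  have h2 : 0 ≤ ‖x‖ ^ p.toReal := by positivity
  exact (ENNReal.ofReal_eq_ofReal_iff h1 h2).mp key

lemma pt_pos (hp : p ≠ ∞) : 0 < p.toReal :=
  ENNReal.toReal_pos (zero_lt_one.trans_le (Fact.out : 1 ≤ p)).ne' hp

lemma one_le_pt (hp : p ≠ ∞) : 1 ≤ p.toReal := by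
  have h := (ENNReal.toReal_le_toReal ENNReal.one_ne_top hp).mpr (Fact.out : 1 ≤ p)
  simpa using h

lemma norm_add_of_disj (hp : p ≠ ∞) {s : Set ℝ} (hs : MeasurableSet s) {x y : X p}
    (hx : R s x = x) (hy : R s y = 0) :
    ‖x + y‖ ^ p.toReal = ‖x‖ ^ p.toReal + ‖y‖ ^ p.toReal := by
  rw [← norm_R_add hp hs (x + y), R_compl hs, map_add, hx, hy, add_zero, add_sub_cancel_left]

lemma R_sum {ι : Type*} (F : Finset ι) (s : Set ℝ) (x : ι → X p) :
    R s (∑ i ∈ F, x i) = ∑ i ∈ F, R s (x i) := map_sum _ _ _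

lemma norm_sum_of_disj (hp : p ≠ ∞) {ι : Type*} (F : Finset ι) (s : ι → Set ℝ)
    (hs : ∀ i ∈ F, MeasurableSet (s i))
    (hd : ∀ i ∈ F, ∀ j ∈ F, i ≠ j → Disjoint (s i) (s j)) (x : ι → X p)
    (hx : ∀ i ∈ F, R (s i) (x i) = x i) :
    ‖∑ i ∈ F, x i‖ ^ p.toReal = ∑ i ∈ F, ‖x i‖ ^ p.toReal := by
  classical
  induction F using Finset.induction_on with
  | empty =>
    simp [Real.zero_rpow (pt_pos hp).ne']
  | insert a F ha ih =>
    rw [Finset.sum_insert ha, Finset.sum_insert ha,
      norm_add_of_disj hp (hs a (Finset.mem_insert_self a F)) (hx a (Finset.mem_insert_self a F)),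
      ih (fun i hi => hs i (Finset.mem_insert_of_mem hi))
        (fun i hi j hj => hd i (Finset.mem_insert_of_mem hi) j (Finset.mem_insert_of_mem hj))
        (fun i hi => hx i (Finset.mem_insert_of_mem hi))]
    rw [R_sum]
    apply Finset.sum_eq_zero
    intro i hi
    have hia : a ≠ i := fun h => ha (h ▸ hi)
    exact R_zero_of_disj (hs a (Finset.mem_insert_self a F)) (hs i (Finset.mem_insert_of_mem hi))
      (hd a (Finset.mem_insert_self a F) i (Finset.mem_insert_of_mem hi) hia)
      (hx i (Finset.mem_insert_of_mem hi))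

lemma R_biUnion {ι : Type*} (F : Finset ι) (s : ι → Set ℝ)
    (hs : ∀ i ∈ F, MeasurableSet (s i))
    (hd : ∀ i ∈ F, ∀ j ∈ F, i ≠ j → Disjoint (s i) (s j)) (x : X p) :
    R (⋃ i ∈ F, s i) x = ∑ i ∈ F, R (s i) x := by
  classical
  induction F using Finset.induction_on with
  | empty => simp [R_empty]
  | insert a F ha ih =>
    rw [Finset.sum_insert ha, Finset.set_biUnion_insert, R_union, ih]
    · exact fun i hi => hs i (Finset.mem_insert_of_mem hi)
    · exact fun i hi j hj => hd i (Finset.mem_insert_of_mem hi) j (Finset.mem_insert_of_mem hj)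
    · exact hs a (Finset.mem_insert_self a F)
    · exact Finset.measurableSet_biUnion F (fun i hi => hs i (Finset.mem_insert_of_mem hi))
    · rw [disjoint_iUnion_right]
      intro i
      rw [disjoint_iUnion_right]
      intro hi
      exact hd a (Finset.mem_insert_self a F) i (Finset.mem_insert_of_mem hi)
        (fun h => ha (h ▸ hi))

lemma sum_norm_R_le (hp : p ≠ ∞) {ι : Type*} (F : Finset ι) (s : ι → Set ℝ)
    (hs : ∀ i ∈ F, MeasurableSet (s i))
    (hd : ∀ i ∈ F, ∀ j ∈ F, i ≠ j → Disjoint (s i) (s j)) (x : X p) :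
    ∑ i ∈ F, ‖R (s i) x‖ ^ p.toReal ≤ ‖x‖ ^ p.toReal := by
  rw [← norm_sum_of_disj hp F s hs hd (fun i => R (s i) x) (fun i hi => R_idem (hs i hi) x),
    ← R_biUnion F s hs hd]
  gcongr
  exact norm_R_le _ _

/-! ### Atoms -/

/-- The indicator function of `[a, b)`. -/
def ind (a b : ℝ) : X p :=
  indicatorConstLp p (measurableSet_Ico (a := a) (b := b)) (by simp) (1 : ℝ)

lemma ind_coe (a b : ℝ) : ⇑(ind a b : X p) =ᵐ[volume] (Ico a b).indicator fun _ => (1 : ℝ) :=
  indicatorConstLp_coeFn

lemma norm_ind (hp : p ≠ ∞) {a b : ℝ} (hab : a ≤ b) :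
    ‖(ind a b : X p)‖ ^ p.toReal = b - a := by
  have hP := pt_pos hp
  unfold ind
  rw [norm_indicatorConstLp (zero_lt_one.trans_le (Fact.out : 1 ≤ p)).ne' hp, norm_one, one_mul,
    ← Real.rpow_mul (by positivity), one_div, inv_mul_cancel₀ hP.ne', Real.rpow_one]
  simp [Measure.real, hab]

lemma ind_ne_zero (hp : p ≠ ∞) {a b : ℝ} (hab : a < b) : (ind a b : X p) ≠ 0 := by
  intro h
  have := norm_ind (p := p) hp hab.le
  rw [h, norm_zero, Real.zero_rpow (pt_pos hp).ne'] at this
  linarith

lemma T_ind (c a b : ℝ) : T c (ind a b : X p) = ind (a + c) (b + c) := by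
  apply Lp.ext
  have h3 := (measurePreserving_sub_right volume c).quasiMeasurePreserving.ae
    (ind_coe (p := p) a b)
  filter_upwards [T_coe c (ind a b : X p), ind_coe (p := p) (a + c) (b + c), h3] with t h1 h2 h3
  rw [h1, h2, h3]
  by_cases h : t - c ∈ Ico a b
  · rw [indicator_of_mem h, indicator_of_mem]
    rw [mem_Ico] at h ⊢
    constructor <;> linarith [h.1, h.2]
  · rw [indicator_of_notMem h, indicator_of_notMem]
    intro h'
    apply h
    rw [mem_Ico] at h' ⊢
    constructor <;> linarith [h'.1, h'.2]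

lemma R_ind_self (a b : ℝ) : R (Ico a b) (ind a b : X p) = ind a b := by
  apply Lp.ext
  filter_upwards [R_coe measurableSet_Ico (ind a b : X p), ind_coe (p := p) a b] with t h1 h2
  rw [h1]
  by_cases h : t ∈ Ico a b
  · rw [indicator_of_mem h]
  · rw [indicator_of_notMem h, h2, indicator_of_notMem h]

lemma ind_add {a b c : ℝ} (hab : a ≤ b) (hbc : b ≤ c) :
    (ind a b : X p) + ind b c = ind a c := by
  apply Lp.ext
  filter_upwards [Lp.coeFn_add (ind a b : X p) (ind b c), ind_coe (p := p) a b,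
    ind_coe (p := p) b c, ind_coe (p := p) a c] with t h1 h2 h3 h4
  rw [h1, Pi.add_apply, h2, h3, h4]
  simp only [indicator_apply, mem_Ico]
  split_ifs <;> first | (norm_num; done) | (exfalso; grind)

/-- The dyadic atom `1_{[j/2^n, (j+1)/2^n)}`. -/
def atom (n : ℕ) (j : ℤ) : X p := ind (j / 2 ^ n) ((j + 1) / 2 ^ n)

/-- The dyadic step functions of mesh `2^{-n}` (with bounded support). -/
def Dy (p : ℝ≥0∞) [Fact (1 ≤ p)] (n : ℕ) : Submodule ℝ (X p) :=
  Submodule.span ℝ (Set.range (atom (p := p) n))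

/-- The dyadic step functions with bounded support. -/
def Dyad (x : X p) : Prop := ∃ n, x ∈ Dy p n

end

end Pool.Agent.H26
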