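import Pool.Agent.Lib.H26.Asm

open MeasureTheory Filter Topology Set
open scoped ENNReal

namespace Pool.Agent.H26

noncomputable section

/-- The translation `(T_a f)(x) = f (x - a)` on `L_p(ℝ; 𝕜)`. -/
def translate (𝕜 : Type*) [RCLike 𝕜] (p : ℝ≥0∞) [Fact (1 ≤ p)] (a : ℝ) :
    Lp 𝕜 p (volume : Measure ℝ) →ₗᵢ[𝕜] Lp 𝕜 p (volume : Measure ℝ) :=
  Lp.compMeasurePreservingₗᵢ 𝕜 (fun x => x - a) (measurePreserving_sub_right volume a)

section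
variable (𝕜 : Type*) [RCLike 𝕜] {p : ℝ≥0∞} [Fact (1 ≤ p)]

/-- Inclusion of the real functions. -/
def inc : X p →L[ℝ] Lp 𝕜 p (volume : Measure ℝ) :=
  (RCLike.ofRealCLM : ℝ →L[ℝ] 𝕜).compLpL p volume

/-- Real part. -/
def reP : Lp 𝕜 p (volume : Measure ℝ) →L[ℝ] X p :=
  (RCLike.reCLM : 𝕜 →L[ℝ] ℝ).compLpL p volume

/-- Imaginary part. -/
def imP : Lp 𝕜 p (volume : Measure ℝ) →L[ℝ] X p :=
  (RCLike.imCLM : 𝕜 →L[ℝ] ℝ).compLpL p volume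

lemma inc_coe (x : X p) : ⇑(inc 𝕜 x) =ᵐ[volume] fun t => ((x t : ℝ) : 𝕜) :=
  ContinuousLinearMap.coeFn_compLpL _ _

lemma reP_coe (x : Lp 𝕜 p (volume : Measure ℝ)) :
    ⇑(reP 𝕜 x) =ᵐ[volume] fun t => RCLike.re (x t) :=
  ContinuousLinearMap.coeFn_compLpL _ _

lemma imP_coe (x : Lp 𝕜 p (volume : Measure ℝ)) :
    ⇑(imP 𝕜 x) =ᵐ[volume] fun t => RCLike.im (x t) :=
  ContinuousLinearMap.coeFn_compLpL _ _

lemma decomp (x : Lp 𝕜 p (volume : Measure ℝ)) :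
    x = inc 𝕜 (reP 𝕜 x) + (RCLike.I : 𝕜) • inc 𝕜 (imP 𝕜 x) := by
  apply Lp.ext
  filter_upwards [Lp.coeFn_add (inc 𝕜 (reP 𝕜 x)) ((RCLike.I : 𝕜) • inc 𝕜 (imP 𝕜 x)),
    Lp.coeFn_smul (RCLike.I : 𝕜) (inc 𝕜 (imP 𝕜 x)), inc_coe 𝕜 (reP 𝕜 x), inc_coe 𝕜 (imP 𝕜 x),
    reP_coe 𝕜 x, imP_coe 𝕜 x] with t h1 h2 h3 h4 h5 h6
  rw [h1, Pi.add_apply, h2, Pi.smul_apply, h3, h4, h5, h6, smul_eq_mul, mul_comm]
  exact (RCLike.re_add_im (x t)).symm

lemma reP_smul_inc (r : 𝕜) (s : X p) : reP 𝕜 (r • inc 𝕜 s) = (RCLike.re r) • s := by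
  apply Lp.ext
  filter_upwards [reP_coe 𝕜 (r • inc 𝕜 s), Lp.coeFn_smul r (inc 𝕜 s), inc_coe 𝕜 s,
    Lp.coeFn_smul (RCLike.re r) s] with t h1 h2 h3 h4
  rw [h1, h2, h4, Pi.smul_apply, Pi.smul_apply, h3, smul_eq_mul, smul_eq_mul,
    RCLike.re_mul_ofReal]

lemma imP_smul_inc (r : 𝕜) (s : X p) : imP 𝕜 (r • inc 𝕜 s) = (RCLike.im r) • s := by
  apply Lp.ext
  filter_upwards [imP_coe 𝕜 (r • inc 𝕜 s), Lp.coeFn_smul r (inc 𝕜 s), inc_coe 𝕜 s,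
    Lp.coeFn_smul (RCLike.im r) s] with t h1 h2 h3 h4
  rw [h1, h2, h4, Pi.smul_apply, Pi.smul_apply, h3, smul_eq_mul, smul_eq_mul,
    RCLike.im_mul_ofReal]

lemma inc_smul (r : ℝ) (s : X p) : inc 𝕜 (r • s) = (r : 𝕜) • inc 𝕜 s := by
  apply Lp.ext
  filter_upwards [inc_coe 𝕜 (r • s), Lp.coeFn_smul (r : 𝕜) (inc 𝕜 s), inc_coe 𝕜 s,
    Lp.coeFn_smul r s] with t h1 h2 h3 h4
  rw [h1, h2, h4, Pi.smul_apply, Pi.smul_apply, h3, smul_eq_mul, smul_eq_mul, RCLike.ofReal_mul]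

lemma inc_T (a : ℝ) (s : X p) : inc 𝕜 (T a s) = translate 𝕜 p a (inc 𝕜 s) := by
  apply Lp.ext
  have h0 := (measurePreserving_sub_right volume a).quasiMeasurePreserving.ae (inc_coe 𝕜 s)
  have h5 : ⇑(translate 𝕜 p a (inc 𝕜 s)) =ᵐ[volume] fun t => (inc 𝕜 s) (t - a) :=
    Lp.coeFn_compMeasurePreserving _ (measurePreserving_sub_right volume a)
  filter_upwards [inc_coe 𝕜 (T a s), T_coe a s, h0, h5] with t h1 h2 h3 h4
  rw [h1, h2, h4, h3]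

lemma inc_mem_span {S : Set (X p)} {u : X p} (hu : u ∈ Submodule.span ℝ S) :
    inc 𝕜 u ∈ Submodule.span 𝕜 (inc 𝕜 '' S) := by
  induction hu using Submodule.closure_induction with
  | zero => rw [map_zero]; exact Submodule.zero_mem _
  | add x y _ _ hx hy => rw [map_add]; exact Submodule.add_mem _ hx hy
  | smul_mem r x hx =>
    rw [inc_smul]
    exact Submodule.smul_mem _ _ (Submodule.subset_span ⟨x, hx, rfl⟩)

lemma reP_mem_span {S : Set (X p)} {u : Lp 𝕜 p (volume : Measure ℝ)}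
    (hu : u ∈ Submodule.span 𝕜 (inc 𝕜 '' S)) : reP 𝕜 u ∈ Submodule.span ℝ S := by
  induction hu using Submodule.closure_induction with
  | zero => rw [map_zero]; exact Submodule.zero_mem _
  | add x y _ _ hx hy => rw [map_add]; exact Submodule.add_mem _ hx hy
  | smul_mem r x hx =>
    obtain ⟨s, hs, rfl⟩ := hx
    rw [reP_smul_inc]
    exact Submodule.smul_mem _ _ (Submodule.subset_span hs)

lemma imP_mem_span {S : Set (X p)} {u : Lp 𝕜 p (volume : Measure ℝ)}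
    (hu : u ∈ Submodule.span 𝕜 (inc 𝕜 '' S)) : imP 𝕜 u ∈ Submodule.span ℝ S := by
  induction hu using Submodule.closure_induction with
  | zero => rw [map_zero]; exact Submodule.zero_mem _
  | add x y _ _ hx hy => rw [map_add]; exact Submodule.add_mem _ hx hy
  | smul_mem r x hx =>
    obtain ⟨s, hs, rfl⟩ := hx
    rw [imP_smul_inc]
    exact Submodule.smul_mem _ _ (Submodule.subset_span hs)

lemma tendsto_map_sum {V W : Type*} [AddCommGroup V] [TopologicalSpace V] [Module ℝ V]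
    [AddCommGroup W] [TopologicalSpace W] [Module ℝ W] (L : V →L[ℝ] W) {y : ℕ → V} {x : V}
    (h : Tendsto (fun n => ∑ k ∈ Finset.range n, y k) atTop (𝓝 x)) :
    Tendsto (fun n => ∑ k ∈ Finset.range n, L (y k)) atTop (𝓝 (L x)) := by
  have := (L.continuous.tendsto x).comp h
  refine this.congr fun n => ?_
  rw [Function.comp_apply, map_sum]

/-- Transfer of an unconditional FDD from the real to the `𝕜`-valued space. -/
theorem transfer (S : ℕ → Set (X p)) (hS : ∀ k, (S k).Finite)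
    (h : IsUnconditionalFDD (fun k => Submodule.span ℝ (S k))) :
    IsUnconditionalFDD (fun k => Submodule.span 𝕜 (inc 𝕜 '' S k)) := by
  obtain ⟨⟨_, hex⟩, hun⟩ := h
  have huniq : ∀ (x : X p) (y z : ℕ → X p), (∀ k, y k ∈ Submodule.span ℝ (S k)) →
      (∀ k, z k ∈ Submodule.span ℝ (S k)) →
      Tendsto (fun n => ∑ k ∈ Finset.range n, y k) atTop (𝓝 x) →
      Tendsto (fun n => ∑ k ∈ Finset.range n, z k) atTop (𝓝 x) → y = z := by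
    intro x y z hy hz hy' hz'
    obtain ⟨w, -, hw⟩ := hex x
    rw [hw y ⟨hy, hy'⟩, hw z ⟨hz, hz'⟩]
  refine ⟨⟨fun k => FiniteDimensional.span_of_finite 𝕜 ((hS k).image _), fun x => ?_⟩, ?_⟩
  · obtain ⟨u, ⟨hu1, hu2⟩, -⟩ := hex (reP 𝕜 x)
    obtain ⟨v, ⟨hv1, hv2⟩, -⟩ := hex (imP 𝕜 x)
    refine ⟨fun k => inc 𝕜 (u k) + (RCLike.I : 𝕜) • inc 𝕜 (v k), ⟨fun k => ?_, ?_⟩, ?_⟩
    · exact Submodule.add_mem _ (inc_mem_span 𝕜 (hu1 k))
        (Submodule.smul_mem _ _ (inc_mem_span 𝕜 (hv1 k)))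
    · have h1 := tendsto_map_sum (inc 𝕜) hu2
      have h2 := (tendsto_map_sum (inc 𝕜) hv2).const_smul (RCLike.I : 𝕜)
      have h3 := h1.add h2
      rw [← decomp 𝕜 x] at h3
      refine h3.congr fun n => ?_
      rw [Finset.smul_sum, ← Finset.sum_add_distrib]
    · rintro y ⟨hy1, hy2⟩
      have e1 : (fun k => reP 𝕜 (y k)) = u :=
        huniq (reP 𝕜 x) _ _ (fun k => reP_mem_span 𝕜 (hy1 k)) hu1
          (tendsto_map_sum (reP 𝕜) hy2) hu2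
      have e2 : (fun k => imP 𝕜 (y k)) = v :=
        huniq (imP 𝕜 x) _ _ (fun k => imP_mem_span 𝕜 (hy1 k)) hv1
          (tendsto_map_sum (imP 𝕜) hy2) hv2
      funext k
      rw [← e1, ← e2]
      exact decomp 𝕜 (y k)
  · intro x y hy1 hy2
    have h1 : HasSum (fun k => reP 𝕜 (y k)) (reP 𝕜 x) :=
      hun (reP 𝕜 x) _ (fun k => reP_mem_span 𝕜 (hy1 k)) (tendsto_map_sum (reP 𝕜) hy2)
    have h2 : HasSum (fun k => imP 𝕜 (y k)) (imP 𝕜 x) :=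
      hun (imP 𝕜 x) _ (fun k => imP_mem_span 𝕜 (hy1 k)) (tendsto_map_sum (imP 𝕜) hy2)
    have h3 := ((inc 𝕜).hasSum h1).add (((inc 𝕜).hasSum h2).const_smul (RCLike.I : 𝕜))
    rw [← decomp 𝕜 x] at h3
    have h4 : y = fun k => inc 𝕜 (reP 𝕜 (y k)) + (RCLike.I : 𝕜) • inc 𝕜 (imP 𝕜 (y k)) :=
      funext fun k => decomp 𝕜 (y k)
    rw [h4]
    exact h3

end

/-- The main theorem over `𝕜 = ℝ` or `ℂ`. -/
theorem main_rclike (𝕜 : Type*) [RCLike 𝕜] (p : ℝ≥0∞) [Fact (1 ≤ p)] (hp1 : 1 < p) (hp : p ≠ ∞) :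
    ∃ (f : Lp 𝕜 p (volume : Measure ℝ)) (lam : ℕ → ℝ) (n : ℕ → ℕ), n 0 = 0 ∧ StrictMono n ∧
      IsUnconditionalFDD (fun k => Submodule.span 𝕜
        {g : Lp 𝕜 p (volume : Measure ℝ) |
          ∃ i, n k ≤ i ∧ i < n (k + 1) ∧ g = translate 𝕜 p (lam i) f}) := by
  obtain ⟨f, lam, n, hn0, hn, h⟩ := real_main (p := p) hp1 hp
  refine ⟨inc 𝕜 f, lam, n, hn0, hn, ?_⟩
  have hfin : ∀ k, {g : X p | ∃ i, n k ≤ i ∧ i < n (k + 1) ∧ g = T (lam i) f}.Finite := by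
    intro k
    apply ((Finset.Ico (n k) (n (k + 1))).finite_toSet.image fun i => T (lam i) f).subset
    rintro g ⟨i, h1, h2, rfl⟩
    exact ⟨i, by simp [h1, h2], rfl⟩
  have key := transfer 𝕜 _ hfin h
  have heq : ∀ k, inc 𝕜 '' {g : X p | ∃ i, n k ≤ i ∧ i < n (k + 1) ∧ g = T (lam i) f}
      = {g : Lp 𝕜 p (volume : Measure ℝ) |
          ∃ i, n k ≤ i ∧ i < n (k + 1) ∧ g = translate 𝕜 p (lam i) (inc 𝕜 f)} := by
    intro k
    ext g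
    constructor
    · rintro ⟨s, ⟨i, h1, h2, rfl⟩, rfl⟩
      exact ⟨i, h1, h2, inc_T 𝕜 _ _⟩
    · rintro ⟨i, h1, h2, rfl⟩
      exact ⟨T (lam i) f, ⟨i, h1, h2, rfl⟩, inc_T 𝕜 _ _⟩
  simpa only [heq] using key

end

end Pool.Agent.H26
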