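import Pool.Agent.Lib.H26.Exp

open MeasureTheory Filter Topology Set
open scoped ENNReal

namespace Pool.Agent.H26

noncomputable section

variable {p : ℝ≥0∞} [Fact (1 ≤ p)]

lemma cyc_R_T_win {B : ℝ} {x : X p} (hx : R (win B) x = x) (a : ℝ) :
    R (Ico (-B + a) (B + a)) (T a x) = T a x := by
  have h := T_R_Ico (-B) B a x
  rw [← h]
  exact congrArg (T a) hx

/-- Averages of `ψ` over disjointly supported translates tend to zero. -/
lemma avg_disj (hp1 : 1 < p) (hp : p ≠ ∞) (ψ : X p →L[ℝ] ℝ) {B : ℝ} (x : X p)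
    (hx : R (win B) x = x) (θ : ℕ → ℝ) (hθ : ∀ l l', l < l' → θ l + 2 * B ≤ θ l') (v : ℝ)
    (hv : Tendsto (fun l => ψ (T (θ l) x)) atTop (𝓝 v)) : v = 0 := by
  have hP := pt_pos (p := p) hp
  have hP1 : 1 < p.toReal := by
    have := (ENNReal.toReal_lt_toReal ENNReal.one_ne_top hp).mpr hp1
    simpa using this
  have h1 : ∀ K : ℕ, ‖∑ l ∈ Finset.range K, T (θ l) x‖ ^ p.toReal = K * ‖x‖ ^ p.toReal := by
    intro K
    rw [norm_sum_of_disj hp (Finset.range K) (fun l => Ico (-B + θ l) (B + θ l))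
      (fun i _ => measurableSet_Ico) ?_ (fun l => T (θ l) x) (fun i _ => cyc_R_T_win hx (θ i))]
    · simp
    · intro i _ j _ hij
      rw [Set.disjoint_left]
      intro t ht ht'
      simp only [mem_Ico] at ht ht'
      rcases lt_or_gt_of_ne hij with h | h
      · have := hθ i j h
        linarith [ht.1, ht.2, ht'.1, ht'.2]
      · have := hθ j i h
        linarith [ht.1, ht.2, ht'.1, ht'.2]
  have h1' : ∀ K : ℕ, ‖∑ l ∈ Finset.range K, T (θ l) x‖ = (K : ℝ) ^ (1 / p.toReal) * ‖x‖ := by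
    intro K
    have h := h1 K
    have h2 : (‖∑ l ∈ Finset.range K, T (θ l) x‖ ^ p.toReal) ^ (1 / p.toReal)
        = ((K : ℝ) * ‖x‖ ^ p.toReal) ^ (1 / p.toReal) := by rw [h]
    rw [← Real.rpow_mul (norm_nonneg _), mul_one_div_cancel hP.ne', Real.rpow_one,
      Real.mul_rpow (by positivity) (by positivity), ← Real.rpow_mul (norm_nonneg _),
      mul_one_div_cancel hP.ne', Real.rpow_one] at h2
    exact h2
  have h2 : ∀ K : ℕ, 1 ≤ K → ‖(K : ℝ)⁻¹ * ∑ l ∈ Finset.range K, ψ (T (θ l) x)‖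
      ≤ (K : ℝ) ^ (-(1 - 1 / p.toReal)) * (‖ψ‖ * ‖x‖) := by
    intro K hK
    have hK0 : (0 : ℝ) < K := by exact_mod_cast hK
    rw [← map_sum, norm_mul, norm_inv, Real.norm_natCast]
    calc (K : ℝ)⁻¹ * ‖ψ (∑ l ∈ Finset.range K, T (θ l) x)‖
        ≤ (K : ℝ)⁻¹ * (‖ψ‖ * ((K : ℝ) ^ (1 / p.toReal) * ‖x‖)) := by
          rw [← h1' K]
          gcongr
          exact ψ.le_opNorm _
      _ = (K : ℝ) ^ (-(1 - 1 / p.toReal)) * (‖ψ‖ * ‖x‖) := by
          rw [neg_sub, Real.rpow_sub hK0, Real.rpow_one]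
          field_simp
  have h3 : Tendsto (fun K : ℕ => (K : ℝ) ^ (-(1 - 1 / p.toReal)) * (‖ψ‖ * ‖x‖)) atTop (𝓝 0) := by
    have hpos : 0 < 1 - 1 / p.toReal := by
      rw [sub_pos, div_lt_one hP]
      exact hP1
    have := ((tendsto_rpow_neg_atTop hpos).comp tendsto_natCast_atTop_atTop).mul_const
      (‖ψ‖ * ‖x‖)
    rw [zero_mul] at this
    exact this
  have h4 : Tendsto (fun K : ℕ => (K : ℝ)⁻¹ * ∑ l ∈ Finset.range K, ψ (T (θ l) x)) atTop (𝓝 0) := by
    apply squeeze_zero_norm' _ h3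
    filter_upwards [eventually_ge_atTop 1] with K hK
    exact h2 K hK
  exact tendsto_nhds_unique hv.cesaro h4

/-- `ψ ∘ T a`. -/
def pull (ψ : X p →L[ℝ] ℝ) (a : ℝ) : X p →L[ℝ] ℝ := ψ.comp (T a).toContinuousLinearMap

lemma pull_apply (ψ : X p →L[ℝ] ℝ) (a : ℝ) (x : X p) : pull ψ a x = ψ (T a x) := rfl

lemma norm_pull (ψ : X p →L[ℝ] ℝ) (a : ℝ) : ‖pull ψ a‖ = ‖ψ‖ := by
  have key : ∀ (ψ : X p →L[ℝ] ℝ) (a : ℝ), ‖pull ψ a‖ ≤ ‖ψ‖ := by
    intro ψ a
    apply ContinuousLinearMap.opNorm_le_bound _ (norm_nonneg _)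
    intro x
    rw [pull_apply]
    calc ‖ψ (T a x)‖ ≤ ‖ψ‖ * ‖T a x‖ := ψ.le_opNorm _
      _ = ‖ψ‖ * ‖x‖ := by rw [norm_T]
  apply le_antisymm (key ψ a)
  have h : pull (pull ψ a) (-a) = ψ := by
    ext x
    rw [pull_apply, pull_apply, T_T_neg]
  calc ‖ψ‖ = ‖pull (pull ψ a) (-a)‖ := by rw [h]
    _ ≤ ‖pull ψ a‖ := key _ _

lemma strictMono_gap {φ : ℕ → ℕ} (hφ : StrictMono φ) (n k : ℕ) : φ n + k ≤ φ (n + k) := by
  induction k with
  | zero => simp
  | succ k ih =>
    have : φ (n + k) < φ (n + (k + 1)) := hφ (by omega)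
    omega

/-- A functional whose translates satisfy a nontrivial linear recurrence is zero. -/
lemma rec_zero (hp1 : 1 < p) (hp : p ≠ ∞) {δ : ℝ} (hδ : 0 < δ) (c : ℤ →₀ ℝ) (hc : c ≠ 0)
    (ψ : X p →L[ℝ] ℝ) (h : ∀ x, ∑ j ∈ c.support, c j * ψ (T (j * δ) x) = 0) : ψ = 0 := by
  classical
  have hne : c.support.Nonempty := Finsupp.support_nonempty_iff.mpr hc
  set b := c.support.max' hne with hb
  set a := c.support.min' hne with ha
  have hcb : c b ≠ 0 := Finsupp.mem_support_iff.mp (c.support.max'_mem hne)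
  let Ψ : ℤ → (X p →L[ℝ] ℝ) := fun i => pull ψ (i * δ)
  let W : Submodule ℝ (X p →L[ℝ] ℝ) := Submodule.span ℝ ((Finset.Ico a b).image Ψ : Finset _)
  have hW : FiniteDimensional ℝ W := FiniteDimensional.span_finset ℝ _
  -- the recurrence
  have hrec : ∀ i : ℤ, ∑ j ∈ c.support, c j • Ψ (j + i) = 0 := by
    intro i
    ext x
    rw [_root_.sum_apply]
    have := h (T (i * δ) x)
    simp only [_root_.smul_apply, smul_eq_mul, _root_.zero_apply]
    rw [← this]
    apply Finset.sum_congr rfl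
    intro j _
    rw [T_comp]
    show c j * ψ (T (((j + i : ℤ) : ℝ) * δ) x) = _
    congr 3
    push_cast
    ring_nf
  have hmem : ∀ n : ℕ, Ψ (a + n) ∈ W := by
    intro n
    induction n using Nat.strong_induction_on with
    | _ n ih =>
      by_cases hlt : a + n < b
      · apply Submodule.subset_span
        rw [Finset.mem_coe, Finset.mem_image]
        exact ⟨a + n, by rw [Finset.mem_Ico]; omega, rfl⟩
      · have h1 := hrec (a + n - b)
        rw [← Finset.add_sum_erase _ _ (c.support.max'_mem hne)] at h1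
        rw [← hb] at h1
        have h2 : b + (a + n - b) = a + n := by ring
        rw [h2] at h1
        have h3 : Ψ (a + n) = (c b)⁻¹ • (-∑ j ∈ c.support.erase b, c j • Ψ (j + (a + n - b))) := by
          have h4 : c b • Ψ (a + n) = -∑ j ∈ c.support.erase b, c j • Ψ (j + (a + n - b)) :=
            eq_neg_of_add_eq_zero_left h1
          rw [← h4, smul_smul, inv_mul_cancel₀ hcb, one_smul]
        rw [h3]
        apply W.smul_mem
        apply W.neg_mem
        apply W.sum_mem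
        intro j hj
        apply W.smul_mem
        rw [Finset.mem_erase] at hj
        have hj1 : j ≤ b := c.support.le_max' j hj.2
        have hj2 : a ≤ j := c.support.min'_le j hj.2
        have hj3 : j < b := lt_of_le_of_ne hj1 hj.1
        have h5 : j + (a + n - b) = a + ((n - (b - j)).toNat : ℕ) := by
          rw [Int.toNat_of_nonneg (by omega)]
          ring
        rw [h5]
        apply ih
        omega
  -- compactness
  let u : ℕ → W := fun n => ⟨Ψ (a + n), hmem n⟩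
  have : ProperSpace W := FiniteDimensional.proper ℝ W
  obtain ⟨w, -, φ, hφ, hlim⟩ := tendsto_subseq_of_bounded
    (Metric.isBounded_closedBall (x := (0 : W)) (r := ‖ψ‖))
    (x := u) (fun n => by
      rw [Metric.mem_closedBall]
      have h1 : dist (u n) 0 = ‖Ψ (a + n) - 0‖ := by
        rw [← dist_eq_norm]
        rfl
      rw [h1, sub_zero]
      exact (norm_pull ψ _).le)
  have hlim' : Tendsto (fun l => ((u (φ l) : W) : X p →L[ℝ] ℝ)) atTop (𝓝 (w : X p →L[ℝ] ℝ)) :=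
    (continuous_subtype_val.tendsto w).comp hlim
  have hpt : ∀ x : X p, Tendsto (fun l => Ψ (a + φ l) x) atTop (𝓝 ((w : X p →L[ℝ] ℝ) x)) := by
    intro x
    have hc : Continuous fun g : X p →L[ℝ] ℝ => g x :=
      (ContinuousLinearMap.apply ℝ ℝ x).continuous
    exact (hc.tendsto _).comp hlim'
  have hw0 : (w : X p →L[ℝ] ℝ) = 0 := by
    have hbd : ∀ (B : ℝ) (x : X p), R (win B) x = x → (w : X p →L[ℝ] ℝ) x = 0 := by
      intro B x hx
      obtain ⟨M, hM⟩ := exists_nat_ge (2 * B / δ)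
      rw [div_le_iff₀ hδ] at hM
      apply avg_disj hp1 hp ψ x hx (fun l => ((a + φ (l * (M + 1)) : ℤ) : ℝ) * δ)
      · intro l l' hll'
        have h1 : φ (l * (M + 1)) + (M + 1) ≤ φ (l' * (M + 1)) := by
          have h2 := strictMono_gap hφ (l * (M + 1)) (M + 1)
          have h3 : l * (M + 1) + (M + 1) ≤ l' * (M + 1) := by
            calc l * (M + 1) + (M + 1) = (l + 1) * (M + 1) := by ring
              _ ≤ l' * (M + 1) := Nat.mul_le_mul_right _ hll'
          exact h2.trans (hφ.monotone h3)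
        have h4 : (φ (l * (M + 1)) : ℝ) + (M + 1) ≤ φ (l' * (M + 1)) := by exact_mod_cast h1
        push_cast
        nlinarith
      · have hM1 : Tendsto (fun l : ℕ => l * (M + 1)) atTop atTop :=
          tendsto_id.atTop_mul_const' (Nat.succ_pos M)
        exact (hpt x).comp hM1
    ext x
    rw [_root_.zero_apply]
    have h1 : Tendsto (fun n => (w : X p →L[ℝ] ℝ) (EE hp n x)) atTop
        (𝓝 ((w : X p →L[ℝ] ℝ) x)) :=
      ((w : X p →L[ℝ] ℝ).continuous.tendsto x).comp (EE_tendsto hp x)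
    have h2 : ∀ n, (w : X p →L[ℝ] ℝ) (EE hp n x) = 0 := fun n => hbd n _ (R_win_EE hp n x)
    simp only [h2] at h1
    exact tendsto_nhds_unique h1 tendsto_const_nhds
  have hnorm : Tendsto (fun l => ‖((u (φ l) : W) : X p →L[ℝ] ℝ)‖) atTop
      (𝓝 ‖(w : X p →L[ℝ] ℝ)‖) := hlim'.norm
  have hu' : ∀ n, ‖((u n : W) : X p →L[ℝ] ℝ)‖ = ‖ψ‖ := fun n => norm_pull ψ _
  simp only [hu'] at hnorm
  have : ‖ψ‖ = ‖(w : X p →L[ℝ] ℝ)‖ := tendsto_nhds_unique tendsto_const_nhds hnorm
  rw [hw0, norm_zero] at this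
  exact norm_eq_zero.mp this

lemma eq_zero_of_atom (hp : p ≠ ∞) (χ : X p →L[ℝ] ℝ) (h : ∀ n j, χ (atom n j) = 0) : χ = 0 := by
  ext x
  rw [_root_.zero_apply]
  have h1 : Tendsto (fun n => χ (EE hp n x)) atTop (𝓝 (χ x)) :=
    (χ.continuous.tendsto x).comp (EE_tendsto hp x)
  have h2 : ∀ n, χ (EE hp n x) = 0 := by
    intro n
    rw [EE_apply, map_sum]
    apply Finset.sum_eq_zero
    intro j _
    rw [map_smul, h, smul_zero]
  simp only [h2] at h1
  exact tendsto_nhds_unique h1 tendsto_const_nhds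

lemma ind_exchange (a : ℝ) {s t : ℝ} (hs : 0 ≤ s) (ht : 0 ≤ t) :
    (ind a (a + s) : X p) - ind (a + t) (a + t + s)
      = ind a (a + t) - ind (a + s) (a + s + t) := by
  have h1 : (ind a (a + s) : X p) + ind (a + s) (a + s + t) = ind a (a + s + t) :=
    ind_add (by linarith) (by linarith)
  have h2 : (ind a (a + t) : X p) + ind (a + t) (a + t + s) = ind a (a + t + s) :=
    ind_add (by linarith) (by linarith)
  have h3 : a + s + t = a + t + s := by ring
  rw [h3] at h1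
  rw [h3, sub_eq_sub_iff_add_eq_add, h1, h2]

/-- A functional vanishing on all differences of dyadic translates of `f` is zero. -/
lemma dual_zero (hp1 : 1 < p) (hp : p ≠ ∞) {f : X p} (hf : Dyad f) (hf0 : f ≠ 0)
    (ψ : X p →L[ℝ] ℝ) (h : ∀ a b, DyR a → DyR b → ψ (T a f - T b f) = 0) : ψ = 0 := by
  obtain ⟨n, hn⟩ := hf
  obtain ⟨c, hc⟩ := (Finsupp.mem_span_range_iff_exists_finsupp).mp hn
  have hc0 : c ≠ 0 := by
    rintro rfl
    exact hf0 (by rw [← hc]; simp)
  set δ : ℝ := 1 / 2 ^ n with hδ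
  have hδ0 : 0 < δ := by positivity
  -- the functional `ψ - ψ ∘ T δ`
  have hφ0 : ψ - pull ψ δ = 0 := by
    apply rec_zero hp1 hp hδ0 c hc0
    have hχ : ∑ j ∈ c.support, c j • pull (ψ - pull ψ δ) (j * δ) = 0 := by
      apply eq_zero_of_atom hp
      intro m i
      rw [_root_.sum_apply]
      have h1 := h (i / 2 ^ m) (i / 2 ^ m + 1 / 2 ^ m) ⟨m, i, rfl⟩
        ⟨m, i + 1, by push_cast; ring⟩
      rw [← hc] at h1
      rw [Finsupp.sum, map_sum, map_sum, ← Finset.sum_sub_distrib, map_sum] at h1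
      rw [← h1]
      apply Finset.sum_congr rfl
      intro j _
      rw [_root_.smul_apply, pull_apply, _root_.sub_apply, pull_apply,
        map_smul, map_smul, ← smul_sub, map_smul, ← map_sub]
      congr 2
      rw [T_comp]
      simp only [atom, T_ind]
      have key := ind_exchange (p := p) (j / 2 ^ n + i / 2 ^ m) (s := 1 / 2 ^ n) (t := 1 / 2 ^ m)
        (by positivity) (by positivity)
      have e1 : (j : ℝ) / 2 ^ n + i / 2 ^ m + 1 / 2 ^ n = (j + 1) / 2 ^ n + i / 2 ^ m := by ring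
      have e2 : (j : ℝ) / 2 ^ n + i / 2 ^ m + 1 / 2 ^ m
        = j / 2 ^ n + (i / 2 ^ m + 1 / 2 ^ m) := by ring
      have e3 : (j : ℝ) / 2 ^ n + i / 2 ^ m + 1 / 2 ^ m + 1 / 2 ^ n
        = (j + 1) / 2 ^ n + (i / 2 ^ m + 1 / 2 ^ m) := by ring
      have e4 : (i : ℝ) / 2 ^ m + j * δ = j / 2 ^ n + i / 2 ^ m := by rw [hδ]; ring
      have e5 : ((i : ℝ) + 1) / 2 ^ m + j * δ = j / 2 ^ n + i / 2 ^ m + 1 / 2 ^ m := by
        rw [hδ]; ring
      have e6 : (i : ℝ) / 2 ^ m + (δ + j * δ) = j / 2 ^ n + i / 2 ^ m + 1 / 2 ^ n := by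
        rw [hδ]; ring
      have e7 : ((i : ℝ) + 1) / 2 ^ m + (δ + j * δ)
        = j / 2 ^ n + i / 2 ^ m + 1 / 2 ^ n + 1 / 2 ^ m := by rw [hδ]; ring
      rw [e4, e5, e6, e7, ← key, e3, e1, e2]
    intro x
    have := congrArg (fun g : X p →L[ℝ] ℝ => g x) hχ
    simpa [_root_.sum_apply, pull_apply] using this
  -- now apply the recurrence lemma to `1 - T δ`
  set d : ℤ →₀ ℝ := Finsupp.single 0 1 - Finsupp.single 1 1 with hd
  have hd0 : d ≠ 0 := by
    intro h0
    have := DFunLike.congr_fun h0 0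
    simp [hd] at this
  have hds : d.support = {0, 1} := by
    ext k
    rw [Finsupp.mem_support_iff, hd]
    simp only [Finsupp.coe_sub, Pi.sub_apply, Finsupp.single_apply, Finset.mem_insert,
      Finset.mem_singleton]
    by_cases h0 : k = 0
    · subst h0; simp
    · by_cases h1 : k = 1
      · subst h1; simp
      · simp [h0, h1, Ne.symm h0, Ne.symm h1]
  apply rec_zero hp1 hp hδ0 d hd0
  intro x
  rw [hds, Finset.sum_pair (by norm_num)]
  have h1 := congrArg (fun g : X p →L[ℝ] ℝ => g x) hφ0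
  simp only [_root_.sub_apply, pull_apply, _root_.zero_apply] at h1
  simp only [hd, Finsupp.coe_sub, Pi.sub_apply, Finsupp.single_apply]
  norm_num
  rw [T_zero]
  linarith

/-- Sums of differences of dyadic translates of `f`. -/
def DiffSum (f g : X p) : Prop :=
  ∃ (r : ℕ) (δ δ' : Fin r → ℝ), (∀ i, DyR (δ i)) ∧ (∀ i, DyR (δ' i)) ∧
    g = ∑ i, (T (δ i) f - T (δ' i) f)

lemma DiffSum_zero (f : X p) : DiffSum f 0 :=
  ⟨0, fun _ => 0, fun _ => 0, fun i => i.elim0, fun i => i.elim0, by simp⟩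

lemma DiffSum_add {f g g' : X p} (h : DiffSum f g) (h' : DiffSum f g') : DiffSum f (g + g') := by
  obtain ⟨r, δ, δ', h1, h2, h3⟩ := h
  obtain ⟨s, γ, γ', k1, k2, k3⟩ := h'
  refine ⟨r + s, Fin.append δ γ, Fin.append δ' γ', ?_, ?_, ?_⟩
  · intro i
    refine Fin.addCases (fun i => ?_) (fun i => ?_) i
    · rw [Fin.append_left]; exact h1 i
    · rw [Fin.append_right]; exact k1 i
  · intro i
    refine Fin.addCases (fun i => ?_) (fun i => ?_) i
    · rw [Fin.append_left]; exact h2 i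
    · rw [Fin.append_right]; exact k2 i
  · rw [Fin.sum_univ_add, h3, k3]
    simp only [Fin.append_left, Fin.append_right]

lemma DiffSum_neg {f g : X p} (h : DiffSum f g) : DiffSum f (-g) := by
  obtain ⟨r, δ, δ', h1, h2, h3⟩ := h
  refine ⟨r, δ', δ, h2, h1, ?_⟩
  rw [h3, ← Finset.sum_neg_distrib]
  apply Finset.sum_congr rfl
  intro i _
  abel

lemma DiffSum_nsmul {f g : X p} (h : DiffSum f g) (k : ℕ) : DiffSum f (k • g) := by
  induction k with
  | zero => rw [zero_smul]; exact DiffSum_zero f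
  | succ k ih => rw [succ_nsmul]; exact DiffSum_add ih h

lemma DiffSum_zsmul {f g : X p} (h : DiffSum f g) (k : ℤ) : DiffSum f (k • g) := by
  rcases Int.eq_nat_or_neg k with ⟨m, rfl | rfl⟩
  · rw [natCast_zsmul]; exact DiffSum_nsmul h m
  · rw [neg_smul, natCast_zsmul]; exact DiffSum_neg (DiffSum_nsmul h m)

/-- Every function is approximated by multiples of sums of differences of two dyadic translates
of a given nonzero dyadic step function. -/
theorem cyclic (hp1 : 1 < p) (hp : p ≠ ∞) {f : X p} (hf : Dyad f) (hf0 : f ≠ 0) (h : X p)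
    {ε : ℝ} (hε : 0 < ε) :
    ∃ (κ : ℝ) (r : ℕ) (δ δ' : Fin r → ℝ), 0 < κ ∧ (∀ i, DyR (δ i)) ∧ (∀ i, DyR (δ' i)) ∧
      ‖κ • ∑ i, (T (δ i) f - T (δ' i) f) - h‖ < ε := by
  set S : Set (X p) := {g | ∃ a b, DyR a ∧ DyR b ∧ g = T a f - T b f} with hS
  -- approximation property on the span
  have happ : ∀ z ∈ Submodule.span ℝ S, ∀ ε : ℝ, 0 < ε → ∃ N0 : ℕ, ∀ N : ℕ, N0 ≤ N →
      ∃ g, DiffSum f g ∧ ‖(N : ℝ)⁻¹ • g - z‖ < ε := by
    intro z hz
    induction hz using Submodule.closure_induction with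
    | zero => exact fun ε hε => ⟨0, fun N _ => ⟨0, DiffSum_zero f, by simpa using hε⟩⟩
    | add x y hx hy ihx ihy =>
      intro ε hε
      obtain ⟨N1, h1⟩ := ihx (ε / 2) (by linarith)
      obtain ⟨N2, h2⟩ := ihy (ε / 2) (by linarith)
      refine ⟨max N1 N2, fun N hN => ?_⟩
      obtain ⟨g1, hg1, hg1'⟩ := h1 N (le_of_max_le_left hN)
      obtain ⟨g2, hg2, hg2'⟩ := h2 N (le_of_max_le_right hN)
      refine ⟨g1 + g2, DiffSum_add hg1 hg2, ?_⟩
      have : (N : ℝ)⁻¹ • (g1 + g2) - (x + y) = ((N : ℝ)⁻¹ • g1 - x) + ((N : ℝ)⁻¹ • g2 - y) := by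
        rw [smul_add]; abel
      rw [this]
      calc _ ≤ ‖(N : ℝ)⁻¹ • g1 - x‖ + ‖(N : ℝ)⁻¹ • g2 - y‖ := norm_add_le _ _
        _ < ε := by linarith
    | smul_mem r x hx =>
      intro ε hε
      obtain ⟨a, b, ha, hb, rfl⟩ := hx
      set g := T a f - T b f with hg
      have hgD : DiffSum f g := ⟨1, fun _ => a, fun _ => b, fun _ => ha, fun _ => hb, by simp [hg]⟩
      obtain ⟨N0, hN0⟩ := exists_nat_gt (‖g‖ / ε)
      refine ⟨N0 + 1, fun N hN => ⟨⌊(N : ℝ) * r⌋ • g, DiffSum_zsmul hgD _, ?_⟩⟩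
      have hNpos : (0 : ℝ) < N := by
        have : 0 < N := by omega
        exact_mod_cast this
      have hNN : (N0 : ℝ) < N := by exact_mod_cast (show N0 < N by omega)
      have e1 : (N : ℝ)⁻¹ • (⌊(N : ℝ) * r⌋ • g) - r • g
          = ((N : ℝ)⁻¹ * (⌊(N : ℝ) * r⌋ - N * r)) • g := by
        rw [mul_sub, sub_smul, ← mul_assoc, inv_mul_cancel₀ hNpos.ne', one_mul, mul_smul,
          Int.cast_smul_eq_zsmul]
      rw [e1, norm_smul, norm_mul, norm_inv, Real.norm_natCast]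
      have h1 : ‖(⌊(N : ℝ) * r⌋ : ℝ) - N * r‖ ≤ 1 := by
        rw [Real.norm_eq_abs, abs_le]
        constructor
        · linarith [Int.lt_floor_add_one ((N : ℝ) * r)]
        · linarith [Int.floor_le ((N : ℝ) * r)]
      calc (N : ℝ)⁻¹ * ‖(⌊(N : ℝ) * r⌋ : ℝ) - N * r‖ * ‖g‖ ≤ (N : ℝ)⁻¹ * 1 * ‖g‖ := by gcongr
        _ = ‖g‖ / N := by ring
        _ < ε := by
          rw [div_lt_iff₀ hNpos]
          rw [div_lt_iff₀ hε] at hN0
          nlinarith [norm_nonneg g]
  -- density of the span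
  have hdense : h ∈ closure (Submodule.span ℝ S : Set (X p)) := by
    by_contra hcon
    have hcl : IsClosed ((Submodule.span ℝ S).topologicalClosure : Set (X p)) :=
      Submodule.isClosed_topologicalClosure _
    have hcv : Convex ℝ ((Submodule.span ℝ S).topologicalClosure : Set (X p)) :=
      Submodule.convex _
    have hnot : h ∉ ((Submodule.span ℝ S).topologicalClosure : Set (X p)) := by
      rwa [Submodule.topologicalClosure_coe]
    obtain ⟨ψ, u, hu1, hu2⟩ := geometric_hahn_banach_point_closed hcv hcl hnot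
    have hzero : ∀ g ∈ S, ψ g = 0 := by
      intro g hg
      by_contra hne
      have hmem : ∀ r : ℝ, r • g ∈ ((Submodule.span ℝ S).topologicalClosure : Set (X p)) := by
        intro r
        apply Submodule.le_topologicalClosure
        exact Submodule.smul_mem _ _ (Submodule.subset_span hg)
      have h1 := hu2 _ (hmem ((u - 1) / ψ g))
      rw [map_smul, smul_eq_mul, div_mul_cancel₀ _ hne] at h1
      linarith
    have hψ : ψ = 0 := by
      apply dual_zero hp1 hp hf hf0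
      intro a b ha hb
      exact hzero _ ⟨a, b, ha, hb, rfl⟩
    have h1 := hu2 0 (Submodule.zero_mem _)
    rw [hψ] at hu1 h1
    simp only [_root_.zero_apply] at hu1 h1
    linarith
  rw [Metric.mem_closure_iff] at hdense
  obtain ⟨z, hz, hzd⟩ := hdense (ε / 2) (by linarith)
  obtain ⟨N0, hN0⟩ := happ z hz (ε / 2) (by linarith)
  obtain ⟨g, ⟨r, δ, δ', h1, h2, h3⟩, hg⟩ := hN0 (N0 + 1) (by omega)
  refine ⟨((N0 + 1 : ℕ) : ℝ)⁻¹, r, δ, δ', by positivity, h1, h2, ?_⟩
  rw [← h3]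
  calc ‖((N0 + 1 : ℕ) : ℝ)⁻¹ • g - h‖ ≤ ‖((N0 + 1 : ℕ) : ℝ)⁻¹ • g - z‖ + ‖z - h‖ :=
        norm_sub_le_norm_sub_add_norm_sub _ _ _
    _ < ε := by
        rw [dist_comm, dist_eq_norm] at hzd
        linarith

end

end Pool.Agent.H26
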