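import Pool.Agent.Lib.H26.Exp

open MeasureTheory Filter Topology Set
open scoped ENNReal

namespace Pool.Agent.H26

noncomputable section

variable {p : ℝ≥0∞} [Fact (1 ≤ p)]

/-- The `ℓ_P` norm on a finite index set. -/
def lpn {A : Type*} [Fintype A] (P : ℝ) (u : A → ℝ) : ℝ := (∑ α, |u α| ^ P) ^ (1 / P)

section lpn
variable {A : Type*} [Fintype A]

lemma lpn_nonneg (P : ℝ) (u : A → ℝ) : 0 ≤ lpn P u := by
  unfold lpn
  positivity

lemma lpn_rpow {P : ℝ} (hP : 0 < P) (u : A → ℝ) : lpn P u ^ P = ∑ α, |u α| ^ P := by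
  unfold lpn
  rw [← Real.rpow_mul (by positivity), one_div, inv_mul_cancel₀ hP.ne', Real.rpow_one]

lemma lpn_add_le {P : ℝ} (hP : 1 ≤ P) (u v : A → ℝ) : lpn P (u + v) ≤ lpn P u + lpn P v :=
  Real.Lp_add_le _ _ _ hP

lemma lpn_smul {P : ℝ} (hP : 0 < P) (c : ℝ) (u : A → ℝ) : lpn P (c • u) = |c| * lpn P u := by
  unfold lpn
  have : ∀ α, |(c • u) α| ^ P = |c| ^ P * |u α| ^ P := by
    intro α
    rw [Pi.smul_apply, smul_eq_mul, abs_mul, Real.mul_rpow (abs_nonneg _) (abs_nonneg _)]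
  simp only [this]
  rw [← Finset.mul_sum, Real.mul_rpow (by positivity) (by positivity),
    ← Real.rpow_mul (abs_nonneg c), mul_one_div_cancel hP.ne', Real.rpow_one]

lemma lpn_eq_zero {P : ℝ} (hP : 0 < P) {u : A → ℝ} (h : lpn P u = 0) : u = 0 := by
  have h1 := lpn_rpow hP u
  rw [h, Real.zero_rpow hP.ne'] at h1
  have h2 := (Finset.sum_eq_zero_iff_of_nonneg (fun α _ => by positivity)).mp h1.symm
  ext α
  have h3 := h2 α (Finset.mem_univ α)
  rw [Real.rpow_eq_zero (abs_nonneg _) hP.ne'] at h3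
  simpa using h3

lemma abs_le_lpn {P : ℝ} (hP : 0 < P) (u : A → ℝ) (α : A) : |u α| ≤ lpn P u := by
  have h1 : |u α| ^ P ≤ lpn P u ^ P := by
    rw [lpn_rpow hP]
    exact Finset.single_le_sum (f := fun α => |u α| ^ P) (fun i _ => by positivity)
      (Finset.mem_univ α)
  exact (Real.rpow_le_rpow_iff (abs_nonneg _) (lpn_nonneg _ _) hP).mp h1

end lpn

/-- A finite family of normalized disjointly supported functions. -/
structure DisjFam (A : Type*) (p : ℝ≥0∞) [Fact (1 ≤ p)] where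
  /-- the functions -/
  e : A → X p
  /-- the sets on which they live -/
  s : A → Set ℝ
  hs : ∀ α, MeasurableSet (s α)
  hd : ∀ α β, α ≠ β → Disjoint (s α) (s β)
  he : ∀ α, ‖e α‖ = 1
  hR : ∀ α, R (s α) (e α) = e α

namespace DisjFam

variable {A : Type*} [Fintype A] (D : DisjFam A p)

/-- The isometric embedding of `ℓ_p(A)`. -/
def J : (A → ℝ) →ₗ[ℝ] X p :=
  ∑ α, (LinearMap.proj α : (A → ℝ) →ₗ[ℝ] ℝ).smulRight (D.e α)

lemma J_apply (u : A → ℝ) : D.J u = ∑ α, u α • D.e α := by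
  simp [J, LinearMap.sum_apply]

lemma norm_J (hp : p ≠ ∞) (u : A → ℝ) : ‖D.J u‖ = lpn p.toReal u := by
  have hP := pt_pos (p := p) hp
  have h : ‖D.J u‖ ^ p.toReal = lpn p.toReal u ^ p.toReal := by
    rw [J_apply, lpn_rpow hP, norm_sum_of_disj hp Finset.univ D.s (fun α _ => D.hs α)
      (fun α _ β _ h => D.hd α β h)]
    · apply Finset.sum_congr rfl
      intro α _
      rw [norm_smul, D.he, mul_one, Real.norm_eq_abs]
    · intro α _
      rw [map_smul, D.hR]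
  exact (Real.rpow_left_inj (norm_nonneg _) (lpn_nonneg _ _) hP.ne').mp h

/-- A norming functional for `e α`. -/
def g (α : A) : X p →L[ℝ] ℝ :=
  (exists_dual_vector ℝ (D.e α) (by rw [D.he]; norm_num)).choose

lemma g_norm (α : A) : ‖D.g α‖ = 1 :=
  (exists_dual_vector ℝ (D.e α) (by rw [D.he]; norm_num)).choose_spec.1

lemma g_self (α : A) : D.g α (D.e α) = 1 := by
  have h : D.g α (D.e α) = ((‖D.e α‖ : ℝ) : ℝ) :=
    (exists_dual_vector ℝ (D.e α) (by rw [D.he]; norm_num)).choose_spec.2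
  rw [h, D.he]

/-- The coordinate functionals. -/
def Jst : X p →ₗ[ℝ] (A → ℝ) :=
  LinearMap.pi (fun α => ((D.g α).comp (R (D.s α))).toLinearMap)

lemma Jst_apply (x : X p) (α : A) : D.Jst x α = D.g α (R (D.s α) x) := rfl

lemma lpn_Jst_le (hp : p ≠ ∞) (x : X p) : lpn p.toReal (D.Jst x) ≤ ‖x‖ := by
  have hP := pt_pos (p := p) hp
  have h : lpn p.toReal (D.Jst x) ^ p.toReal ≤ ‖x‖ ^ p.toReal := by
    rw [lpn_rpow hP]
    refine le_trans ?_ (sum_norm_R_le hp Finset.univ D.s (fun α _ => D.hs α)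
      (fun α _ β _ h => D.hd α β h) x)
    apply Finset.sum_le_sum
    intro α _
    apply Real.rpow_le_rpow (abs_nonneg _) _ hP.le
    rw [Jst_apply]
    have := (D.g α).le_opNorm (R (D.s α) x)
    rwa [D.g_norm, one_mul] at this
  exact (Real.rpow_le_rpow_iff (lpn_nonneg _ _) (norm_nonneg _) hP).mp h

lemma Jst_J (u : A → ℝ) : D.Jst (D.J u) = u := by
  classical
  ext α
  rw [Jst_apply, J_apply, map_sum, map_sum, Finset.sum_eq_single α]
  · rw [map_smul, map_smul, D.hR, D.g_self, smul_eq_mul, mul_one]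
  · intro β _ hβ
    rw [map_smul, R_zero_of_disj (D.hs α) (D.hs β) (D.hd α β (Ne.symm hβ)) (D.hR β), smul_zero,
      map_zero]
  · simp

end DisjFam

/-- The abstract linear algebra behind the single target lemma. -/
theorem core (hp1 : 1 < p) (hp : p ≠ ∞) {A : Type*} [Fintype A] (D : DisjFam A p)
    (hDy : ∀ α, Dyad (D.e α)) {B : ℝ} (hB : ∀ α, Disjoint (D.s α) (win B))
    {h : X p} (hh : R (win B) h = h) (hh0 : h ≠ 0)
    {V : Type*} [AddCommGroup V] [Module ℝ V] (Y : V →ₗ[ℝ] X p) (s : V →ₗ[ℝ] ℝ)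
    (ve : V) (hve : s ve = 1) (S : V →ₗ[ℝ] (A → ℝ)) (Rr : (A → ℝ) →ₗ[ℝ] V)
    (hRS : ∀ v, s v = 0 → Rr (S v) = v) (hsR : ∀ u, s (Rr u) = 0)
    {C : ℝ} (hC0 : 0 ≤ C) (hC : ∀ u, lpn p.toReal (S (Rr u)) ≤ C * lpn p.toReal u)
    {ε₀ ε : ℝ} (hε₀ : 0 ≤ ε₀)
    (hY : ∀ v, ‖Y v - s v • h - D.J (S v)‖ ≤ ε₀ * (|s v| + lpn p.toReal (S v)))
    (hSe : lpn p.toReal (S ve) ≤ ε₀) (hsmall : ε₀ * (1 + (2 + ε₀) / ‖h‖) ≤ ε) :
    ∃ (Pr : X p →L[ℝ] X p) (I : V →ₗ[ℝ] X p), ‖Pr‖ ≤ C ∧ (∀ x, Pr (Pr x) = Pr x) ∧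
      FiniteDimensional ℝ (LinearMap.range Pr.toLinearMap) ∧ (∀ x, Dyad (Pr x)) ∧
      (∀ x, R (win B) (Pr x) = 0) ∧ (∀ x, Pr (R (win B) x) = 0) ∧
      Function.Injective I ∧
      LinearMap.range I = Submodule.span ℝ {h} ⊔ LinearMap.range Pr.toLinearMap ∧
      ∀ v, ‖Y v - I v‖ ≤ ε * ‖I v‖ := by
  have hP := pt_pos (p := p) hp
  have hP1 := one_le_pt (p := p) hp
  have hRB : ∀ u, R (win B) (D.J u) = 0 := by
    intro u
    rw [D.J_apply, map_sum]
    apply Finset.sum_eq_zero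
    intro α _
    rw [map_smul, R_zero_of_disj (measurableSet_win B) (D.hs α) (hB α).symm (D.hR α), smul_zero]
  have hJB : ∀ x, D.Jst (R (win B) x) = 0 := by
    intro x
    ext α
    rw [D.Jst_apply, R_disj (D.hs α) (measurableSet_win B) (hB α), map_zero]
    rfl
  let Prl : X p →ₗ[ℝ] X p := D.J ∘ₗ S ∘ₗ Rr ∘ₗ D.Jst
  have hPrl : ∀ x, ‖Prl x‖ ≤ C * ‖x‖ := by
    intro x
    change ‖D.J (S (Rr (D.Jst x)))‖ ≤ _
    rw [D.norm_J hp]
    exact (hC _).trans (by gcongr; exact D.lpn_Jst_le hp x)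
  let Pr : X p →L[ℝ] X p := Prl.mkContinuous C hPrl
  have hPr : ∀ x, Pr x = D.J (S (Rr (D.Jst x))) := fun x => rfl
  have hRSR : ∀ u, Rr (S (Rr u)) = Rr u := fun u => hRS _ (hsR u)
  let I : V →ₗ[ℝ] X p := s.smulRight h + D.J ∘ₗ S ∘ₗ (LinearMap.id - s.smulRight ve)
  have hI : ∀ v, I v = s v • h + D.J (S (v - s v • ve)) := fun v => rfl
  have hs0 : ∀ v, s (v - s v • ve) = 0 := by
    intro v
    rw [map_sub, map_smul, hve, smul_eq_mul, mul_one, sub_self]
  have hRI : ∀ v, R (win B) (I v) = s v • h := by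
    intro v
    rw [hI, map_add, map_smul, hh, hRB, add_zero]
  refine ⟨Pr, I, LinearMap.mkContinuous_norm_le _ hC0 _, ?_, ?_, ?_, ?_, ?_, ?_, ?_, ?_⟩
  · intro x
    rw [hPr, hPr x, D.Jst_J, hRSR]
  · have : LinearMap.range Pr.toLinearMap ≤ LinearMap.range D.J := by
      rintro _ ⟨x, rfl⟩
      exact ⟨_, rfl⟩
    exact Submodule.finiteDimensional_of_le this
  · intro x
    rw [hPr, D.J_apply]
    have : ∀ F : Finset A, Dyad (∑ α ∈ F, S (Rr (D.Jst x)) α • D.e α) := by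
      classical
      intro F
      induction F using Finset.induction_on with
      | empty => simpa using Dyad_zero
      | insert a F ha ih =>
        rw [Finset.sum_insert ha]
        exact Dyad_add (Dyad_smul _ (hDy a)) ih
    exact this _
  · intro x
    rw [hPr, hRB]
  · intro x
    rw [hPr, hJB, map_zero, map_zero, map_zero]
  · rw [← LinearMap.ker_eq_bot, LinearMap.ker_eq_bot']
    intro v hv
    have h1 : s v • h = 0 := by rw [← hRI, hv, map_zero]
    have h2 : s v = 0 := by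
      rcases smul_eq_zero.mp h1 with h | h
      · exact h
      · exact absurd h hh0
    rw [hI, h2, zero_smul, zero_smul, sub_zero, zero_add] at hv
    have h3 : S v = 0 := by
      rw [← D.Jst_J (S v), hv, map_zero]
    rw [← hRS v h2, h3, map_zero]
  · apply le_antisymm
    · rintro _ ⟨v, rfl⟩
      rw [hI]
      apply Submodule.add_mem_sup
      · exact Submodule.smul_mem _ _ (Submodule.mem_span_singleton_self h)
      · refine ⟨D.J (S (v - s v • ve)), ?_⟩
        change Pr _ = _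
        rw [hPr, D.Jst_J, hRS _ (hs0 v)]
    · rw [sup_le_iff]
      constructor
      · rw [Submodule.span_singleton_le_iff_mem]
        refine ⟨ve, ?_⟩
        rw [hI, hve, one_smul, one_smul, sub_self, map_zero, map_zero, add_zero]
      · rintro _ ⟨x, rfl⟩
        refine ⟨Rr (D.Jst x), ?_⟩
        rw [hI, hsR, zero_smul, zero_smul, sub_zero, zero_add]
        rfl
  · intro v
    have hn : 0 < ‖h‖ := norm_pos_iff.mpr hh0
    have h1 : |s v| * ‖h‖ ≤ ‖I v‖ := by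
      have := norm_R_le (win B) (I v)
      rwa [hRI, norm_smul, Real.norm_eq_abs] at this
    have h2 : lpn p.toReal (S (v - s v • ve)) ≤ ‖I v‖ := by
      have h3 := norm_R_le (win B)ᶜ (I v)
      have h4 : R (win B)ᶜ (I v) = D.J (S (v - s v • ve)) := by
        rw [R_compl (measurableSet_win B), hRI, hI]
        abel
      rwa [h4, D.norm_J hp] at h3
    have h5 : lpn p.toReal (S v) ≤ ‖I v‖ + |s v| * ε₀ := by
      have e : S v = S (v - s v • ve) + s v • S ve := by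
        rw [← map_smul, ← map_add, sub_add_cancel]
      rw [e]
      refine (lpn_add_le hP1 _ _).trans ?_
      rw [lpn_smul hP]
      gcongr
    have h6 : Y v - I v = (Y v - s v • h - D.J (S v)) + s v • D.J (S ve) := by
      rw [hI, map_sub, map_smul, map_sub, map_smul]
      abel
    have h7 : ‖s v • D.J (S ve)‖ ≤ |s v| * ε₀ := by
      rw [norm_smul, D.norm_J hp, Real.norm_eq_abs]
      gcongr
    have h8 : |s v| ≤ ‖I v‖ / ‖h‖ := by rwa [le_div_iff₀ hn]
    calc ‖Y v - I v‖ ≤ ε₀ * (|s v| + lpn p.toReal (S v)) + |s v| * ε₀ := by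
          rw [h6]
          exact (norm_add_le _ _).trans (add_le_add (hY v) h7)
      _ ≤ ε₀ * (|s v| + (‖I v‖ + |s v| * ε₀)) + |s v| * ε₀ := by gcongr
      _ = ε₀ * (‖I v‖ + (2 + ε₀) * |s v|) := by ring
      _ ≤ ε₀ * (‖I v‖ + (2 + ε₀) * (‖I v‖ / ‖h‖)) := by gcongr
      _ = ε₀ * (1 + (2 + ε₀) / ‖h‖) * ‖I v‖ := by
          field_simp
      _ ≤ ε * ‖I v‖ := by gcongr

end

end Pool.Agent.H26
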