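import Pool.Agent.Lib.H26.Geo

open MeasureTheory Filter Topology
open scoped ENNReal

namespace Pool.Agent.H26

noncomputable section

variable {p : ℝ≥0∞} [Fact (1 ≤ p)]

variable {r m L M : ℕ}

/-! ### Algebraic identities -/

lemma alg1 (ρ : ℝ) (k : KK r) (c : LF m → ℝ) :
    emb (gz k) (toPoly c) * AP ρ L Finset.univ =
      emb (gz k) (toPoly c) * c1 ρ L k + emb (gz k) (FF ρ L * toPoly c) := by
  rw [AP_erase ρ L (Finset.mem_univ k), map_mul]
  unfold c1
  ring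

lemma alg2 (ρ : ℝ) (hL : 2 * m < L) (c : LF m → ℝ) :
    FF ρ L * toPoly c = (toPoly ((Pe ρ).symm c) - ((1 - ρ) * Xi ρ ((Pe ρ).symm c)) • tl ρ m L) +
      (FF ρ L * toPoly c).coeff 0 • 1 - ρ ^ L • (mono L * xt ρ ((Pe ρ).symm c)) := by
  have h1 : (FF ρ L * toPoly c).coeff 0 = -((1 - ρ) * SL ((Pe ρ).symm c)) := by
    have := SL_Pe_symm ρ hL c
    linarith
  rw [h1]
  rw [FF_mul_toPoly ρ c, sub_mul, one_mul, smul_mul_assoc]
  have h2 : xt ρ ((Pe ρ).symm c) =
      toPoly ((Pe ρ).symm c) - ((1 - ρ) * SL ((Pe ρ).symm c)) • 1 := rfl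
  rw [neg_smul]
  nth_rewrite 1 [h2]
  abel

lemma alg3 (P ρ : ℝ) (ij : Fin r × Fin r) (c : LF m → ℝ) :
    emb (gz (Sum.inl ij.1)) (toPoly c) * DD P ρ L M ij =
      emb (gz (Sum.inl ij.1)) (toPoly c) * c4 P ρ L M ij +
      ((r : ℝ) ^ (-(1 / P))) • (yi ij * (emb (gz (Sum.inl ij.1)) (chi ρ L * toPoly c) *
        Ph P M ij.1 ij.2)) := by
  obtain ⟨i, j⟩ := ij
  rw [DD_eq, mul_smul_comm]
  unfold c4
  rw [mul_smul_comm, ← smul_add, map_mul]
  congr 1
  simp only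
  ring

/-- The modified function. -/
def fnew (P ρ : ℝ) (r L M : ℕ) (pos : GG r →+ ℝ) (f g0 : X p) : X p :=
  act pos (AP ρ L (Finset.univ : Finset (KK r))) f +
    ∑ ij : Fin r × Fin r, act pos (DD P ρ L M ij) g0

/-- The map from coefficients to combinations of translates. -/
def YY (pos : GG r →+ ℝ) (δ : KK r → ℝ) (f' : X p) : VV r m →ₗ[ℝ] X p :=
  ∑ kn : KK r × LF m, (LinearMap.proj kn : VV r m →ₗ[ℝ] ℝ).smulRight
    (T (pos ((kn.2 : ℤ) • gz kn.1) + δ kn.1) f')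

lemma YY_apply (pos : GG r →+ ℝ) (δ : KK r → ℝ) (f' : X p) (b : VV r m) :
    YY pos δ f' b = ∑ kn : KK r × LF m, b kn • T (pos ((kn.2 : ℤ) • gz kn.1) + δ kn.1) f' := by
  simp [YY, LinearMap.sum_apply]

lemma YY_eq (pos : GG r →+ ℝ) (δ : KK r → ℝ) (f' : X p) (b : VV r m) :
    YY pos δ f' b = ∑ k : KK r, act pos (emb (gz k) (toPoly (sl k b))) (T (δ k) f') := by
  rw [YY_apply, Fintype.sum_prod_type]
  apply Finset.sum_congr rfl
  intro k _
  rw [emb_toPoly, act_sum]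
  apply Finset.sum_congr rfl
  intro n _
  rw [act_smul, act_single, one_smul, T_comp]
  rfl

lemma act_fnew (P ρ : ℝ) (pos : GG r →+ ℝ) (f g0 : X p) (a : GA (GG r)) (d : ℝ) :
    act pos a (T d (fnew P ρ r L M pos f g0)) =
      act pos (a * AP ρ L Finset.univ) (T d f) +
      ∑ ij : Fin r × Fin r, act pos (a * DD P ρ L M ij) (T d g0) := by
  have h1 : T d (fnew P ρ r L M pos f g0) = act pos (AP ρ L (Finset.univ : Finset (KK r))) (T d f) +
      ∑ ij : Fin r × Fin r, act pos (DD P ρ L M ij) (T d g0) := by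
    unfold fnew
    rw [map_add, map_sum, act_T]
    congr 1
    apply Finset.sum_congr rfl
    intro ij _
    rw [act_T]
  rw [h1, map_add, map_sum, act_mul]
  congr 1
  apply Finset.sum_congr rfl
  intro ij _
  rw [act_mul]

lemma YY_fnew (P ρ : ℝ) (pos : GG r →+ ℝ) (δ : KK r → ℝ) (f g0 : X p) (b : VV r m) :
    YY pos δ (fnew P ρ r L M pos f g0) b =
      ∑ k : KK r, act pos (emb (gz k) (toPoly (sl k b)) * AP ρ L Finset.univ) (T (δ k) f) +
      ∑ ij : Fin r × Fin r, ∑ k : KK r,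
        act pos (emb (gz k) (toPoly (sl k b)) * DD P ρ L M ij) (T (δ k) g0) := by
  rw [YY_eq, Finset.sum_congr rfl (fun k _ => act_fnew P ρ pos f g0 _ (δ k)),
    Finset.sum_add_distrib, Finset.sum_comm (s := (Finset.univ : Finset (KK r)))]

/-- The ideal vector. -/
lemma J_SS (hp : p ≠ ∞) {ρ : ℝ} (hL : 0 < L) (hM : 0 < M) {pos : GG r →+ ℝ}
    {b1 B : ℝ} (hG : Geo p.toReal ρ r m L M pos b1 B) (f g0 : X p) (δ : KK r → ℝ)
    (hf : ‖f‖ = 1) (hg : ‖g0‖ = 1) (hfb : ∀ k, R (win b1) (T (δ k) f) = T (δ k) f)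
    (hgb : R (win b1) g0 = g0) (b : VV r m) :
    (fam hp hL hM hG f g0 δ hf hg hfb hgb).J (SS p.toReal ρ r m L b) =
      ∑ k : KK r, act pos (emb (gz k) (toPoly ((Pe ρ).symm (sl k b)) -
        ((1 - ρ) * Xi ρ ((Pe ρ).symm (sl k b))) • tl ρ m L)) (T (δ k) f) +
      ∑ ij : Fin r × Fin r, act pos (((r : ℝ) ^ (-(1 / p.toReal))) • (yi ij *
        (emb (gz (Sum.inl ij.1)) (chi ρ L * toPoly (sl (Sum.inl ij.1) b + sl (Sum.inr ij.2) b)) *
        Ph p.toReal M ij.1 ij.2))) g0 := by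
  have hP := pt_pos (p := p) hp
  have hν : nrm p.toReal (tl ρ m L) ≠ 0 := by
    rw [nrm_tl hP]
    have := one_le_nrm_geo hP ρ hL
    linarith
  rw [DisjFam.J_apply, Fintype.sum_sum_type, Fintype.sum_sum_type, ← add_assoc]
  congr 1
  · rw [Fintype.sum_prod_type, ← Finset.sum_add_distrib]
    apply Finset.sum_congr rfl
    intro k _
    rw [sub_eq_add_neg, map_add, act_add]
    congr 1
    · rw [toPoly_apply, map_sum, act_sum]
      apply Finset.sum_congr rfl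
      intro n _
      rw [map_smul, act_smul]
      rfl
    · rw [SS_inm, tc_apply]
      change _ • act pos ((nrm p.toReal (tl ρ m L))⁻¹ • emb (gz k) (tl ρ m L)) (T (δ k) f) = _
      rw [← act_smul, smul_smul, ← neg_smul, map_smul (emb (gz k))]
      congr 3
      field_simp
  · rw [Fintype.sum_prod_type]
    apply Finset.sum_congr rfl
    rintro ⟨i, j⟩ _
    simp only
    rw [← sum_A2_chi ρ (sl (Sum.inl i) b + sl (Sum.inr j) b), map_sum, Finset.sum_mul,
      Finset.mul_sum, Finset.smul_sum, act_sum]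
    apply Finset.sum_congr rfl
    intro n _
    rw [SS_inr, map_smul (emb (gz (Sum.inl i))), smul_mul_assoc, mul_smul_comm, smul_smul,
      act_smul, chc_apply]
    rfl

end

end Pool.Agent.H26
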