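import Pool.Agent.Lib.H26.Err

open MeasureTheory Filter Topology
open scoped ENNReal

namespace Pool.Agent.H26

noncomputable section

variable {p : ℝ≥0∞} [Fact (1 ≤ p)]

variable {r m L M : ℕ}

lemma sum_split (i j : Fin r) {V : Type*} [AddCommGroup V] (F : KK r → V) :
    ∑ k, F k = F (Sum.inl i) + (F (Sum.inr j) + ∑ k ∈ Sij i j, F k) := by
  have hj : (Sum.inr j : KK r) ∈ (Finset.univ.erase (Sum.inl i)) := by simp
  unfold Sij
  rw [Finset.add_sum_erase _ F hj, Finset.add_sum_erase _ F (Finset.mem_univ _)]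

lemma part1 (P ρ : ℝ) (hL : 2 * m < L) (pos : GG r →+ ℝ) (φ : X p) (k : KK r)
    (c : LF m → ℝ) :
    act pos (emb (gz k) (toPoly c) * AP ρ L Finset.univ) φ =
      act pos (emb (gz k) (toPoly ((Pe ρ).symm c) -
        ((1 - ρ) * Xi ρ ((Pe ρ).symm c)) • tl ρ m L)) φ +
      (act pos (emb (gz k) (toPoly c) * c1 ρ L k) φ +
      ((FF ρ L * toPoly c).coeff 0 • φ -
        ρ ^ L • act pos (emb (gz k) (mono L * xt ρ ((Pe ρ).symm c))) φ)) := by
  rw [alg1, act_add]
  nth_rewrite 1 [alg2 ρ hL c]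
  rw [map_sub (emb (gz k)), map_add (emb (gz k)), act_sub, act_add, map_smul (emb (gz k)),
    map_smul (emb (gz k)), map_one, act_smul, act_smul, act_one]
  abel

lemma part2 (P ρ : ℝ) (pos : GG r →+ ℝ) (g0 : X p) (δ : KK r → ℝ) (i j : Fin r)
    (b : VV r m) :
    ∑ k : KK r, act pos (emb (gz k) (toPoly (sl k b)) * DD P ρ L M (i, j)) (T (δ k) g0) =
      act pos (((r : ℝ) ^ (-(1 / P))) • (yi (i, j) *
        (emb (gz (Sum.inl i)) (chi ρ L * toPoly (sl (Sum.inl i) b + sl (Sum.inr j) b)) *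
        Ph P M i j))) g0 +
      (act pos (emb (gz (Sum.inl i)) (toPoly (sl (Sum.inl i) b + sl (Sum.inr j) b)) *
        c4 P ρ L M (i, j)) g0 +
      (act pos (emb (gz (Sum.inl i)) (toPoly (sl (Sum.inl i) b)) * DD P ρ L M (i, j))
        (T (δ (Sum.inl i)) g0 - g0) +
      (act pos (emb (gz (Sum.inr j)) (toPoly (sl (Sum.inr j) b)) * DD P ρ L M (i, j))
        (T (δ (Sum.inr j)) g0 - g0) +
      (act pos ((emb (gz (Sum.inr j)) (toPoly (sl (Sum.inr j) b)) -
        emb (gz (Sum.inl i)) (toPoly (sl (Sum.inr j) b))) * DD P ρ L M (i, j)) g0 +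
      ∑ k ∈ Sij i j, act pos (emb (gz k) (toPoly (sl k b)) * DD P ρ L M (i, j))
        (T (δ k) g0))))) := by
  have h1 : act pos (emb (gz (Sum.inl i)) (toPoly (sl (Sum.inl i) b + sl (Sum.inr j) b)) *
        DD P ρ L M (i, j)) g0 =
      act pos (emb (gz (Sum.inl i)) (toPoly (sl (Sum.inl i) b + sl (Sum.inr j) b)) *
        c4 P ρ L M (i, j)) g0 + act pos (((r : ℝ) ^ (-(1 / P))) • (yi (i, j) *
        (emb (gz (Sum.inl i)) (chi ρ L * toPoly (sl (Sum.inl i) b + sl (Sum.inr j) b)) *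
        Ph P M i j))) g0 := by
    have := alg3 (M := M) (L := L) P ρ (i, j) (sl (Sum.inl i) b + sl (Sum.inr j) b)
    simp only at this
    rw [this, act_add]
  have h2 : act pos (emb (gz (Sum.inl i)) (toPoly (sl (Sum.inl i) b + sl (Sum.inr j) b)) *
        DD P ρ L M (i, j)) g0 =
      act pos (emb (gz (Sum.inl i)) (toPoly (sl (Sum.inl i) b)) * DD P ρ L M (i, j)) g0 +
      act pos (emb (gz (Sum.inl i)) (toPoly (sl (Sum.inr j) b)) * DD P ρ L M (i, j)) g0 := by
    rw [map_add toPoly, map_add (emb (gz (Sum.inl i))), add_mul, act_add]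
  have h3 := h1.symm.trans h2
  have e1 : act pos (emb (gz (Sum.inl i)) (toPoly (sl (Sum.inl i) b)) * DD P ρ L M (i, j))
      (T (δ (Sum.inl i)) g0 - g0) =
      act pos (emb (gz (Sum.inl i)) (toPoly (sl (Sum.inl i) b)) * DD P ρ L M (i, j))
        (T (δ (Sum.inl i)) g0) -
      act pos (emb (gz (Sum.inl i)) (toPoly (sl (Sum.inl i) b)) * DD P ρ L M (i, j)) g0 :=
    ContinuousLinearMap.map_sub _ _ _
  have e2 : act pos (emb (gz (Sum.inr j)) (toPoly (sl (Sum.inr j) b)) * DD P ρ L M (i, j))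
      (T (δ (Sum.inr j)) g0 - g0) =
      act pos (emb (gz (Sum.inr j)) (toPoly (sl (Sum.inr j) b)) * DD P ρ L M (i, j))
        (T (δ (Sum.inr j)) g0) -
      act pos (emb (gz (Sum.inr j)) (toPoly (sl (Sum.inr j) b)) * DD P ρ L M (i, j)) g0 :=
    ContinuousLinearMap.map_sub _ _ _
  rw [sum_split i j (fun k => act pos (emb (gz k) (toPoly (sl k b)) * DD P ρ L M (i, j))
    (T (δ k) g0)), e1, e2, sub_mul, act_sub]
  generalize act pos (emb (gz (Sum.inl i)) (toPoly (sl (Sum.inl i) b + sl (Sum.inr j) b)) *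
        c4 P ρ L M (i, j)) g0 = a1 at *
  generalize act pos (((r : ℝ) ^ (-(1 / P))) • (yi (i, j) *
        (emb (gz (Sum.inl i)) (chi ρ L * toPoly (sl (Sum.inl i) b + sl (Sum.inr j) b)) *
        Ph P M i j))) g0 = a2 at *
  generalize act pos (emb (gz (Sum.inl i)) (toPoly (sl (Sum.inl i) b)) * DD P ρ L M (i, j))
        g0 = a3 at *
  generalize act pos (emb (gz (Sum.inl i)) (toPoly (sl (Sum.inr j) b)) * DD P ρ L M (i, j))
        g0 = a4 at *
  have h4 : a3 = a1 + a2 - a4 := by rw [h3]; abel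
  rw [h4]
  abel

end

end Pool.Agent.H26
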