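import Pool.Agent.Lib.H26.Err2

open MeasureTheory Filter Topology
open scoped ENNReal

namespace Pool.Agent.H26

noncomputable section

variable {p : ℝ≥0∞} [Fact (1 ≤ p)]

variable {r m L M : ℕ}

/-- The constant `c = c0^{1/P}`. -/
def cc (P : ℝ) : ℝ := c0 P ^ (1 / P)

lemma cc_nonneg (P : ℝ) : 0 ≤ cc P := Real.rpow_nonneg (c0_nonneg P) _

/-- The combination of translates with signs. -/
def sgnsum (δ : KK r → ℝ) (f : X p) : X p :=
  ∑ i : Fin r, (T (δ (Sum.inl i)) f - T (δ (Sum.inr i)) f)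

/-- The total error constant. -/
def errC (P : ℝ) (r m L M : ℕ) (ρ κ X Xq DDm εY ε₁ : ℝ) : ℝ :=
  2 * r * ((3 + 2 * cc P + 2 * κ) * (2 ^ (2 * r) * X)) + 2 * r * (ρ ^ L * (4 * m)) +
    (2 * r * (Xq * cc P) + ε₁) +
    r * r * (2 * cc P * (2 ^ (2 * r) * X) +
      (2 * (1 + 2 * m) * (2 * m) * (DDm * εY) + (2 * (1 + 2 * m) * (2 * m) * (DDm * εY) +
      (2 ^ (2 * r) * (2 * m * (M : ℝ) ^ (-(1 / P)) * (2 * (1 + 2 * m) * (2 * m))) +
      2 * r * ((3 + 2 * cc P + 2 * κ) * (X * (2 ^ (2 * r) + 1)))))))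

lemma Xnorm_sum_le {ι : Type*} [Fintype ι] (F : ι → X p) {c : ℝ} (h : ∀ i, ‖F i‖ ≤ c) :
    ‖∑ i, F i‖ ≤ Fintype.card ι * c := by
  refine (norm_sum_le _ _).trans ?_
  refine (Finset.sum_le_sum (fun i _ => h i)).trans ?_
  simp [Finset.card_univ]

lemma l1_xt_le {ρ : ℝ} (hρ : 0 ≤ ρ) (hρ1 : ρ < 1) (x : LF m → ℝ) :
    l1 (xt ρ x) ≤ 2 * ∑ n, |x n| := by
  unfold xt
  refine (l1_sub_le _ _).trans ?_
  rw [l1_toPoly_eq, l1_smul, l1_one, mul_one, abs_mul, abs_of_nonneg (by linarith : 0 ≤ 1 - ρ)]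
  have h1 := abs_SL_le x
  have h2 := abs_nonneg (SL x)
  nlinarith

lemma card_LF (m : ℕ) : (Fintype.card (LF m) : ℝ) = 2 * m := by
  rw [Fintype.card_coe]
  unfold LF
  have h2 : ((Finset.Icc (-(m : ℤ)) m).erase 0).card = 2 * m := by
    rw [Finset.card_erase_of_mem (by simp), Int.card_Icc]
    omega
  rw [h2]
  push_cast
  rfl

theorem err_bound (hp : p ≠ ∞) {q : ℝ} (hPq : p.toReal.HolderConjugate q) {ρ κ : ℝ}
    (hρ : 0 ≤ ρ) (hρ1 : ρ < 1) (hκ : 0 < κ) (hr : 0 < r) (hL : 2 * m < L) (hM : 0 < M)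
    (hX : nrm p.toReal (chi ρ L) ≤ 1)
    {pos : GG r →+ ℝ} {b1 B : ℝ} (hG : Geo p.toReal ρ r m L M pos b1 B) (f g0 h : X p)
    (δ : KK r → ℝ) (hf : ‖f‖ = 1) (hg : ‖g0‖ = 1)
    (hfb : ∀ k, R (win b1) (T (δ k) f) = T (δ k) f)
    (hgb : R (win b1) g0 = g0) (hgb' : ∀ k, R (win b1) (T (δ k) g0) = T (δ k) g0)
    {DDm εY ε₁ : ℝ} (hDD : ∀ ij, l1 (DD p.toReal ρ L M (r := r) ij) ≤ DDm)
    (hY : ∀ k, ‖T (δ k) g0 - g0‖ ≤ εY) (h1 : ‖κ • sgnsum δ f - h‖ ≤ ε₁) (b : VV r m) :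
    ‖YY pos δ (fnew p.toReal ρ r L M pos f g0) b - sf ρ κ r m b • h -
      (fam hp (by omega) hM hG f g0 δ hf hg hfb hgb).J (SS p.toReal ρ r m L b)‖ ≤
      errC p.toReal r m L M ρ κ (nrm p.toReal (chi ρ L)) (nrm q (chi ρ L)) DDm εY ε₁ *
        (|sf ρ κ r m b| + lpn p.toReal (SS p.toReal ρ r m L b)) := by
  classical
  set P := p.toReal with hPdef
  have hP : 1 ≤ P := one_le_pt hp
  have hP0 : 0 < P := by linarith
  set Lb := lpn P (SS P ρ r m L b) with hLb
  set s := sf ρ κ r m b with hs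
  have hLb0 : 0 ≤ Lb := lpn_nonneg _ _
  have hX0 : 0 ≤ nrm P (chi ρ L) := nrm_nonneg _ _
  have hXq0 : 0 ≤ nrm q (chi ρ L) := nrm_nonneg _ _
  have hc0 : 0 ≤ cc P := cc_nonneg P
  have hm0 : (0 : ℝ) ≤ m := by positivity
  have hS : ∀ k, ‖T (δ k) f‖ = 1 := fun k => (norm_T _ _).trans hf
  have hSg : ∀ k, ‖T (δ k) g0‖ = 1 := fun k => (norm_T _ _).trans hg
  set N := |s| + Lb with hN
  have hN0 : 0 ≤ N := by positivity
  -- bounds for the building blocks
  have hNF : ∀ k : KK r, nrm P (FF ρ L * toPoly (sl k b)) ≤ (3 + 2 * cc P + 2 * κ) * N := by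
    intro k
    refine (nrm_FF_sl_le hP hρ hρ1 hκ hr hL b k).trans ?_
    change (3 + 2 * cc P) * Lb + 2 * (κ * |s|) ≤ _
    have h2 : 0 ≤ κ * Lb := by positivity
    have h3 : 0 ≤ cc P * |s| := by positivity
    have h4 := abs_nonneg s
    rw [hN]
    nlinarith
  have hNX : ∀ i j : Fin r, nrm P (chi ρ L * toPoly (sl (Sum.inl i) b + sl (Sum.inr j) b)) ≤
      2 * cc P * N := by
    intro i j
    refine (nrm_chi_sl_le hP hρ hρ1 hr hL b i j).trans ?_
    change 2 * cc P * Lb ≤ _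
    have : 0 ≤ |s| := abs_nonneg s
    rw [hN]
    gcongr
    linarith
  have hl1 : ∀ k : KK r, l1 (toPoly (sl k b)) ≤ 2 * (1 + 2 * m) * (2 * m) * N := by
    intro k
    refine (l1_sl_le hP hρ hρ1 b k (T := L)).trans ?_
    change 2 * (1 + 2 * (m : ℝ)) * (2 * m * Lb) ≤ _
    have h2 : Lb ≤ N := by
      have := abs_nonneg s
      rw [hN]; linarith
    calc 2 * (1 + 2 * (m : ℝ)) * (2 * m * Lb) = 2 * (1 + 2 * m) * (2 * m) * Lb := by ring
      _ ≤ _ := by gcongr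
  have hDDm : 0 ≤ DDm := (l1_nonneg _).trans (hDD (⟨0, hr⟩, ⟨0, hr⟩))
  have hεY : 0 ≤ εY := (norm_nonneg _).trans (hY (Sum.inl ⟨0, hr⟩))
  have hε₁ : 0 ≤ ε₁ := (norm_nonneg _).trans h1
  -- the decomposition
  have hdec : YY pos δ (fnew P ρ r L M pos f g0) b - s • h -
      (fam hp (by omega) hM hG f g0 δ hf hg hfb hgb).J (SS P ρ r m L b) =
      ∑ k : KK r, act pos (emb (gz k) (toPoly (sl k b)) * c1 ρ L k) (T (δ k) f) -
      ∑ k : KK r, ρ ^ L • act pos (emb (gz k) (mono L * xt ρ ((Pe ρ).symm (sl k b))))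
        (T (δ k) f) +
      (∑ k : KK r, (FF ρ L * toPoly (sl k b)).coeff 0 • T (δ k) f - s • h) +
      ∑ ij : Fin r × Fin r,
      (act pos (emb (gz (Sum.inl ij.1)) (toPoly (sl (Sum.inl ij.1) b + sl (Sum.inr ij.2) b)) *
        c4 P ρ L M ij) g0 +
      (act pos (emb (gz (Sum.inl ij.1)) (toPoly (sl (Sum.inl ij.1) b)) * DD P ρ L M ij)
        (T (δ (Sum.inl ij.1)) g0 - g0) +
      (act pos (emb (gz (Sum.inr ij.2)) (toPoly (sl (Sum.inr ij.2) b)) * DD P ρ L M ij)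
        (T (δ (Sum.inr ij.2)) g0 - g0) +
      (act pos ((emb (gz (Sum.inr ij.2)) (toPoly (sl (Sum.inr ij.2) b)) -
        emb (gz (Sum.inl ij.1)) (toPoly (sl (Sum.inr ij.2) b))) * DD P ρ L M ij) g0 +
      ∑ k ∈ Sij ij.1 ij.2, act pos (emb (gz k) (toPoly (sl k b)) * DD P ρ L M ij)
        (T (δ k) g0))))) := by
    rw [YY_fnew, J_SS hp (by omega) hM hG f g0 δ hf hg hfb hgb b,
      Finset.sum_congr rfl (fun k _ => part1 P ρ hL pos (T (δ k) f) k (sl k b)),
      Finset.sum_congr rfl (fun (ij : Fin r × Fin r) _ => part2 P ρ pos g0 δ ij.1 ij.2 b)]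
    simp only [Finset.sum_add_distrib, Finset.sum_sub_distrib]
    abel
  rw [hdec]
  -- the individual bounds
  have bA : ‖∑ k : KK r, act pos (emb (gz k) (toPoly (sl k b)) * c1 ρ L k) (T (δ k) f)‖ ≤
      2 * r * ((3 + 2 * cc P + 2 * κ) * N * (2 ^ (2 * r) * nrm P (chi ρ L))) := by
    refine (Xnorm_sum_le _ (c := (3 + 2 * cc P + 2 * κ) * N * (2 ^ (2 * r) * nrm P (chi ρ L)))
      ?_).trans ?_
    · intro k
      rw [norm_act hp pos (hG.s1 k _) (hfb k), hS, mul_one]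
      have e : emb (gz k) (toPoly (sl k b)) * c1 ρ L k =
          emb (gz k) (FF ρ L * toPoly (sl k b)) * (AP ρ L (Finset.univ.erase k) - 1) := by
        unfold c1
        rw [map_mul]
        ring
      rw [e, nrm_h1 hP]
      have h2 := nrm_AP_sub_one_le' hP hX (Finset.univ.erase k)
      have h3 := hNF k
      exact mul_le_mul h3 h2 (nrm_nonneg _ _) (by positivity)
    · apply le_of_eq
      simp only [Fintype.card_sum, Fintype.card_fin]
      push_cast
      ring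
  have bB : ‖∑ k : KK r, ρ ^ L • act pos (emb (gz k) (mono L * xt ρ ((Pe ρ).symm (sl k b))))
        (T (δ k) f)‖ ≤ 2 * r * (ρ ^ L * (4 * m) * N) := by
    refine (Xnorm_sum_le _ (c := ρ ^ L * (4 * m) * N) ?_).trans ?_
    · intro k
      rw [norm_smul, Real.norm_eq_abs, abs_of_nonneg (by positivity), mul_assoc]
      gcongr
      refine (norm_act_le _ _ _).trans ?_
      rw [hS, mul_one]
      refine (l1_emb_le _ _).trans ?_
      rw [l1_mono_mul]
      refine (l1_xt_le hρ hρ1 _).trans ?_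
      have h2 : ∑ n : LF m, |(Pe ρ).symm (sl k b) n| ≤ 2 * m * Lb := by
        have h3 : ∀ n : LF m, |(Pe ρ).symm (sl k b) n| ≤ Lb :=
          fun n => abs_le_lpn hP0 (SS P ρ r m L b) (Sum.inl (k, n))
        refine (Finset.sum_le_sum (fun n _ => h3 n)).trans ?_
        rw [Finset.sum_const, nsmul_eq_mul, Finset.card_univ, card_LF]
      have h4 : Lb ≤ N := by
        have := abs_nonneg s
        rw [hN]; linarith
      have h5 : (m : ℝ) * Lb ≤ m * N := by gcongr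
      linarith
    · apply le_of_eq
      simp only [Fintype.card_sum, Fintype.card_fin]
      push_cast
      ring
  have bC : ‖∑ k : KK r, (FF ρ L * toPoly (sl k b)).coeff 0 • T (δ k) f - s • h‖ ≤
      2 * r * (nrm q (chi ρ L) * cc P * N) + ε₁ * N := by
    have e : ∑ k : KK r, (FF ρ L * toPoly (sl k b)).coeff 0 • T (δ k) f - s • h =
        ∑ i : Fin r, ((FF ρ L * toPoly (sl (Sum.inl i) b)).coeff 0 - κ * s) • T (δ (Sum.inl i)) f +
        ∑ j : Fin r, ((FF ρ L * toPoly (sl (Sum.inr j) b)).coeff 0 + κ * s) • T (δ (Sum.inr j)) f +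
        s • (κ • sgnsum δ f - h) := by
      rw [Fintype.sum_sum_type]
      unfold sgnsum
      simp only [sub_smul, add_smul, Finset.sum_sub_distrib, Finset.sum_add_distrib, smul_sub,
        ← Finset.smul_sum, smul_smul, mul_comm s κ]
      abel
    rw [e]
    have h2 : ‖∑ i : Fin r, ((FF ρ L * toPoly (sl (Sum.inl i) b)).coeff 0 - κ * s) •
        T (δ (Sum.inl i)) f‖ ≤ r * (nrm q (chi ρ L) * cc P * N) := by
      refine (Xnorm_sum_le _ (c := nrm q (chi ρ L) * cc P * N) ?_).trans ?_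
      · intro i
        rw [norm_smul, hS, mul_one, Real.norm_eq_abs]
        refine (slow_inl_le hρ1 hκ hr hL hPq b i).trans ?_
        change nrm q (chi ρ L) * (cc P * Lb) ≤ _
        rw [mul_assoc]
        have : Lb ≤ N := by
          have := abs_nonneg s
          rw [hN]; linarith
        gcongr
      · simp
    have h3 : ‖∑ j : Fin r, ((FF ρ L * toPoly (sl (Sum.inr j) b)).coeff 0 + κ * s) •
        T (δ (Sum.inr j)) f‖ ≤ r * (nrm q (chi ρ L) * cc P * N) := by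
      refine (Xnorm_sum_le _ (c := nrm q (chi ρ L) * cc P * N) ?_).trans ?_
      · intro j
        rw [norm_smul, hS, mul_one, Real.norm_eq_abs]
        refine (slow_inr_le hρ1 hκ hr hL hPq b j).trans ?_
        change nrm q (chi ρ L) * (cc P * Lb) ≤ _
        rw [mul_assoc]
        have : Lb ≤ N := by
          have := abs_nonneg s
          rw [hN]; linarith
        gcongr
      · simp
    have h4 : ‖s • (κ • sgnsum δ f - h)‖ ≤ ε₁ * N := by
      rw [norm_smul, Real.norm_eq_abs, mul_comm]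
      have : |s| ≤ N := by rw [hN]; linarith
      gcongr
    refine (norm_add_le _ _).trans ?_
    have := norm_add_le (∑ i : Fin r, ((FF ρ L * toPoly (sl (Sum.inl i) b)).coeff 0 - κ * s) •
        T (δ (Sum.inl i)) f) (∑ j : Fin r, ((FF ρ L * toPoly (sl (Sum.inr j) b)).coeff 0 + κ * s) •
        T (δ (Sum.inr j)) f)
    linarith
  have bD : ∀ ij : Fin r × Fin r,
      ‖act pos (emb (gz (Sum.inl ij.1)) (toPoly (sl (Sum.inl ij.1) b + sl (Sum.inr ij.2) b)) *
        c4 P ρ L M ij) g0‖ ≤ 2 * cc P * N * (2 ^ (2 * r) * nrm P (chi ρ L)) := by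
    rintro ⟨i, j⟩
    rw [norm_act hp pos (hG.s3 _ _) hgb, hg, mul_one]
    have e : emb (gz (Sum.inl i)) (toPoly (sl (Sum.inl i) b + sl (Sum.inr j) b)) *
        c4 P ρ L M (i, j) = ((r : ℝ) ^ (-(1 / P))) • (yi (i, j) * (emb (gz (Sum.inl i))
          (chi ρ L * toPoly (sl (Sum.inl i) b + sl (Sum.inr j) b)) * Ph P M i j *
          (AP ρ L (Sij i j) - 1))) := by
      unfold c4
      rw [mul_smul_comm, map_mul]
      congr 1
      simp only
      ring
    simp only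
    rw [e, nrm_smul hP0, nrm_h3 hP hM, abs_of_nonneg (by positivity)]
    have h2 := nrm_AP_sub_one_le' hP hX (Sij i j)
    have h3 := hNX i j
    have h4 := rinv_le_one hr hP0
    calc (r : ℝ) ^ (-(1 / P)) * (nrm P (chi ρ L * toPoly (sl (Sum.inl i) b + sl (Sum.inr j) b)) *
          nrm P (AP ρ L (Sij i j) - 1))
        ≤ 1 * (2 * cc P * N * (2 ^ (2 * r) * nrm P (chi ρ L))) := by
          apply mul_le_mul h4 _ (mul_nonneg (nrm_nonneg _ _) (nrm_nonneg _ _)) zero_le_one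
          exact mul_le_mul h3 h2 (nrm_nonneg _ _) (by positivity)
      _ = _ := one_mul _
  have bE : ∀ (ij : Fin r × Fin r) (k : KK r),
      ‖act pos (emb (gz k) (toPoly (sl k b)) * DD P ρ L M ij) (T (δ k) g0 - g0)‖ ≤
        2 * (1 + 2 * m) * (2 * m) * N * (DDm * εY) := by
    intro ij k
    refine (norm_act_le _ _ _).trans ?_
    have h2 : l1 (emb (gz k) (toPoly (sl k b)) * DD P ρ L M ij) ≤
        2 * (1 + 2 * m) * (2 * m) * N * DDm := by
      refine (l1_mul_le _ _).trans ?_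
      exact mul_le_mul ((l1_emb_le _ _).trans (hl1 k)) (hDD ij) (l1_nonneg _) (by positivity)
    calc l1 (emb (gz k) (toPoly (sl k b)) * DD P ρ L M ij) * ‖T (δ k) g0 - g0‖
        ≤ (2 * (1 + 2 * m) * (2 * m) * N * DDm) * εY :=
          mul_le_mul h2 (hY k) (norm_nonneg _) (by positivity)
      _ = _ := by ring
  have bG : ∀ ij : Fin r × Fin r,
      ‖act pos ((emb (gz (Sum.inr ij.2)) (toPoly (sl (Sum.inr ij.2) b)) -
        emb (gz (Sum.inl ij.1)) (toPoly (sl (Sum.inr ij.2) b))) * DD P ρ L M ij) g0‖ ≤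
        2 ^ (2 * r) * (2 * m * (M : ℝ) ^ (-(1 / P)) * (2 * (1 + 2 * m) * (2 * m) * N)) := by
    rintro ⟨i, j⟩
    refine (norm_act_le _ _ _).trans ?_
    rw [hg, mul_one]
    simp only
    rw [DD_eq_QQ, mul_left_comm]
    refine (l1_mul_le _ _).trans ?_
    apply mul_le_mul (l1_QQ_le hP hρ hρ1 hr L i j) _ (l1_nonneg _) (by positivity)
    refine (l1_diff_emb_mul_Ph P M i j _).trans ?_
    have := hl1 (Sum.inr j)
    gcongr
  have bH : ∀ ij : Fin r × Fin r,
      ‖∑ k ∈ Sij ij.1 ij.2, act pos (emb (gz k) (toPoly (sl k b)) * DD P ρ L M ij)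
        (T (δ k) g0)‖ ≤
        2 * r * ((3 + 2 * cc P + 2 * κ) * N * (nrm P (chi ρ L) * (2 ^ (2 * r) + 1))) := by
    rintro ⟨i, j⟩
    simp only
    refine (norm_sum_le _ _).trans ?_
    have h2 : ∀ k ∈ Sij i j,
        ‖act pos (emb (gz k) (toPoly (sl k b)) * DD P ρ L M (i, j)) (T (δ k) g0)‖ ≤
        (3 + 2 * cc P + 2 * κ) * N * (nrm P (chi ρ L) * (2 ^ (2 * r) + 1)) := by
      intro k hk
      rw [norm_act hp pos (hG.s2 _ _ _) (hgb' k), hSg, mul_one]
      refine (nrm_h4 hP hX hr hM i j k hk _).trans ?_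
      have := hNF k
      gcongr
    refine (Finset.sum_le_sum h2).trans ?_
    rw [Finset.sum_const, nsmul_eq_mul]
    have h3 : ((Sij i j).card : ℝ) ≤ 2 * r := by
      have : (Sij i j).card ≤ 2 * r := by
        refine (Finset.card_le_univ _).trans ?_
        simp only [Fintype.card_sum, Fintype.card_fin]
        omega
      exact_mod_cast this
    gcongr
  have bIJ : ‖∑ ij : Fin r × Fin r,
      (act pos (emb (gz (Sum.inl ij.1)) (toPoly (sl (Sum.inl ij.1) b + sl (Sum.inr ij.2) b)) *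
        c4 P ρ L M ij) g0 +
      (act pos (emb (gz (Sum.inl ij.1)) (toPoly (sl (Sum.inl ij.1) b)) * DD P ρ L M ij)
        (T (δ (Sum.inl ij.1)) g0 - g0) +
      (act pos (emb (gz (Sum.inr ij.2)) (toPoly (sl (Sum.inr ij.2) b)) * DD P ρ L M ij)
        (T (δ (Sum.inr ij.2)) g0 - g0) +
      (act pos ((emb (gz (Sum.inr ij.2)) (toPoly (sl (Sum.inr ij.2) b)) -
        emb (gz (Sum.inl ij.1)) (toPoly (sl (Sum.inr ij.2) b))) * DD P ρ L M ij) g0 +
      ∑ k ∈ Sij ij.1 ij.2, act pos (emb (gz k) (toPoly (sl k b)) * DD P ρ L M ij)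
        (T (δ k) g0)))))‖ ≤ r * r * (2 * cc P * N * (2 ^ (2 * r) * nrm P (chi ρ L)) +
        (2 * (1 + 2 * m) * (2 * m) * N * (DDm * εY) +
        (2 * (1 + 2 * m) * (2 * m) * N * (DDm * εY) +
        (2 ^ (2 * r) * (2 * m * (M : ℝ) ^ (-(1 / P)) * (2 * (1 + 2 * m) * (2 * m) * N)) +
        2 * r * ((3 + 2 * cc P + 2 * κ) * N * (nrm P (chi ρ L) * (2 ^ (2 * r) + 1))))))) := by
    refine (Xnorm_sum_le _ (c := (2 * cc P * N * (2 ^ (2 * r) * nrm P (chi ρ L)) +
        (2 * (1 + 2 * m) * (2 * m) * N * (DDm * εY) +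
        (2 * (1 + 2 * m) * (2 * m) * N * (DDm * εY) +
        (2 ^ (2 * r) * (2 * m * (M : ℝ) ^ (-(1 / P)) * (2 * (1 + 2 * m) * (2 * m) * N)) +
        2 * r * ((3 + 2 * cc P + 2 * κ) * N * (nrm P (chi ρ L) * (2 ^ (2 * r) + 1)))))))) ?_).trans
      ?_
    · intro ij
      refine (norm_add_le _ _).trans (add_le_add (bD ij) ?_)
      refine (norm_add_le _ _).trans (add_le_add (bE ij _) ?_)
      refine (norm_add_le _ _).trans (add_le_add (bE ij _) ?_)
      exact (norm_add_le _ _).trans (add_le_add (bG ij) (bH ij))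
    · apply le_of_eq
      simp only [Fintype.card_prod, Fintype.card_fin]
      push_cast
      ring
  refine (norm_add_le _ _).trans ?_
  refine (add_le_add ((norm_add_le _ _).trans (add_le_add ((norm_sub_le _ _).trans
    (add_le_add bA bB)) bC)) bIJ).trans ?_
  apply le_of_eq
  unfold errC
  ring

end

end Pool.Agent.H26
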