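import Pool.Agent.Lib.H26.Core

open MeasureTheory Filter Topology Set
open scoped ENNReal

namespace Pool.Agent.H26

noncomputable section

variable {p : ℝ≥0∞} [Fact (1 ≤ p)]

lemma integrableOn_Ico (x : X p) (a b : ℝ) : IntegrableOn x (Ico a b) volume := by
  have h1 : MemLp x p (volume.restrict (Ico a b)) := (Lp.memLp x).restrict _
  have h2 : MemLp x 1 (volume.restrict (Ico a b)) := h1.mono_exponent (Fact.out : 1 ≤ p)
  exact memLp_one_iff_integrable.mp h2

lemma abs_setIntegral_le (hp : p ≠ ∞) (x : X p) {a b : ℝ} (hab : a ≤ b) :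
    |∫ t in Ico a b, x t| ≤ (b - a) ^ (1 - 1 / p.toReal) * ‖x‖ := by
  have h0 : ‖∫ t in Ico a b, x t‖ ≤ (eLpNorm x 1 (volume.restrict (Ico a b))).toReal := by
    rw [eLpNorm_one_eq_lintegral_enorm]
    have := norm_integral_le_lintegral_norm (μ := volume.restrict (Ico a b)) (x : ℝ → ℝ)
    simp only [ofReal_norm_eq_enorm] at this
    exact this
  rw [Real.norm_eq_abs] at h0
  refine h0.trans ?_
  have h1 := eLpNorm_le_eLpNorm_mul_rpow_measure_univ (μ := volume.restrict (Ico a b))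
    (Fact.out : 1 ≤ p) (f := x) (Lp.aestronglyMeasurable x).restrict
  have h2 : eLpNorm x p (volume.restrict (Ico a b)) ≤ eLpNorm x p volume :=
    eLpNorm_mono_measure _ Measure.restrict_le_self
  have hne : eLpNorm x p volume ≠ ∞ := Lp.eLpNorm_ne_top x
  have h3 : (volume.restrict (Ico a b)) Set.univ = ENNReal.ofReal (b - a) := by
    simp
  have hP := one_le_pt (p := p) hp
  have hexp : 0 ≤ 1 - 1 / p.toReal := by
    rw [sub_nonneg, div_le_one (by linarith)]
    exact hP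
  rw [h3] at h1
  calc (eLpNorm x 1 (volume.restrict (Ico a b))).toReal
      ≤ (eLpNorm x p volume * ENNReal.ofReal (b - a) ^ (1 - 1 / p.toReal)).toReal := by
        apply ENNReal.toReal_mono
        · apply ENNReal.mul_ne_top hne
          exact ENNReal.rpow_ne_top_of_nonneg hexp ENNReal.ofReal_ne_top
        · refine h1.trans ?_
          simp only [ENNReal.toReal_one, div_one]
          gcongr
    _ = (b - a) ^ (1 - 1 / p.toReal) * ‖x‖ := by
        rw [ENNReal.toReal_mul, ← ENNReal.toReal_rpow, ENNReal.toReal_ofReal (by linarith),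
          Lp.norm_def, mul_comm]

/-- The integral over `[a,b)` as a continuous functional. -/
def intI (hp : p ≠ ∞) (a b : ℝ) (hab : a ≤ b) : X p →L[ℝ] ℝ :=
  LinearMap.mkContinuous
    { toFun := fun x => ∫ t in Ico a b, x t
      map_add' := fun x y => by
        rw [← integral_add (integrableOn_Ico x a b) (integrableOn_Ico y a b)]
        apply integral_congr_ae
        filter_upwards [ae_restrict_of_ae (Lp.coeFn_add x y)] with t h
        rw [h, Pi.add_apply]
      map_smul' := fun c x => by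
        simp only [RingHom.id_apply, smul_eq_mul]
        rw [← integral_const_mul]
        apply integral_congr_ae
        filter_upwards [ae_restrict_of_ae (Lp.coeFn_smul c x)] with t h
        rw [h, Pi.smul_apply, smul_eq_mul] }
    ((b - a) ^ (1 - 1 / p.toReal)) (fun x => abs_setIntegral_le hp x hab)

lemma intI_apply (hp : p ≠ ∞) (a b : ℝ) (hab : a ≤ b) (x : X p) :
    intI hp a b hab x = ∫ t in Ico a b, x t := rfl

lemma intI_R (hp : p ≠ ∞) (a b : ℝ) (hab : a ≤ b) (x : X p) :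
    intI hp a b hab (R (Ico a b) x) = intI hp a b hab x := by
  rw [intI_apply, intI_apply]
  apply setIntegral_congr_ae measurableSet_Ico
  filter_upwards [R_coe measurableSet_Ico x] with t h ht
  rw [h, indicator_of_mem ht]

lemma abs_intI_le (hp : p ≠ ∞) (a b : ℝ) (hab : a ≤ b) (x : X p) :
    |intI hp a b hab x| ≤ (b - a) ^ (1 - 1 / p.toReal) * ‖R (Ico a b) x‖ := by
  rw [← intI_R]
  exact abs_setIntegral_le hp _ hab

lemma intI_R_of_disj (hp : p ≠ ∞) (a b : ℝ) (hab : a ≤ b) {s : Set ℝ} (hs : MeasurableSet s)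
    (hd : Disjoint (Ico a b) s) (x : X p) :
    intI hp a b hab (R s x) = 0 := by
  rw [← intI_R, R_disj measurableSet_Ico hs hd, map_zero]

lemma intI_add (hp : p ≠ ∞) {a b c : ℝ} (hab : a ≤ b) (hbc : b ≤ c) (x : X p) :
    intI hp a c (hab.trans hbc) x = intI hp a b hab x + intI hp b c hbc x := by
  simp only [intI_apply]
  rw [← setIntegral_union _ measurableSet_Ico (integrableOn_Ico x a b) (integrableOn_Ico x b c),
    Ico_union_Ico_eq_Ico hab hbc]
  rw [Set.disjoint_left]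
  intro t h1 h2
  exact absurd h1.2 (not_lt.mpr h2.1)

lemma intI_ind_self (hp : p ≠ ∞) (a b : ℝ) (hab : a ≤ b) :
    intI hp a b hab (ind a b : X p) = b - a := by
  rw [intI_apply]
  have : ∫ t in Ico a b, (ind a b : X p) t = ∫ t in Ico a b, (1 : ℝ) := by
    apply setIntegral_congr_ae measurableSet_Ico
    filter_upwards [ind_coe (p := p) a b] with t h ht
    rw [h, indicator_of_mem ht]
  rw [this]
  simp [Measure.real, hab]

lemma div_pow_le (n : ℕ) (j : ℤ) : (j : ℝ) / 2 ^ n ≤ (j + 1) / 2 ^ n := by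
  gcongr; linarith

/-- The dyadic cell `[j/2^n,(j+1)/2^n)`. -/
def cell (n : ℕ) (j : ℤ) : Set ℝ := Ico ((j : ℝ) / 2 ^ n) ((j + 1) / 2 ^ n)

lemma measurableSet_cell (n : ℕ) (j : ℤ) : MeasurableSet (cell n j) := measurableSet_Ico

/-- The average of `x` over the dyadic cell. -/
def av (hp : p ≠ ∞) (n : ℕ) (j : ℤ) : X p →L[ℝ] ℝ :=
  (2 ^ n : ℝ) • intI hp ((j : ℝ) / 2 ^ n) ((j + 1) / 2 ^ n) (div_pow_le n j)

/-- The conditional expectation onto the step functions on `[-n,n)` of mesh `2^{-n}`. -/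
def EE (hp : p ≠ ∞) (n : ℕ) : X p →L[ℝ] X p :=
  ∑ j ∈ Finset.Ico (-((n : ℤ) * 2 ^ n)) (n * 2 ^ n), (av hp n j).smulRight (atom n j)

lemma EE_apply (hp : p ≠ ∞) (n : ℕ) (x : X p) :
    EE hp n x = ∑ j ∈ Finset.Ico (-((n : ℤ) * 2 ^ n)) (n * 2 ^ n), av hp n j x • atom n j := by
  simp [EE]

/-- The window `[-n,n)`. -/
def win (b : ℝ) : Set ℝ := Ico (-b) b

lemma measurableSet_win (b : ℝ) : MeasurableSet (win b) := measurableSet_Ico

/-- A real number is dyadic. -/
def DyR (a : ℝ) : Prop := ∃ (n : ℕ) (j : ℤ), a = j / 2 ^ n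

/-- The window of indices. -/
def WI (n : ℕ) : Finset ℤ := Finset.Ico (-((n : ℤ) * 2 ^ n)) (n * 2 ^ n)

lemma EE_apply_WI (hp : p ≠ ∞) (n : ℕ) (x : X p) :
    EE hp n x = ∑ j ∈ WI n, av hp n j x • atom n j := EE_apply hp n x

lemma cell_disj (n : ℕ) {i j : ℤ} (hij : i ≠ j) : Disjoint (cell n i) (cell n j) := by
  rw [Set.disjoint_left]
  intro t h1 h2
  have e1 := h1.1; have e2 := h1.2; have e3 := h2.1; have e4 := h2.2
  have h2n : (0:ℝ) < 2 ^ n := by positivity
  rw [div_le_iff₀ h2n] at e1 e3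
  rw [lt_div_iff₀ h2n] at e2 e4
  apply hij
  have h3 : (i : ℝ) < j + 1 := by linarith
  have h4 : (j : ℝ) < i + 1 := by linarith
  have h5 : i < j + 1 := by exact_mod_cast h3
  have h6 : j < i + 1 := by exact_mod_cast h4
  omega

lemma av_R_cell (hp : p ≠ ∞) (n : ℕ) (j : ℤ) (x : X p) :
    av hp n j (R (cell n j) x) = av hp n j x := by
  unfold av
  rw [_root_.smul_apply, _root_.smul_apply]
  congr 1
  exact intI_R hp _ _ _ x

lemma R_atom (n : ℕ) (j : ℤ) : R (cell n j) (atom n j : X p) = atom n j := R_ind_self _ _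

lemma av_atom_self (hp : p ≠ ∞) (n : ℕ) (j : ℤ) : av hp n j (atom n j : X p) = 1 := by
  unfold av atom
  rw [_root_.smul_apply, intI_ind_self, smul_eq_mul]
  field_simp
  ring

lemma av_atom_ne (hp : p ≠ ∞) (n : ℕ) {i j : ℤ} (hij : i ≠ j) :
    av hp n i (atom n j : X p) = 0 := by
  rw [← R_atom, ← av_R_cell, R_disj (measurableSet_cell n i) (measurableSet_cell n j)
    (cell_disj n hij), map_zero]

lemma av_atom (hp : p ≠ ∞) (n : ℕ) (i j : ℤ) :
    av hp n i (atom n j : X p) = if i = j then 1 else 0 := by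
  split_ifs with h
  · rw [h, av_atom_self]
  · exact av_atom_ne hp n h

lemma intI_sum (hp : p ≠ ∞) (m : ℕ) (j : ℤ) (k : ℕ) (hjk : (j : ℝ) / 2 ^ m ≤ (j + k) / 2 ^ m)
    (x : X p) :
    intI hp ((j : ℝ) / 2 ^ m) ((j + k) / 2 ^ m) hjk x =
      ∑ i ∈ Finset.Ico j (j + k), ((1 : ℝ) / 2 ^ m) * av hp m i x := by
  induction k with
  | zero =>
    simp [intI_apply]
  | succ k ih =>
    have h1 : (j : ℝ) / 2 ^ m ≤ (j + k) / 2 ^ m := by gcongr; simp
    have h2 : ((j : ℝ) + k) / 2 ^ m ≤ (j + (k + 1 : ℕ)) / 2 ^ m := by gcongr; simp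
    rw [intI_add hp h1 h2, ih h1]
    have h3 : Finset.Ico j (j + ((k + 1 : ℕ) : ℤ)) = insert (j + (k : ℤ)) (Finset.Ico j (j + k)) := by
      ext i
      simp only [Finset.mem_Ico, Finset.mem_insert]
      push_cast
      omega
    rw [h3, Finset.sum_insert (by simp), add_comm]
    congr 1
    unfold av
    rw [_root_.smul_apply, smul_eq_mul, ← mul_assoc, intI_apply, intI_apply]
    rw [one_div, inv_mul_cancel₀ (by positivity), one_mul]
    push_cast
    rw [add_assoc]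

lemma ind_sum (m : ℕ) (j : ℤ) (k : ℕ) :
    (ind ((j : ℝ) / 2 ^ m) ((j + k) / 2 ^ m) : X p) = ∑ i ∈ Finset.Ico j (j + k), atom m i := by
  induction k with
  | zero =>
    simp only [Nat.cast_zero, add_zero, Finset.Ico_self, Finset.sum_empty]
    apply Lp.ext
    filter_upwards [ind_coe (p := p) ((j : ℝ) / 2 ^ m) ((j : ℝ) / 2 ^ m),
      Lp.coeFn_zero ℝ p (volume : Measure ℝ)] with t h1 h2
    rw [h1, h2]
    simp
  | succ k ih =>
    have h1 : (j : ℝ) / 2 ^ m ≤ (j + k) / 2 ^ m := by gcongr; simp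
    have h2 : ((j : ℝ) + k) / 2 ^ m ≤ (j + (k + 1 : ℕ)) / 2 ^ m := by gcongr; simp
    have h3 : Finset.Ico j (j + ((k + 1 : ℕ) : ℤ)) = insert (j + (k : ℤ)) (Finset.Ico j (j + k)) := by
      ext i
      simp only [Finset.mem_Ico, Finset.mem_insert]
      push_cast
      omega
    rw [h3, Finset.sum_insert (by simp), ← ih, ← ind_add h1 h2, add_comm]
    congr 1
    unfold atom
    push_cast
    rw [add_assoc]

lemma cell_scale {n m : ℕ} (hnm : n ≤ m) (j : ℤ) :
    (j : ℝ) / 2 ^ n = ((j * 2 ^ (m - n) : ℤ) : ℝ) / 2 ^ m ∧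
    ((j : ℝ) + 1) / 2 ^ n = (((j * 2 ^ (m - n) : ℤ) : ℝ) + ((2 ^ (m - n) : ℕ) : ℝ)) / 2 ^ m := by
  obtain ⟨k, rfl⟩ := Nat.exists_eq_add_of_le hnm
  have h : n + k - n = k := by omega
  rw [h]
  push_cast
  constructor
  · rw [pow_add]; field_simp
  · rw [pow_add]; field_simp

lemma atom_refine {n m : ℕ} (hnm : n ≤ m) (j : ℤ) :
    (atom n j : X p) = ∑ i ∈ Finset.Ico (j * 2 ^ (m - n)) (j * 2 ^ (m - n) + (2 ^ (m - n) : ℕ)),
      atom m i := by
  unfold atom
  rw [(cell_scale hnm j).1, (cell_scale hnm j).2]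
  exact ind_sum m _ _

lemma av_refine (hp : p ≠ ∞) {n m : ℕ} (hnm : n ≤ m) (j : ℤ) (x : X p) :
    av hp n j x = 2 ^ n * ∑ i ∈ Finset.Ico (j * 2 ^ (m - n)) (j * 2 ^ (m - n) + (2 ^ (m - n) : ℕ)),
      ((1 : ℝ) / 2 ^ m) * av hp m i x := by
  have h1 := intI_sum hp m (j * 2 ^ (m - n)) (2 ^ (m - n)) (by
    gcongr; simp) x
  rw [← h1]
  unfold av
  rw [_root_.smul_apply, smul_eq_mul, intI_apply, intI_apply]
  rw [(cell_scale hnm j).1, (cell_scale hnm j).2]

lemma WI_refine {n m : ℕ} (hnm : n ≤ m) {i j : ℤ} (hj : j ∈ WI n)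
    (hi : i ∈ Finset.Ico (j * 2 ^ (m - n)) (j * 2 ^ (m - n) + (2 ^ (m - n) : ℕ))) : i ∈ WI m := by
  unfold WI at *
  rw [Finset.mem_Ico] at *
  obtain ⟨k, rfl⟩ := Nat.exists_eq_add_of_le hnm
  have h : n + k - n = k := by omega
  rw [h] at hi
  push_cast at hi ⊢
  obtain ⟨h1, h2⟩ := hi
  obtain ⟨h3, h4⟩ := hj
  have hk : (0 : ℤ) < 2 ^ k := by positivity
  have hn : (0 : ℤ) < 2 ^ n := by positivity
  have h5 : j + 1 ≤ n * 2 ^ n := h4
  rw [pow_add]
  constructor
  · have e1 : -((n : ℤ) * 2 ^ n) * 2 ^ k ≤ j * 2 ^ k := by gcongr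
    have e2 : (0 : ℤ) ≤ (k : ℤ) * (2 ^ n * 2 ^ k) := by positivity
    nlinarith
  · have e1 : (j + 1) * 2 ^ k ≤ ((n : ℤ) * 2 ^ n) * 2 ^ k := by gcongr
    have e2 : (0 : ℤ) ≤ (k : ℤ) * (2 ^ n * 2 ^ k) := by positivity
    nlinarith

lemma EE_atom_of_mem (hp : p ≠ ∞) (m : ℕ) {i : ℤ} (hi : i ∈ WI m) :
    EE hp m (atom m i : X p) = atom m i := by
  rw [EE_apply_WI, Finset.sum_eq_single i]
  · rw [av_atom_self, one_smul]
  · intro j _ hj
    rw [av_atom_ne hp m hj, zero_smul]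
  · intro h; exact absurd hi h

lemma av_EE_of_mem (hp : p ≠ ∞) (m : ℕ) {i : ℤ} (hi : i ∈ WI m) (x : X p) :
    av hp m i (EE hp m x) = av hp m i x := by
  rw [EE_apply_WI, map_sum, Finset.sum_eq_single i]
  · rw [map_smul, av_atom_self, smul_eq_mul, mul_one]
  · intro j _ hj
    rw [map_smul, av_atom_ne hp m (Ne.symm hj), smul_zero]
  · intro h; exact absurd hi h

lemma EE_EE_of_le (hp : p ≠ ∞) {n m : ℕ} (hnm : n ≤ m) (x : X p) :
    EE hp n (EE hp m x) = EE hp n x := by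
  rw [EE_apply_WI hp n (EE hp m x), EE_apply_WI hp n x]
  apply Finset.sum_congr rfl
  intro j hj
  congr 1
  rw [av_refine hp hnm, av_refine hp hnm j x]
  congr 1
  apply Finset.sum_congr rfl
  intro i hi
  rw [av_EE_of_mem hp m (WI_refine hnm hj hi)]

lemma EE_EE_of_ge (hp : p ≠ ∞) {n m : ℕ} (hnm : n ≤ m) (x : X p) :
    EE hp m (EE hp n x) = EE hp n x := by
  rw [EE_apply_WI hp n x, map_sum]
  apply Finset.sum_congr rfl
  intro j hj
  rw [map_smul]
  congr 1
  rw [atom_refine hnm, map_sum]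
  apply Finset.sum_congr rfl
  intro i hi
  rw [EE_atom_of_mem hp m (WI_refine hnm hj hi)]

lemma EE_zero (hp : p ≠ ∞) : EE (p := p) hp 0 = 0 := by
  simp [EE]

lemma cell_win (n m : ℕ) (j : ℤ) : cell n j ⊆ win (m : ℝ) ∨ Disjoint (cell n j) (win (m : ℝ)) := by
  have h2n : (0:ℝ) < 2 ^ n := by positivity
  by_cases h : -((m : ℤ) * 2 ^ n) ≤ j ∧ j < m * 2 ^ n
  · left
    intro t ht
    obtain ⟨h1, h2⟩ := h
    have h1' : -((m : ℝ) * 2 ^ n) ≤ j := by exact_mod_cast h1
    have h2' : (j : ℝ) + 1 ≤ m * 2 ^ n := by exact_mod_cast h2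
    have e1 := ht.1; have e2 := ht.2
    rw [div_le_iff₀ h2n] at e1
    rw [lt_div_iff₀ h2n] at e2
    constructor
    · nlinarith
    · nlinarith
  · right
    rw [Set.disjoint_left]
    intro t ht ht'
    apply h
    have e1 := ht.1; have e2 := ht.2
    rw [div_le_iff₀ h2n] at e1
    rw [lt_div_iff₀ h2n] at e2
    have e3 := ht'.1; have e4 := ht'.2
    constructor
    · have : -((m : ℝ) * 2 ^ n) < j + 1 := by nlinarith
      have : -((m : ℤ) * 2 ^ n) < j + 1 := by exact_mod_cast this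
      omega
    · have : (j : ℝ) < m * 2 ^ n := by nlinarith
      exact_mod_cast this

lemma EE_R_win (hp : p ≠ ∞) {n : ℕ} (m : ℕ) (x : X p) :
    EE hp n (R (win m) x) = R (win m) (EE hp n x) := by
  rw [EE_apply_WI, EE_apply_WI, map_sum]
  apply Finset.sum_congr rfl
  intro j _
  rw [map_smul]
  rcases cell_win n m j with h | h
  · have h1 : av hp n j (R (win m) x) = av hp n j x := by
      rw [← av_R_cell, R_subset (measurableSet_cell n j) (measurableSet_win _) h, av_R_cell]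
    have h2 : R (win m) (atom n j : X p) = atom n j :=
      R_of_subset (measurableSet_cell n j) (measurableSet_win _) h (R_atom n j)
    rw [h1, h2]
  · have h1 : av hp n j (R (win m) x) = 0 := by
      rw [← av_R_cell, R_disj (measurableSet_cell n j) (measurableSet_win _) h, map_zero]
    have h2 : R (win m) (atom n j : X p) = 0 :=
      R_zero_of_disj (measurableSet_win _) (measurableSet_cell n j) h.symm (R_atom n j)
    rw [h1, h2, zero_smul, smul_zero]

lemma cell_sub_win (n : ℕ) {j : ℤ} (hj : j ∈ WI n) : cell n j ⊆ win (n : ℝ) := by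
  rcases cell_win n n j with h | h
  · exact h
  · exfalso
    unfold WI at hj
    rw [Finset.mem_Ico] at hj
    have h2n : (0:ℝ) < 2 ^ n := by positivity
    have h1 : -((n : ℝ) * 2 ^ n) ≤ j := by exact_mod_cast hj.1
    have h2 : (j : ℝ) < n * 2 ^ n := by exact_mod_cast hj.2
    have e1 : (j : ℝ) / 2 ^ n ∈ cell n j :=
      ⟨le_rfl, by rw [div_lt_div_iff_of_pos_right h2n]; linarith⟩
    have e2 : (j : ℝ) / 2 ^ n ∈ win (n : ℝ) :=
      ⟨by rw [le_div_iff₀ h2n]; linarith, by rw [div_lt_iff₀ h2n]; exact h2⟩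
    exact Set.disjoint_left.mp h e1 e2

lemma R_win_EE (hp : p ≠ ∞) (n : ℕ) (x : X p) : R (win n) (EE hp n x) = EE hp n x := by
  rw [EE_apply_WI, map_sum]
  apply Finset.sum_congr rfl
  intro j hj
  rw [map_smul]
  congr 1
  exact R_of_subset (measurableSet_cell n j) (measurableSet_win _) (cell_sub_win n hj) (R_atom n j)

lemma norm_av_atom_le (hp : p ≠ ∞) (n : ℕ) (j : ℤ) (x : X p) :
    ‖av hp n j x • (atom n j : X p)‖ ^ p.toReal ≤ ‖R (cell n j) x‖ ^ p.toReal := by
  have hP := pt_pos hp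
  have h2n : (0:ℝ) < 2 ^ n := by positivity
  rw [norm_smul, Real.mul_rpow (norm_nonneg _) (norm_nonneg _)]
  have h1 : ‖(atom n j : X p)‖ ^ p.toReal = 1 / 2 ^ n := by
    unfold atom
    rw [norm_ind hp (div_pow_le n j)]
    ring
  have h2 : ‖av hp n j x‖ ≤ 2 ^ n * ((1 / 2 ^ n) ^ (1 - 1 / p.toReal) * ‖R (cell n j) x‖) := by
    unfold av
    rw [_root_.smul_apply, norm_smul, Real.norm_of_nonneg h2n.le]
    gcongr
    have := abs_intI_le hp ((j : ℝ) / 2 ^ n) ((j + 1) / 2 ^ n) (div_pow_le n j) x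
    have hlen : ((j + 1 : ℝ) / 2 ^ n) - (j : ℝ) / 2 ^ n = 1 / 2 ^ n := by ring
    rw [hlen] at this
    exact this
  have h3 : ‖av hp n j x‖ ^ p.toReal ≤ 2 ^ n * ‖R (cell n j) x‖ ^ p.toReal := by
    calc ‖av hp n j x‖ ^ p.toReal
        ≤ (2 ^ n * ((1 / 2 ^ n) ^ (1 - 1 / p.toReal) * ‖R (cell n j) x‖)) ^ p.toReal := by gcongr
      _ = 2 ^ n * ‖R (cell n j) x‖ ^ p.toReal := by
          rw [← mul_assoc, Real.mul_rpow (by positivity) (norm_nonneg _)]
          congr 1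
          have e : (2:ℝ) ^ n * (1 / 2 ^ n) ^ (1 - 1 / p.toReal) = (2 ^ n) ^ (1 / p.toReal) := by
            rw [one_div ((2:ℝ)^n), Real.inv_rpow h2n.le, Real.rpow_sub h2n, Real.rpow_one]
            field_simp
          rw [e, ← Real.rpow_mul h2n.le, one_div, inv_mul_cancel₀ hP.ne', Real.rpow_one]
  rw [h1]
  calc ‖av hp n j x‖ ^ p.toReal * (1 / 2 ^ n) ≤ (2 ^ n * ‖R (cell n j) x‖ ^ p.toReal) * (1 / 2 ^ n) := by
        gcongr
    _ = ‖R (cell n j) x‖ ^ p.toReal := by field_simp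

lemma norm_EE_le (hp : p ≠ ∞) (n : ℕ) (x : X p) : ‖EE hp n x‖ ≤ ‖x‖ := by
  have hP := pt_pos hp
  rw [← Real.rpow_le_rpow_iff (norm_nonneg _) (norm_nonneg _) hP, EE_apply_WI,
    norm_sum_of_disj hp (WI n) (fun j => cell n j) (fun j _ => measurableSet_cell n j)
      (fun i _ j _ hij => cell_disj n hij) _ (fun j _ => by rw [map_smul, R_atom])]
  calc ∑ j ∈ WI n, ‖av hp n j x • (atom n j : X p)‖ ^ p.toReal
      ≤ ∑ j ∈ WI n, ‖R (cell n j) x‖ ^ p.toReal :=
        Finset.sum_le_sum fun j _ => norm_av_atom_le hp n j x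
    _ ≤ ‖x‖ ^ p.toReal := sum_norm_R_le hp (WI n) _ (fun j _ => measurableSet_cell n j)
        (fun i _ j _ hij => cell_disj n hij) x

/-! ### Dyadic functions -/

lemma Dy_mono {n m : ℕ} (hnm : n ≤ m) : Dy p n ≤ Dy p m := by
  unfold Dy
  rw [Submodule.span_le]
  rintro _ ⟨j, rfl⟩
  rw [SetLike.mem_coe, atom_refine hnm]
  exact Submodule.sum_mem _ fun i _ => Submodule.subset_span ⟨i, rfl⟩

lemma Dyad_EE (hp : p ≠ ∞) (n : ℕ) (x : X p) : Dyad (EE hp n x) := by
  refine ⟨n, ?_⟩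
  rw [EE_apply]
  exact Submodule.sum_mem _ fun i _ => Submodule.smul_mem _ _ (Submodule.subset_span ⟨i, rfl⟩)

lemma Dyad_add {x y : X p} (hx : Dyad x) (hy : Dyad y) : Dyad (x + y) := by
  obtain ⟨n, hx⟩ := hx
  obtain ⟨m, hy⟩ := hy
  exact ⟨max n m, Submodule.add_mem _ (Dy_mono (le_max_left _ _) hx) (Dy_mono (le_max_right _ _) hy)⟩

lemma Dyad_smul (c : ℝ) {x : X p} (hx : Dyad x) : Dyad (c • x) := by
  obtain ⟨n, hx⟩ := hx
  exact ⟨n, Submodule.smul_mem _ _ hx⟩

lemma Dyad_zero : Dyad (0 : X p) := ⟨0, Submodule.zero_mem _⟩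

lemma EE_atom_fix (hp : p ≠ ∞) (n : ℕ) (j : ℤ) : ∃ M, ∀ m, M ≤ m → EE hp m (atom n j : X p) = atom n j := by
  refine ⟨max n (j.natAbs + 1), fun m hm => ?_⟩
  have hnm : n ≤ m := le_trans (le_max_left _ _) hm
  have hjm : j.natAbs + 1 ≤ m := le_trans (le_max_right _ _) hm
  rw [atom_refine hnm, map_sum]
  apply Finset.sum_congr rfl
  intro i hi
  apply EE_atom_of_mem
  unfold WI
  rw [Finset.mem_Ico] at hi ⊢
  obtain ⟨h1, h2⟩ := hi
  obtain ⟨k, rfl⟩ := Nat.exists_eq_add_of_le hnm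
  have h : n + k - n = k := by omega
  rw [h] at h1 h2
  push_cast at h1 h2 hjm ⊢
  have hk : (0 : ℤ) < 2 ^ k := by positivity
  have hn : (1 : ℤ) ≤ 2 ^ n := by exact_mod_cast Nat.one_le_two_pow
  have h3 : |j| + 1 ≤ (n : ℤ) + k := by
    have : ((j.natAbs : ℤ)) + 1 ≤ (n : ℤ) + k := by exact_mod_cast hjm
    rwa [Int.natCast_natAbs] at this
  have h4 := abs_le.mp (le_refl |j|)
  rw [pow_add]
  have h5 : (2:ℤ) ^ k * 1 ≤ 2 ^ k * 2 ^ n := by gcongr
  have h6 : ((n : ℤ) + k) * 2 ^ k ≤ ((n : ℤ) + k) * (2 ^ n * 2 ^ k) := by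
    have : (2:ℤ)^k ≤ 2 ^ n * 2 ^ k := by linarith
    have h0 : (0:ℤ) ≤ (n : ℤ) + k := by positivity
    exact mul_le_mul_of_nonneg_left this h0
  constructor
  · have e1 : -((n : ℤ) + k) * 2 ^ k ≤ j * 2 ^ k := by
      apply mul_le_mul_of_nonneg_right _ hk.le
      linarith [h4.1]
    linarith
  · have e1 : (j + 1) * 2 ^ k ≤ ((n : ℤ) + k) * 2 ^ k := by
      apply mul_le_mul_of_nonneg_right _ hk.le
      linarith [h4.2]
    linarith

lemma Dyad_iff (hp : p ≠ ∞) (x : X p) : Dyad x ↔ ∃ n, EE hp n x = x := by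
  constructor
  · rintro ⟨n, hx⟩
    have key : ∃ M, ∀ m, M ≤ m → EE hp m x = x := by
      unfold Dy at hx
      induction hx using Submodule.span_induction with
      | mem y hy => obtain ⟨j, rfl⟩ := hy; exact EE_atom_fix hp n j
      | zero => exact ⟨0, fun m _ => map_zero _⟩
      | add y z _ _ h1 h2 =>
        obtain ⟨M1, h1⟩ := h1
        obtain ⟨M2, h2⟩ := h2
        exact ⟨max M1 M2, fun m hm => by
          rw [map_add, h1 m (le_trans (le_max_left _ _) hm), h2 m (le_trans (le_max_right _ _) hm)]⟩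
      | smul c y _ h1 =>
        obtain ⟨M1, h1⟩ := h1
        exact ⟨M1, fun m hm => by rw [map_smul, h1 m hm]⟩
    obtain ⟨M, hM⟩ := key
    exact ⟨M, hM M le_rfl⟩
  · rintro ⟨n, hn⟩
    rw [← hn]
    exact Dyad_EE hp n x

lemma finiteDimensional_range_EE (hp : p ≠ ∞) (n : ℕ) :
    FiniteDimensional ℝ (LinearMap.range (EE (p := p) hp n).toLinearMap) := by
  have h1 : LinearMap.range (EE (p := p) hp n).toLinearMap ≤
      Submodule.span ℝ ((fun j : ℤ => (atom n j : X p)) '' (WI n : Set ℤ)) := by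
    rintro _ ⟨x, rfl⟩
    change EE hp n x ∈ _
    rw [EE_apply_WI]
    apply Submodule.sum_mem
    intro j hj
    apply Submodule.smul_mem
    apply Submodule.subset_span
    exact ⟨j, hj, rfl⟩
  have h2 : FiniteDimensional ℝ
      (Submodule.span ℝ ((fun j : ℤ => (atom n j : X p)) '' (WI n : Set ℤ))) :=
    FiniteDimensional.span_of_finite ℝ ((WI n).finite_toSet.image _)
  exact Submodule.finiteDimensional_of_le h1

lemma Dyad_T {a : ℝ} (ha : DyR a) {x : X p} (hx : Dyad x) : Dyad (T a x) := by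
  obtain ⟨n, j, rfl⟩ := ha
  obtain ⟨m, hx⟩ := hx
  have hx' := Dy_mono (le_max_right n m) hx
  clear hx
  refine ⟨max n m, ?_⟩
  set M := max n m with hM
  have hnM : n ≤ M := le_max_left _ _
  unfold Dy at hx' ⊢
  induction hx' using Submodule.span_induction with
  | mem y hy =>
    obtain ⟨i, rfl⟩ := hy
    apply Submodule.subset_span
    refine ⟨i + j * 2 ^ (M - n), ?_⟩
    unfold atom
    rw [T_ind, (cell_scale hnM j).1]
    push_cast
    congr 1 <;> ring
  | zero => rw [map_zero]; exact Submodule.zero_mem _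
  | add y z _ _ h1 h2 => rw [map_add]; exact Submodule.add_mem _ h1 h2
  | smul c y _ h1 => rw [map_smul]; exact Submodule.smul_mem _ _ h1

lemma av_apply' (hp : p ≠ ∞) (n : ℕ) (j : ℤ) (x : X p) :
    av hp n j x = 2 ^ n * ∫ t in cell n j, x t := rfl

lemma cell_len (n : ℕ) (j : ℤ) : ((j + 1 : ℝ) / 2 ^ n) - (j : ℝ) / 2 ^ n = 1 / 2 ^ n := by
  ring

/-- If `x` is within `ε` of `c` on the cell, so is its average. -/
lemma av_near (hp : p ≠ ∞) (n : ℕ) (j : ℤ) (x : X p) (c ε : ℝ)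
    (h : ∀ᵐ t ∂(volume : Measure ℝ), t ∈ cell n j → |x t - c| ≤ ε) :
    |av hp n j x - c| ≤ ε := by
  have hv : (volume.real (cell n j)) = 1 / 2 ^ n := by
    unfold cell
    rw [Measure.real, Real.volume_Ico, ENNReal.toReal_ofReal (by rw [cell_len]; positivity), cell_len]
  have h1 : ∫ t in cell n j, (x t - c) = (∫ t in cell n j, x t) - c * (1 / 2 ^ n) := by
    have hi : IntegrableOn x (cell n j) volume := integrableOn_Ico x _ _
    have hc : IntegrableOn (fun _ : ℝ => c) (cell n j) volume := by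
      apply integrableOn_const (hs := by unfold cell; rw [Real.volume_Ico]; exact ENNReal.ofReal_ne_top)
    rw [integral_sub hi hc, setIntegral_const, hv, smul_eq_mul, mul_comm]
  have h2 : ‖∫ t in cell n j, (x t - c)‖ ≤ ε * volume.real (cell n j) := by
    apply norm_setIntegral_le_of_norm_le_const_ae'
    · unfold cell; rw [Real.volume_Ico]; exact ENNReal.ofReal_lt_top
    · exact h
  rw [av_apply']
  have h3 : 2 ^ n * (∫ t in cell n j, x t) - c = 2 ^ n * ∫ t in cell n j, (x t - c) := by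
    rw [h1]; field_simp
  rw [h3, abs_mul, abs_of_pos (by positivity : (0:ℝ) < 2 ^ n)]
  rw [hv, Real.norm_eq_abs] at h2
  calc (2:ℝ) ^ n * |∫ t in cell n j, (x t - c)| ≤ 2 ^ n * (ε * (1 / 2 ^ n)) := by gcongr
    _ = ε := by field_simp

lemma EE_coe (hp : p ≠ ∞) (n : ℕ) (x : X p) :
    ⇑(EE hp n x) =ᵐ[volume] fun t =>
      ∑ j ∈ Finset.Ico (-((n : ℤ) * 2 ^ n)) (n * 2 ^ n),
        av hp n j x * (cell n j).indicator (fun _ => (1 : ℝ)) t := by
  rw [EE_apply]
  have h : ∀ s : Finset ℤ, ⇑(∑ j ∈ s, av hp n j x • (atom n j : X p)) =ᵐ[volume] fun t =>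
      ∑ j ∈ s, av hp n j x * (cell n j).indicator (fun _ => (1 : ℝ)) t := by
    intro s
    induction s using Finset.induction_on with
    | empty =>
      simp only [Finset.sum_empty]
      exact Lp.coeFn_zero _ _ _
    | insert a s ha ih =>
      simp only [Finset.sum_insert ha]
      filter_upwards [ih, Lp.coeFn_add (av hp n a x • (atom n a : X p))
        (∑ j ∈ s, av hp n j x • (atom n j : X p)), Lp.coeFn_smul (av hp n a x) (atom n a : X p),
        ind_coe (p := p) ((a : ℝ) / 2 ^ n) ((a + 1) / 2 ^ n)] with t h1 h2 h3 h4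
      rw [h2, Pi.add_apply, h1, h3, Pi.smul_apply, smul_eq_mul]
      unfold atom
      rw [h4]
      rfl
  exact h _

lemma mem_cell_iff (n : ℕ) (j : ℤ) (t : ℝ) : t ∈ cell n j ↔ j = ⌊t * 2 ^ n⌋ := by
  unfold cell
  rw [mem_Ico, div_le_iff₀ (by positivity), lt_div_iff₀ (by positivity), eq_comm, Int.floor_eq_iff]

lemma floor_mem (n : ℕ) {t : ℝ} (ht : t ∈ win n) :
    ⌊t * 2 ^ n⌋ ∈ Finset.Ico (-((n : ℤ) * 2 ^ n)) (n * 2 ^ n) := by
  obtain ⟨h1, h2⟩ := ht
  rw [Finset.mem_Ico, Int.le_floor, Int.floor_lt]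
  push_cast
  constructor
  · nlinarith [show (0:ℝ) < 2 ^ n by positivity]
  · nlinarith [show (0:ℝ) < 2 ^ n by positivity]

lemma EE_coe' (hp : p ≠ ∞) (n : ℕ) (x : X p) :
    ∀ᵐ t ∂(volume : Measure ℝ), t ∈ win n → EE hp n x t = av hp n ⌊t * 2 ^ n⌋ x := by
  filter_upwards [EE_coe hp n x] with t h ht
  rw [h, Finset.sum_eq_single ⌊t * 2 ^ n⌋]
  · rw [indicator_of_mem ((mem_cell_iff n _ t).mpr rfl), mul_one]
  · intro j _ hj
    rw [indicator_of_notMem (fun hm => hj ((mem_cell_iff n j t).mp hm)), mul_zero]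
  · intro h; exact absurd (floor_mem n ht) h

lemma EE_tendsto_aux (hp : p ≠ ∞) (x : X p) (g : ℝ → ℝ) (hg : Continuous g)
    (hgc : HasCompactSupport g) (hx : ⇑x =ᵐ[volume] g) :
    Tendsto (fun n => EE hp n x) atTop (𝓝 x) := by
  have hunif : UniformContinuous g := hgc.uniformContinuous_of_continuous hg
  obtain ⟨B, hB⟩ : ∃ B : ℕ, ∀ t, t ∉ win (B : ℝ) → g t = 0 := by
    obtain ⟨r, hr⟩ := hgc.isCompact.isBounded.subset_closedBall 0
    obtain ⟨B, hB⟩ := exists_nat_gt r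
    refine ⟨B, fun t ht => ?_⟩
    by_contra hne
    apply ht
    have h1 : t ∈ tsupport g := subset_tsupport g hne
    have h2 := hr h1
    rw [mem_closedBall_zero_iff, Real.norm_eq_abs, abs_le] at h2
    exact ⟨by linarith [h2.1], by linarith [h2.2]⟩
  have hxR : R (win B) x = x := by
    apply Lp.ext
    filter_upwards [R_coe (measurableSet_win (B : ℝ)) x, hx] with t h1 h2
    rw [h1]
    by_cases ht : t ∈ win (B : ℝ)
    · rw [indicator_of_mem ht]
    · rw [indicator_of_notMem ht, h2, hB t ht]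
  rw [Metric.tendsto_atTop]
  intro ε hε
  set V : ℝ := (2 * B : ℝ) ^ (1 / p.toReal) with hV
  have hV0 : 0 ≤ V := by positivity
  obtain ⟨δ, hδ, hd⟩ := Metric.uniformContinuous_iff.mp hunif (ε / (2 * (V + 1))) (by positivity)
  obtain ⟨N, hN⟩ := exists_pow_lt_of_lt_one hδ (by norm_num : (1/2 : ℝ) < 1)
  refine ⟨max N B, fun n hn => ?_⟩
  have hnN : N ≤ n := le_trans (le_max_left _ _) hn
  have hnB : B ≤ n := le_trans (le_max_right _ _) hn
  have hmesh : (1 : ℝ) / 2 ^ n < δ := by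
    calc (1 : ℝ) / 2 ^ n = (1/2) ^ n := by rw [one_div_pow]
      _ ≤ (1/2) ^ N := pow_le_pow_of_le_one (by norm_num) (by norm_num) hnN
      _ < δ := hN
  have hsub : win (B : ℝ) ⊆ win (n : ℝ) := by
    have : (B : ℝ) ≤ n := by exact_mod_cast hnB
    intro t ht
    exact ⟨by linarith [ht.1], by linarith [ht.2]⟩
  -- the difference lives on the window
  have hR : R (win B) (EE hp n x - x) = EE hp n x - x := by
    rw [map_sub, hxR, ← EE_R_win, hxR]
  have hbd : ∀ᵐ t ∂(volume : Measure ℝ), t ∈ win (B : ℝ) → ‖(EE hp n x - x) t‖ ≤ ε / (2 * (V + 1)) := by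
    filter_upwards [Lp.coeFn_sub (EE hp n x) x, EE_coe' hp n x, hx] with t h1 h2 h3 ht
    rw [h1, Pi.sub_apply, h2 (hsub ht), h3, Real.norm_eq_abs]
    apply av_near
    filter_upwards [hx] with s hs hsc
    rw [hs]
    have h4 : t ∈ cell n ⌊t * 2 ^ n⌋ := (mem_cell_iff n _ t).mpr rfl
    have h5 : dist s t < δ := by
      rw [Real.dist_eq, abs_lt]
      have h6 := cell_len n ⌊t * 2 ^ n⌋
      constructor <;> linarith [hsc.1, hsc.2, h4.1, h4.2]
    have := hd h5
    rw [Real.dist_eq] at this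
    exact this.le
  have hnorm : ‖EE hp n x - x‖ ≤ V * (ε / (2 * (V + 1))) := by
    rw [← hR]
    have h1 : ‖R (win B) (EE hp n x - x)‖ = (eLpNorm (EE hp n x - x : X p) p (volume.restrict (win B))).toReal := by
      rw [Lp.norm_def]
      congr 1
      rw [eLpNorm_congr_ae (R_coe (measurableSet_win (B : ℝ)) _),
        eLpNorm_indicator_eq_eLpNorm_restrict (measurableSet_win _)]
    rw [h1]
    have h2 : eLpNorm (EE hp n x - x : X p) p (volume.restrict (win B)) ≤
        (volume.restrict (win (B:ℝ))) univ ^ (p.toReal)⁻¹ * ENNReal.ofReal (ε / (2 * (V + 1))) := by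
      apply eLpNorm_le_of_ae_bound
      rw [ae_restrict_iff' (measurableSet_win _)]
      exact hbd
    have h3 : (volume.restrict (win (B:ℝ))) univ = ENNReal.ofReal (2 * B) := by
      rw [Measure.restrict_apply_univ]
      unfold win
      rw [Real.volume_Ico]
      congr 1; ring
    rw [h3] at h2
    have h4 := ENNReal.toReal_mono (by
      apply ENNReal.mul_ne_top
      · apply ENNReal.rpow_ne_top_of_nonneg
        · positivity
        · exact ENNReal.ofReal_ne_top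
      · exact ENNReal.ofReal_ne_top) h2
    refine h4.trans (le_of_eq ?_)
    rw [ENNReal.toReal_mul, ← ENNReal.toReal_rpow, ENNReal.toReal_ofReal (by positivity),
      ENNReal.toReal_ofReal (by positivity), hV, one_div]
  rw [dist_eq_norm]
  calc ‖EE hp n x - x‖ ≤ V * (ε / (2 * (V + 1))) := hnorm
    _ = (V / (V + 1)) * (ε / 2) := by field_simp
    _ ≤ 1 * (ε / 2) := by
        gcongr
        rw [div_le_one (by positivity)]; linarith
    _ < ε := by linarith

lemma EE_tendsto (hp : p ≠ ∞) (x : X p) : Tendsto (fun n => EE hp n x) atTop (𝓝 x) := by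
  rw [Metric.tendsto_atTop]
  intro ε hε
  obtain ⟨g, hg1, hg2, hg3, hg4⟩ := (Lp.memLp x).exists_hasCompactSupport_eLpNorm_sub_le hp
    (ε := ENNReal.ofReal (ε / 4)) (by simp; positivity)
  set y : X p := hg4.toLp g with hy
  have hxy : ‖x - y‖ ≤ ε / 4 := by
    rw [Lp.norm_def]
    apply ENNReal.toReal_le_of_le_ofReal (by positivity)
    refine le_trans (le_of_eq ?_) hg2
    apply eLpNorm_congr_ae
    filter_upwards [Lp.coeFn_sub x y, hg4.coeFn_toLp] with t h1 h2
    rw [h1, Pi.sub_apply, Pi.sub_apply, h2]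
  obtain ⟨N, hN⟩ := Metric.tendsto_atTop.mp (EE_tendsto_aux hp y g hg3 hg1 hg4.coeFn_toLp) (ε / 4)
    (by positivity)
  refine ⟨N, fun n hn => ?_⟩
  have h1 := hN n hn
  rw [dist_eq_norm] at h1 ⊢
  have h2 : EE hp n x - x = EE hp n (x - y) + (EE hp n y - y) - (x - y) := by
    rw [map_sub]; abel
  rw [h2]
  calc ‖EE hp n (x - y) + (EE hp n y - y) - (x - y)‖ ≤ ‖EE hp n (x - y) + (EE hp n y - y)‖ + ‖x - y‖ :=
        norm_sub_le _ _
    _ ≤ ‖EE hp n (x - y)‖ + ‖EE hp n y - y‖ + ‖x - y‖ := by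
        gcongr; exact norm_add_le _ _
    _ ≤ ‖x - y‖ + ‖EE hp n y - y‖ + ‖x - y‖ := by
        gcongr; exact norm_EE_le hp n _
    _ < ε := by linarith

end

end Pool.Agent.H26
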