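import Pool.Agent.Lib.H26.SeqE
import Pool.Agent.Lib.H26.Act

open Finset

namespace Pool.Agent.H26

noncomputable section

/-- The index set of all formal variables. -/
abbrev IX (r : ℕ) := KK r ⊕ (Fin r × Fin r)

/-- The formal group. -/
abbrev GG (r : ℕ) := IX r → ℤ

variable {r m T : ℕ}

/-- The variable `z_k`. -/
def gz (k : KK r) : GG r := Pi.single (Sum.inl k) 1

/-- The location variable `y_{ij}`. -/
def gy (ij : Fin r × Fin r) : GG r := Pi.single (Sum.inr ij) 1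

/-- The subgroup of the exponents supported on `S`. -/
def GS (S : Set (IX r)) : AddSubgroup (GG r) where
  carrier := {v | ∀ x, x ∉ S → v x = 0}
  zero_mem' := fun _ _ => rfl
  add_mem' := by
    intro a b ha hb x hx
    rw [Pi.add_apply, ha x hx, hb x hx, add_zero]
  neg_mem' := by
    intro a ha x hx
    rw [Pi.neg_apply, ha x hx, neg_zero]

lemma mem_GS {S : Set (IX r)} {v : GG r} : v ∈ GS S ↔ ∀ x, x ∉ S → v x = 0 := Iff.rfl

lemma GS_disjoint {S S' : Set (IX r)} (h : Disjoint S S') : Disjoint (GS S) (GS S') := by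
  rw [AddSubgroup.disjoint_def]
  intro v hv hv'
  ext x
  by_cases hx : x ∈ S
  · exact hv' x (Set.disjoint_left.mp h hx)
  · exact hv x hx

lemma GS_mono {S S' : Set (IX r)} (h : S ⊆ S') : GS S ≤ GS S' := fun _ hv x hx =>
  hv x (fun hx' => hx (h hx'))

lemma gz_mem (k : KK r) {S : Set (IX r)} (hk : Sum.inl k ∈ S) : gz k ∈ GS S := by
  intro x hx
  unfold gz
  rw [Pi.single_apply, if_neg]
  rintro rfl
  exact hx hk

lemma gy_mem (ij : Fin r × Fin r) {S : Set (IX r)} (hk : Sum.inr ij ∈ S) : gy ij ∈ GS S := by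
  intro x hx
  unfold gy
  rw [Pi.single_apply, if_neg]
  rintro rfl
  exact hx hk

lemma gz_inj (k : KK r) : Function.Injective (fun n : ℤ => n • gz k) := by
  intro a b hab
  have h := congrFun hab (Sum.inl k)
  simpa [gz] using h

/-- The difference `z_i z_j⁻¹`. -/
def gw (i j : Fin r) : GG r := gz (Sum.inl i) - gz (Sum.inr j)

lemma gw_apply_inl (i j : Fin r) : gw i j (Sum.inl (Sum.inl i)) = 1 := by
  simp [gw, gz]

lemma gw_apply_inr (i j : Fin r) : gw i j (Sum.inl (Sum.inr j)) = -1 := by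
  simp [gw, gz]

lemma gz_apply_inr (i j : Fin r) : gz (Sum.inl i) (Sum.inl (Sum.inr j)) = 0 := by
  simp [gz]

lemma gw_inj (i j : Fin r) : Function.Injective (fun n : ℤ => n • gw i j) := by
  intro a b hab
  have h := congrFun hab (Sum.inl (Sum.inl i))
  simp only [Pi.smul_apply, gw_apply_inl] at h
  simpa using h

lemma zmul_disjoint (i j : Fin r) :
    Disjoint (AddSubgroup.zmultiples (gz (Sum.inl i) : GG r))
      (AddSubgroup.zmultiples (gw i j)) := by
  rw [AddSubgroup.disjoint_def]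
  intro v hv hv'
  obtain ⟨a, rfl⟩ := AddSubgroup.mem_zmultiples_iff.mp hv
  obtain ⟨b, hb⟩ := AddSubgroup.mem_zmultiples_iff.mp hv'
  have h1 := congrFun hb (Sum.inl (Sum.inr j))
  simp only [Pi.smul_apply, gw_apply_inr, gz_apply_inr] at h1
  have hb0 : b = 0 := by simpa using h1
  rw [← hb, hb0, zero_smul]

lemma emb_liv_GS (k : KK r) {S : Set (IX r)} (hk : Sum.inl k ∈ S) (x : GA ℤ) :
    Liv (GS S) (emb (gz k) x) :=
  (emb_liv (gz k) x).mono (by
    rw [AddSubgroup.zmultiples_le]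
    exact gz_mem k hk)

/-- The product of the `F(z_k)`, `k ∈ S`. -/
def AP (ρ : ℝ) (T : ℕ) (S : Finset (KK r)) : GA (GG r) := ∏ k ∈ S, emb (gz k) (FF ρ T)

lemma AP_liv (ρ : ℝ) (T : ℕ) (S : Finset (KK r)) {S' : Set (IX r)}
    (h : ∀ k ∈ S, Sum.inl k ∈ S') : Liv (GS S') (AP ρ T S) :=
  Liv.prod S (fun k hk => emb_liv_GS k (h k hk) _)

lemma AP_insert (ρ : ℝ) (T : ℕ) {S : Finset (KK r)} {k : KK r} (hk : k ∉ S) :
    AP ρ T (insert k S) = emb (gz k) (FF ρ T) * AP ρ T S := by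
  unfold AP
  rw [Finset.prod_insert hk]

lemma AP_erase (ρ : ℝ) (T : ℕ) {S : Finset (KK r)} {k : KK r} (hk : k ∈ S) :
    AP ρ T S = emb (gz k) (FF ρ T) * AP ρ T (S.erase k) := by
  unfold AP
  rw [Finset.mul_prod_erase S (fun k => emb (gz k) (FF ρ T)) hk]

section nrms

variable {P : ℝ} (hP : 1 ≤ P) {ρ : ℝ} (hX : nrm P (chi ρ T) ≤ 1)

include hP hX in
lemma nrm_FF_le_two : nrm P (FF ρ T) ≤ 2 := by
  have : FF ρ T = 1 - chi ρ T := by unfold chi; ring
  rw [this]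
  refine (nrm_sub_le hP _ _).trans ?_
  rw [nrm_one (by linarith)]
  linarith

include hP hX in
lemma nrm_AP_sub_one_le (S : Finset (KK r)) :
    nrm P (AP ρ T S - 1) ≤ 2 ^ S.card * nrm P (chi ρ T) := by
  have hP0 : 0 < P := by linarith
  have hX0 := nrm_nonneg P (chi ρ T)
  have key : ∀ S : Finset (KK r),
      nrm P (AP ρ T S - 1) ≤ (2 ^ S.card - 1) * nrm P (chi ρ T) := by
    intro S
    induction S using Finset.induction_on with
    | empty => simp [AP, nrm_zero hP0]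
    | insert k S hk ih =>
      have e : AP ρ T (insert k S) - 1 =
          emb (gz k) (FF ρ T) * (AP ρ T S - 1) - emb (gz k) (chi ρ T) := by
        rw [AP_insert ρ T hk]
        unfold chi
        rw [map_sub, map_one]
        ring
      rw [e]
      refine (nrm_sub_le hP _ _).trans ?_
      rw [nrm_emb hP0 (gz_inj k)]
      have h1 : nrm P (emb (gz k) (FF ρ T) * (AP ρ T S - 1)) =
          nrm P (FF ρ T) * nrm P (AP ρ T S - 1) := by
        have hd : Disjoint (GS {Sum.inl k} : AddSubgroup (GG r))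
            (GS {x | ∃ k' ∈ S, x = Sum.inl k'}) := by
          apply GS_disjoint
          rw [Set.disjoint_left]
          rintro x hx ⟨k', hk', rfl⟩
          have : k' = k := Sum.inl_injective (Set.mem_singleton_iff.mp hx)
          exact hk (this ▸ hk')
        have hl1 : Liv (GS {Sum.inl k} : AddSubgroup (GG r)) (emb (gz k) (FF ρ T)) :=
          emb_liv_GS k (Set.mem_singleton _) _
        have hl2 : Liv (GS {x | ∃ k' ∈ S, x = Sum.inl k'} : AddSubgroup (GG r))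
            (AP ρ T S - 1) :=
          (AP_liv ρ T S (S' := {x | ∃ k' ∈ S, x = Sum.inl k'})
            (fun k' hk' => ⟨k', hk', rfl⟩)).sub (Liv.one _)
        rw [nrm_mul_of_disjoint hP0 hd hl1 hl2, nrm_emb hP0 (gz_inj k)]
      rw [h1, Finset.card_insert_of_notMem hk, pow_succ]
      have h2 := nrm_FF_le_two hP hX
      have h3 := nrm_nonneg P (AP ρ T S - 1)
      nlinarith
  refine (key S).trans ?_
  nlinarith

include hP hX in
lemma nrm_AP_le (S : Finset (KK r)) : nrm P (AP ρ T S) ≤ 2 ^ S.card * nrm P (chi ρ T) + 1 := by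
  have e : AP ρ T S = (AP ρ T S - 1) + 1 := by ring
  rw [e]
  refine (nrm_add_le hP _ _).trans ?_
  rw [nrm_one (by linarith)]
  have := nrm_AP_sub_one_le hP hX S
  linarith

end nrms

/-- The averaging element `Φ_{ij}`. -/
def Ph (P : ℝ) (M : ℕ) (i j : Fin r) : GA (GG r) :=
  ((M : ℝ) ^ (-(1 / P))) • emb (gw i j) (geo 1 M)

lemma Ph_liv (P : ℝ) (M : ℕ) (i j : Fin r) :
    Liv (AddSubgroup.zmultiples (gw i j)) (Ph P M i j) :=
  (emb_liv _ _).smul _

lemma nrm_Ph {P : ℝ} (hP : 0 < P) {M : ℕ} (hM : 0 < M) (i j : Fin r) :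
    nrm P (Ph P M i j) = 1 := by
  unfold Ph
  rw [nrm_smul hP, nrm_emb hP (gw_inj i j)]
  unfold nrm
  rw [npow_geo hP zero_le_one]
  simp only [one_pow, Real.one_rpow, Finset.sum_const, Finset.card_range, nsmul_eq_mul, mul_one]
  rw [abs_of_nonneg (by positivity), ← Real.rpow_add (by positivity), neg_add_cancel,
    Real.rpow_zero]

lemma nrm_emb_mul_Ph {P : ℝ} (hP : 0 < P) {M : ℕ} (hM : 0 < M) (i j : Fin r) (x : GA ℤ) :
    nrm P (emb (gz (Sum.inl i)) x * Ph P M i j) = nrm P x := by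
  rw [nrm_mul_of_disjoint hP (zmul_disjoint i j) (emb_liv _ _) (Ph_liv P M i j),
    nrm_emb hP (gz_inj _), nrm_Ph hP hM, mul_one]

/-- The monomial `y_{ij}⁻¹`. -/
def yi (ij : Fin r × Fin r) : GA (GG r) := AddMonoidAlgebra.single (-(gy ij)) 1

/-- The detector `D_{ij}`. -/
def DD (P ρ : ℝ) (T M : ℕ) (ij : Fin r × Fin r) : GA (GG r) :=
  ((r : ℝ) ^ (-(1 / P))) • (yi ij * (emb (gz (Sum.inl ij.1)) (chi ρ T) *
    AP ρ T ((univ.erase (Sum.inl ij.1)).erase (Sum.inr ij.2)) * Ph P M ij.1 ij.2))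

lemma gw_mem {i j : Fin r} {S : Set (IX r)} (hi : Sum.inl (Sum.inl i) ∈ S)
    (hj : Sum.inl (Sum.inr j) ∈ S) : gw i j ∈ GS S :=
  (GS S).sub_mem (gz_mem _ hi) (gz_mem _ hj)

lemma Ph_liv_GS (P : ℝ) (M : ℕ) {i j : Fin r} {S : Set (IX r)} (hi : Sum.inl (Sum.inl i) ∈ S)
    (hj : Sum.inl (Sum.inr j) ∈ S) : Liv (GS S) (Ph P M i j) :=
  (Ph_liv P M i j).mono (by
    rw [AddSubgroup.zmultiples_le]
    exact gw_mem hi hj)

lemma nrm_emb_mul {P : ℝ} (hP : 0 < P) (k : KK r) (x : GA ℤ) {a : GA (GG r)}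
    {S : Set (IX r)} (hk : Sum.inl k ∉ S) (ha : Liv (GS S) a) :
    nrm P (emb (gz k) x * a) = nrm P x * nrm P a := by
  have hd : Disjoint (GS {Sum.inl k} : AddSubgroup (GG r)) (GS S) := by
    apply GS_disjoint
    rw [Set.disjoint_left]
    intro y hy hy'
    rw [Set.mem_singleton_iff.mp hy] at hy'
    exact hk hy'
  rw [nrm_mul_of_disjoint hP hd (emb_liv_GS k (Set.mem_singleton _) _) ha, nrm_emb hP (gz_inj k)]

lemma nrm_yi_mul {P : ℝ} (hP : 0 < P) {M : ℕ} (hM : 0 < M) (i j : Fin r) (x : GA ℤ)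
    {a : GA (GG r)} {S : Set (IX r)} (hi : Sum.inl (Sum.inl i) ∉ S)
    (hj : Sum.inl (Sum.inr j) ∉ S) (ha : Liv (GS S) a) :
    nrm P (yi (i, j) * (emb (gz (Sum.inl i)) x * Ph P M i j * a)) = nrm P x * nrm P a := by
  unfold yi
  rw [nrm_single_mul hP, abs_one, one_mul]
  have hd : Disjoint (GS {Sum.inl (Sum.inl i), Sum.inl (Sum.inr j)} : AddSubgroup (GG r))
      (GS S) := by
    apply GS_disjoint
    rw [Set.disjoint_left]
    intro y hy hy'
    rcases hy with rfl | hy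
    · exact hi hy'
    · rw [Set.mem_singleton_iff.mp hy] at hy'
      exact hj hy'
  have hl : Liv (GS {Sum.inl (Sum.inl i), Sum.inl (Sum.inr j)} : AddSubgroup (GG r))
      (emb (gz (Sum.inl i)) x * Ph P M i j) :=
    (emb_liv_GS _ (by simp) _).mul_same (Ph_liv_GS P M (by simp) (by simp))
  rw [nrm_mul_of_disjoint hP hd hl ha, nrm_emb_mul_Ph hP hM]

/-- The set of indices of the variables in `S`. -/
def inS (S : Finset (KK r)) : Set (IX r) := {x | ∃ k ∈ S, x = Sum.inl k}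

lemma not_mem_inS {S : Finset (KK r)} {k : KK r} (hk : k ∉ S) : Sum.inl k ∉ inS S := by
  rintro ⟨k', hk', h⟩
  rw [Sum.inl_injective h] at hk
  exact hk hk'

lemma AP_liv' (ρ : ℝ) (T : ℕ) (S : Finset (KK r)) : Liv (GS (inS S)) (AP ρ T S) :=
  AP_liv ρ T S (fun k hk => ⟨k, hk, rfl⟩)

/-- The index set `univ \ {i, j}`. -/
def Sij (i j : Fin r) : Finset (KK r) := (univ.erase (Sum.inl i)).erase (Sum.inr j)

lemma i_not_mem (i j : Fin r) : (Sum.inl i : KK r) ∉ Sij i j := by simp [Sij]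

lemma j_not_mem (i j : Fin r) : (Sum.inr j : KK r) ∉ Sij i j := by simp [Sij]

lemma DD_eq (P ρ : ℝ) (T M : ℕ) (i j : Fin r) :
    DD P ρ T M (i, j) = ((r : ℝ) ^ (-(1 / P))) •
      (yi (i, j) * (emb (gz (Sum.inl i)) (chi ρ T) * Ph P M i j * AP ρ T (Sij i j))) := by
  unfold DD Sij
  simp only
  congr 2
  ring

lemma rinv_le_one (hr : 0 < r) {P : ℝ} (hP : 0 < P) : (r : ℝ) ^ (-(1 / P)) ≤ 1 := by
  apply Real.rpow_le_one_of_one_le_of_nonpos
  · exact_mod_cast hr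
  · rw [neg_nonpos]; positivity

section nrms2

variable {P : ℝ} (hP : 1 ≤ P) {ρ : ℝ} (hX : nrm P (chi ρ T) ≤ 1)

lemma two_pow_card_le (S : Finset (KK r)) : (2 : ℝ) ^ S.card ≤ 2 ^ (2 * r) := by
  apply pow_le_pow_right₀ (by norm_num)
  refine (Finset.card_le_univ _).trans ?_
  simp only [Fintype.card_sum, Fintype.card_fin]
  omega

include hP hX in
lemma nrm_AP_le' (S : Finset (KK r)) : nrm P (AP ρ T S) ≤ 2 ^ (2 * r) + 1 := by
  refine (nrm_AP_le hP hX S).trans ?_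
  have h1 : (2 : ℝ) ^ S.card * nrm P (chi ρ T) ≤ 2 ^ (2 * r) * 1 :=
    mul_le_mul (two_pow_card_le S) hX (nrm_nonneg _ _) (by positivity)
  linarith

include hP hX in
lemma nrm_AP_sub_one_le' (S : Finset (KK r)) :
    nrm P (AP ρ T S - 1) ≤ 2 ^ (2 * r) * nrm P (chi ρ T) := by
  refine (nrm_AP_sub_one_le hP hX S).trans ?_
  exact mul_le_mul_of_nonneg_right (two_pow_card_le S) (nrm_nonneg _ _)

include hP in
/-- (h1) -/
lemma nrm_h1 (k : KK r) (x : GA ℤ) :
    nrm P (emb (gz k) x * (AP ρ T (univ.erase k) - 1)) =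
      nrm P x * nrm P (AP ρ T (univ.erase k) - 1) :=
  nrm_emb_mul (by linarith) k x (S := inS (univ.erase k)) (not_mem_inS (by simp))
    ((AP_liv' ρ T _).sub (Liv.one _))

include hP in
/-- (h3) -/
lemma nrm_h3 {M : ℕ} (hM : 0 < M) (i j : Fin r) (x : GA ℤ) :
    nrm P (yi (i, j) * (emb (gz (Sum.inl i)) x * Ph P M i j * (AP ρ T (Sij i j) - 1))) =
      nrm P x * nrm P (AP ρ T (Sij i j) - 1) :=
  nrm_yi_mul (by linarith) hM i j x (not_mem_inS (i_not_mem i j)) (not_mem_inS (j_not_mem i j))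
    ((AP_liv' ρ T _).sub (Liv.one _))

include hP hX in
lemma nrm_DD_le (hr : 0 < r) {M : ℕ} (hM : 0 < M) (i j : Fin r) :
    nrm P (DD P ρ T M (i, j)) ≤ nrm P (chi ρ T) * (2 ^ (2 * r) + 1) := by
  have hP0 : 0 < P := by linarith
  rw [DD_eq, nrm_smul hP0, nrm_yi_mul hP0 hM i j _ (not_mem_inS (i_not_mem i j))
    (not_mem_inS (j_not_mem i j)) (AP_liv' ρ T _), abs_of_nonneg (by positivity)]
  have h1 := rinv_le_one hr hP0
  have h6 := nrm_AP_le' hP hX (Sij i j)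
  have h4 := nrm_nonneg P (chi ρ T)
  have h5 := nrm_nonneg P (AP ρ T (Sij i j))
  calc (r : ℝ) ^ (-(1 / P)) * (nrm P (chi ρ T) * nrm P (AP ρ T (Sij i j)))
      ≤ 1 * (nrm P (chi ρ T) * (2 ^ (2 * r) + 1)) := by gcongr
    _ = _ := by ring

include hP hX in
/-- (h4) -/
lemma nrm_h4 (hr : 0 < r) {M : ℕ} (hM : 0 < M) (i j : Fin r) (k : KK r) (hk : k ∈ Sij i j)
    (x : GA ℤ) :
    nrm P (emb (gz k) x * DD P ρ T M (i, j)) ≤
      nrm P (FF ρ T * x) * (nrm P (chi ρ T) * (2 ^ (2 * r) + 1)) := by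
  have hP0 : 0 < P := by linarith
  have e : emb (gz k) x * DD P ρ T M (i, j) = ((r : ℝ) ^ (-(1 / P))) •
      (yi (i, j) * (emb (gz (Sum.inl i)) (chi ρ T) * Ph P M i j *
        (emb (gz k) (FF ρ T * x) * AP ρ T ((Sij i j).erase k)))) := by
    rw [DD_eq, mul_smul_comm, AP_erase ρ T hk, map_mul]
    congr 1
    ring
  have hi : Sum.inl (Sum.inl i) ∉ inS (Sij i j) := not_mem_inS (i_not_mem i j)
  have hj : Sum.inl (Sum.inr j) ∉ inS (Sij i j) := not_mem_inS (j_not_mem i j)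
  have hl : Liv (GS (inS (Sij i j)))
      (emb (gz k) (FF ρ T * x) * AP ρ T ((Sij i j).erase k)) :=
    (emb_liv_GS k (S := inS (Sij i j)) ⟨k, hk, rfl⟩ _).mul_same
      (AP_liv ρ T _ (S' := inS (Sij i j)) (fun k' hk' => ⟨k', Finset.mem_of_mem_erase hk', rfl⟩))
  rw [e, nrm_smul hP0, nrm_yi_mul hP0 hM i j _ hi hj hl,
    nrm_emb_mul hP0 k _ (S := inS ((Sij i j).erase k)) (not_mem_inS (by simp)) (AP_liv' ρ T _),
    abs_of_nonneg (by positivity)]
  have h1 := rinv_le_one hr hP0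
  have h6 := nrm_AP_le' hP hX ((Sij i j).erase k)
  have h4 := nrm_nonneg P (chi ρ T)
  have h5 := nrm_nonneg P (AP ρ T ((Sij i j).erase k))
  have h7 := nrm_nonneg P (FF ρ T * x)
  calc (r : ℝ) ^ (-(1 / P)) * (nrm P (chi ρ T) * (nrm P (FF ρ T * x) *
        nrm P (AP ρ T ((Sij i j).erase k))))
      ≤ 1 * (nrm P (chi ρ T) * (nrm P (FF ρ T * x) * (2 ^ (2 * r) + 1))) := by gcongr
    _ = _ := by ring

end nrms2

/-! ### The soft estimate for the averaging element -/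

lemma l1_one_sub_mono_mul_geo (M n : ℕ) :
    l1 ((1 - mono n) * geo 1 M) ≤ 2 * n := by
  have h1 : l1 ((1 - mono 1) * geo 1 M) ≤ 2 := by
    have h := mul_geo 1 M
    rw [one_smul, one_pow, one_smul] at h
    rw [h]
    refine (l1_sub_le _ _).trans ?_
    rw [l1_one, l1_mono]
    norm_num
  induction n with
  | zero => simp [mono_zero, l1_zero]
  | succ n ih =>
    have e : (1 - mono ((n + 1 : ℕ) : ℤ)) * geo 1 M =
        (1 - mono n) * geo 1 M + mono n * ((1 - mono 1) * geo 1 M) := by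
      have : mono ((n + 1 : ℕ) : ℤ) = mono n * mono 1 := by
        rw [mono_mul]; push_cast; rfl
      rw [this]
      ring
    rw [e]
    refine (l1_add_le _ _).trans ?_
    rw [l1_mono_mul]
    push_cast
    linarith

lemma l1_one_sub_mono_mul_geo' (M : ℕ) (n : ℤ) :
    l1 ((1 - mono n) * geo 1 M) ≤ 2 * |(n : ℝ)| := by
  rcases Int.eq_nat_or_neg n with ⟨k, rfl | rfl⟩
  · have := l1_one_sub_mono_mul_geo M k
    simpa using this
  · have e : (1 - mono (-(k : ℤ))) * geo 1 M = -(mono (-(k : ℤ)) * ((1 - mono k) * geo 1 M)) := by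
      have h : mono (-(k : ℤ)) * mono k = 1 := by
        rw [mono_mul, neg_add_cancel, mono_zero]
      calc (1 - mono (-(k : ℤ))) * geo 1 M
          = (mono (-(k : ℤ)) * mono k - mono (-(k : ℤ))) * geo 1 M := by rw [h]
        _ = _ := by ring
    rw [e, l1_neg, l1_mono_mul]
    have := l1_one_sub_mono_mul_geo M k
    simpa using this

lemma l1_diff_mul_Ph (P : ℝ) (M : ℕ) (i j : Fin r) (n : ℤ) :
    l1 ((AddMonoidAlgebra.single (n • gz (Sum.inr j)) 1 -
      AddMonoidAlgebra.single (n • gz (Sum.inl i)) 1) * Ph P M i j) ≤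
      2 * |(n : ℝ)| * (M : ℝ) ^ (-(1 / P)) := by
  have e : (AddMonoidAlgebra.single (n • gz (Sum.inr j)) 1 -
      AddMonoidAlgebra.single (n • gz (Sum.inl i)) 1 : GA (GG r)) * Ph P M i j =
      ((M : ℝ) ^ (-(1 / P))) • (AddMonoidAlgebra.single (n • gz (Sum.inr j)) 1 *
        emb (gw i j) ((1 - mono n) * geo 1 M)) := by
    unfold Ph
    rw [mul_smul_comm, map_mul, map_sub, map_one]
    congr 1
    rw [← mul_assoc, mul_sub, mul_one]
    unfold mono
    rw [emb_single, AddMonoidAlgebra.single_mul_single, one_mul, ← smul_add]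
    congr 3
    unfold gw
    rw [add_sub_cancel]
  rw [e, l1_smul, l1_single_mul, abs_one, one_mul, abs_of_nonneg (by positivity), mul_comm]
  gcongr
  exact (l1_emb_le _ _).trans (l1_one_sub_mono_mul_geo' M n)

lemma emb_toPoly (k : KK r) (c : LF m → ℝ) :
    emb (gz k) (toPoly c) = ∑ n : LF m, c n • AddMonoidAlgebra.single ((n : ℤ) • gz k) 1 := by
  rw [toPoly_apply, map_sum]
  apply Finset.sum_congr rfl
  intro n _
  rw [map_smul]
  unfold mono
  rw [emb_single]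

lemma l1_toPoly_eq (c : LF m → ℝ) : l1 (toPoly c) = ∑ n, |c n| := by
  rw [l1_eq_sum _ (support_toPoly c), ← Finset.sum_coe_sort]
  apply Finset.sum_congr rfl
  intro n _
  rw [coeff_toPoly_mem]

lemma l1_diff_emb_mul_Ph (P : ℝ) (M : ℕ) (i j : Fin r) (c : LF m → ℝ) :
    l1 ((emb (gz (Sum.inr j)) (toPoly c) - emb (gz (Sum.inl i)) (toPoly c)) * Ph P M i j) ≤
      2 * m * (M : ℝ) ^ (-(1 / P)) * l1 (toPoly c) := by
  rw [emb_toPoly, emb_toPoly, ← Finset.sum_sub_distrib, Finset.sum_mul, l1_toPoly_eq,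
    Finset.mul_sum]
  refine (l1_sum_le _ _).trans ?_
  apply Finset.sum_le_sum
  intro n _
  rw [← smul_sub, smul_mul_assoc, l1_smul, mul_comm]
  gcongr
  refine (l1_diff_mul_Ph P M i j n).trans ?_
  gcongr
  have hn := mem_LF.mp n.2
  have h : |(n : ℤ)| ≤ m := abs_le.mpr hn.2
  exact_mod_cast h

/-- The fixed factor of the detector. -/
def QQ (P ρ : ℝ) (T : ℕ) (i j : Fin r) : GA (GG r) :=
  ((r : ℝ) ^ (-(1 / P))) • (yi (i, j) * (emb (gz (Sum.inl i)) (chi ρ T) * AP ρ T (Sij i j)))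

lemma DD_eq_QQ (P ρ : ℝ) (T M : ℕ) (i j : Fin r) :
    DD P ρ T M (i, j) = QQ P ρ T i j * Ph P M i j := by
  rw [DD_eq]
  unfold QQ
  rw [smul_mul_assoc]
  congr 1
  ring

lemma l1_QQ_le {P : ℝ} (hP : 1 ≤ P) {ρ : ℝ} (hρ : 0 ≤ ρ) (hρ1 : ρ < 1) (hr : 0 < r) (T : ℕ)
    (i j : Fin r) : l1 (QQ P ρ T i j) ≤ 2 ^ (2 * r) := by
  have hP0 : 0 < P := by linarith
  unfold QQ yi
  rw [l1_smul, l1_single_mul, abs_one, one_mul, abs_of_nonneg (by positivity)]
  have h1 := rinv_le_one hr hP0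
  have h2 : l1 (emb (gz (Sum.inl i)) (chi ρ T) * AP ρ T (Sij i j)) ≤ 2 ^ (2 * r) := by
    refine (l1_mul_le _ _).trans ?_
    have h3 : l1 (emb (gz (Sum.inl i : KK r)) (chi ρ T)) ≤ 1 :=
      (l1_emb_le _ _).trans (l1_chi_le hρ hρ1.le T)
    have h4 : l1 (AP ρ T (Sij i j)) ≤ 2 ^ (Sij i j).card :=
      l1_prod_le _ _ (fun k _ => (l1_emb_le _ _).trans (l1_FF_le hρ hρ1.le T))
    have h5 : (2 : ℝ) ^ (Sij i j).card ≤ 2 ^ (2 * r) := by
      apply pow_le_pow_right₀ (by norm_num)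
      refine (Finset.card_le_univ _).trans ?_
      simp only [Fintype.card_sum, Fintype.card_fin]
      omega
    have h6 := l1_nonneg (AP ρ T (Sij i j))
    have h7 := l1_nonneg (emb (gz (Sum.inl i : KK r)) (chi ρ T))
    nlinarith
  have h8 := l1_nonneg (emb (gz (Sum.inl i)) (chi ρ T) * AP ρ T (Sij i j))
  have h9 : (0 : ℝ) ≤ (r : ℝ) ^ (-(1 / P)) := by positivity
  nlinarith

end

end Pool.Agent.H26
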