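import Pool.Agent.Lib.H26.Mod

open MeasureTheory Filter Topology
open scoped ENNReal

namespace Pool.Agent.H26

noncomputable section

/-- The first error element. -/
def c1 (ρ : ℝ) (T : ℕ) {r : ℕ} (k : KK r) : GA (GG r) :=
  emb (gz k) (FF ρ T) * (AP ρ T (Finset.univ.erase k) - 1)

/-- The second error element. -/
def c4 (P ρ : ℝ) (T M : ℕ) {r : ℕ} (ij : Fin r × Fin r) : GA (GG r) :=
  ((r : ℝ) ^ (-(1 / P))) • (yi ij * (emb (gz (Sum.inl ij.1)) (chi ρ T) *
    Ph P M ij.1 ij.2 * (AP ρ T (Sij ij.1 ij.2) - 1)))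

/-- The geometric requirements on the positions. -/
structure Geo (P ρ : ℝ) (r m T M : ℕ) (pos : GG r →+ ℝ) (b1 B : ℝ) : Prop where
  da : ∀ α β : AA r m T, α ≠ β →
    Disjoint (reg pos (ea P ρ M α).coeff.support b1) (reg pos (ea P ρ M β).coeff.support b1)
  sa : ∀ α : AA r m T, Sep pos (ea P ρ M α).coeff.support b1
  dB : ∀ α : AA r m T, Disjoint (reg pos (ea P ρ M α).coeff.support b1) (win B)
  s1 : ∀ (k : KK r) (c : LF m → ℝ), Sep pos (emb (gz k) (toPoly c) * c1 ρ T k).coeff.support b1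
  s2 : ∀ (ij : Fin r × Fin r) (k : KK r) (c : LF m → ℝ),
    Sep pos (emb (gz k) (toPoly c) * DD P ρ T M ij).coeff.support b1
  s3 : ∀ (ij : Fin r × Fin r) (c : LF m → ℝ),
    Sep pos (emb (gz (Sum.inl ij.1)) (toPoly c) * c4 P ρ T M ij).coeff.support b1
  s4 : Sep pos (AP ρ T (Finset.univ : Finset (KK r)) - 1).coeff.support b1
  s5 : ∀ ij : Fin r × Fin r, Sep pos (DD P ρ T M ij).coeff.support b1

lemma support_emb_toPoly_mul {r m : ℕ} (k : KK r) (a : GA (GG r)) :
    ∃ F : Finset (GG r), ∀ c : LF m → ℝ, (emb (gz k) (toPoly c) * a).coeff.support ⊆ F := by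
  classical
  refine ⟨Finset.univ.biUnion (fun n : LF m =>
    (AddMonoidAlgebra.single ((n : ℤ) • gz k) (1 : ℝ) * a).coeff.support), ?_⟩
  intro c
  rw [emb_toPoly, Finset.sum_mul]
  refine (support_sum_subset _ _).trans ?_
  apply Finset.biUnion_mono
  intro n _
  rw [smul_mul_assoc, AddMonoidAlgebra.coeff_smul]
  exact Finsupp.support_smul

theorem exists_geo (P ρ : ℝ) (r m T M : ℕ) (b1 B : ℝ) :
    ∃ pos : GG r →+ ℝ, (∀ v, ∃ k : ℤ, pos v = k) ∧ Geo P ρ r m T M pos b1 B := by
  classical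
  choose F1 hF1 using fun k : KK r => support_emb_toPoly_mul (m := m) k (c1 ρ T k)
  choose F2 hF2 using fun (x : (Fin r × Fin r) × KK r) =>
    support_emb_toPoly_mul (m := m) x.2 (DD P ρ T M x.1)
  choose F3 hF3 using fun (ij : Fin r × Fin r) =>
    support_emb_toPoly_mul (m := m) (Sum.inl ij.1) (c4 P ρ T M ij)
  let Ea : Finset (GG r) := Finset.univ.biUnion (fun α : AA r m T => (ea P ρ M α).coeff.support)
  let E1 : Finset (GG r) := Finset.univ.biUnion F1
  let E2 : Finset (GG r) := Finset.univ.biUnion F2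
  let E3 : Finset (GG r) := Finset.univ.biUnion F3
  let E4 : Finset (GG r) := (AP ρ T (Finset.univ : Finset (KK r)) - 1).coeff.support
  let E5 : Finset (GG r) := Finset.univ.biUnion (fun ij => (DD P ρ T M ij).coeff.support)
  let E : Finset (GG r) := insert 0 (Ea ∪ (E1 ∪ (E2 ∪ (E3 ∪ (E4 ∪ E5)))))
  obtain ⟨pos, hint, hpos⟩ := exists_pos E (max (2 * b1) (B + b1))
  have hSep : Sep pos E b1 := fun v hv w hw hne => (le_max_left _ _).trans (hpos v hv w hw hne)
  have ha : ∀ α : AA r m T, (ea P ρ M α).coeff.support ⊆ E := by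
    intro α v hv
    simp only [E, Finset.mem_insert, Finset.mem_union]
    right; left
    exact Finset.mem_biUnion.mpr ⟨α, Finset.mem_univ _, hv⟩
  have h0 : ∀ v ∈ E, v ≠ 0 → B + b1 ≤ |pos v| := by
    intro v hv hne
    have := (le_max_right _ _).trans (hpos v hv 0 (Finset.mem_insert_self _ _) hne)
    rwa [map_zero, sub_zero] at this
  refine ⟨pos, hint, ?_, ?_, ?_, ?_, ?_, ?_, ?_, ?_⟩
  · intro α β hne
    exact disjoint_reg hSep (ha α) (ha β) (ea_disjoint P ρ M hne)
  · intro α
    exact hSep.mono (ha α)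
  · intro α
    unfold reg
    rw [Set.disjoint_iUnion₂_left]
    intro v hv
    have hne : v ≠ 0 := by
      rintro rfl
      exact desc_zero α (desc_of_mem P ρ M α hv)
    have h1 := h0 v (ha α hv) hne
    unfold win
    rw [Set.disjoint_left]
    rintro t ⟨h2, h3⟩ ⟨h4, h5⟩
    rcases abs_cases (pos v) with ⟨h6, h7⟩ | ⟨h6, h7⟩ <;> linarith
  · intro k c
    apply hSep.mono
    intro v hv
    simp only [E, Finset.mem_insert, Finset.mem_union]
    right; right; left
    exact Finset.mem_biUnion.mpr ⟨k, Finset.mem_univ _, hF1 k c hv⟩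
  · intro ij k c
    apply hSep.mono
    intro v hv
    simp only [E, Finset.mem_insert, Finset.mem_union]
    right; right; right; left
    exact Finset.mem_biUnion.mpr ⟨(ij, k), Finset.mem_univ _, hF2 (ij, k) c hv⟩
  · intro ij c
    apply hSep.mono
    intro v hv
    simp only [E, Finset.mem_insert, Finset.mem_union]
    right; right; right; right; left
    exact Finset.mem_biUnion.mpr ⟨ij, Finset.mem_univ _, hF3 ij c hv⟩
  · apply hSep.mono
    intro v hv
    simp only [E, Finset.mem_insert, Finset.mem_union]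
    right; right; right; right; right; left
    exact hv
  · intro ij
    apply hSep.mono
    intro v hv
    simp only [E, Finset.mem_insert, Finset.mem_union]
    right; right; right; right; right; right
    exact Finset.mem_biUnion.mpr ⟨ij, Finset.mem_univ _, hv⟩

variable {p : ℝ≥0∞} [Fact (1 ≤ p)]

/-- The base functions of the atoms. -/
def phi {r m T' : ℕ} (f g0 : X p) (δ : KK r → ℝ) : AA r m T' → X p
  | Sum.inl (k, _) => T (δ k) f
  | Sum.inr (Sum.inl k) => T (δ k) f
  | Sum.inr (Sum.inr _) => g0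

/-- The disjoint family of atoms. -/
def fam (hp : p ≠ ∞) {ρ : ℝ} {r m T' M : ℕ} (hT : 0 < T') (hM : 0 < M) {pos : GG r →+ ℝ}
    {b1 B : ℝ} (hG : Geo p.toReal ρ r m T' M pos b1 B) (f g0 : X p) (δ : KK r → ℝ)
    (hf : ‖f‖ = 1) (hg : ‖g0‖ = 1) (hfb : ∀ k, R (win b1) (T (δ k) f) = T (δ k) f)
    (hgb : R (win b1) g0 = g0) : DisjFam (AA r m T') p where
  e α := act pos (ea p.toReal ρ M α) (phi f g0 δ α)
  s α := reg pos (ea p.toReal ρ M α).coeff.support b1
  hs α := measurableSet_reg _ _ _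
  hd α β h := hG.da α β h
  he α := by
    have h1 : R (win b1) (phi f g0 δ α) = phi f g0 δ α := by
      rcases α with ⟨k, n⟩ | k | ij
      · exact hfb k
      · exact hfb k
      · exact hgb
    have h2 : ‖phi f g0 δ α‖ = 1 := by
      rcases α with ⟨k, n⟩ | k | ij
      · exact (norm_T _ _).trans hf
      · exact (norm_T _ _).trans hf
      · exact hg
    rw [norm_act hp pos (hG.sa α) h1, h2, nrm_ea (pt_pos hp) hT hM, mul_one]
  hR α := by
    have h1 : R (win b1) (phi f g0 δ α) = phi f g0 δ α := by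
      rcases α with ⟨k, n⟩ | k | ij
      · exact hfb k
      · exact hfb k
      · exact hgb
    exact R_reg_act pos (Finset.Subset.refl _) h1

end

end Pool.Agent.H26
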