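import Pool.Agent.Lib.H26.Alg

open Finset

namespace Pool.Agent.H26

noncomputable section

/-- The monomial `z^n`. -/
def mono (n : ℤ) : GA ℤ := AddMonoidAlgebra.single n 1

lemma mono_zero : mono 0 = 1 := rfl

lemma mono_mul (n k : ℤ) : mono n * mono k = mono (n + k) := by
  unfold mono
  rw [AddMonoidAlgebra.single_mul_single, one_mul]

lemma coeff_mono (n k : ℤ) : (mono n).coeff k = if n = k then 1 else 0 := by
  unfold mono
  rw [AddMonoidAlgebra.coeff_single, Finsupp.single_apply]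

lemma nrm_mono {P : ℝ} (hP : 0 < P) (n : ℤ) : nrm P (mono n) = 1 := by
  unfold mono; rw [nrm_single hP, abs_one]

lemma l1_mono (n : ℤ) : l1 (mono n) = 1 := by
  unfold mono; rw [l1_single, abs_one]

lemma nrm_mono_mul {P : ℝ} (hP : 0 < P) (n : ℤ) (a : GA ℤ) : nrm P (mono n * a) = nrm P a := by
  unfold mono; rw [nrm_single_mul hP, abs_one, one_mul]

lemma l1_mono_mul (n : ℤ) (a : GA ℤ) : l1 (mono n * a) = l1 a := by
  unfold mono; rw [l1_single_mul, abs_one, one_mul]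

lemma coeff_mono_mul (n k : ℤ) (a : GA ℤ) : (mono n * a).coeff k = a.coeff (k - n) := by
  unfold mono
  rw [AddMonoidAlgebra.coeff_single_mul_apply, one_mul]
  congr 1
  ring

/-- The truncated geometric series `∑_{j<T} ρ^j z^j`. -/
def geo (ρ : ℝ) (T : ℕ) : GA ℤ := ∑ j ∈ range T, (ρ • mono 1) ^ j

lemma smul_mono_pow (ρ : ℝ) (j : ℕ) : (ρ • mono 1) ^ j = ρ ^ j • mono j := by
  rw [smul_pow]
  congr 1
  unfold mono
  rw [AddMonoidAlgebra.single_pow]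
  simp

lemma geo_eq (ρ : ℝ) (T : ℕ) : geo ρ T = ∑ j ∈ range T, ρ ^ j • mono j := by
  unfold geo
  exact Finset.sum_congr rfl (fun j _ => smul_mono_pow ρ j)

lemma mul_geo (ρ : ℝ) (T : ℕ) :
    (1 - ρ • mono 1) * geo ρ T = 1 - ρ ^ T • mono T := by
  unfold geo
  rw [mul_neg_geom_sum, smul_mono_pow]

/-- The multiplier `F = (1-z) ∑_{j<T} ρ^j z^j`. -/
def FF (ρ : ℝ) (T : ℕ) : GA ℤ := (1 - mono 1) * geo ρ T

/-- The complementary multiplier `χ = 1 - F`. -/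
def chi (ρ : ℝ) (T : ℕ) : GA ℤ := 1 - FF ρ T

/-- The tail `t = z^{m+1} ∑_{j<T} ρ^j z^j`. -/
def tl (ρ : ℝ) (m T : ℕ) : GA ℤ := mono (m + 1) * geo ρ T

lemma chi_eq (ρ : ℝ) (T : ℕ) :
    chi ρ T = (1 - ρ) • (mono 1 * geo ρ T) + ρ ^ T • mono T := by
  have h := mul_geo ρ T
  unfold chi FF
  have h2 : geo ρ T = 1 - ρ ^ T • mono T + ρ • (mono 1 * geo ρ T) := by
    rw [← h, sub_mul, one_mul, smul_mul_assoc]
    abel
  rw [sub_mul, one_mul, sub_smul, one_smul]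
  nth_rewrite 1 [h2]
  abel

lemma coeff_geo (ρ : ℝ) (T : ℕ) (n : ℤ) :
    (geo ρ T).coeff n = if 0 ≤ n ∧ n < T then ρ ^ n.toNat else 0 := by
  rw [geo_eq, AddMonoidAlgebra.coeff_sum, Finsupp.finsetSum_apply]
  simp only [AddMonoidAlgebra.coeff_smul, Finsupp.smul_apply, coeff_mono, smul_eq_mul, mul_ite,
    mul_one, mul_zero]
  split_ifs with h
  · rw [Finset.sum_eq_single n.toNat]
    · rw [if_pos]
      omega
    · intro j _ hj
      rw [if_neg]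
      omega
    · intro hn
      exfalso
      apply hn
      rw [Finset.mem_range]
      omega
  · apply Finset.sum_eq_zero
    intro j hj
    rw [Finset.mem_range] at hj
    rw [if_neg]
    omega

lemma geo_support (ρ : ℝ) (T : ℕ) :
    (geo ρ T).coeff.support ⊆ (range T).map ⟨fun j : ℕ => (j : ℤ), Nat.cast_injective⟩ := by
  intro n hn
  rw [Finsupp.mem_support_iff, coeff_geo] at hn
  rw [Finset.mem_map]
  by_cases h : 0 ≤ n ∧ n < T
  · refine ⟨n.toNat, ?_, ?_⟩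
    · rw [Finset.mem_range]; omega
    · simp; omega
  · rw [if_neg h] at hn
    exact absurd rfl hn

lemma l1_geo {ρ : ℝ} (hρ : 0 ≤ ρ) (T : ℕ) : l1 (geo ρ T) = ∑ j ∈ range T, ρ ^ j := by
  rw [l1_eq_sum _ (geo_support ρ T), Finset.sum_map]
  apply Finset.sum_congr rfl
  intro j hj
  rw [Finset.mem_range] at hj
  simp only [Function.Embedding.coeFn_mk]
  rw [coeff_geo, if_pos ⟨by positivity, by exact_mod_cast hj⟩]
  simp [abs_of_nonneg hρ]

lemma npow_geo {P : ℝ} (hP : 0 < P) {ρ : ℝ} (hρ : 0 ≤ ρ) (T : ℕ) :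
    npow P (geo ρ T) = ∑ j ∈ range T, (ρ ^ j) ^ P := by
  rw [npow_eq_sum hP _ (geo_support ρ T), Finset.sum_map]
  apply Finset.sum_congr rfl
  intro j hj
  rw [Finset.mem_range] at hj
  simp only [Function.Embedding.coeFn_mk]
  rw [coeff_geo, if_pos ⟨by positivity, by exact_mod_cast hj⟩]
  simp [abs_of_nonneg hρ]

lemma sum_geo_mul {ρ : ℝ} (T : ℕ) : (1 - ρ) * ∑ j ∈ range T, ρ ^ j = 1 - ρ ^ T := by
  exact mul_neg_geom_sum ρ T

lemma l1_chi_le {ρ : ℝ} (hρ : 0 ≤ ρ) (hρ1 : ρ ≤ 1) (T : ℕ) : l1 (chi ρ T) ≤ 1 := by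
  rw [chi_eq]
  refine (l1_add_le _ _).trans ?_
  rw [l1_smul, l1_smul, l1_mono_mul, l1_mono, l1_geo hρ, abs_of_nonneg (by linarith : 0 ≤ 1 - ρ),
    sum_geo_mul, mul_one, abs_of_nonneg (by positivity)]
  linarith

lemma l1_FF_le {ρ : ℝ} (hρ : 0 ≤ ρ) (hρ1 : ρ ≤ 1) (T : ℕ) : l1 (FF ρ T) ≤ 2 := by
  have : FF ρ T = 1 - chi ρ T := by unfold chi; ring
  rw [this]
  refine (l1_sub_le _ _).trans ?_
  rw [l1_one]
  linarith [l1_chi_le hρ hρ1 T]

lemma nrm_geo_le {P : ℝ} (hP : 1 ≤ P) {ρ : ℝ} (hρ : 0 ≤ ρ) (hρ1 : ρ < 1) (T : ℕ) :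
    nrm P (geo ρ T) ≤ (1 - ρ)⁻¹ ^ (1 / P) := by
  have hP0 : 0 < P := by linarith
  unfold nrm
  apply Real.rpow_le_rpow (npow_nonneg _ _) _ (by positivity)
  rw [npow_geo hP0 hρ]
  have h1 : ∑ j ∈ range T, (ρ ^ j) ^ P ≤ ∑ j ∈ range T, ρ ^ j := by
    apply Finset.sum_le_sum
    intro j _
    have h0 : 0 ≤ ρ ^ j := by positivity
    have h1 : ρ ^ j ≤ 1 := pow_le_one₀ hρ hρ1.le
    calc (ρ ^ j) ^ P ≤ (ρ ^ j) ^ (1 : ℝ) :=
          Real.rpow_le_rpow_of_exponent_ge' h0 h1 zero_le_one hP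
      _ = ρ ^ j := Real.rpow_one _
  refine h1.trans ?_
  have h2 := sum_geo_mul (ρ := ρ) T
  have h3 : 0 < 1 - ρ := by linarith
  rw [← one_div, le_div_iff₀ h3, mul_comm, h2]
  have : 0 ≤ ρ ^ T := by positivity
  linarith

lemma nrm_chi_le {P : ℝ} (hP : 1 ≤ P) {ρ : ℝ} (hρ : 0 ≤ ρ) (hρ1 : ρ < 1) (T : ℕ) :
    nrm P (chi ρ T) ≤ (1 - ρ) ^ (1 - 1 / P) + ρ ^ T := by
  have hP0 : 0 < P := by linarith
  have h3 : 0 < 1 - ρ := by linarith
  rw [chi_eq]
  refine (nrm_add_le hP _ _).trans ?_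
  rw [nrm_smul hP0, nrm_smul hP0, nrm_mono_mul hP0, nrm_mono hP0, abs_of_nonneg h3.le, mul_one,
    abs_of_nonneg (by positivity)]
  have h4 := nrm_geo_le hP hρ hρ1 T
  have h5 : (1 - ρ) * (1 - ρ)⁻¹ ^ (1 / P) = (1 - ρ) ^ (1 - 1 / P) := by
    rw [Real.inv_rpow h3.le, ← Real.rpow_neg h3.le]
    nth_rewrite 1 [← Real.rpow_one (1 - ρ)]
    rw [← Real.rpow_add h3]
    congr 1
  rw [← h5]
  gcongr

lemma one_le_nrm_geo {P : ℝ} (hP : 0 < P) (ρ : ℝ) {T : ℕ} (hT : 0 < T) :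
    1 ≤ nrm P (geo ρ T) := by
  have h := abs_coeff_le_nrm hP (geo ρ T) 0
  rw [coeff_geo, if_pos ⟨le_refl _, by exact_mod_cast hT⟩] at h
  simpa using h

lemma nrm_tl {P : ℝ} (hP : 0 < P) (ρ : ℝ) (m T : ℕ) : nrm P (tl ρ m T) = nrm P (geo ρ T) := by
  unfold tl
  rw [nrm_mono_mul hP]

/-! ### The coefficient space -/

/-- The index set `[-m,m] \ {0}`. -/
def LF (m : ℕ) : Finset ℤ := (Icc (-(m : ℤ)) m).erase 0

lemma mem_LF {m : ℕ} {n : ℤ} : n ∈ LF m ↔ n ≠ 0 ∧ -(m : ℤ) ≤ n ∧ n ≤ m := by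
  simp [LF]

/-- The Laurent polynomial with given coefficients. -/
def toPoly {m : ℕ} : (LF m → ℝ) →ₗ[ℝ] GA ℤ where
  toFun x := ∑ n : LF m, x n • mono n
  map_add' x y := by
    simp only [Pi.add_apply, add_smul, Finset.sum_add_distrib]
  map_smul' c x := by
    simp only [Pi.smul_apply, smul_eq_mul, mul_smul, Finset.smul_sum, RingHom.id_apply]

lemma toPoly_apply {m : ℕ} (x : LF m → ℝ) : toPoly x = ∑ n : LF m, x n • mono n := rfl

lemma coeff_toPoly {m : ℕ} (x : LF m → ℝ) (n : ℤ) :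
    (toPoly x).coeff n = if h : n ∈ LF m then x ⟨n, h⟩ else 0 := by
  rw [toPoly_apply, AddMonoidAlgebra.coeff_sum, Finsupp.finsetSum_apply]
  simp only [AddMonoidAlgebra.coeff_smul, Finsupp.smul_apply, coeff_mono, smul_eq_mul, mul_ite,
    mul_one, mul_zero]
  split_ifs with h
  · rw [Finset.sum_eq_single ⟨n, h⟩]
    · rw [if_pos rfl]
    · intro k _ hk
      rw [if_neg]
      intro h'
      apply hk
      exact Subtype.ext h'
    · simp
  · apply Finset.sum_eq_zero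
    intro k _
    rw [if_neg]
    intro h'
    exact h (h' ▸ k.2)

lemma coeff_toPoly_mem {m : ℕ} (x : LF m → ℝ) (n : LF m) : (toPoly x).coeff n = x n := by
  rw [coeff_toPoly, dif_pos n.2]

lemma coeff_toPoly_not_mem {m : ℕ} (x : LF m → ℝ) {n : ℤ} (hn : n ∉ LF m) :
    (toPoly x).coeff n = 0 := by
  rw [coeff_toPoly, dif_neg hn]

lemma support_toPoly {m : ℕ} (x : LF m → ℝ) : (toPoly x).coeff.support ⊆ LF m := by
  intro n hn
  by_contra h
  rw [Finsupp.mem_support_iff] at hn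
  exact hn (coeff_toPoly_not_mem x h)

lemma npow_toPoly {P : ℝ} (hP : 0 < P) {m : ℕ} (x : LF m → ℝ) :
    npow P (toPoly x) = ∑ n, |x n| ^ P := by
  rw [npow_eq_sum hP _ (support_toPoly x), ← Finset.sum_coe_sort]
  apply Finset.sum_congr rfl
  intro n _
  rw [coeff_toPoly_mem]

lemma sum_coeff_le_npow {P : ℝ} (hP : 0 < P) (a : GA ℤ) (F : Finset ℤ) :
    ∑ n : F, |a.coeff n| ^ P ≤ npow P a := by
  classical
  rw [Finset.sum_coe_sort F (fun n => |a.coeff n| ^ P),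
    npow_eq_sum hP a (F := a.coeff.support ∪ F) subset_union_left]
  apply Finset.sum_le_sum_of_subset_of_nonneg subset_union_right
  intro i _ _
  positivity

/-- The polynomials `p_n = z^n + a ∑_{n<l≤m} z^l`. -/
def pn (a : ℝ) (m : ℕ) (n : ℤ) : GA ℤ := mono n + a • ∑ l ∈ Ioc n (m : ℤ), mono l

lemma telescope (m : ℕ) (n : ℤ) (hn : n ≤ m) :
    (1 - mono 1) * ∑ l ∈ Ioc n (m : ℤ), mono l = mono (n + 1) - mono (m + 1) := by
  obtain ⟨k, hk⟩ := Int.le.dest hn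
  have : ∀ k : ℕ, (1 - mono 1) * ∑ l ∈ Ioc n (n + k), mono l = mono (n + 1) - mono (n + k + 1) := by
    intro k
    induction k with
    | zero => simp
    | succ k ih =>
      have h1 : Ioc n (n + ((k + 1 : ℕ) : ℤ)) = insert (n + k + 1) (Ioc n (n + k)) := by
        ext l
        simp only [mem_Ioc, mem_insert]
        omega
      rw [h1, Finset.sum_insert, mul_add, ih, sub_mul, one_mul, mono_mul]
      · have e1 : (1 : ℤ) + (n + k + 1) = n + ((k + 1 : ℕ) : ℤ) + 1 := by push_cast; ring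
        rw [e1]
        abel
      · simp only [mem_Ioc]
        omega
  have h2 := this k
  rw [hk] at h2
  exact h2

lemma FF_mul_pn {ρ : ℝ} {m T : ℕ} {n : ℤ} (hn : n ≤ m) :
    FF ρ T * pn (1 - ρ) m n = (1 - ρ ^ T • mono T) * mono n - (1 - ρ) • tl ρ m T := by
  have h1 : (1 - mono 1) * pn (1 - ρ) m n =
      (1 - ρ • mono 1) * mono n - (1 - ρ) • mono (m + 1) := by
    unfold pn
    rw [mul_add, mul_smul_comm, telescope m n hn, sub_mul, one_mul, mono_mul, sub_mul, one_mul,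
      smul_mul_assoc, mono_mul, smul_sub, sub_smul, sub_smul, one_smul, one_smul, add_comm 1 n]
    abel
  unfold FF
  rw [mul_comm (1 - mono 1) (geo ρ T), mul_assoc, h1, mul_sub, ← mul_assoc,
    mul_comm (geo ρ T) (1 - ρ • mono 1), mul_geo, mul_smul_comm]
  unfold tl
  rw [mul_comm (geo ρ T)]

/-- The sum over the negative indices. -/
def SL {m : ℕ} : (LF m → ℝ) →ₗ[ℝ] ℝ where
  toFun x := ∑ n : LF m, if (n : ℤ) < 0 then x n else 0
  map_add' x y := by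
    rw [← Finset.sum_add_distrib]
    apply Finset.sum_congr rfl
    intro n _
    split_ifs <;> simp
  map_smul' c x := by
    simp only [RingHom.id_apply, smul_eq_mul, Finset.mul_sum]
    apply Finset.sum_congr rfl
    intro n _
    split_ifs <;> simp

/-- The sum over the positive indices. -/
def SR {m : ℕ} : (LF m → ℝ) →ₗ[ℝ] ℝ where
  toFun x := ∑ n : LF m, if 0 < (n : ℤ) then x n else 0
  map_add' x y := by
    rw [← Finset.sum_add_distrib]
    apply Finset.sum_congr rfl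
    intro n _
    split_ifs <;> simp
  map_smul' c x := by
    simp only [RingHom.id_apply, smul_eq_mul, Finset.mul_sum]
    apply Finset.sum_congr rfl
    intro n _
    split_ifs <;> simp

lemma SL_apply {m : ℕ} (x : LF m → ℝ) : SL x = ∑ n : LF m, if (n : ℤ) < 0 then x n else 0 := rfl

lemma SR_apply {m : ℕ} (x : LF m → ℝ) : SR x = ∑ n : LF m, if 0 < (n : ℤ) then x n else 0 := rfl

lemma SL_add_SR {m : ℕ} (x : LF m → ℝ) : SL x + SR x = ∑ n, x n := by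
  rw [SL_apply, SR_apply, ← Finset.sum_add_distrib]
  apply Finset.sum_congr rfl
  intro n _
  have hn := (mem_LF.mp n.2).1
  rcases lt_trichotomy (n : ℤ) 0 with h | h | h
  · rw [if_pos h, if_neg (by omega), add_zero]
  · exact absurd h hn
  · rw [if_neg (by omega), if_pos h, zero_add]

/-- The total `Ξ_m = ρ S_L + S_R`. -/
def Xi (ρ : ℝ) {m : ℕ} : (LF m → ℝ) →ₗ[ℝ] ℝ := ρ • SL + SR

lemma Xi_apply (ρ : ℝ) {m : ℕ} (x : LF m → ℝ) : Xi ρ x = ρ * SL x + SR x := rfl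

/-- The polynomial with `x`-coordinates `x`. -/
def Pl (ρ : ℝ) {m : ℕ} : (LF m → ℝ) →ₗ[ℝ] GA ℤ where
  toFun x := ∑ n : LF m, x n • pn (1 - ρ) m n - ((1 - ρ) * SL x) • pn (1 - ρ) m 0
  map_add' x y := by
    simp only [Pi.add_apply, add_smul, Finset.sum_add_distrib, map_add, mul_add]
    abel
  map_smul' c x := by
    simp only [Pi.smul_apply, smul_eq_mul, mul_smul, map_smul, RingHom.id_apply, smul_sub,
      Finset.smul_sum]
    congr 1
    simp only [smul_smul]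
    congr 1
    ring

lemma Pl_apply (ρ : ℝ) {m : ℕ} (x : LF m → ℝ) :
    Pl ρ x = ∑ n : LF m, x n • pn (1 - ρ) m n - ((1 - ρ) * SL x) • pn (1 - ρ) m 0 := rfl

/-- The element `x̃ = x - a S_L(x)`. -/
def xt (ρ : ℝ) {m : ℕ} (x : LF m → ℝ) : GA ℤ := toPoly x - ((1 - ρ) * SL x) • 1

lemma FF_mul_Pl (ρ : ℝ) {m T : ℕ} (x : LF m → ℝ) :
    FF ρ T * Pl ρ x =
      (1 - ρ ^ T • mono T) * xt ρ x - ((1 - ρ) * Xi ρ x) • tl ρ m T := by
  rw [Pl_apply, mul_sub, Finset.mul_sum]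
  have h1 : ∀ n : LF m, FF ρ T * (x n • pn (1 - ρ) m n) =
      (1 - ρ ^ T • mono T) * (x n • mono n) - ((1 - ρ) * x n) • tl ρ m T := by
    intro n
    rw [mul_smul_comm, FF_mul_pn (mem_LF.mp n.2).2.2, smul_sub, mul_smul_comm, smul_smul,
      mul_comm (x n)]
  rw [Finset.sum_congr rfl (fun n _ => h1 n), Finset.sum_sub_distrib, ← Finset.mul_sum,
    mul_smul_comm, FF_mul_pn (by positivity : (0 : ℤ) ≤ m), mono_zero, ← Finset.sum_smul,
    ← Finset.mul_sum, ← SL_add_SR]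
  unfold xt
  rw [mul_sub, mul_smul_comm, Xi_apply, toPoly_apply, mul_one, smul_sub, smul_smul]
  have : ((1 - ρ) * (ρ * SL x + SR x)) • tl ρ m T =
      ((1 - ρ) * (SL x + SR x)) • tl ρ m T - ((1 - ρ) * SL x * (1 - ρ)) • tl ρ m T := by
    rw [← sub_smul]
    congr 1
    ring
  rw [this]
  abel

lemma coeff_pn (a : ℝ) (m : ℕ) (n k : ℤ) :
    (pn a m n).coeff k = (if n = k then 1 else 0) + if n < k ∧ k ≤ m then a else 0 := by
  unfold pn
  rw [AddMonoidAlgebra.coeff_add, Finsupp.add_apply, coeff_mono, AddMonoidAlgebra.coeff_smul,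
    Finsupp.smul_apply, AddMonoidAlgebra.coeff_sum, Finsupp.finsetSum_apply]
  congr 1
  simp only [coeff_mono, smul_eq_mul]
  rw [Finset.sum_ite_eq']
  simp only [mem_Ioc]
  split_ifs <;> simp

lemma coeff_Pl (ρ : ℝ) {m : ℕ} (x : LF m → ℝ) (k : ℤ) :
    (Pl ρ x).coeff k = ∑ n : LF m, x n * (pn (1 - ρ) m n).coeff k -
      ((1 - ρ) * SL x) * (pn (1 - ρ) m 0).coeff k := by
  rw [Pl_apply, AddMonoidAlgebra.coeff_sub, Finsupp.sub_apply, AddMonoidAlgebra.coeff_sum,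
    Finsupp.finsetSum_apply, AddMonoidAlgebra.coeff_smul, Finsupp.smul_apply, smul_eq_mul]
  rfl

lemma coeff_Pl_not_mem (ρ : ℝ) {m : ℕ} (x : LF m → ℝ) {k : ℤ} (hk : k ∉ LF m) :
    (Pl ρ x).coeff k = 0 := by
  rw [coeff_Pl]
  simp only [coeff_pn]
  rw [mem_LF] at hk
  by_cases h0 : k = 0
  · subst h0
    have : ∀ n : LF m, x n * ((if (n : ℤ) = 0 then (1 : ℝ) else 0) +
        if (n : ℤ) < 0 ∧ (0 : ℤ) ≤ m then (1 - ρ) else 0) =
        (1 - ρ) * (if (n : ℤ) < 0 then x n else 0) := by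
      intro n
      have hn := (mem_LF.mp n.2).1
      rw [if_neg hn]
      split_ifs with h1 h2 h2
      · ring
      · exact absurd h1.1 h2
      · exact absurd ⟨h2, by positivity⟩ h1
      · ring
    rw [Finset.sum_congr rfl (fun n _ => this n), ← Finset.mul_sum, ← SL_apply]
    simp
  · have h1 : ∀ n : LF m, x n * ((if (n : ℤ) = k then (1 : ℝ) else 0) +
        if (n : ℤ) < k ∧ k ≤ m then (1 - ρ) else 0) = 0 := by
      intro n
      have hn := mem_LF.mp n.2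
      rw [if_neg, if_neg]
      · ring
      · rintro ⟨h2, h3⟩
        exact hk ⟨h0, by omega, h3⟩
      · intro h
        exact hk ⟨h0, by omega, by omega⟩
    rw [Finset.sum_eq_zero (fun n _ => h1 n), if_neg (Ne.symm h0), if_neg]
    · ring
    · rintro ⟨h2, h3⟩
      exact hk ⟨h0, by omega, h3⟩

/-- The coefficients of `Pl`. -/
def Pmap (ρ : ℝ) {m : ℕ} : (LF m → ℝ) →ₗ[ℝ] (LF m → ℝ) where
  toFun x := fun n => (Pl ρ x).coeff n
  map_add' x y := by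
    ext n
    simp
  map_smul' c x := by
    ext n
    simp

lemma toPoly_Pmap (ρ : ℝ) {m : ℕ} (x : LF m → ℝ) : toPoly (Pmap ρ x) = Pl ρ x := by
  apply AddMonoidAlgebra.ext
  ext n
  by_cases hn : n ∈ LF m
  · exact coeff_toPoly_mem (Pmap ρ x) ⟨n, hn⟩
  · rw [coeff_toPoly_not_mem _ hn, coeff_Pl_not_mem _ _ hn]

lemma coeff_xt (ρ : ℝ) {m : ℕ} (x : LF m → ℝ) (n : ℤ) :
    (xt ρ x).coeff n = (toPoly x).coeff n - if n = 0 then (1 - ρ) * SL x else 0 := by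
  unfold xt
  rw [AddMonoidAlgebra.coeff_sub, Finsupp.sub_apply, AddMonoidAlgebra.coeff_smul,
    Finsupp.smul_apply, ← mono_zero, coeff_mono, smul_eq_mul]
  congr 1
  by_cases h : n = 0
  · rw [if_pos h.symm, if_pos h, mul_one]
  · rw [if_neg (Ne.symm h), if_neg h, mul_zero]

lemma coeff_xt_out (ρ : ℝ) {m : ℕ} (x : LF m → ℝ) {n : ℤ} (hn : n < -(m : ℤ) ∨ (m : ℤ) < n) :
    (xt ρ x).coeff n = 0 := by
  rw [coeff_xt, coeff_toPoly_not_mem, if_neg, sub_zero]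
  · omega
  · rw [mem_LF]
    omega

/-- The coefficients of `F P(x)` in the window `[-m,m]`. -/
lemma coeff_FF_Pl (ρ : ℝ) {m T : ℕ} (hT : 2 * m < T) (x : LF m → ℝ) {n : ℤ} (hn : n ≤ m) :
    (FF ρ T * Pl ρ x).coeff n = (xt ρ x).coeff n := by
  rw [FF_mul_Pl, AddMonoidAlgebra.coeff_sub, Finsupp.sub_apply, sub_mul, one_mul,
    AddMonoidAlgebra.coeff_sub, Finsupp.sub_apply, smul_mul_assoc, AddMonoidAlgebra.coeff_smul,
    Finsupp.smul_apply, coeff_mono_mul, coeff_xt_out ρ x (n := n - T) (by omega), smul_zero,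
    sub_zero, AddMonoidAlgebra.coeff_smul, Finsupp.smul_apply]
  unfold tl
  rw [coeff_mono_mul, coeff_geo, if_neg (by omega), smul_zero, sub_zero]

lemma coeff_FF_Pl_mem (ρ : ℝ) {m T : ℕ} (hT : 2 * m < T) (x : LF m → ℝ) (n : LF m) :
    (FF ρ T * Pl ρ x).coeff n = x n := by
  have hn := mem_LF.mp n.2
  rw [coeff_FF_Pl ρ hT x hn.2.2, coeff_xt, coeff_toPoly_mem, if_neg hn.1, sub_zero]

lemma coeff_FF_Pl_zero (ρ : ℝ) {m T : ℕ} (hT : 2 * m < T) (x : LF m → ℝ) :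
    (FF ρ T * Pl ρ x).coeff 0 = -((1 - ρ) * SL x) := by
  rw [coeff_FF_Pl ρ hT x (by positivity), coeff_xt, coeff_toPoly_not_mem, if_pos rfl, zero_sub]
  rw [mem_LF]
  tauto

lemma Pmap_injective (ρ : ℝ) {m : ℕ} : Function.Injective (Pmap ρ (m := m)) := by
  rw [← LinearMap.ker_eq_bot, LinearMap.ker_eq_bot']
  intro x hx
  have h1 : Pl ρ x = 0 := by rw [← toPoly_Pmap, hx, map_zero]
  ext n
  have h2 := coeff_FF_Pl_mem ρ (T := 2 * m + 1) (by omega) x n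
  rw [h1, mul_zero] at h2
  rw [← h2]
  rfl

/-- The linear equivalence from `x`-coordinates to coefficients. -/
def Pe (ρ : ℝ) {m : ℕ} : (LF m → ℝ) ≃ₗ[ℝ] (LF m → ℝ) :=
  LinearEquiv.ofInjectiveEndo (Pmap ρ) (Pmap_injective ρ)

lemma Pe_apply (ρ : ℝ) {m : ℕ} (x : LF m → ℝ) : Pe ρ x = Pmap ρ x := rfl

lemma toPoly_eq_Pl (ρ : ℝ) {m : ℕ} (c : LF m → ℝ) : toPoly c = Pl ρ ((Pe ρ).symm c) := by
  rw [← toPoly_Pmap, ← Pe_apply, LinearEquiv.apply_symm_apply]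

lemma FF_mul_toPoly (ρ : ℝ) {m T : ℕ} (c : LF m → ℝ) :
    FF ρ T * toPoly c =
      (1 - ρ ^ T • mono T) * xt ρ ((Pe ρ).symm c) -
        ((1 - ρ) * Xi ρ ((Pe ρ).symm c)) • tl ρ m T := by
  rw [toPoly_eq_Pl ρ, FF_mul_Pl]

lemma Pe_symm_eq_coeff (ρ : ℝ) {m T : ℕ} (hT : 2 * m < T) (c : LF m → ℝ) (n : LF m) :
    (Pe ρ).symm c n = (FF ρ T * toPoly c).coeff n := by
  rw [toPoly_eq_Pl ρ, coeff_FF_Pl_mem ρ hT]

lemma SL_Pe_symm (ρ : ℝ) {m T : ℕ} (hT : 2 * m < T) (c : LF m → ℝ) :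
    (1 - ρ) * SL ((Pe ρ).symm c) = -(FF ρ T * toPoly c).coeff 0 := by
  rw [toPoly_eq_Pl ρ c, coeff_FF_Pl_zero ρ hT, neg_neg]

lemma SL_Pe_symm' (ρ : ℝ) {m T : ℕ} (hT : 2 * m < T) (c : LF m → ℝ) :
    (1 - ρ) * SL ((Pe ρ).symm c) = (chi ρ T * toPoly c).coeff 0 := by
  rw [SL_Pe_symm ρ hT]
  have : FF ρ T = 1 - chi ρ T := by unfold chi; ring
  rw [this, sub_mul, one_mul, AddMonoidAlgebra.coeff_sub, Finsupp.sub_apply, coeff_toPoly_not_mem]
  · ring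
  · rw [mem_LF]; tauto

/-- The recovery formula `c = F c + χ c`. -/
lemma recover (ρ : ℝ) {m T : ℕ} (hT : 2 * m < T) (c : LF m → ℝ) (n : LF m) :
    (Pe ρ).symm c n + (chi ρ T * toPoly c).coeff n = c n := by
  rw [Pe_symm_eq_coeff ρ hT]
  have : FF ρ T = 1 - chi ρ T := by unfold chi; ring
  rw [this, sub_mul, one_mul, AddMonoidAlgebra.coeff_sub, Finsupp.sub_apply, coeff_toPoly_mem]
  ring

/-! ### Norm bounds -/

section bounds

variable {P : ℝ} (hP : 1 ≤ P) {ρ : ℝ} (hρ : 0 ≤ ρ) (hρ1 : ρ < 1) {m T : ℕ} (hT : 2 * m < T)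

include hP hρ hρ1 hT

lemma npow_FF_toPoly_le (c : LF m → ℝ) :
    npow P (FF ρ T * toPoly c) ≤ 2 ^ P * ∑ n, |c n| ^ P := by
  have hP0 : 0 < P := by linarith
  rw [← npow_toPoly hP0, ← nrm_rpow hP0, ← nrm_rpow hP0, ← Real.mul_rpow (by norm_num)
    (nrm_nonneg _ _)]
  apply Real.rpow_le_rpow (nrm_nonneg _ _) _ hP0.le
  refine (nrm_mul_le hP _ _).trans ?_
  gcongr
  · exact nrm_nonneg _ _
  · exact l1_FF_le hρ hρ1.le T

lemma npow_chi_toPoly_le (c : LF m → ℝ) :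
    npow P (chi ρ T * toPoly c) ≤ ∑ n, |c n| ^ P := by
  have hP0 : 0 < P := by linarith
  rw [← npow_toPoly hP0, ← nrm_rpow hP0, ← nrm_rpow hP0]
  apply Real.rpow_le_rpow (nrm_nonneg _ _) _ hP0.le
  refine (nrm_mul_le hP _ _).trans ?_
  have h1 := l1_chi_le hρ hρ1.le T
  have h2 := nrm_nonneg P (toPoly c)
  nlinarith

lemma sum_Pe_symm_le (c : LF m → ℝ) :
    ∑ n, |(Pe ρ).symm c n| ^ P ≤ 2 ^ P * ∑ n, |c n| ^ P := by
  have hP0 : 0 < P := by linarith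
  refine le_trans ?_ (npow_FF_toPoly_le hP hρ hρ1 hT c)
  have : ∀ n : LF m, |(Pe ρ).symm c n| ^ P = |(FF ρ T * toPoly c).coeff n| ^ P := by
    intro n
    rw [Pe_symm_eq_coeff ρ hT]
  rw [Finset.sum_congr rfl (fun n _ => this n)]
  exact sum_coeff_le_npow hP0 _ _

lemma nrm_xt_le (c : LF m → ℝ) :
    nrm P (xt ρ ((Pe ρ).symm c)) ≤ nrm P (FF ρ T * toPoly c) := by
  classical
  have hP0 : 0 < P := by linarith
  unfold nrm
  apply Real.rpow_le_rpow (npow_nonneg _ _) _ (by positivity)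
  set x := (Pe ρ).symm c with hx
  have h1 : ∀ n : ℤ, n ∈ Icc (-(m : ℤ)) m → (xt ρ x).coeff n = (FF ρ T * toPoly c).coeff n := by
    intro n hn
    rw [toPoly_eq_Pl ρ c, coeff_FF_Pl ρ hT _ (mem_Icc.mp hn).2]
  have h2 : (xt ρ x).coeff.support ⊆ Icc (-(m : ℤ)) m := by
    intro n hn
    rw [Finsupp.mem_support_iff] at hn
    by_contra h
    apply hn
    apply coeff_xt_out
    rw [mem_Icc] at h
    omega
  rw [npow_eq_sum hP0 _ h2, Finset.sum_congr rfl (fun n hn => by rw [h1 n hn]),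
    ← Finset.sum_coe_sort (Icc (-(m : ℤ)) m) (fun n => |(FF ρ T * toPoly c).coeff n| ^ P)]
  exact sum_coeff_le_npow hP0 _ _

lemma Xi_nrm_tl_le (c : LF m → ℝ) :
    |(1 - ρ) * Xi ρ ((Pe ρ).symm c)| * nrm P (tl ρ m T) ≤ 3 * nrm P (FF ρ T * toPoly c) := by
  have hP0 : 0 < P := by linarith
  set x := (Pe ρ).symm c with hx
  have h1 : ((1 - ρ) * Xi ρ x) • tl ρ m T =
      xt ρ x - ρ ^ T • (mono T * xt ρ x) - FF ρ T * toPoly c := by
    rw [FF_mul_toPoly ρ, ← hx, sub_mul (1 : GA ℤ), one_mul, smul_mul_assoc]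
    abel
  rw [← nrm_smul hP0, h1]
  have h2 := nrm_xt_le hP hρ hρ1 hT c
  rw [← hx] at h2
  have h3 : nrm P (ρ ^ T • (mono T * xt ρ x)) ≤ nrm P (xt ρ x) := by
    rw [nrm_smul hP0, nrm_mono_mul hP0, abs_of_nonneg (by positivity)]
    have : ρ ^ T ≤ 1 := pow_le_one₀ hρ hρ1.le
    have h4 := nrm_nonneg P (xt ρ x)
    nlinarith
  refine (nrm_sub_le hP _ _).trans ?_
  have h5 := nrm_sub_le hP (xt ρ x) (ρ ^ T • (mono T * xt ρ x))
  linarith

lemma Xi_pow_le (c : LF m → ℝ) :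
    |(1 - ρ) * Xi ρ ((Pe ρ).symm c) * nrm P (tl ρ m T)| ^ P ≤ 6 ^ P * ∑ n, |c n| ^ P := by
  have hP0 : 0 < P := by linarith
  have h1 := Xi_nrm_tl_le hP hρ hρ1 hT c
  have h2 : nrm P (FF ρ T * toPoly c) ≤ 2 * nrm P (toPoly c) := by
    refine (nrm_mul_le hP _ _).trans ?_
    gcongr
    · exact nrm_nonneg _ _
    · exact l1_FF_le hρ hρ1.le T
  have h3 : |(1 - ρ) * Xi ρ ((Pe ρ).symm c) * nrm P (tl ρ m T)| ≤ 6 * nrm P (toPoly c) := by
    rw [abs_mul, abs_of_nonneg (nrm_nonneg P (tl ρ m T))]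
    linarith
  calc |(1 - ρ) * Xi ρ ((Pe ρ).symm c) * nrm P (tl ρ m T)| ^ P
      ≤ (6 * nrm P (toPoly c)) ^ P := Real.rpow_le_rpow (abs_nonneg _) h3 hP0.le
    _ = 6 ^ P * ∑ n, |c n| ^ P := by
        rw [Real.mul_rpow (by norm_num) (nrm_nonneg _ _), nrm_rpow hP0, npow_toPoly hP0]

end bounds

/-- Hölder's inequality for coefficients of products. -/
lemma abs_coeff_mul_le {P q : ℝ} (hPq : P.HolderConjugate q) (a b : GA ℤ) (v : ℤ) :
    |(a * b).coeff v| ≤ nrm q a * nrm P b := by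
  classical
  have hq0 : 0 < q := hPq.symm.pos
  have hP0 : 0 < P := hPq.pos
  rw [AddMonoidAlgebra.coeff_mul_apply_left]
  unfold Finsupp.sum
  have h1 := Real.inner_le_Lp_mul_Lq a.coeff.support (fun h => |a.coeff h|)
    (fun h => |b.coeff (-h + v)|) hPq.symm
  have h2 : |∑ h ∈ a.coeff.support, a.coeff h * b.coeff (-h + v)| ≤
      ∑ h ∈ a.coeff.support, |a.coeff h| * |b.coeff (-h + v)| := by
    refine (Finset.abs_sum_le_sum_abs _ _).trans ?_
    apply le_of_eq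
    apply Finset.sum_congr rfl
    intro h _
    rw [abs_mul]
  refine h2.trans (h1.trans ?_)
  simp only [abs_abs]
  have h3 : ∑ h ∈ a.coeff.support, |b.coeff (-h + v)| ^ P ≤ npow P b := by
    have e : ∑ h ∈ a.coeff.support, |b.coeff (-h + v)| ^ P =
        ∑ k ∈ a.coeff.support.image (fun h => -h + v), |b.coeff k| ^ P := by
      rw [Finset.sum_image]
      intro x _ y _ hxy
      simpa using hxy
    rw [e, ← Finset.sum_coe_sort]
    exact sum_coeff_le_npow hP0 b _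
  unfold nrm
  rw [npow_eq_sum hq0 a (Finset.Subset.refl _)]
  apply mul_le_mul_of_nonneg_left _ (by positivity)
  exact Real.rpow_le_rpow (by positivity) h3 (by positivity)

lemma l1_pn_le {a : ℝ} (ha : 0 ≤ a) (ha1 : a ≤ 1) (m : ℕ) {n : ℤ} (hn : -(m : ℤ) ≤ n) :
    l1 (pn a m n) ≤ 1 + 2 * m := by
  unfold pn
  refine (l1_add_le _ _).trans ?_
  rw [l1_mono, l1_smul, abs_of_nonneg ha]
  have h1 : l1 (∑ l ∈ Ioc n (m : ℤ), mono l) ≤ 2 * m := by
    refine (l1_sum_le _ _).trans ?_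
    simp only [l1_mono]
    rw [Finset.sum_const, Int.card_Ioc, nsmul_eq_mul, mul_one]
    have : ((m - n).toNat : ℤ) ≤ 2 * m := by omega
    exact_mod_cast this
  have h2 := l1_nonneg (∑ l ∈ Ioc n (m : ℤ), mono l)
  nlinarith

lemma abs_SL_le {m : ℕ} (x : LF m → ℝ) : |SL x| ≤ ∑ n, |x n| := by
  rw [SL_apply]
  refine (Finset.abs_sum_le_sum_abs _ _).trans ?_
  apply Finset.sum_le_sum
  intro n _
  split_ifs
  · exact le_refl _
  · simp

/-- The `ℓ_1` norm of the coefficients is controlled by the `x`-coordinates, uniformly in `T`. -/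
lemma l1_toPoly_le {ρ : ℝ} (hρ : 0 ≤ ρ) (hρ1 : ρ < 1) {m : ℕ} (c : LF m → ℝ) :
    l1 (toPoly c) ≤ 2 * (1 + 2 * m) * ∑ n, |(Pe ρ).symm c n| := by
  rw [toPoly_eq_Pl ρ c, Pl_apply]
  set x := (Pe ρ).symm c
  refine (l1_sub_le _ _).trans ?_
  have h1 : l1 (∑ n : LF m, x n • pn (1 - ρ) m n) ≤ (1 + 2 * m) * ∑ n, |x n| := by
    refine (l1_sum_le _ _).trans ?_
    rw [Finset.mul_sum]
    apply Finset.sum_le_sum
    intro n _
    rw [l1_smul, mul_comm]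
    gcongr
    exact l1_pn_le (by linarith) (by linarith) m (mem_LF.mp n.2).2.1
  have h2 : l1 (((1 - ρ) * SL x) • pn (1 - ρ) m 0) ≤ (1 + 2 * m) * ∑ n, |x n| := by
    rw [l1_smul, abs_mul, abs_of_nonneg (by linarith : 0 ≤ 1 - ρ), mul_comm]
    have h3 := l1_pn_le (by linarith : 0 ≤ 1 - ρ) (by linarith) m (n := 0) (by simp)
    have h4 := abs_SL_le x
    have h5 : (1 - ρ) * |SL x| ≤ ∑ n, |x n| := by
      have := abs_nonneg (SL x)
      nlinarith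
    apply mul_le_mul h3 h5 (by have := abs_nonneg (SL x); nlinarith) (by positivity)
  linarith

end

end Pool.Agent.H26
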