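import Pool.Agent.Lib.H26.Frm

open MeasureTheory Filter Topology
open scoped ENNReal

namespace Pool.Agent.H26

noncomputable section

variable {r m T : ℕ}

/-! ### Supports -/

lemma coeff_chi_out (ρ : ℝ) (T : ℕ) {n : ℤ} (hn : n < 0 ∨ (T : ℤ) < n) :
    (chi ρ T).coeff n = 0 := by
  rw [chi_eq, AddMonoidAlgebra.coeff_add, Finsupp.add_apply, AddMonoidAlgebra.coeff_smul,
    Finsupp.smul_apply, coeff_mono_mul, coeff_geo, if_neg (by omega), smul_zero, zero_add,
    AddMonoidAlgebra.coeff_smul, Finsupp.smul_apply, coeff_mono, if_neg (by omega), smul_zero]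

lemma coeff_chi_mul_out (ρ : ℝ) (c : LF m → ℝ) {n : ℤ} (hn : n ∉ A2 m T) :
    (chi ρ T * toPoly c).coeff n = 0 := by
  classical
  by_contra h
  have h1 : n ∈ (chi ρ T * toPoly c).coeff.support := Finsupp.mem_support_iff.mpr h
  have h2 := AddMonoidAlgebra.support_coeff_mul_subset _ _ h1
  rw [Finset.mem_add] at h2
  obtain ⟨u, hu, v, hv, huv⟩ := h2
  have hu' : 0 ≤ u ∧ u ≤ T := by
    by_contra hc
    rw [Finsupp.mem_support_iff] at hu
    exact hu (coeff_chi_out ρ T (by omega))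
  have hv' := mem_LF.mp (support_toPoly c hv)
  apply hn
  unfold A2
  rw [Finset.mem_Icc]
  omega

lemma sum_A2_chi (ρ : ℝ) (c : LF m → ℝ) :
    ∑ n : A2 m T, (chi ρ T * toPoly c).coeff n • mono n = chi ρ T * toPoly c := by
  classical
  rw [Finset.sum_coe_sort (A2 m T) (fun n => (chi ρ T * toPoly c).coeff n • mono n)]
  apply AddMonoidAlgebra.ext
  ext k
  rw [AddMonoidAlgebra.coeff_sum, Finsupp.finsetSum_apply]
  simp only [AddMonoidAlgebra.coeff_smul, Finsupp.smul_apply, coeff_mono, smul_eq_mul, mul_ite,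
    mul_one, mul_zero]
  rw [Finset.sum_ite_eq']
  split_ifs with h
  · rfl
  · exact (coeff_chi_mul_out ρ c h).symm

/-- The formal atoms of the ideal model. -/
def ea (P ρ : ℝ) (M : ℕ) : AA r m T → GA (GG r)
  | Sum.inl (k, n) => emb (gz k) (mono n)
  | Sum.inr (Sum.inl k) => (nrm P (tl ρ m T))⁻¹ • emb (gz k) (tl ρ m T)
  | Sum.inr (Sum.inr ((i, j), n)) => yi (i, j) * (emb (gz (Sum.inl i)) (mono n) * Ph P M i j)

/-- Description of the supports of the atoms. -/
def desc : AA r m T → GG r → Prop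
  | Sum.inl (k, n), v => v = (n : ℤ) • gz k
  | Sum.inr (Sum.inl k), v => ∃ n : ℤ, (m : ℤ) < n ∧ v = n • gz k
  | Sum.inr (Sum.inr ((i, j), n)), v => ∃ l : ℤ, v = -(gy (i, j)) + ((n : ℤ) • gz (Sum.inl i) +
      l • gw i j)

lemma support_single_mul {G : Type*} [AddCommGroup G] {v w : G} {a : GA G}
    (h : w ∈ (AddMonoidAlgebra.single v (1 : ℝ) * a).coeff.support) :
    -v + w ∈ a.coeff.support := by
  rw [Finsupp.mem_support_iff, AddMonoidAlgebra.coeff_single_mul_apply] at h
  rw [Finsupp.mem_support_iff]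
  exact right_ne_zero_of_mul h

lemma support_emb {G : Type*} [AddCommGroup G] (g : G) (x : GA ℤ) {v : G}
    (hv : v ∈ (emb g x).coeff.support) : ∃ n ∈ x.coeff.support, v = n • g := by
  classical
  rw [eq_sum_single x, map_sum] at hv
  have h := support_sum_subset _ _ hv
  rw [Finset.mem_biUnion] at h
  obtain ⟨n, hn, h⟩ := h
  refine ⟨n, hn, ?_⟩
  rw [emb_single, AddMonoidAlgebra.coeff_single] at h
  have := Finsupp.support_single_subset h
  exact Finset.mem_singleton.mp this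

lemma support_tl (ρ : ℝ) {n : ℤ} (hn : n ∈ (tl ρ m T).coeff.support) : (m : ℤ) < n := by
  rw [Finsupp.mem_support_iff] at hn
  by_contra h
  apply hn
  unfold tl
  rw [coeff_mono_mul, coeff_geo, if_neg]
  omega

lemma desc_of_mem (P ρ : ℝ) (M : ℕ) (α : AA r m T) {v : GG r}
    (hv : v ∈ (ea P ρ M α).coeff.support) : desc α v := by
  classical
  rcases α with ⟨k, n⟩ | k | ⟨⟨i, j⟩, n⟩
  · obtain ⟨n', hn', rfl⟩ := support_emb _ _ hv
    have : n' = n := by
      by_contra h
      rw [Finsupp.mem_support_iff, coeff_mono, if_neg (fun h' => h h'.symm)] at hn'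
      exact hn' rfl
    rw [this]
    rfl
  · change v ∈ (((nrm P (tl ρ m T))⁻¹ • emb (gz k) (tl ρ m T)) : GA (GG r)).coeff.support at hv
    rw [AddMonoidAlgebra.coeff_smul] at hv
    obtain ⟨n', hn', rfl⟩ := support_emb _ _ (Finsupp.support_smul hv)
    exact ⟨n', support_tl ρ hn', rfl⟩
  · have h1 := support_single_mul hv
    rw [neg_neg] at h1
    have h2 : gy (i, j) + v ∈
        (AddMonoidAlgebra.single ((n : ℤ) • gz (Sum.inl i)) (1 : ℝ) * Ph P M i j).coeff.support := by
      have e : emb (gz (Sum.inl i : KK r)) (mono (n : ℤ)) =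
          AddMonoidAlgebra.single ((n : ℤ) • gz (Sum.inl i)) (1 : ℝ) := by
        unfold mono
        rw [emb_single]
      rw [e] at h1
      exact h1
    have h3 := Ph_liv P M i j _ (support_single_mul h2)
    obtain ⟨l, hl⟩ := AddSubgroup.mem_zmultiples_iff.mp h3
    refine ⟨l, ?_⟩
    rw [hl]
    abel

lemma gz_apply (k : KK r) (x : IX r) : gz k x = if x = Sum.inl k then 1 else 0 := by
  unfold gz
  rw [Pi.single_apply]

lemma gy_apply (ij : Fin r × Fin r) (x : IX r) : gy ij x = if x = Sum.inr ij then 1 else 0 := by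
  unfold gy
  rw [Pi.single_apply]

lemma desc_zero (α : AA r m T) : ¬ desc α (0 : GG r) := by
  rcases α with ⟨k, n⟩ | k | ⟨⟨i, j⟩, n⟩
  · intro h
    have h1 := congrFun h (Sum.inl k)
    have hn := (mem_LF.mp n.2).1
    simp [gz_apply] at h1
    exact hn h1.symm
  · rintro ⟨n, hn, h⟩
    have h1 := congrFun h (Sum.inl k)
    simp [gz_apply] at h1
    omega
  · rintro ⟨l, h⟩
    have h1 := congrFun h (Sum.inr (i, j))
    simp [gz_apply, gy_apply, gw] at h1

lemma desc_inj {α β : AA r m T} {v : GG r} (hα : desc α v) (hβ : desc β v) : α = β := by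
  rcases α with ⟨k, n⟩ | k | ⟨⟨i, j⟩, n⟩ <;> rcases β with ⟨k', n'⟩ | k' | ⟨⟨i', j'⟩, n'⟩
  · have hn := (mem_LF.mp n.2).1
    have h1 := congrFun (hα.symm.trans hβ) (Sum.inl k)
    have hk : k = k' := by
      by_contra hne
      simp [gz_apply, hne] at h1
      exact hn h1
    subst hk
    simp [gz_apply] at h1
    rw [h1]
  · obtain ⟨n', hn', hβ⟩ := hβ
    exfalso
    have hn := mem_LF.mp n.2
    have h1 := congrFun (hα.symm.trans hβ) (Sum.inl k')
    by_cases hk : k' = k
    · simp [gz_apply, hk] at h1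
      omega
    · simp [gz_apply, hk] at h1
      omega
  · obtain ⟨l, hβ⟩ := hβ
    exfalso
    have h1 := congrFun (hα.symm.trans hβ) (Sum.inr (i', j'))
    simp [gz_apply, gy_apply, gw] at h1
  · obtain ⟨n, hn, hα⟩ := hα
    exfalso
    have hn' := mem_LF.mp n'.2
    have h1 := congrFun (hα.symm.trans hβ) (Sum.inl k)
    by_cases hk : k = k'
    · simp [gz_apply, hk] at h1
      omega
    · simp [gz_apply, hk] at h1
      omega
  · obtain ⟨n, hn, hα⟩ := hα
    obtain ⟨n', hn', hβ⟩ := hβ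
    have h1 := congrFun (hα.symm.trans hβ) (Sum.inl k)
    have hk : k = k' := by
      by_contra hne
      simp [gz_apply, hne] at h1
      omega
    rw [hk]
  · obtain ⟨n, hn, hα⟩ := hα
    obtain ⟨l, hβ⟩ := hβ
    exfalso
    have h1 := congrFun (hα.symm.trans hβ) (Sum.inr (i', j'))
    simp [gz_apply, gy_apply, gw] at h1
  · obtain ⟨l, hα⟩ := hα
    exfalso
    have h1 := congrFun (hα.symm.trans hβ) (Sum.inr (i, j))
    simp [gz_apply, gy_apply, gw] at h1
  · obtain ⟨l, hα⟩ := hα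
    obtain ⟨n', hn', hβ⟩ := hβ
    exfalso
    have h1 := congrFun (hα.symm.trans hβ) (Sum.inr (i, j))
    simp [gz_apply, gy_apply, gw] at h1
  · obtain ⟨l, hα⟩ := hα
    obtain ⟨l', hβ⟩ := hβ
    have e := hα.symm.trans hβ
    have h1 := congrFun e (Sum.inr (i, j))
    have hij : (i, j) = (i', j') := by
      by_contra hne
      simp only [Pi.add_apply, Pi.neg_apply, Pi.smul_apply, gy_apply, gz_apply, gw,
        Pi.sub_apply] at h1
      simp at h1
      exact hne (Prod.ext h1.1 h1.2)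
    obtain ⟨rfl, rfl⟩ := Prod.mk.inj hij
    have h2 := congrFun e (Sum.inl (Sum.inr j))
    have h3 := congrFun e (Sum.inl (Sum.inl i))
    simp [gz_apply, gy_apply, gw] at h2 h3
    have : (n : ℤ) = n' := by omega
    rw [Subtype.ext this]

lemma ea_disjoint (P ρ : ℝ) (M : ℕ) {α β : AA r m T} (h : α ≠ β) :
    Disjoint (ea P ρ M α).coeff.support (ea P ρ M β).coeff.support := by
  rw [Finset.disjoint_left]
  intro v hv hv'
  exact h (desc_inj (desc_of_mem P ρ M α hv) (desc_of_mem P ρ M β hv'))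

lemma nrm_ea {P : ℝ} (hP : 0 < P) {ρ : ℝ} (hT : 0 < T) {M : ℕ} (hM : 0 < M) (α : AA r m T) :
    nrm P (ea P ρ M α) = 1 := by
  rcases α with ⟨k, n⟩ | k | ⟨⟨i, j⟩, n⟩
  · change nrm P (emb (gz k) (mono n)) = 1
    rw [nrm_emb hP (gz_inj k), nrm_mono hP]
  · change nrm P ((nrm P (tl ρ m T))⁻¹ • emb (gz k) (tl ρ m T)) = 1
    have h1 : 0 < nrm P (tl ρ m T) := by
      rw [nrm_tl hP]
      have := one_le_nrm_geo hP ρ hT
      linarith
    rw [nrm_smul hP, nrm_emb hP (gz_inj k), abs_of_pos (by positivity),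
      inv_mul_cancel₀ h1.ne']
  · change nrm P (yi (i, j) * (emb (gz (Sum.inl i)) (mono n) * Ph P M i j)) = 1
    unfold yi
    rw [nrm_single_mul hP, abs_one, one_mul, nrm_emb_mul_Ph hP hM, nrm_mono hP]

end

end Pool.Agent.H26
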