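import Pool.Agent.Lib.H26.Err3

open MeasureTheory Filter Topology
open scoped ENNReal

namespace Pool.Agent.H26

noncomputable section

variable {p : ℝ≥0∞} [Fact (1 ≤ p)]

/-! ### Dyadic numbers -/

lemma DyR_int (k : ℤ) : DyR (k : ℝ) := ⟨0, k, by simp⟩

lemma DyR_add {a b : ℝ} (ha : DyR a) (hb : DyR b) : DyR (a + b) := by
  obtain ⟨n, j, rfl⟩ := ha
  obtain ⟨n', j', rfl⟩ := hb
  refine ⟨n + n', j * 2 ^ n' + j' * 2 ^ n, ?_⟩
  push_cast
  rw [pow_add]
  field_simp

lemma Dyad_sum {ι : Type*} (F : Finset ι) (x : ι → X p) (h : ∀ i ∈ F, Dyad (x i)) :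
    Dyad (∑ i ∈ F, x i) := by
  classical
  induction F using Finset.induction_on with
  | empty => simpa using Dyad_zero
  | insert i F hi ih =>
    rw [Finset.sum_insert hi]
    exact Dyad_add (h i (Finset.mem_insert_self i F))
      (ih (fun j hj => h j (Finset.mem_insert_of_mem hj)))

lemma Dyad_act {G : Type*} [AddCommGroup G] {pos : G →+ ℝ} (hpos : ∀ v, ∃ k : ℤ, pos v = k)
    (a : GA G) {φ : X p} (hφ : Dyad φ) : Dyad (act pos a φ) := by
  rw [act_apply]
  apply Dyad_sum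
  intro v _
  apply Dyad_smul
  obtain ⟨k, hk⟩ := hpos v
  rw [hk]
  exact Dyad_T (DyR_int k) hφ

/-! ### Supports -/

lemma Dyad_supp (hp : p ≠ ∞) {x : X p} (hx : Dyad x) : ∃ b : ℝ, 0 < b ∧ R (win b) x = x := by
  obtain ⟨n, hn⟩ := (Dyad_iff hp x).mp hx
  refine ⟨n + 1, by positivity, ?_⟩
  have h1 : R (win n) x = x := by
    rw [← hn]
    exact R_win_EE hp n x
  apply R_of_subset (measurableSet_win _) (measurableSet_win _) _ h1
  intro t ht
  unfold win at ht ⊢
  exact ⟨by linarith [ht.1], by linarith [ht.2]⟩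

lemma R_win_mono {b b' : ℝ} (h : b ≤ b') {x : X p} (hx : R (win b) x = x) :
    R (win b') x = x := by
  apply R_of_subset (measurableSet_win _) (measurableSet_win _) _ hx
  intro t ht
  unfold win at ht ⊢
  exact ⟨by linarith [ht.1], by linarith [ht.2]⟩

lemma R_win_T {b : ℝ} {x : X p} (hx : R (win b) x = x) (d : ℝ) :
    R (win (b + |d|)) (T d x) = T d x := by
  apply R_of_subset measurableSet_Ico (measurableSet_win _) _ (R_T_win hx d)
  intro t ht
  unfold win
  have h1 := neg_abs_le d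
  have h2 := le_abs_self d
  exact ⟨by linarith [ht.1], by linarith [ht.2]⟩

/-! ### Flat functions -/

lemma Dyad_ind_nat (N : ℕ) : Dyad (ind 0 N : X p) := by
  induction N with
  | zero =>
    have : (ind 0 ((0 : ℕ) : ℝ) : X p) = 0 := by
      have h := ind_add (p := p) (a := 0) (b := 0) (c := 0) le_rfl le_rfl
      have h2 : (ind 0 0 : X p) = 0 := by
        have := add_eq_left.mp h
        exact this
      simpa using h2
    rw [this]
    exact Dyad_zero
  | succ N ih =>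
    have h : (ind 0 ((N + 1 : ℕ) : ℝ) : X p) = ind 0 N + ind N (N + 1) := by
      rw [ind_add (by positivity) (by linarith)]
      push_cast
      rfl
    rw [h]
    apply Dyad_add ih
    refine ⟨0, Submodule.subset_span ⟨(N : ℤ), ?_⟩⟩
    unfold atom
    simp

lemma R_win_ind (N : ℕ) : R (win N) (ind 0 N : X p) = ind 0 N := by
  apply R_of_subset measurableSet_Ico (measurableSet_win _) _ (R_ind_self 0 (N : ℝ))
  intro t ht
  unfold win
  have : (0 : ℝ) ≤ N := by positivity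
  exact ⟨by linarith [ht.1], ht.2⟩

lemma norm_T_ind_sub (hp : p ≠ ∞) {N : ℕ} {d : ℝ} (hd : 0 ≤ d) (hdN : d ≤ N) :
    ‖T d (ind 0 N : X p) - ind 0 N‖ ≤ 2 * d ^ (1 / p.toReal) := by
  have hP := pt_pos (p := p) hp
  have h1 : T d (ind 0 N : X p) - ind 0 N = ind N (N + d) - ind 0 d := by
    rw [T_ind, zero_add]
    have e1 := ind_add (p := p) (a := 0) (b := N) (c := N + d) (by positivity) (by linarith)
    have e2 := ind_add (p := p) (a := 0) (b := d) (c := N + d) hd (by linarith)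
    rw [sub_eq_sub_iff_add_eq_add, add_comm _ (ind 0 d), e2, ← e1, add_comm]
  have h2 : ∀ a b : ℝ, a ≤ b → ‖(ind a b : X p)‖ = (b - a) ^ (1 / p.toReal) := by
    intro a b hab
    rw [← norm_ind hp hab, ← Real.rpow_mul (norm_nonneg _), mul_one_div_cancel hP.ne',
      Real.rpow_one]
  rw [h1]
  refine (norm_sub_le _ _).trans ?_
  rw [h2 _ _ (by linarith), h2 _ _ hd]
  apply le_of_eq
  rw [add_sub_cancel_left, sub_zero]
  ring

lemma norm_T_sub_neg (d : ℝ) (x : X p) : ‖T d x - x‖ = ‖T (-d) x - x‖ := by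
  have h : T (-d) (T d x - x) = x - T (-d) x := by
    rw [map_sub, T_neg_T]
  rw [← norm_T (-d) (T d x - x), h, norm_sub_rev]

lemma exists_flat (hp1 : 1 < p) (hp : p ≠ ∞) {ι : Type*} [Finite ι] (δ : ι → ℝ) {ε : ℝ}
    (hε : 0 < ε) : ∃ g0 : X p, Dyad g0 ∧ ‖g0‖ = 1 ∧ ∀ k, ‖T (δ k) g0 - g0‖ ≤ ε := by
  have hP := pt_pos (p := p) hp
  obtain ⟨D, hD⟩ : ∃ D : ℝ, ∀ k, |δ k| ≤ D := by
    obtain ⟨D, hD⟩ := (Set.finite_range (fun k => |δ k|)).bddAbove
    exact ⟨D, fun k => hD ⟨k, rfl⟩⟩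
  have hlim : Tendsto (fun N : ℕ => (N : ℝ) ^ (-(1 / p.toReal)) * (2 * (|D|) ^ (1 / p.toReal)))
      atTop (𝓝 (0 * (2 * (|D|) ^ (1 / p.toReal)))) := by
    apply Tendsto.mul_const
    exact (tendsto_rpow_neg_atTop (by positivity : 0 < 1 / p.toReal)).comp
      tendsto_natCast_atTop_atTop
  rw [zero_mul] at hlim
  obtain ⟨N, hN1, hN2, hN3⟩ := ((hlim.eventually (ge_mem_nhds hε)).and
    ((eventually_gt_atTop 0).and (tendsto_natCast_atTop_atTop.eventually_ge_atTop (|D|)))).exists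
  have hN0 : (0 : ℝ) < N := by exact_mod_cast hN2
  refine ⟨((N : ℝ) ^ (-(1 / p.toReal))) • ind 0 N, Dyad_smul _ (Dyad_ind_nat N), ?_, ?_⟩
  · have h2 : ‖(ind 0 N : X p)‖ = (N : ℝ) ^ (1 / p.toReal) := by
      have := norm_ind (p := p) hp hN0.le
      rw [sub_zero] at this
      conv_rhs => rw [← this, ← Real.rpow_mul (norm_nonneg _), mul_one_div_cancel hP.ne',
        Real.rpow_one]
    rw [norm_smul, h2, Real.norm_eq_abs, abs_of_nonneg (by positivity),
      ← Real.rpow_add hN0, neg_add_cancel, Real.rpow_zero]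
  · intro k
    rw [map_smul, ← smul_sub, norm_smul, Real.norm_eq_abs, abs_of_nonneg (by positivity)]
    refine le_trans ?_ hN1
    have hk : |δ k| ≤ |D| := (hD k).trans (le_abs_self D)
    have h3 : ‖T (δ k) (ind 0 N : X p) - ind 0 N‖ ≤ 2 * |δ k| ^ (1 / p.toReal) := by
      rcases le_total 0 (δ k) with h | h
      · rw [abs_of_nonneg h] at hk ⊢
        exact norm_T_ind_sub hp h (hk.trans hN3)
      · rw [norm_T_sub_neg]
        rw [abs_of_nonpos h] at hk ⊢
        exact norm_T_ind_sub hp (by linarith) (hk.trans hN3)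
    gcongr
    exact h3.trans (by gcongr)

/-! ### The new function is close to the old one -/

lemma norm_fnew_sub_le (hp : p ≠ ∞) {r m L M : ℕ} (hr : 0 < r) (hM : 0 < M) {ρ : ℝ}
    (hX : nrm p.toReal (chi ρ L) ≤ 1) {pos : GG r →+ ℝ} {b1 B : ℝ}
    (hG : Geo p.toReal ρ r m L M pos b1 B) (f g0 : X p) (hf : ‖f‖ = 1) (hg : ‖g0‖ = 1)
    (hfb : R (win b1) f = f) (hgb : R (win b1) g0 = g0) :
    ‖fnew p.toReal ρ r L M pos f g0 - f‖ ≤
      (2 ^ (2 * r) + r * r * (2 ^ (2 * r) + 1)) * nrm p.toReal (chi ρ L) := by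
  have hP : 1 ≤ p.toReal := one_le_pt hp
  have e : fnew p.toReal ρ r L M pos f g0 - f =
      act pos (AP ρ L (Finset.univ : Finset (KK r)) - 1) f +
        ∑ ij : Fin r × Fin r, act pos (DD p.toReal ρ L M ij) g0 := by
    unfold fnew
    rw [act_sub, act_one]
    abel
  rw [e]
  refine (norm_add_le _ _).trans ?_
  have h1 : ‖act pos (AP ρ L (Finset.univ : Finset (KK r)) - 1) f‖ ≤
      2 ^ (2 * r) * nrm p.toReal (chi ρ L) := by
    rw [norm_act hp pos hG.s4 hfb, hf, mul_one]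
    exact nrm_AP_sub_one_le' hP hX _
  have h2 : ‖∑ ij : Fin r × Fin r, act pos (DD p.toReal ρ L M ij) g0‖ ≤
      r * r * (nrm p.toReal (chi ρ L) * (2 ^ (2 * r) + 1)) := by
    refine (Xnorm_sum_le _ (c := nrm p.toReal (chi ρ L) * (2 ^ (2 * r) + 1)) ?_).trans ?_
    · rintro ⟨i, j⟩
      rw [norm_act hp pos (hG.s5 _) hgb, hg, mul_one]
      exact nrm_DD_le hP hX hr hM i j
    · apply le_of_eq
      simp only [Fintype.card_prod, Fintype.card_fin]
      push_cast
      ring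
  linarith

end

end Pool.Agent.H26
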