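import Pool.Agent.Lib.H26.SeqS

open Finset

namespace Pool.Agent.H26

noncomputable section

/-- The `P`-th power sum. -/
def pw {ι : Type*} [Fintype ι] (P : ℝ) (w : ι → ℝ) : ℝ := ∑ n, |w n| ^ P

section pw

variable {ι : Type*} [Fintype ι] {P : ℝ}

lemma pw_nonneg (P : ℝ) (w : ι → ℝ) : 0 ≤ pw P w := by unfold pw; positivity

lemma lpn_rpow' (hP : 0 < P) (w : ι → ℝ) : lpn P w ^ P = pw P w := lpn_rpow hP w

lemma two_pow (hP : 0 ≤ P) (x y : ℝ) : |x + y| ^ P ≤ 2 ^ P * (|x| ^ P + |y| ^ P) := by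
  have h1 : |x + y| ≤ 2 * max |x| |y| := by
    have := abs_add_le x y
    have h2 := le_max_left |x| |y|
    have h3 := le_max_right |x| |y|
    linarith
  calc |x + y| ^ P ≤ (2 * max |x| |y|) ^ P := Real.rpow_le_rpow (abs_nonneg _) h1 hP
    _ = 2 ^ P * (max |x| |y|) ^ P := Real.mul_rpow (by norm_num) (by positivity)
    _ ≤ 2 ^ P * (|x| ^ P + |y| ^ P) := by
        gcongr
        rcases le_total |x| |y| with h | h
        · rw [max_eq_right h]
          have : 0 ≤ |x| ^ P := by positivity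
          linarith
        · rw [max_eq_left h]
          have : 0 ≤ |y| ^ P := by positivity
          linarith

lemma pw_add_le (hP : 0 ≤ P) (w w' : ι → ℝ) :
    pw P (w + w') ≤ 2 ^ P * (pw P w + pw P w') := by
  unfold pw
  rw [← Finset.sum_add_distrib, Finset.mul_sum]
  exact Finset.sum_le_sum (fun n _ => two_pow hP _ _)

lemma pw_neg (w : ι → ℝ) : pw P (-w) = pw P w := by
  unfold pw
  simp

lemma pw_sub_le (hP : 0 ≤ P) (w w' : ι → ℝ) :
    pw P (w - w') ≤ 2 ^ P * (pw P w + pw P w') := by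
  rw [sub_eq_add_neg]
  refine (pw_add_le hP _ _).trans ?_
  rw [pw_neg]

lemma pw_smul (c : ℝ) (w : ι → ℝ) : pw P (c • w) = |c| ^ P * pw P w := by
  unfold pw
  rw [Finset.mul_sum]
  apply Finset.sum_congr rfl
  intro n _
  rw [Pi.smul_apply, smul_eq_mul, abs_mul, Real.mul_rpow (abs_nonneg _) (abs_nonneg _)]

/-- Jensen's inequality for averages. -/
lemma abs_avg_le (hP : 1 ≤ P) {r : ℕ} (hr : 0 < r) (g : Fin r → ℝ) :
    |(r : ℝ)⁻¹ * ∑ j, g j| ^ P ≤ (r : ℝ)⁻¹ * ∑ j, |g j| ^ P := by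
  have hr' : (0 : ℝ) < r := by positivity
  have h1 := Real.rpow_arith_mean_le_arith_mean_rpow (univ : Finset (Fin r))
    (fun _ => (r : ℝ)⁻¹) (fun j => |g j|) (fun _ _ => by positivity)
    (by simp [hr'.ne']) (fun _ _ => abs_nonneg _) hP
  rw [← Finset.mul_sum, ← Finset.mul_sum] at h1
  refine le_trans ?_ h1
  apply Real.rpow_le_rpow (abs_nonneg _) _ (by linarith)
  rw [abs_mul, abs_of_nonneg (by positivity)]
  gcongr
  exact Finset.abs_sum_le_sum_abs _ _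

lemma pw_avg_le (hP : 1 ≤ P) {r : ℕ} (hr : 0 < r) (g : Fin r → ι → ℝ) :
    pw P ((r : ℝ)⁻¹ • ∑ j, g j) ≤ (r : ℝ)⁻¹ * ∑ j, pw P (g j) := by
  unfold pw
  rw [Finset.sum_comm, Finset.mul_sum]
  apply Finset.sum_le_sum
  intro n _
  rw [Pi.smul_apply, Finset.sum_apply, smul_eq_mul]
  exact abs_avg_le hP hr _

end pw

variable {r m T : ℕ}

lemma pw_AA (P : ℝ) (u : AA r m T → ℝ) :
    pw P u = ∑ k, pw P (uI k u) + (∑ k, |uT k u| ^ P +
      ∑ ij : Fin r × Fin r, ∑ n : A2 m T, |u (Sum.inr (Sum.inr (ij, n)))| ^ P) := by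
  unfold pw
  rw [Fintype.sum_sum_type, Fintype.sum_sum_type, Fintype.sum_prod_type, Fintype.sum_prod_type]
  rfl

lemma sum_uD_le {P : ℝ} (u : AA r m T → ℝ) :
    ∑ i : Fin r, ∑ j : Fin r, pw P (uD i j u) ≤
      ∑ ij : Fin r × Fin r, ∑ n : A2 m T, |u (Sum.inr (Sum.inr (ij, n)))| ^ P := by
  classical
  rw [Fintype.sum_prod_type]
  apply Finset.sum_le_sum
  intro i _
  apply Finset.sum_le_sum
  intro j _
  unfold pw
  let e : LF m ↪ A2 m T := ⟨fun n => ⟨n, LF_sub_A2 T n⟩, by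
    intro a b hab
    have := congrArg Subtype.val hab
    exact Subtype.ext this⟩
  have h1 : ∑ n : LF m, |uD i j u n| ^ P =
      ∑ n ∈ (univ : Finset (LF m)).map e, |u (Sum.inr (Sum.inr ((i, j), n)))| ^ P := by
    rw [Finset.sum_map]
    rfl
  rw [h1]
  apply Finset.sum_le_sum_of_subset_of_nonneg (Finset.subset_univ _)
  intro n _ _
  positivity

lemma rpow_inv_pow (r : ℕ) (P : ℝ) (hP : 1 ≤ P) : |(r : ℝ) ^ (1 / P)| ^ P = r := by
  rw [abs_of_nonneg (by positivity), ← Real.rpow_mul (by positivity),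
    one_div, inv_mul_cancel₀ (by linarith), Real.rpow_one]

section bounds

variable {P : ℝ} (hP : 1 ≤ P) (hr : 0 < r) (u : AA r m T → ℝ)

lemma sum_uI_le : ∑ k, pw P (uI k u) ≤ pw P u := by
  rw [pw_AA]
  have h1 : 0 ≤ ∑ k, |uT k u| ^ P := by positivity
  have h2 : 0 ≤ ∑ ij : Fin r × Fin r, ∑ n : A2 m T, |u (Sum.inr (Sum.inr (ij, n)))| ^ P := by
    positivity
  linarith

lemma sum_uT_le : ∑ k, |uT k u| ^ P ≤ pw P u := by
  rw [pw_AA]
  have h1 : 0 ≤ ∑ k, pw P (uI k u) := Finset.sum_nonneg (fun _ _ => pw_nonneg _ _)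
  have h2 : 0 ≤ ∑ ij : Fin r × Fin r, ∑ n : A2 m T, |u (Sum.inr (Sum.inr (ij, n)))| ^ P := by
    positivity
  linarith

lemma sum_uD_le' : ∑ i : Fin r, ∑ j : Fin r, pw P (uD i j u) ≤ pw P u := by
  refine (sum_uD_le u).trans ?_
  rw [pw_AA]
  have h1 : 0 ≤ ∑ k, pw P (uI k u) := Finset.sum_nonneg (fun _ _ => pw_nonneg _ _)
  have h2 : 0 ≤ ∑ k, |uT k u| ^ P := by positivity
  linarith

lemma sum_uI_inl_le : ∑ i : Fin r, pw P (uI (Sum.inl i) u) ≤ pw P u := by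
  refine le_trans ?_ (sum_uI_le u)
  rw [Fintype.sum_sum_type]
  have : 0 ≤ ∑ j : Fin r, pw P (uI (Sum.inr j) u) := Finset.sum_nonneg (fun _ _ => pw_nonneg _ _)
  linarith

lemma sum_uI_inr_le : ∑ j : Fin r, pw P (uI (Sum.inr j) u) ≤ pw P u := by
  refine le_trans ?_ (sum_uI_le u)
  rw [Fintype.sum_sum_type]
  have : 0 ≤ ∑ j : Fin r, pw P (uI (Sum.inl j) u) := Finset.sum_nonneg (fun _ _ => pw_nonneg _ _)
  linarith

include hP hr

lemma pw_vv_le : r * pw P (vv u) ≤ pw P u := by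
  have hr' : (0 : ℝ) < r := by positivity
  rw [vv_apply, pw_neg]
  have h := pw_avg_le hP hr (fun j => uI (Sum.inr j) u)
  have h2 := sum_uI_inr_le (P := P) u
  calc (r : ℝ) * pw P ((r : ℝ)⁻¹ • ∑ j, uI (Sum.inr j) u)
      ≤ r * ((r : ℝ)⁻¹ * ∑ j, pw P (uI (Sum.inr j) u)) := by gcongr
    _ = ∑ j, pw P (uI (Sum.inr j) u) := by field_simp
    _ ≤ _ := h2

lemma vinf_pow_le : r * |vinf u| ^ P ≤ pw P u := by
  have hr' : (0 : ℝ) < r := by positivity
  rw [vinf_apply, abs_neg]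
  have h := abs_avg_le hP hr (fun j => uT (Sum.inr j) u)
  have h2 := sum_uT_le (P := P) u
  rw [Fintype.sum_sum_type] at h2
  have h3 : 0 ≤ ∑ j : Fin r, |uT (Sum.inl j) u| ^ P := by positivity
  calc (r : ℝ) * |(r : ℝ)⁻¹ * ∑ j, uT (Sum.inr j) u| ^ P
      ≤ r * ((r : ℝ)⁻¹ * ∑ j, |uT (Sum.inr j) u| ^ P) := by gcongr
    _ = ∑ j, |uT (Sum.inr j) u| ^ P := by field_simp
    _ ≤ _ := by linarith

lemma sum_cI_le : ∑ i : Fin r, pw P (cI P i u) ≤ 2 ^ P * (2 ^ P * 2 + 1) * pw P u := by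
  have hr' : (0 : ℝ) < r := by positivity
  have hP0 : 0 ≤ P := by linarith
  have h1 : ∀ i : Fin r, pw P (cI P i u) ≤
      2 ^ P * (2 ^ P * (pw P (uI (Sum.inl i) u) + pw P (vv u)) + ∑ j, pw P (uD i j u)) := by
    intro i
    rw [cI_apply]
    refine (pw_add_le hP0 _ _).trans ?_
    gcongr
    · exact pw_sub_le hP0 _ _
    · rw [pw_smul, rpow_inv_pow r P hP]
      have := pw_avg_le hP hr (fun j => uD i j u)
      calc (r : ℝ) * pw P ((r : ℝ)⁻¹ • ∑ j, uD i j u)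
          ≤ r * ((r : ℝ)⁻¹ * ∑ j, pw P (uD i j u)) := by gcongr
        _ = ∑ j, pw P (uD i j u) := by field_simp
  refine (Finset.sum_le_sum (fun i _ => h1 i)).trans ?_
  rw [← Finset.mul_sum, Finset.sum_add_distrib, ← Finset.mul_sum, Finset.sum_add_distrib,
    Finset.sum_const, Finset.card_univ, Fintype.card_fin, nsmul_eq_mul]
  have h2 := sum_uI_inl_le (P := P) u
  have h3 := pw_vv_le hP hr u
  have h4 := sum_uD_le' (P := P) u
  rw [mul_assoc]
  gcongr
  have h5 : (0 : ℝ) ≤ 2 ^ P := by positivity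
  nlinarith

lemma pw_uDD_le : r * (r * pw P (uDD u)) ≤ pw P u := by
  have hr' : (0 : ℝ) < r := by positivity
  have h4 := sum_uD_le' (P := P) u
  have e : uDD u = (r : ℝ)⁻¹ • ∑ i : Fin r, (r : ℝ)⁻¹ • ∑ j : Fin r, uD i j u := by
    rw [uDD_apply, ← Finset.smul_sum, smul_smul]
  rw [e]
  have h1 := pw_avg_le hP hr (fun i => (r : ℝ)⁻¹ • ∑ j : Fin r, uD i j u)
  have h2 : ∑ i : Fin r, pw P ((r : ℝ)⁻¹ • ∑ j : Fin r, uD i j u) ≤
      ∑ i : Fin r, (r : ℝ)⁻¹ * ∑ j, pw P (uD i j u) :=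
    Finset.sum_le_sum (fun i _ => pw_avg_le hP hr (fun j => uD i j u))
  rw [← Finset.mul_sum] at h2
  calc (r : ℝ) * (r * pw P ((r : ℝ)⁻¹ • ∑ i : Fin r, (r : ℝ)⁻¹ • ∑ j : Fin r, uD i j u))
      ≤ r * (r * ((r : ℝ)⁻¹ * ((r : ℝ)⁻¹ * ∑ i : Fin r, ∑ j, pw P (uD i j u)))) := by
        gcongr
        exact h1.trans (by gcongr)
    _ = ∑ i : Fin r, ∑ j, pw P (uD i j u) := by field_simp
    _ ≤ _ := h4

lemma sum_cJ_le : ∑ j : Fin r, pw P (cJ P j u) ≤ 2 ^ P * (2 ^ P * 2 + 2 ^ P * 2) * pw P u := by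
  have hr' : (0 : ℝ) < r := by positivity
  have hP0 : 0 ≤ P := by linarith
  have h1 : ∀ j : Fin r, pw P (cJ P j u) ≤
      2 ^ P * (2 ^ P * (pw P (uI (Sum.inr j) u) + pw P (vv u)) +
        2 ^ P * (∑ i, pw P (uD i j u) + r * pw P (uDD u))) := by
    intro j
    rw [cJ_apply]
    refine (pw_add_le hP0 _ _).trans ?_
    gcongr
    · exact pw_add_le hP0 _ _
    · rw [pw_smul, rpow_inv_pow r P hP]
      have h := pw_avg_le hP hr (fun i => uD i j u)
      have h' := pw_sub_le hP0 ((r : ℝ)⁻¹ • ∑ i, uD i j u) (uDD u)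
      calc (r : ℝ) * pw P ((r : ℝ)⁻¹ • ∑ i, uD i j u - uDD u)
          ≤ r * (2 ^ P * (((r : ℝ)⁻¹ * ∑ i, pw P (uD i j u)) + pw P (uDD u))) := by
            gcongr
            exact h'.trans (by gcongr)
        _ = 2 ^ P * (∑ i, pw P (uD i j u) + r * pw P (uDD u)) := by field_simp
  refine (Finset.sum_le_sum (fun i _ => h1 i)).trans ?_
  rw [← Finset.mul_sum, Finset.sum_add_distrib, ← Finset.mul_sum, Finset.sum_add_distrib,
    ← Finset.mul_sum, Finset.sum_add_distrib, Finset.sum_comm (f := fun j i => pw P (uD i j u))]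
  simp only [Finset.sum_const, Finset.card_univ, Fintype.card_fin, nsmul_eq_mul]
  have h2 := sum_uI_inr_le (P := P) u
  have h3 := pw_vv_le hP hr u
  have h4 := sum_uD_le' (P := P) u
  have h5 := pw_uDD_le hP hr u
  rw [mul_assoc]
  gcongr
  have h6 : (0 : ℝ) ≤ 2 ^ P := by positivity
  nlinarith

end bounds

lemma pw_oneL {P : ℝ} (hP : 0 < P) (m : ℕ) : pw P (oneL m) = m := by
  have h := SL_oneL m
  rw [SL_apply] at h
  rw [← h]
  unfold pw
  apply Finset.sum_congr rfl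
  intro n _
  simp only [oneL]
  split_ifs
  · simp
  · simp [Real.zero_rpow hP.ne']

lemma pw_oneR {P : ℝ} (hP : 0 < P) (m : ℕ) : pw P (oneR m) = m := by
  have h := SR_oneR m
  rw [SR_apply] at h
  rw [← h]
  unfold pw
  apply Finset.sum_congr rfl
  intro n _
  simp only [oneR]
  split_ifs
  · simp
  · simp [Real.zero_rpow hP.ne']

lemma SL_eq_filter (w : LF m → ℝ) :
    SL w = ∑ n ∈ Finset.filter (fun n : LF m => ((n : ℤ) < 0)) univ, w n := by
  rw [SL_apply, Finset.sum_filter]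

lemma SR_eq_filter (w : LF m → ℝ) :
    SR w = ∑ n ∈ Finset.filter (fun n : LF m => (0 < (n : ℤ))) univ, w n := by
  rw [SR_apply, Finset.sum_filter]

lemma card_L (m : ℕ) : ((Finset.filter (fun n : LF m => ((n : ℤ) < 0)) univ).card : ℝ) = m := by
  have h := SL_oneL m
  rw [SL_eq_filter] at h
  rw [← h, Finset.sum_congr rfl (g := fun _ => (1 : ℝ))]
  · simp
  · intro n hn
    simp only [oneL]
    rw [if_pos (Finset.mem_filter.mp hn).2]

lemma card_R (m : ℕ) : ((Finset.filter (fun n : LF m => (0 < (n : ℤ))) univ).card : ℝ) = m := by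
  have h := SR_oneR m
  rw [SR_eq_filter] at h
  rw [← h, Finset.sum_congr rfl (g := fun _ => (1 : ℝ))]
  · simp
  · intro n hn
    simp only [oneR]
    rw [if_pos (Finset.mem_filter.mp hn).2]

lemma abs_mean_le {P : ℝ} (hP : 1 ≤ P) (hm : 0 < m) (F : Finset (LF m)) (hF : (F.card : ℝ) = m)
    (w : LF m → ℝ) : |(m : ℝ)⁻¹ * ∑ n ∈ F, w n| ^ P * m ≤ pw P w := by
  have hm' : (0 : ℝ) < m := by positivity
  have hP0 : 0 ≤ P := by linarith
  have h1 : |(m : ℝ)⁻¹ * ∑ n ∈ F, w n| ≤ (m : ℝ)⁻¹ * ∑ n ∈ F, |w n| := by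
    rw [abs_mul, abs_of_nonneg (by positivity)]
    gcongr
    exact Finset.abs_sum_le_sum_abs _ _
  have h2 := Real.rpow_sum_le_const_mul_sum_rpow F w hP
  rw [hF] at h2
  have h3 : ∑ n ∈ F, |w n| ^ P ≤ pw P w := by
    unfold pw
    exact Finset.sum_le_sum_of_subset_of_nonneg (Finset.subset_univ _)
      (fun n _ _ => by positivity)
  calc |(m : ℝ)⁻¹ * ∑ n ∈ F, w n| ^ P * m
      ≤ ((m : ℝ)⁻¹ * ∑ n ∈ F, |w n|) ^ P * m := by gcongr
    _ = ((m : ℝ)⁻¹) ^ P * (∑ n ∈ F, |w n|) ^ P * m := by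
        rw [Real.mul_rpow (by positivity) (by positivity)]
    _ ≤ ((m : ℝ)⁻¹) ^ P * ((m : ℝ) ^ (P - 1) * ∑ n ∈ F, |w n| ^ P) * m := by gcongr
    _ = ∑ n ∈ F, |w n| ^ P := by
        rw [Real.rpow_sub hm', Real.rpow_one, Real.inv_rpow hm'.le]
        have : (m : ℝ) ^ P ≠ 0 := (Real.rpow_pos_of_pos hm' P).ne'
        field_simp
    _ ≤ pw P w := h3

lemma pw_MR_le {P : ℝ} (hP : 1 ≤ P) (hm : 0 < m) (w : LF m → ℝ) :
    pw P (MR m w) ≤ 2 ^ P * (2 ^ P * 2 + 1) * pw P w := by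
  have hP0 : 0 ≤ P := by linarith
  have hP1 : 0 < P := by linarith
  rw [MR_apply]
  have h1 : pw P ((m : ℝ)⁻¹ • (SL w • oneL m)) ≤ pw P w := by
    rw [smul_smul, pw_smul, pw_oneL hP1, SL_eq_filter]
    exact abs_mean_le hP hm _ (card_L m) w
  have h2 : pw P ((m : ℝ)⁻¹ • (SR w • oneR m)) ≤ pw P w := by
    rw [smul_smul, pw_smul, pw_oneR hP1, SR_eq_filter]
    exact abs_mean_le hP hm _ (card_R m) w
  calc pw P (w - (m : ℝ)⁻¹ • (SL w • oneL m) - (m : ℝ)⁻¹ • (SR w • oneR m))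
      ≤ 2 ^ P * (2 ^ P * (pw P w + pw P ((m : ℝ)⁻¹ • (SL w • oneL m))) +
          pw P ((m : ℝ)⁻¹ • (SR w • oneR m))) := by
        refine (pw_sub_le hP0 _ _).trans ?_
        gcongr
        exact pw_sub_le hP0 _ _
    _ ≤ 2 ^ P * (2 ^ P * (pw P w + pw P w) + pw P w) := by gcongr
    _ = _ := by ring

/-- The numerical constant. -/
def c0 (P : ℝ) : ℝ := 2 ^ P * (2 ^ P * 2 + 2 ^ P * 2)

lemma c0_nonneg (P : ℝ) : 0 ≤ c0 P := by unfold c0; positivity

lemma c1_le_c0 {P : ℝ} (hP : 1 ≤ P) : (2 : ℝ) ^ P * (2 ^ P * 2 + 1) ≤ c0 P := by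
  unfold c0
  have : (1 : ℝ) ≤ 2 ^ P := Real.one_le_rpow (by norm_num) (by linarith)
  gcongr
  linarith

section main

variable {P : ℝ} (hP : 1 ≤ P) {ρ : ℝ} (hρ : 0 ≤ ρ) (hρ1 : ρ < 1) (hr : 0 < r) (hm : 0 < m)
  (hT : 2 * m < T) (hmP : (m : ℝ) ≤ ((1 - ρ) * m) ^ P)

include hP hρ1 hm hmP in
lemma pw_xb_le (hν : 1 ≤ nrm P (tl ρ m T)) (u : AA r m T → ℝ) :
    pw P (xb P ρ r m T u) ≤ 2 ^ P * (c0 P * pw P (vv u) + |vinf u| ^ P) := by
  have hP0 : 0 ≤ P := by linarith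
  have hP1 : 0 < P := by linarith
  have hm' : (0 : ℝ) < m := by positivity
  have ha : 0 < 1 - ρ := by linarith
  rw [xb_apply]
  refine (pw_sub_le hP0 _ _).trans ?_
  have h1 := pw_MR_le hP hm (vv u)
  have h2 : pw P (((1 - ρ) * nrm P (tl ρ m T) * m)⁻¹ • (vinf u • oneR m)) ≤ |vinf u| ^ P := by
    rw [smul_smul, pw_smul, pw_oneR hP1, abs_mul, Real.mul_rpow (abs_nonneg _) (abs_nonneg _)]
    have h3 : |((1 - ρ) * nrm P (tl ρ m T) * m)⁻¹| ^ P * m ≤ 1 := by
      rw [abs_of_nonneg (by positivity), Real.inv_rpow (by positivity)]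
      rw [inv_mul_le_one₀ (by positivity)]
      refine hmP.trans ?_
      apply Real.rpow_le_rpow (by positivity) _ hP0
      nlinarith [mul_pos ha hm']
    have h4 : 0 ≤ |vinf u| ^ P := by positivity
    nlinarith
  have h5 := c1_le_c0 hP
  have h6 := pw_nonneg P (vv u)
  gcongr
  exact h1.trans (by gcongr)

include hP hρ hρ1 hr hm hT hmP in
/-- The main bound: the projection `S ∘ R` is bounded on `ℓ_P`. -/
lemma pw_SS_RR_le (u : AA r m T → ℝ) :
    pw P (SS P ρ r m T (RR P ρ r m T u)) ≤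
      (2 ^ P * (2 * (2 ^ P * (c0 P + 1)) + 2 ^ P * (2 * c0 P)) +
        (2 ^ P * (2 + 6 ^ P * (2 * c0 P)) + 2 ^ P * (2 * c0 P))) * pw P u := by
  have hP0 : 0 ≤ P := by linarith
  have hP1 : 0 < P := by linarith
  have hr' : (0 : ℝ) < r := by positivity
  have hν : 1 ≤ nrm P (tl ρ m T) := by
    rw [nrm_tl hP1]
    exact one_le_nrm_geo hP1 ρ (by omega)
  have hν0 : 0 < nrm P (tl ρ m T) := by linarith
  set N := pw P u with hN
  have hN0 : 0 ≤ N := pw_nonneg _ _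
  have hI := sum_cI_le hP hr u
  have hJ := sum_cJ_le hP hr u
  have hI' : ∑ i : Fin r, pw P (cI P i u) ≤ c0 P * N :=
    hI.trans (by gcongr; exact c1_le_c0 hP)
  have hJ' : ∑ j : Fin r, pw P (cJ P j u) ≤ c0 P * N := hJ
  have hvv := pw_vv_le hP hr u
  have hvi := vinf_pow_le hP hr u
  have hxb := pw_xb_le (r := r) (T := T) hP hρ1 hm hmP hν u
  have hrxb : r * pw P (xb P ρ r m T u) ≤ 2 ^ P * (c0 P + 1) * N := by
    calc (r : ℝ) * pw P (xb P ρ r m T u)
        ≤ r * (2 ^ P * (c0 P * pw P (vv u) + |vinf u| ^ P)) := by gcongr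
      _ = 2 ^ P * (c0 P * (r * pw P (vv u)) + r * |vinf u| ^ P) := by ring
      _ ≤ 2 ^ P * (c0 P * N + N) := by
          have := c0_nonneg P
          gcongr
      _ = _ := by ring
  rw [pw_AA (r := r) (m := m) (T := T) P (SS P ρ r m T (RR P ρ r m T u)), add_mul]
  apply add_le_add
  · -- the `x` coordinates
    have h1 : ∀ k : KK r, uI k (SS P ρ r m T (RR P ρ r m T u)) =
        (Pe ρ).symm (sl k (RR P ρ r m T u)) := fun k => rfl
    simp only [h1]
    rw [Fintype.sum_sum_type]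
    have h2 : ∀ i : Fin r, pw P ((Pe ρ).symm (sl (Sum.inl i) (RR P ρ r m T u))) ≤
        2 ^ P * (pw P (xb P ρ r m T u) + 2 ^ P * pw P (cI P i u)) := by
      intro i
      rw [sl_RR_inl, map_add, LinearEquiv.symm_apply_apply]
      refine (pw_add_le hP0 _ _).trans ?_
      gcongr
      exact sum_Pe_symm_le hP hρ hρ1 hT _
    have h3 : ∀ j : Fin r, pw P ((Pe ρ).symm (sl (Sum.inr j) (RR P ρ r m T u))) ≤
        2 ^ P * (pw P (xb P ρ r m T u) + 2 ^ P * pw P (cJ P j u)) := by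
      intro j
      rw [sl_RR_inr, map_add, map_neg, LinearEquiv.symm_apply_apply]
      refine (pw_add_le hP0 _ _).trans ?_
      rw [pw_neg]
      gcongr
      exact sum_Pe_symm_le hP hρ hρ1 hT _
    refine (add_le_add (Finset.sum_le_sum (fun i _ => h2 i))
      (Finset.sum_le_sum (fun j _ => h3 j))).trans ?_
    rw [← Finset.mul_sum, ← Finset.mul_sum, Finset.sum_add_distrib, Finset.sum_add_distrib,
      ← Finset.mul_sum, ← Finset.mul_sum, Finset.sum_const, Finset.card_univ, Fintype.card_fin,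
      nsmul_eq_mul]
    have h4 : (0 : ℝ) ≤ 2 ^ P := by positivity
    calc (2 : ℝ) ^ P * (r * pw P (xb P ρ r m T u) + 2 ^ P * ∑ i : Fin r, pw P (cI P i u)) +
          2 ^ P * (r * pw P (xb P ρ r m T u) + 2 ^ P * ∑ j : Fin r, pw P (cJ P j u))
        ≤ 2 ^ P * (2 ^ P * (c0 P + 1) * N + 2 ^ P * (c0 P * N)) +
          2 ^ P * (2 ^ P * (c0 P + 1) * N + 2 ^ P * (c0 P * N)) := by gcongr
      _ = _ := by ring
  · rw [add_mul]
    apply add_le_add
    · -- the tail coordinates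
      have h1 : ∀ k : KK r, uT k (SS P ρ r m T (RR P ρ r m T u)) =
          tc P ρ m T ((Pe ρ).symm (sl k (RR P ρ r m T u))) := fun k => rfl
      simp only [h1]
      rw [Fintype.sum_sum_type]
      have hx : ∀ c : LF m → ℝ, |tc P ρ m T ((Pe ρ).symm c)| ^ P ≤ 6 ^ P * pw P c := by
        intro c
        rw [tc_apply, abs_neg]
        exact Xi_pow_le hP hρ hρ1 hT c
      have h2 : ∀ i : Fin r, |tc P ρ m T ((Pe ρ).symm (sl (Sum.inl i) (RR P ρ r m T u)))| ^ P ≤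
          2 ^ P * (|vinf u| ^ P + 6 ^ P * pw P (cI P i u)) := by
        intro i
        rw [sl_RR_inl, map_add, LinearEquiv.symm_apply_apply, map_add, tc_xb P hρ1 hm hν0]
        refine (two_pow hP0 _ _).trans ?_
        gcongr
        exact hx _
      have h3 : ∀ j : Fin r, |tc P ρ m T ((Pe ρ).symm (sl (Sum.inr j) (RR P ρ r m T u)))| ^ P ≤
          2 ^ P * (|vinf u| ^ P + 6 ^ P * pw P (cJ P j u)) := by
        intro j
        rw [sl_RR_inr, map_add, map_neg, LinearEquiv.symm_apply_apply, map_add, map_neg,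
          tc_xb P hρ1 hm hν0]
        refine (two_pow hP0 _ _).trans ?_
        rw [abs_neg]
        gcongr
        exact hx _
      refine (add_le_add (Finset.sum_le_sum (fun i _ => h2 i))
        (Finset.sum_le_sum (fun j _ => h3 j))).trans ?_
      rw [← Finset.mul_sum, ← Finset.mul_sum, Finset.sum_add_distrib, Finset.sum_add_distrib,
        ← Finset.mul_sum, ← Finset.mul_sum, Finset.sum_const, Finset.card_univ, Fintype.card_fin,
        nsmul_eq_mul]
      calc (2 : ℝ) ^ P * (r * |vinf u| ^ P + 6 ^ P * ∑ i : Fin r, pw P (cI P i u)) +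
            2 ^ P * (r * |vinf u| ^ P + 6 ^ P * ∑ j : Fin r, pw P (cJ P j u))
          ≤ 2 ^ P * (N + 6 ^ P * (c0 P * N)) + 2 ^ P * (N + 6 ^ P * (c0 P * N)) := by gcongr
        _ = _ := by ring
    · -- the detection coordinates
      rw [Fintype.sum_prod_type]
      have h1 : ∀ i j : Fin r, ∑ n : A2 m T,
          |SS P ρ r m T (RR P ρ r m T u) (Sum.inr (Sum.inr ((i, j), n)))| ^ P ≤
          (r : ℝ)⁻¹ * (2 ^ P * (pw P (cI P i u) + pw P (cJ P j u))) := by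
        intro i j
        have h2 : ∀ n : A2 m T,
            |SS P ρ r m T (RR P ρ r m T u) (Sum.inr (Sum.inr ((i, j), n)))| ^ P =
            (r : ℝ)⁻¹ * |(chi ρ T * toPoly (cI P i u + cJ P j u)).coeff n| ^ P := by
          intro n
          rw [SS_inr, sl_RR_inl, sl_RR_inr, abs_mul, Real.mul_rpow (abs_nonneg _) (abs_nonneg _)]
          congr 1
          · rw [abs_of_nonneg (by positivity), ← Real.rpow_mul (by positivity), neg_mul,
              one_div, inv_mul_cancel₀ hP1.ne', Real.rpow_neg_one]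
          · rw [chc_apply, show Pe ρ (xb P ρ r m T u) + cI P i u +
                (-(Pe ρ (xb P ρ r m T u)) + cJ P j u) = cI P i u + cJ P j u by abel]
        rw [Finset.sum_congr rfl (fun n _ => h2 n), ← Finset.mul_sum]
        gcongr
        refine (sum_coeff_le_npow hP1 _ _).trans ?_
        refine (npow_chi_toPoly_le hP hρ hρ1 hT _).trans ?_
        exact pw_add_le hP0 _ _
      refine (Finset.sum_le_sum (fun i _ => Finset.sum_le_sum (fun j _ => h1 i j))).trans ?_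
      simp only [← Finset.mul_sum, Finset.sum_add_distrib]
      simp only [Finset.sum_const, Finset.card_univ, Fintype.card_fin, nsmul_eq_mul,
        ← Finset.mul_sum]
      calc (r : ℝ)⁻¹ * (2 ^ P * (r * ∑ i : Fin r, pw P (cI P i u) +
            r * ∑ j : Fin r, pw P (cJ P j u)))
          = 2 ^ P * (∑ i : Fin r, pw P (cI P i u) + ∑ j : Fin r, pw P (cJ P j u)) := by
            field_simp
        _ ≤ 2 ^ P * (c0 P * N + c0 P * N) := by gcongr
        _ = _ := by ring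

end main

end

end Pool.Agent.H26
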