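import Pool.Agent.Lib.H26.SeqB

open Finset Filter Topology

namespace Pool.Agent.H26

noncomputable section

variable {r m T : ℕ}

/-- The distinguished vector in `x`-coordinates. -/
def xe (ρ : ℝ) (m : ℕ) : LF m → ℝ :=
  (-(((1 - ρ) * m)⁻¹)) • oneL m + (ρ * ((1 - ρ) * m)⁻¹) • oneR m

lemma SL_xe {ρ : ℝ} (hρ1 : ρ < 1) (hm : 0 < m) : SL (xe ρ m) = -(1 - ρ)⁻¹ := by
  have ha : 1 - ρ ≠ 0 := by linarith
  have hm' : (m : ℝ) ≠ 0 := by positivity
  unfold xe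
  rw [map_add, map_smul, map_smul, SL_oneL, SL_oneR]
  simp only [smul_eq_mul]
  field_simp
  ring

lemma SR_xe {ρ : ℝ} (hρ1 : ρ < 1) (hm : 0 < m) : SR (xe ρ m) = ρ * (1 - ρ)⁻¹ := by
  have ha : 1 - ρ ≠ 0 := by linarith
  have hm' : (m : ℝ) ≠ 0 := by positivity
  unfold xe
  rw [map_add, map_smul, map_smul, SR_oneL, SR_oneR]
  simp only [smul_eq_mul]
  field_simp
  ring

lemma tc_xe (P : ℝ) {ρ : ℝ} (hρ1 : ρ < 1) (hm : 0 < m) : tc P ρ m T (xe ρ m) = 0 := by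
  rw [tc_apply, Xi_apply, SL_xe hρ1 hm, SR_xe hρ1 hm]
  ring

/-- The distinguished coefficient vector. -/
def ve (ρ κ : ℝ) (r m : ℕ) : VV r m := fun kn => match kn with
  | (Sum.inl _, n) => κ * Pe ρ (xe ρ m) n
  | (Sum.inr _, n) => -(κ * Pe ρ (xe ρ m) n)

lemma sl_ve_inl (ρ κ : ℝ) (i : Fin r) : sl (Sum.inl i) (ve ρ κ r m) = Pe ρ (κ • xe ρ m) := by
  rw [map_smul]; rfl

lemma sl_ve_inr (ρ κ : ℝ) (j : Fin r) : sl (Sum.inr j) (ve ρ κ r m) = Pe ρ (-(κ • xe ρ m)) := by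
  rw [map_neg, map_smul]; rfl

lemma sf_ve {ρ κ : ℝ} (hρ1 : ρ < 1) (hκ : κ ≠ 0) (hr : 0 < r) (hm : 0 < m) :
    sf ρ κ r m (ve ρ κ r m) = 1 := by
  have ha : 1 - ρ ≠ 0 := by linarith
  have hr' : (r : ℝ) ≠ 0 := by positivity
  rw [sf_apply]
  simp only [sl_ve_inr, LinearEquiv.symm_apply_apply, map_neg, map_smul, SL_xe hρ1 hm]
  simp only [Finset.sum_const, Finset.card_univ, Fintype.card_fin, nsmul_eq_mul, smul_eq_mul]
  field_simp

lemma pw_SS_ve {P : ℝ} (hP : 1 ≤ P) {ρ κ : ℝ} (hρ : 0 ≤ ρ) (hρ1 : ρ < 1) (hm : 0 < m) :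
    pw P (SS P ρ r m T (ve ρ κ r m)) ≤
      2 * r * |κ| ^ P * (2 ^ P * (2 * (m * (((1 - ρ) * m)⁻¹) ^ P))) := by
  have hP0 : 0 ≤ P := by linarith
  have hP1 : 0 < P := by linarith
  have ha : 0 < 1 - ρ := by linarith
  have hm' : (0 : ℝ) < m := by positivity
  have hxe : pw P (xe ρ m) ≤ 2 ^ P * (2 * (m * (((1 - ρ) * m)⁻¹) ^ P)) := by
    unfold xe
    refine (pw_add_le hP0 _ _).trans ?_
    rw [pw_smul, pw_smul, pw_oneL hP1, pw_oneR hP1, abs_neg, abs_mul,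
      abs_of_nonneg (by positivity : 0 ≤ ((1 - ρ) * m)⁻¹), abs_of_nonneg hρ,
      Real.mul_rpow hρ (by positivity)]
    gcongr
    have h1 : ρ ^ P ≤ 1 := Real.rpow_le_one hρ hρ1.le hP0
    have h2 : 0 ≤ (m : ℝ) * (((1 - ρ) * m)⁻¹) ^ P := by positivity
    nlinarith
  rw [pw_AA]
  have h1 : ∀ k : KK r, pw P (uI k (SS P ρ r m T (ve ρ κ r m))) = |κ| ^ P * pw P (xe ρ m) := by
    have e : ∀ k : KK r, uI k (SS P ρ r m T (ve ρ κ r m)) =
        (Pe ρ).symm (sl k (ve ρ κ r m)) := fun k => rfl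
    rintro (i | j)
    · rw [e, sl_ve_inl, LinearEquiv.symm_apply_apply, pw_smul]
    · rw [e, sl_ve_inr, LinearEquiv.symm_apply_apply, pw_neg, pw_smul]
  have h2 : ∀ k : KK r, uT k (SS P ρ r m T (ve ρ κ r m)) = 0 := by
    have e : ∀ k : KK r, uT k (SS P ρ r m T (ve ρ κ r m)) =
        tc P ρ m T ((Pe ρ).symm (sl k (ve ρ κ r m))) := fun k => rfl
    rintro (i | j)
    · rw [e, sl_ve_inl, LinearEquiv.symm_apply_apply, map_smul, tc_xe P hρ1 hm, smul_zero]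
    · rw [e, sl_ve_inr, LinearEquiv.symm_apply_apply, map_neg, map_smul, tc_xe P hρ1 hm,
        smul_zero, neg_zero]
  have h3 : ∀ (ij : Fin r × Fin r) (n : A2 m T),
      SS P ρ r m T (ve ρ κ r m) (Sum.inr (Sum.inr (ij, n))) = 0 := by
    rintro ⟨i, j⟩ n
    rw [SS_inr, sl_ve_inl, sl_ve_inr, map_neg, add_neg_cancel, map_zero, mul_zero]
  simp only [h1, h2, h3, abs_zero, Real.zero_rpow hP1.ne', Finset.sum_const_zero, add_zero]
  simp only [Finset.sum_const, Finset.card_univ, Fintype.card_sum, Fintype.card_fin, nsmul_eq_mul]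
  push_cast
  calc ((r : ℝ) + r) * (|κ| ^ P * pw P (xe ρ m)) = 2 * r * |κ| ^ P * pw P (xe ρ m) := by ring
    _ ≤ _ := by gcongr

lemma tendsto_small {P : ℝ} (hP : 1 < P) {a : ℝ} (ha : 0 < a) :
    Tendsto (fun m : ℕ => (m : ℝ) * ((a * m)⁻¹) ^ P) atTop (𝓝 0) := by
  have h1 : Tendsto (fun m : ℕ => a ^ (-P) * (m : ℝ) ^ (-(P - 1))) atTop (𝓝 (a ^ (-P) * 0)) := by
    apply Tendsto.const_mul
    exact (tendsto_rpow_neg_atTop (by linarith : 0 < P - 1)).comp tendsto_natCast_atTop_atTop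
  rw [mul_zero] at h1
  apply h1.congr'
  filter_upwards [eventually_gt_atTop 0] with m hm
  have hm' : (0 : ℝ) < m := by exact_mod_cast hm
  rw [Real.inv_rpow (by positivity), Real.mul_rpow ha.le hm'.le, Real.rpow_neg ha.le, neg_sub,
    Real.rpow_sub hm', Real.rpow_one, mul_inv]
  ring

section est

variable {P : ℝ} (hP : 1 ≤ P) {ρ κ : ℝ} (hρ : 0 ≤ ρ) (hρ1 : ρ < 1) (hκ : 0 < κ)
  (hr : 0 < r) (hT : 2 * m < T)

include hP hr hT in
lemma nrm_cI_le (b : VV r m) (i : Fin r) :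
    nrm P (toPoly (sl (Sum.inl i) b - be b)) ≤ c0 P ^ (1 / P) * lpn P (SS P ρ r m T b) := by
  have hP1 : 0 < P := by linarith
  unfold nrm
  rw [npow_toPoly hP1]
  change (pw P _) ^ (1 / P) ≤ c0 P ^ (1 / P) * (pw P _) ^ (1 / P)
  rw [← Real.mul_rpow (c0_nonneg P) (pw_nonneg _ _)]
  apply Real.rpow_le_rpow (pw_nonneg _ _) _ (by positivity)
  rw [← cI_SS P ρ hr hT b i]
  calc pw P (cI P i (SS P ρ r m T b)) ≤ ∑ i : Fin r, pw P (cI P i (SS P ρ r m T b)) :=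
        Finset.single_le_sum (f := fun i => pw P (cI P i (SS P ρ r m T b)))
          (fun i _ => pw_nonneg _ _) (Finset.mem_univ i)
    _ ≤ _ := (sum_cI_le hP hr _).trans (by
        have := pw_nonneg P (SS P ρ r m T b)
        gcongr
        exact c1_le_c0 hP)

include hP hr hT in
lemma nrm_cJ_le (b : VV r m) (j : Fin r) :
    nrm P (toPoly (sl (Sum.inr j) b + be b)) ≤ c0 P ^ (1 / P) * lpn P (SS P ρ r m T b) := by
  have hP1 : 0 < P := by linarith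
  unfold nrm
  rw [npow_toPoly hP1]
  change (pw P _) ^ (1 / P) ≤ c0 P ^ (1 / P) * (pw P _) ^ (1 / P)
  rw [← Real.mul_rpow (c0_nonneg P) (pw_nonneg _ _)]
  apply Real.rpow_le_rpow (pw_nonneg _ _) _ (by positivity)
  rw [← cJ_SS P ρ hr hT b j]
  calc pw P (cJ P j (SS P ρ r m T b)) ≤ ∑ i : Fin r, pw P (cJ P i (SS P ρ r m T b)) :=
        Finset.single_le_sum (f := fun i => pw P (cJ P i (SS P ρ r m T b)))
          (fun i _ => pw_nonneg _ _) (Finset.mem_univ j)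
    _ ≤ _ := sum_cJ_le hP hr _

include hP hr in
lemma nrm_vv_le (b : VV r m) :
    nrm P (toPoly ((Pe ρ).symm (be b))) ≤ lpn P (SS P ρ r m T b) := by
  have hP1 : 0 < P := by linarith
  have hr' : (1 : ℝ) ≤ r := by exact_mod_cast hr
  unfold nrm
  rw [npow_toPoly hP1]
  change (pw P _) ^ (1 / P) ≤ (pw P _) ^ (1 / P)
  apply Real.rpow_le_rpow (pw_nonneg _ _) _ (by positivity)
  rw [← vv_SS P ρ (T := T) b]
  have h1 := pw_vv_le hP hr (SS P ρ r m T b)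
  have h2 := pw_nonneg P (vv (SS P ρ r m T b))
  nlinarith

include hP hr in
lemma abs_tc_le (b : VV r m) :
    |tc P ρ m T ((Pe ρ).symm (be b))| ≤ lpn P (SS P ρ r m T b) := by
  have hP1 : 0 < P := by linarith
  have hr' : (1 : ℝ) ≤ r := by exact_mod_cast hr
  rw [← vinf_SS P ρ (T := T) b]
  have h1 := vinf_pow_le hP hr (SS P ρ r m T b)
  have h2 : 0 ≤ |vinf (SS P ρ r m T b)| ^ P := by positivity
  have h3 : |vinf (SS P ρ r m T b)| ^ P ≤ lpn P (SS P ρ r m T b) ^ P := by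
    rw [lpn_rpow' hP1]
    nlinarith
  exact (Real.rpow_le_rpow_iff (abs_nonneg _) (lpn_nonneg _ _) hP1).mp h3

include hP hρ hρ1 hκ hr in
lemma nrm_FF_be_le (b : VV r m) :
    nrm P (FF ρ T * toPoly (be b)) ≤
      3 * lpn P (SS P ρ r m T b) + 2 * (κ * |sf ρ κ r m b|) := by
  have hP1 : 0 < P := by linarith
  rw [FF_mul_toPoly ρ, sub_mul, one_mul, smul_mul_assoc]
  have h1 : nrm P (xt ρ ((Pe ρ).symm (be b))) ≤
      lpn P (SS P ρ r m T b) + κ * |sf ρ κ r m b| := by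
    unfold xt
    refine (nrm_sub_le hP _ _).trans ?_
    rw [nrm_smul hP1, nrm_one hP1, mul_one, SL_be ρ hκ.ne', abs_neg, abs_mul, abs_of_pos hκ]
    gcongr
    exact nrm_vv_le hP hr b
  have h2 : nrm P (ρ ^ T • (mono T * xt ρ ((Pe ρ).symm (be b)))) ≤
      nrm P (xt ρ ((Pe ρ).symm (be b))) := by
    rw [nrm_smul hP1, nrm_mono_mul hP1, abs_of_nonneg (by positivity)]
    have : ρ ^ T ≤ 1 := pow_le_one₀ hρ hρ1.le
    have h4 := nrm_nonneg P (xt ρ ((Pe ρ).symm (be b)))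
    nlinarith
  have h3 : nrm P (((1 - ρ) * Xi ρ ((Pe ρ).symm (be b))) • tl ρ m T) ≤
      lpn P (SS P ρ r m T b) := by
    rw [nrm_smul hP1]
    have h4 := abs_tc_le hP (ρ := ρ) (T := T) hr b
    rw [tc_apply, abs_neg, abs_mul, abs_of_nonneg (nrm_nonneg P (tl ρ m T))] at h4
    exact h4
  refine (nrm_sub_le hP _ _).trans ?_
  have h5 := nrm_sub_le hP (xt ρ ((Pe ρ).symm (be b)))
    (ρ ^ T • (mono T * xt ρ ((Pe ρ).symm (be b))))
  linarith

include hP hρ hρ1 in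
lemma nrm_FF_mul_le (c : LF m → ℝ) : nrm P (FF ρ T * toPoly c) ≤ 2 * nrm P (toPoly c) := by
  refine (nrm_mul_le hP _ _).trans ?_
  gcongr
  · exact nrm_nonneg _ _
  · exact l1_FF_le hρ hρ1.le T

include hP hρ hρ1 in
lemma nrm_chi_mul_le (c : LF m → ℝ) : nrm P (chi ρ T * toPoly c) ≤ nrm P (toPoly c) := by
  refine (nrm_mul_le hP _ _).trans ?_
  have h1 := l1_chi_le hρ hρ1.le T
  have h2 := nrm_nonneg P (toPoly c)
  nlinarith

include hP hρ hρ1 hκ hr hT in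
/-- Bound for `‖F b_k‖`. -/
lemma nrm_FF_sl_le (b : VV r m) (k : KK r) :
    nrm P (FF ρ T * toPoly (sl k b)) ≤
      (3 + 2 * c0 P ^ (1 / P)) * lpn P (SS P ρ r m T b) + 2 * (κ * |sf ρ κ r m b|) := by
  have hP1 : 0 < P := by linarith
  have h0 := nrm_FF_be_le hP hρ hρ1 hκ hr (T := T) b
  rcases k with i | j
  · have e : sl (Sum.inl i) b = be b + (sl (Sum.inl i) b - be b) := by abel
    rw [e, map_add, mul_add]
    refine (nrm_add_le hP _ _).trans ?_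
    have h1 := nrm_FF_mul_le hP hρ hρ1 (T := T) (sl (Sum.inl i) b - be b)
    have h2 := nrm_cI_le hP hr hT (ρ := ρ) b i
    linarith
  · have e : sl (Sum.inr j) b = -(be b) + (sl (Sum.inr j) b + be b) := by abel
    rw [e, map_add, mul_add, map_neg, mul_neg]
    refine (nrm_add_le hP _ _).trans ?_
    rw [nrm_neg hP1]
    have h1 := nrm_FF_mul_le hP hρ hρ1 (T := T) (sl (Sum.inr j) b + be b)
    have h2 := nrm_cJ_le hP hr hT (ρ := ρ) b j
    linarith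

include hP hρ hρ1 hr hT in
/-- Bound for `‖χ (b_i + b_j)‖`. -/
lemma nrm_chi_sl_le (b : VV r m) (i j : Fin r) :
    nrm P (chi ρ T * toPoly (sl (Sum.inl i) b + sl (Sum.inr j) b)) ≤
      2 * c0 P ^ (1 / P) * lpn P (SS P ρ r m T b) := by
  have e : sl (Sum.inl i) b + sl (Sum.inr j) b =
      (sl (Sum.inl i) b - be b) + (sl (Sum.inr j) b + be b) := by abel
  refine (nrm_chi_mul_le hP hρ hρ1 _).trans ?_
  rw [e, map_add]
  refine (nrm_add_le hP _ _).trans ?_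
  have h2 := nrm_cI_le hP hr hT (ρ := ρ) b i
  have h3 := nrm_cJ_le hP hr hT (ρ := ρ) b j
  linarith

include hρ1 hκ hr hT in
/-- The slow coefficients. -/
lemma slow_inl_le {q : ℝ} (hPq : P.HolderConjugate q) (b : VV r m) (i : Fin r) :
    |(FF ρ T * toPoly (sl (Sum.inl i) b)).coeff 0 - κ * sf ρ κ r m b| ≤
      nrm q (chi ρ T) * (c0 P ^ (1 / P) * lpn P (SS P ρ r m T b)) := by
  have hP : 1 ≤ P := hPq.lt.le
  have e : sl (Sum.inl i) b = be b + (sl (Sum.inl i) b - be b) := by abel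
  have h1 : (FF ρ T * toPoly (be b)).coeff 0 = κ * sf ρ κ r m b := by
    have h2 := SL_Pe_symm ρ hT (be b)
    rw [SL_be ρ hκ.ne'] at h2
    linarith
  have h3 : (FF ρ T * toPoly (sl (Sum.inl i) b)).coeff 0 - κ * sf ρ κ r m b =
      -(chi ρ T * toPoly (sl (Sum.inl i) b - be b)).coeff 0 := by
    have h4 := SL_Pe_symm ρ hT (sl (Sum.inl i) b - be b)
    rw [SL_Pe_symm' ρ hT] at h4
    conv_lhs => rw [e, map_add, mul_add, AddMonoidAlgebra.coeff_add, Finsupp.add_apply, h1]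
    linarith
  rw [h3, abs_neg]
  refine (abs_coeff_mul_le hPq _ _ _).trans ?_
  have h5 := nrm_cI_le hP hr hT (ρ := ρ) b i
  have := nrm_nonneg q (chi ρ T)
  gcongr

include hρ1 hκ hr hT in
/-- The slow coefficients. -/
lemma slow_inr_le {q : ℝ} (hPq : P.HolderConjugate q) (b : VV r m) (j : Fin r) :
    |(FF ρ T * toPoly (sl (Sum.inr j) b)).coeff 0 + κ * sf ρ κ r m b| ≤
      nrm q (chi ρ T) * (c0 P ^ (1 / P) * lpn P (SS P ρ r m T b)) := by
  have hP : 1 ≤ P := hPq.lt.le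
  have e : sl (Sum.inr j) b = -(be b) + (sl (Sum.inr j) b + be b) := by abel
  have h1 : (FF ρ T * toPoly (be b)).coeff 0 = κ * sf ρ κ r m b := by
    have h2 := SL_Pe_symm ρ hT (be b)
    rw [SL_be ρ hκ.ne'] at h2
    linarith
  have h3 : (FF ρ T * toPoly (sl (Sum.inr j) b)).coeff 0 + κ * sf ρ κ r m b =
      -(chi ρ T * toPoly (sl (Sum.inr j) b + be b)).coeff 0 := by
    have h4 := SL_Pe_symm ρ hT (sl (Sum.inr j) b + be b)
    rw [SL_Pe_symm' ρ hT] at h4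
    conv_lhs => rw [e, map_add, mul_add, AddMonoidAlgebra.coeff_add, Finsupp.add_apply, map_neg,
      mul_neg, AddMonoidAlgebra.coeff_neg, Finsupp.neg_apply, h1]
    linarith
  rw [h3, abs_neg]
  refine (abs_coeff_mul_le hPq _ _ _).trans ?_
  have h5 := nrm_cJ_le hP hr hT (ρ := ρ) b j
  have := nrm_nonneg q (chi ρ T)
  gcongr

include hP hρ hρ1 in
/-- The `ℓ_1` norm of the coefficients. -/
lemma l1_sl_le (b : VV r m) (k : KK r) :
    l1 (toPoly (sl k b)) ≤ 2 * (1 + 2 * m) * (2 * m * lpn P (SS P ρ r m T b)) := by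
  have hP1 : 0 < P := by linarith
  refine (l1_toPoly_le hρ hρ1 _).trans ?_
  gcongr
  have h1 : ∀ n : LF m, |(Pe ρ).symm (sl k b) n| ≤ lpn P (SS P ρ r m T b) :=
    fun n => abs_le_lpn hP1 (SS P ρ r m T b) (Sum.inl (k, n))
  refine (Finset.sum_le_sum (fun n _ => h1 n)).trans ?_
  rw [Finset.sum_const, nsmul_eq_mul]
  gcongr
  · exact lpn_nonneg _ _
  · rw [Finset.card_univ, Fintype.card_coe]
    unfold LF
    have h2 : ((Icc (-(m : ℤ)) m).erase 0).card = 2 * m := by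
      rw [Finset.card_erase_of_mem (by simp), Int.card_Icc]
      omega
    rw [h2]
    push_cast
    exact le_refl _

end est

end

end Pool.Agent.H26
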