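import Pool.Agent.Lib.H26.Lau
import Pool.Agent.Lib.H26.Disj

open Finset

namespace Pool.Agent.H26

noncomputable section

/-- The index set `I ⊔ J`. -/
abbrev KK (r : ℕ) := Fin r ⊕ Fin r

/-- The coefficient space. -/
abbrev VV (r m : ℕ) := KK r × LF m → ℝ

/-- The index set for the detection coordinates. -/
def A2 (m T : ℕ) : Finset ℤ := Icc (-(m : ℤ)) (m + T)

/-- The index set of the ideal model. -/
abbrev AA (r m T : ℕ) := (KK r × LF m) ⊕ (KK r ⊕ ((Fin r × Fin r) × A2 m T))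

lemma LF_sub_A2 {m : ℕ} (T : ℕ) (n : LF m) : (n : ℤ) ∈ A2 m T := by
  have h := mem_LF.mp n.2
  unfold A2
  rw [mem_Icc]
  omega

variable {r m T : ℕ}

/-- The `k`-th slice of a coefficient vector. -/
def sl (k : KK r) : VV r m →ₗ[ℝ] (LF m → ℝ) := LinearMap.funLeft ℝ ℝ (fun n => (k, n))

lemma sl_apply (k : KK r) (b : VV r m) (n : LF m) : sl k b n = b (k, n) := rfl

/-- The coefficient of the tail, normalized. -/
def tc (P ρ : ℝ) (m T : ℕ) : (LF m → ℝ) →ₗ[ℝ] ℝ :=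
  (-((1 - ρ) * nrm P (tl ρ m T))) • (Xi ρ)

lemma tc_apply (P ρ : ℝ) (m T : ℕ) (x : LF m → ℝ) :
    tc P ρ m T x = -((1 - ρ) * Xi ρ x * nrm P (tl ρ m T)) := by
  unfold tc
  rw [LinearMap.smul_apply, smul_eq_mul]
  ring

/-- The map `c ↦ χ c`, coefficientwise. -/
def chc (ρ : ℝ) (m T : ℕ) (n : ℤ) : (LF m → ℝ) →ₗ[ℝ] ℝ where
  toFun c := (chi ρ T * toPoly c).coeff n
  map_add' x y := by
    rw [map_add, mul_add, AddMonoidAlgebra.coeff_add, Finsupp.add_apply]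
  map_smul' c x := by
    rw [map_smul, mul_smul_comm, AddMonoidAlgebra.coeff_smul, Finsupp.smul_apply]
    rfl

lemma chc_apply (ρ : ℝ) (m T : ℕ) (n : ℤ) (c : LF m → ℝ) :
    chc ρ m T n c = (chi ρ T * toPoly c).coeff n := rfl

/-- The map from coefficients to the coordinates of the ideal model. -/
def SS (P ρ : ℝ) (r m T : ℕ) : VV r m →ₗ[ℝ] (AA r m T → ℝ) :=
  LinearMap.pi (fun α => match α with
    | Sum.inl (k, n) => (LinearMap.proj n) ∘ₗ (Pe ρ).symm.toLinearMap ∘ₗ sl k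
    | Sum.inr (Sum.inl k) => (tc P ρ m T) ∘ₗ (Pe ρ).symm.toLinearMap ∘ₗ sl k
    | Sum.inr (Sum.inr ((i, j), n)) =>
        ((r : ℝ) ^ (-(1 / P))) • ((chc ρ m T n) ∘ₗ (sl (Sum.inl i) + sl (Sum.inr j))))

lemma SS_inl (P ρ : ℝ) (b : VV r m) (k : KK r) (n : LF m) :
    SS P ρ r m T b (Sum.inl (k, n)) = (Pe ρ).symm (sl k b) n := rfl

lemma SS_inm (P ρ : ℝ) (b : VV r m) (k : KK r) :
    SS P ρ r m T b (Sum.inr (Sum.inl k)) = tc P ρ m T ((Pe ρ).symm (sl k b)) := rfl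

lemma SS_inr (P ρ : ℝ) (b : VV r m) (i j : Fin r) (n : A2 m T) :
    SS P ρ r m T b (Sum.inr (Sum.inr ((i, j), n))) =
      (r : ℝ) ^ (-(1 / P)) * chc ρ m T n (sl (Sum.inl i) b + sl (Sum.inr j) b) := rfl

/-- Coordinates of type `(k, n)`. -/
def uI (k : KK r) : (AA r m T → ℝ) →ₗ[ℝ] (LF m → ℝ) :=
  LinearMap.funLeft ℝ ℝ (fun n => Sum.inl (k, n))

/-- Tail coordinates. -/
def uT (k : KK r) : (AA r m T → ℝ) →ₗ[ℝ] ℝ := LinearMap.proj (Sum.inr (Sum.inl k))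

/-- Detection coordinates, restricted to `LF m`. -/
def uD (i j : Fin r) : (AA r m T → ℝ) →ₗ[ℝ] (LF m → ℝ) :=
  LinearMap.funLeft ℝ ℝ (fun n => Sum.inr (Sum.inr ((i, j), ⟨n, LF_sub_A2 T n⟩)))

lemma uI_apply (k : KK r) (u : AA r m T → ℝ) (n : LF m) : uI k u n = u (Sum.inl (k, n)) := rfl
lemma uT_apply (k : KK r) (u : AA r m T → ℝ) : uT k u = u (Sum.inr (Sum.inl k)) := rfl
lemma uD_apply (i j : Fin r) (u : AA r m T → ℝ) (n : LF m) :
    uD i j u n = u (Sum.inr (Sum.inr ((i, j), ⟨n, LF_sub_A2 T n⟩))) := rfl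

/-- The average of the `J` part, with sign. -/
def vv : (AA r m T → ℝ) →ₗ[ℝ] (LF m → ℝ) := -((r : ℝ)⁻¹ • ∑ j : Fin r, uI (Sum.inr j))

/-- The average of the tail coordinates of the `J` part, with sign. -/
def vinf : (AA r m T → ℝ) →ₗ[ℝ] ℝ := -((r : ℝ)⁻¹ • ∑ j : Fin r, uT (Sum.inr j))

/-- Indicator of the negative indices. -/
def oneL (m : ℕ) : LF m → ℝ := fun n => if (n : ℤ) < 0 then 1 else 0

/-- Indicator of the positive indices. -/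
def oneR (m : ℕ) : LF m → ℝ := fun n => if 0 < (n : ℤ) then 1 else 0

/-- Remove the means on both halves. -/
def MR (m : ℕ) : (LF m → ℝ) →ₗ[ℝ] (LF m → ℝ) :=
  LinearMap.id - (m : ℝ)⁻¹ • (SL.smulRight (oneL m)) - (m : ℝ)⁻¹ • (SR.smulRight (oneR m))

/-- The `x`-coordinates of the common part. -/
def xb (P ρ : ℝ) (r m T : ℕ) : (AA r m T → ℝ) →ₗ[ℝ] (LF m → ℝ) :=
  MR m ∘ₗ vv - ((1 - ρ) * nrm P (tl ρ m T) * m)⁻¹ • (vinf.smulRight (oneR m))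

/-- The `c`-part for `i ∈ I`. -/
def cI (P : ℝ) (i : Fin r) : (AA r m T → ℝ) →ₗ[ℝ] (LF m → ℝ) :=
  uI (Sum.inl i) - vv + ((r : ℝ) ^ (1 / P)) • ((r : ℝ)⁻¹ • ∑ j : Fin r, uD i j)

/-- The average over all detection coordinates. -/
def uDD : (AA r m T → ℝ) →ₗ[ℝ] (LF m → ℝ) :=
  ((r : ℝ)⁻¹ * (r : ℝ)⁻¹) • ∑ i : Fin r, ∑ j : Fin r, uD i j

/-- The `c`-part for `j ∈ J`. -/
def cJ (P : ℝ) (j : Fin r) : (AA r m T → ℝ) →ₗ[ℝ] (LF m → ℝ) :=
  uI (Sum.inr j) + vv + ((r : ℝ) ^ (1 / P)) • ((r : ℝ)⁻¹ • ∑ i : Fin r, uD i j - uDD)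

/-- The left inverse. -/
def RR (P ρ : ℝ) (r m T : ℕ) : (AA r m T → ℝ) →ₗ[ℝ] VV r m :=
  LinearMap.pi (fun kn => match kn with
    | (Sum.inl i, n) => (LinearMap.proj n) ∘ₗ ((Pe ρ).toLinearMap ∘ₗ xb P ρ r m T + cI P i)
    | (Sum.inr j, n) => (LinearMap.proj n) ∘ₗ (-((Pe ρ).toLinearMap ∘ₗ xb P ρ r m T) + cJ P j))

lemma sl_RR_inl (P ρ : ℝ) (u : AA r m T → ℝ) (i : Fin r) :
    sl (Sum.inl i) (RR P ρ r m T u) = Pe ρ (xb P ρ r m T u) + cI P i u := rfl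

lemma sl_RR_inr (P ρ : ℝ) (u : AA r m T → ℝ) (j : Fin r) :
    sl (Sum.inr j) (RR P ρ r m T u) = -(Pe ρ (xb P ρ r m T u)) + cJ P j u := rfl

/-- The target functional. -/
def sf (ρ κ : ℝ) (r m : ℕ) : VV r m →ₗ[ℝ] ℝ :=
  ((1 - ρ) / κ) • ((r : ℝ)⁻¹ • ∑ j : Fin r, SL ∘ₗ (Pe ρ).symm.toLinearMap ∘ₗ sl (Sum.inr j))

lemma sf_apply (ρ κ : ℝ) (b : VV r m) :
    sf ρ κ r m b = (1 - ρ) / κ * ((r : ℝ)⁻¹ * ∑ j : Fin r, SL ((Pe ρ).symm (sl (Sum.inr j) b))) := by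
  simp [sf, LinearMap.sum_apply]

/-- The common part of a coefficient vector. -/
def be : VV r m →ₗ[ℝ] (LF m → ℝ) := -((r : ℝ)⁻¹ • ∑ j : Fin r, sl (Sum.inr j))

lemma vv_apply (u : AA r m T → ℝ) : vv u = -((r : ℝ)⁻¹ • ∑ j : Fin r, uI (Sum.inr j) u) := by
  simp [vv, LinearMap.sum_apply]

lemma vinf_apply (u : AA r m T → ℝ) : vinf u = -((r : ℝ)⁻¹ * ∑ j : Fin r, uT (Sum.inr j) u) := by
  simp [vinf, LinearMap.sum_apply]

lemma be_apply (b : VV r m) : be b = -((r : ℝ)⁻¹ • ∑ j : Fin r, sl (Sum.inr j) b) := by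
  simp [be, LinearMap.sum_apply]

lemma cI_apply (P : ℝ) (i : Fin r) (u : AA r m T → ℝ) :
    cI P i u = uI (Sum.inl i) u - vv u +
      ((r : ℝ) ^ (1 / P)) • ((r : ℝ)⁻¹ • ∑ j : Fin r, uD i j u) := by
  simp [cI, LinearMap.sum_apply]

lemma uDD_apply (u : AA r m T → ℝ) :
    uDD u = ((r : ℝ)⁻¹ * (r : ℝ)⁻¹) • ∑ i : Fin r, ∑ j : Fin r, uD i j u := by
  simp [uDD, LinearMap.sum_apply]

lemma cJ_apply (P : ℝ) (j : Fin r) (u : AA r m T → ℝ) :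
    cJ P j u = uI (Sum.inr j) u + vv u +
      ((r : ℝ) ^ (1 / P)) • ((r : ℝ)⁻¹ • (∑ i : Fin r, uD i j u) - uDD u) := by
  simp [cJ, LinearMap.sum_apply]

lemma MR_apply (w : LF m → ℝ) :
    MR m w = w - (m : ℝ)⁻¹ • (SL w • oneL m) - (m : ℝ)⁻¹ • (SR w • oneR m) := rfl

lemma xb_apply (P ρ : ℝ) (u : AA r m T → ℝ) :
    xb P ρ r m T u = MR m (vv u) -
      ((1 - ρ) * nrm P (tl ρ m T) * m)⁻¹ • (vinf u • oneR m) := rfl

/-! ### Elementary facts -/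

lemma SL_oneL (m : ℕ) : SL (oneL m) = m := by
  rw [SL_apply]
  simp only [oneL]
  have : ∑ n : LF m, (if (n : ℤ) < 0 then (if (n : ℤ) < 0 then (1 : ℝ) else 0) else 0) =
      ∑ n : LF m, if (n : ℤ) < 0 then (1 : ℝ) else 0 := by
    apply Finset.sum_congr rfl
    intro n _
    split_ifs <;> rfl
  rw [this, Finset.sum_coe_sort (LF m) (fun n => if n < 0 then (1 : ℝ) else 0), Finset.sum_boole]
  have h : (LF m).filter (fun n => n < 0) = Ico (-(m : ℤ)) 0 := by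
    ext n
    rw [mem_filter, mem_LF, mem_Ico]
    omega
  rw [h, Int.card_Ico]
  simp

lemma SR_oneR (m : ℕ) : SR (oneR m) = m := by
  rw [SR_apply]
  simp only [oneR]
  have : ∑ n : LF m, (if 0 < (n : ℤ) then (if 0 < (n : ℤ) then (1 : ℝ) else 0) else 0) =
      ∑ n : LF m, if 0 < (n : ℤ) then (1 : ℝ) else 0 := by
    apply Finset.sum_congr rfl
    intro n _
    split_ifs <;> rfl
  rw [this, Finset.sum_coe_sort (LF m) (fun n => if 0 < n then (1 : ℝ) else 0), Finset.sum_boole]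
  have h : (LF m).filter (fun n => 0 < n) = Ioc 0 (m : ℤ) := by
    ext n
    rw [mem_filter, mem_LF, mem_Ioc]
    omega
  rw [h, Int.card_Ioc]
  simp

lemma SL_oneR (m : ℕ) : SL (oneR m) = 0 := by
  rw [SL_apply]
  apply Finset.sum_eq_zero
  intro n _
  simp only [oneR]
  split_ifs with h1 h2
  · omega
  · rfl
  · rfl

lemma SR_oneL (m : ℕ) : SR (oneL m) = 0 := by
  rw [SR_apply]
  apply Finset.sum_eq_zero
  intro n _
  simp only [oneL]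
  split_ifs with h1 h2
  · omega
  · rfl
  · rfl

lemma SL_MR (hm : 0 < m) (w : LF m → ℝ) : SL (MR m w) = 0 := by
  have hm' : (m : ℝ) ≠ 0 := by positivity
  rw [MR_apply, map_sub, map_sub, map_smul, map_smul, map_smul, map_smul, SL_oneL, SL_oneR]
  simp only [smul_eq_mul]
  field_simp
  ring

lemma SR_MR (hm : 0 < m) (w : LF m → ℝ) : SR (MR m w) = 0 := by
  have hm' : (m : ℝ) ≠ 0 := by positivity
  rw [MR_apply, map_sub, map_sub, map_smul, map_smul, map_smul, map_smul, SR_oneL, SR_oneR]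
  simp only [smul_eq_mul]
  field_simp
  ring

lemma SL_xb (P ρ : ℝ) (hm : 0 < m) (u : AA r m T → ℝ) : SL (xb P ρ r m T u) = 0 := by
  rw [xb_apply, map_sub, SL_MR hm, map_smul, map_smul, SL_oneR]
  simp

lemma SR_xb (P : ℝ) {ρ : ℝ} (hρ : ρ < 1) (hm : 0 < m) (hν : 0 < nrm P (tl ρ m T))
    (u : AA r m T → ℝ) :
    SR (xb P ρ r m T u) = -(vinf u / ((1 - ρ) * nrm P (tl ρ m T))) := by
  have hm' : (m : ℝ) ≠ 0 := by positivity
  have ha : 1 - ρ ≠ 0 := by linarith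
  have hν' := hν.ne'
  rw [xb_apply, map_sub, SR_MR hm, map_smul, map_smul, SR_oneR]
  simp only [smul_eq_mul]
  field_simp
  ring

lemma tc_xb (P : ℝ) {ρ : ℝ} (hρ : ρ < 1) (hm : 0 < m) (hν : 0 < nrm P (tl ρ m T))
    (u : AA r m T → ℝ) : tc P ρ m T (xb P ρ r m T u) = vinf u := by
  have ha : 1 - ρ ≠ 0 := by linarith
  have hν' := hν.ne'
  rw [tc_apply, Xi_apply, SL_xb P ρ hm, SR_xb P hρ hm hν]
  field_simp
  ring

lemma sum_cJ (P : ℝ) (hr : 0 < r) (u : AA r m T → ℝ) : ∑ j : Fin r, cJ P j u = 0 := by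
  have hr' : (r : ℝ) ≠ 0 := by positivity
  simp only [cJ_apply]
  rw [Finset.sum_add_distrib, Finset.sum_add_distrib, ← Finset.smul_sum, Finset.sum_sub_distrib,
    ← Finset.smul_sum, Finset.sum_comm, uDD_apply, vv_apply]
  simp only [Finset.sum_const, Finset.card_univ, Fintype.card_fin]
  ext n
  simp only [Pi.add_apply, Pi.smul_apply, Pi.sub_apply, Pi.neg_apply, smul_eq_mul, nsmul_eq_mul,
    Pi.zero_apply, Finset.sum_apply, Pi.mul_apply, Pi.natCast_apply]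
  field_simp
  ring

lemma sf_RR (P ρ κ : ℝ) (hr : 0 < r) (hm : 0 < m) (u : AA r m T → ℝ) :
    sf ρ κ r m (RR P ρ r m T u) = 0 := by
  rw [sf_apply]
  have h1 : ∀ j : Fin r, SL ((Pe ρ).symm (sl (Sum.inr j) (RR P ρ r m T u))) =
      SL ((Pe ρ).symm (cJ P j u)) := by
    intro j
    rw [sl_RR_inr, map_add, map_neg, LinearEquiv.symm_apply_apply, map_add, map_neg,
      SL_xb P ρ hm, neg_zero, zero_add]
  rw [Finset.sum_congr rfl (fun j _ => h1 j), ← map_sum, ← map_sum, sum_cJ P hr]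
  simp

lemma vv_SS (P ρ : ℝ) (b : VV r m) : vv (SS P ρ r m T b) = (Pe ρ).symm (be b) := by
  rw [vv_apply, be_apply, map_neg, map_smul, map_sum]
  rfl

lemma vinf_SS (P ρ : ℝ) (b : VV r m) :
    vinf (SS P ρ r m T b) = tc P ρ m T ((Pe ρ).symm (be b)) := by
  rw [vinf_apply, be_apply, map_neg, map_smul, map_sum, map_neg, map_smul, map_sum]
  rfl

lemma uD_SS (P ρ : ℝ) (b : VV r m) (i j : Fin r) (n : LF m) :
    uD i j (SS P ρ r m T b) n =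
      (r : ℝ) ^ (-(1 / P)) * chc ρ m T n (sl (Sum.inl i) b + sl (Sum.inr j) b) := rfl

lemma rpow_mul_neg {r : ℕ} (hr : 0 < r) (P : ℝ) :
    (r : ℝ) ^ (1 / P) * (r : ℝ) ^ (-(1 / P)) = 1 := by
  rw [← Real.rpow_add (by positivity), add_neg_cancel, Real.rpow_zero]

lemma cI_SS (P ρ : ℝ) (hr : 0 < r) (hT : 2 * m < T) (b : VV r m) (i : Fin r) :
    cI P i (SS P ρ r m T b) = sl (Sum.inl i) b - be b := by
  have hr' : (r : ℝ) ≠ 0 := by positivity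
  ext n
  have h1 : (r : ℝ)⁻¹ * ∑ j : Fin r, chc ρ m T n (sl (Sum.inl i) b + sl (Sum.inr j) b) =
      chc ρ m T n (sl (Sum.inl i) b - be b) := by
    rw [be_apply, sub_neg_eq_add, map_add, map_smul, map_sum]
    simp only [map_add]
    rw [Finset.sum_add_distrib]
    simp only [Finset.sum_const, Finset.card_univ, Fintype.card_fin, nsmul_eq_mul, smul_eq_mul]
    field_simp
  rw [cI_apply, Pi.add_apply, Pi.sub_apply, vv_SS, Pi.smul_apply, Pi.smul_apply,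
    Finset.sum_apply, smul_eq_mul, smul_eq_mul]
  simp only [uD_SS]
  rw [← Finset.mul_sum, mul_left_comm ((r : ℝ)⁻¹), ← mul_assoc ((r : ℝ) ^ (1 / P)),
    rpow_mul_neg hr, one_mul, h1, uI_apply, SS_inl, ← Pi.sub_apply, ← map_sub]
  exact recover ρ hT (sl (Sum.inl i) b - be b) n

lemma cJ_SS (P ρ : ℝ) (hr : 0 < r) (hT : 2 * m < T) (b : VV r m) (j : Fin r) :
    cJ P j (SS P ρ r m T b) = sl (Sum.inr j) b + be b := by
  have hr' : (r : ℝ) ≠ 0 := by positivity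
  ext n
  have h1 : (r : ℝ)⁻¹ * (∑ i : Fin r, chc ρ m T n (sl (Sum.inl i) b + sl (Sum.inr j) b)) -
      (r : ℝ)⁻¹ * (r : ℝ)⁻¹ *
        ∑ i : Fin r, ∑ j' : Fin r, chc ρ m T n (sl (Sum.inl i) b + sl (Sum.inr j') b) =
      chc ρ m T n (sl (Sum.inr j) b + be b) := by
    rw [be_apply, map_add, map_neg, map_smul, map_sum]
    simp only [map_add]
    simp only [Finset.sum_add_distrib, Finset.sum_const, Finset.card_univ, Fintype.card_fin,
      nsmul_eq_mul, smul_eq_mul, ← Finset.mul_sum]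
    field_simp
    ring
  rw [cJ_apply, Pi.add_apply, Pi.add_apply, vv_SS, Pi.smul_apply, Pi.sub_apply, Pi.smul_apply,
    Finset.sum_apply, uDD_apply, Pi.smul_apply, Finset.sum_apply]
  simp only [Finset.sum_apply, uD_SS, smul_eq_mul]
  simp only [← Finset.mul_sum]
  have h2 : (r : ℝ) ^ (1 / P) * ((r : ℝ)⁻¹ * ((r : ℝ) ^ (-(1 / P)) *
      ∑ i : Fin r, chc ρ m T n (sl (Sum.inl i) b + sl (Sum.inr j) b)) -
      (r : ℝ)⁻¹ * (r : ℝ)⁻¹ * ((r : ℝ) ^ (-(1 / P)) *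
        ∑ i : Fin r, ∑ j' : Fin r, chc ρ m T n (sl (Sum.inl i) b + sl (Sum.inr j') b))) =
      chc ρ m T n (sl (Sum.inr j) b + be b) := by
    rw [← h1]
    have h3 := rpow_mul_neg hr P
    linear_combination ((r : ℝ)⁻¹ *
      ∑ i : Fin r, chc ρ m T n (sl (Sum.inl i) b + sl (Sum.inr j) b) -
      (r : ℝ)⁻¹ * (r : ℝ)⁻¹ *
        ∑ i : Fin r, ∑ j' : Fin r, chc ρ m T n (sl (Sum.inl i) b + sl (Sum.inr j') b)) * h3
  rw [h2, uI_apply, SS_inl, ← Pi.add_apply, ← map_add]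
  exact recover ρ hT (sl (Sum.inr j) b + be b) n

lemma SL_be (ρ : ℝ) {κ : ℝ} (hκ : κ ≠ 0) (b : VV r m) :
    (1 - ρ) * SL ((Pe ρ).symm (be b)) = -(κ * sf ρ κ r m b) := by
  rw [sf_apply, be_apply, map_neg, map_smul, map_sum, map_neg, map_smul, map_sum, smul_eq_mul]
  field_simp

lemma MR_of_mean_zero {w : LF m → ℝ} (hw : SL w = 0) :
    MR m w = w - (m : ℝ)⁻¹ • (SR w • oneR m) := by
  rw [MR_apply, hw]
  simp

lemma xb_SS (P : ℝ) {ρ κ : ℝ} (hρ : ρ < 1) (hκ : κ ≠ 0) (hm : 0 < m)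
    (hν : 0 < nrm P (tl ρ m T)) (b : VV r m) (hb : sf ρ κ r m b = 0) :
    xb P ρ r m T (SS P ρ r m T b) = (Pe ρ).symm (be b) := by
  have hm' : (m : ℝ) ≠ 0 := by positivity
  have ha : 1 - ρ ≠ 0 := by linarith
  have hν' := hν.ne'
  have h1 := SL_be ρ hκ b
  rw [hb, mul_zero, neg_zero] at h1
  have h2 : SL ((Pe ρ).symm (be b)) = 0 := by
    rcases mul_eq_zero.mp h1 with h | h
    · exact absurd h ha
    · exact h
  rw [xb_apply, vv_SS, vinf_SS, MR_of_mean_zero h2, tc_apply, Xi_apply, h2, mul_zero, zero_add]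
  ext n
  simp only [Pi.sub_apply, Pi.smul_apply, smul_eq_mul]
  field_simp
  ring

lemma RR_SS (P : ℝ) {ρ κ : ℝ} (hρ : ρ < 1) (hκ : κ ≠ 0) (hr : 0 < r) (hm : 0 < m)
    (hT : 2 * m < T) (hν : 0 < nrm P (tl ρ m T)) (b : VV r m) (hb : sf ρ κ r m b = 0) :
    RR P ρ r m T (SS P ρ r m T b) = b := by
  have h1 : ∀ k : KK r, sl k (RR P ρ r m T (SS P ρ r m T b)) = sl k b := by
    rintro (i | j)
    · rw [sl_RR_inl, xb_SS P hρ hκ hm hν b hb, LinearEquiv.apply_symm_apply, cI_SS P ρ hr hT]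
      abel
    · rw [sl_RR_inr, xb_SS P hρ hκ hm hν b hb, LinearEquiv.apply_symm_apply, cJ_SS P ρ hr hT]
      abel
  ext ⟨k, n⟩
  exact congrFun (h1 k) n

end

end Pool.Agent.H26
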