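import Pool.Agent.Lib.H26.Prm
import Pool.Agent.Lib.H26.Cyc

open MeasureTheory Filter Topology Set
open scoped ENNReal

namespace Pool.Agent.H26

noncomputable section

variable {p : ℝ≥0∞} [Fact (1 ≤ p)]

/-- The conclusion of the block lemma for the target space `H`. -/
def BlockAt (hp : p ≠ ∞) (C : ℝ) (f : X p) (H : Submodule ℝ (X p)) (B ε : ℝ) : Prop :=
  ∃ (f' : X p) (P : X p →L[ℝ] X p) (n : ℕ) (lam : Fin n → ℝ) (I : (Fin n → ℝ) →ₗ[ℝ] X p),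
    Dyad f' ∧ ‖f' - f‖ < ε ∧ ‖P‖ ≤ C ∧ (∀ x, P (P x) = P x) ∧
    FiniteDimensional ℝ (LinearMap.range P.toLinearMap) ∧ (∀ x, Dyad (P x)) ∧
    (∀ x, R (win B) (P x) = 0) ∧ (∀ x, P (R (win B) x) = 0) ∧
    Function.Injective I ∧
    LinearMap.range I = H ⊔ LinearMap.range P.toLinearMap ∧
    ∀ b, ‖∑ i, b i • T (lam i) f' - I b‖ ≤ ε * ‖I b‖

/-- The constant in the single target lemma. -/
def Cst (P : ℝ) : ℝ :=
  (2 ^ P * (2 * (2 ^ P * (c0 P + 1)) + 2 ^ P * (2 * c0 P)) +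
        (2 ^ P * (2 + 6 ^ P * (2 * c0 P)) + 2 ^ P * (2 * c0 P))) ^ (1 / P)

lemma Cst_nonneg (P : ℝ) : 0 ≤ Cst P := by
  have := c0_nonneg P
  unfold Cst
  positivity

/-- The error constant is small when all parameters are. -/
lemma errC_le {P : ℝ} {r m L M : ℕ} {ρ κ X Xq DDm εY ε₁ ε₀ : ℝ}
    (h1 : (2 * r * ((3 + 2 * cc P + 2 * κ) * 2 ^ (2 * r)) +
      r * r * (2 * cc P * 2 ^ (2 * r) + 2 * r * ((3 + 2 * cc P + 2 * κ) * (2 ^ (2 * r) + 1)))) * X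
      ≤ ε₀ / 8)
    (h2 : 2 * r * cc P * Xq ≤ ε₀ / 8) (h3 : 2 * r * (4 * m) * ρ ^ L ≤ ε₀ / 8) (h4 : ε₁ ≤ ε₀ / 8)
    (h5 : r * r * (2 * (2 * (1 + 2 * m) * (2 * m) * DDm)) * εY ≤ ε₀ / 8)
    (h6 : r * r * (2 ^ (2 * r) * (2 * m * (2 * (1 + 2 * m) * (2 * m)))) * (M : ℝ) ^ (-(1 / P))
      ≤ ε₀ / 8) (h0 : 0 ≤ ε₀) :
    errC P r m L M ρ κ X Xq DDm εY ε₁ ≤ ε₀ := by
  have e : errC P r m L M ρ κ X Xq DDm εY ε₁ =
      (2 * r * ((3 + 2 * cc P + 2 * κ) * 2 ^ (2 * r)) +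
      r * r * (2 * cc P * 2 ^ (2 * r) + 2 * r * ((3 + 2 * cc P + 2 * κ) * (2 ^ (2 * r) + 1)))) * X +
      2 * r * cc P * Xq + 2 * r * (4 * m) * ρ ^ L + ε₁ +
      r * r * (2 * (2 * (1 + 2 * m) * (2 * m) * DDm)) * εY +
      r * r * (2 ^ (2 * r) * (2 * m * (2 * (1 + 2 * m) * (2 * m)))) * (M : ℝ) ^ (-(1 / P)) := by
    unfold errC
    ring
  rw [e]
  linarith

/-- Choice of a small positive number below finitely many constraints `α * x ≤ c`. -/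
lemma exists_small (α1 α2 α3 c1' c3' : ℝ) (hc1 : 0 < c1') (hc3 : 0 < c3') :
    ∃ x : ℝ, 0 < x ∧ x ≤ 1 ∧ ∀ y, 0 ≤ y → y ≤ x → α1 * y ≤ c1' ∧ α2 * y ≤ c1' ∧ α3 * y < c3' := by
  have h : ∀ α c : ℝ, 0 < c → ∃ x : ℝ, 0 < x ∧ ∀ y, 0 ≤ y → y ≤ x → α * y < c := by
    intro α c hc
    refine ⟨c / (|α| + 1), by positivity, ?_⟩
    intro y hy0 hy
    rw [le_div_iff₀ (by positivity)] at hy
    have h1 : α * y ≤ |α| * y := by
      gcongr
      exact le_abs_self α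
    rcases hy0.eq_or_lt with h0 | h0
    · rw [← h0]; simpa using hc
    · nlinarith
  obtain ⟨x1, hx1, h1⟩ := h α1 c1' hc1
  obtain ⟨x2, hx2, h2⟩ := h α2 c1' hc1
  obtain ⟨x3, hx3, h3⟩ := h α3 c3' hc3
  refine ⟨min 1 (min x1 (min x2 x3)), by positivity, min_le_left _ _, ?_⟩
  intro y hy0 hy
  have e1 : y ≤ x1 := hy.trans ((min_le_right _ _).trans (min_le_left _ _))
  have e2 : y ≤ x2 := hy.trans ((min_le_right _ _).trans
    ((min_le_right _ _).trans (min_le_left _ _)))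
  have e3 : y ≤ x3 := hy.trans ((min_le_right _ _).trans
    ((min_le_right _ _).trans (min_le_right _ _)))
  exact ⟨(h1 y hy0 e1).le, (h2 y hy0 e2).le, h3 y hy0 e3⟩

/-- The single target lemma for a normalized function. -/
theorem single_unit (hp1 : 1 < p) (hp : p ≠ ∞) (f h : X p) (hf : Dyad f) (hf1 : ‖f‖ = 1)
    (hh0 : h ≠ 0) (B ε : ℝ) (hε : 0 < ε) (hhB : R (win B) h = h) :
    BlockAt hp (Cst p.toReal) f (Submodule.span ℝ {h}) B ε := by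
  classical
  set P := p.toReal with hPdef
  have hP1 : 1 < P := by
    have h := (ENNReal.toReal_lt_toReal ENNReal.one_ne_top hp).mpr hp1
    simpa using h
  have hP : 1 ≤ P := hP1.le
  have hP0 : 0 < P := by linarith
  obtain ⟨q, hPq⟩ : ∃ q, P.HolderConjugate q := ⟨_, Real.HolderConjugate.conjExponent hP1⟩
  have hq1 : 1 < q := hPq.symm.lt
  have hn : 0 < ‖h‖ := norm_pos_iff.mpr hh0
  have hf0 : f ≠ 0 := by
    intro h0
    rw [h0, norm_zero] at hf1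
    norm_num at hf1
  -- the target accuracy
  obtain ⟨ε₀, hε₀, hsmall⟩ : ∃ ε₀ : ℝ, 0 < ε₀ ∧ ε₀ * (1 + (2 + ε₀) / ‖h‖) ≤ ε := by
    refine ⟨min 1 (ε / (1 + 3 / ‖h‖)), by positivity, ?_⟩
    set e := min 1 (ε / (1 + 3 / ‖h‖)) with he
    have h1 : e ≤ 1 := min_le_left _ _
    have h2 : e ≤ ε / (1 + 3 / ‖h‖) := min_le_right _ _
    have h3 : 0 < e := by rw [he]; positivity
    rw [le_div_iff₀ (by positivity)] at h2
    refine le_trans ?_ h2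
    gcongr
    linarith
  -- cyclicity
  obtain ⟨κ, r, δ1, δ2, hκ, hδ1, hδ2, hcyc⟩ := cyclic hp1 hp hf hf0 h
    (ε := min (ε₀ / 8) ‖h‖) (by positivity)
  have hr : 0 < r := by
    rcases Nat.eq_zero_or_pos r with h0 | h0
    · exfalso
      subst h0
      have : ‖h‖ < min (ε₀ / 8) ‖h‖ := by simpa using hcyc
      exact absurd (this.trans_le (min_le_right _ _)) (lt_irrefl _)
    · exact h0
  let δ : KK r → ℝ := Sum.elim δ1 δ2
  have hδ : ∀ k, DyR (δ k) := by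
    rintro (i | j)
    · exact hδ1 i
    · exact hδ2 j
  have hκh : ‖κ • sgnsum δ f - h‖ ≤ ε₀ / 8 := (hcyc.le.trans (min_le_left _ _))
  -- the size of `χ`
  obtain ⟨x0, hx0, hx01, hx⟩ := exists_small
    (2 * r * ((3 + 2 * cc P + 2 * κ) * 2 ^ (2 * r)) +
      r * r * (2 * cc P * 2 ^ (2 * r) + 2 * r * ((3 + 2 * cc P + 2 * κ) * (2 ^ (2 * r) + 1))))
    (2 * r * cc P) (2 ^ (2 * r) + r * r * (2 ^ (2 * r) + 1)) (ε₀ / 8) ε (by positivity) hε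
  -- the choice of `a = 1 - ρ`
  obtain ⟨a, ha0, ha1, haP, haq⟩ : ∃ a : ℝ, 0 < a ∧ a < 1 ∧ a ^ (1 - 1 / P) ≤ x0 / 2 ∧
      a ^ (1 - 1 / q) ≤ x0 / 2 := by
    have hlim : ∀ s : ℝ, 0 < s → Tendsto (fun a : ℝ => a ^ s) (𝓝[>] 0) (𝓝 0) := by
      intro s hs
      have h1 : Tendsto (fun a : ℝ => a ^ s) (𝓝 0) (𝓝 ((0 : ℝ) ^ s)) :=
        (Real.continuous_rpow_const hs.le).tendsto 0
      rw [Real.zero_rpow hs.ne'] at h1
      exact h1.mono_left nhdsWithin_le_nhds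
    have hsP : 0 < 1 - 1 / P := by
      rw [sub_pos, div_lt_one hP0]; exact hP1
    have hsq : 0 < 1 - 1 / q := by
      rw [sub_pos, div_lt_one (by linarith)]; exact hq1
    have e1 := (hlim _ hsP).eventually (ge_mem_nhds (by positivity : 0 < x0 / 2))
    have e2 := (hlim _ hsq).eventually (ge_mem_nhds (by positivity : 0 < x0 / 2))
    have e3 : ∀ᶠ a : ℝ in 𝓝[>] 0, a < 1 :=
      nhdsWithin_le_nhds (Iio_mem_nhds zero_lt_one)
    have e4 : ∀ᶠ a : ℝ in 𝓝[>] 0, 0 < a := self_mem_nhdsWithin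
    obtain ⟨a, h1, h2, h3, h4⟩ := (e1.and (e2.and (e3.and e4))).exists
    exact ⟨a, h4, h3, h1, h2⟩
  set ρ := 1 - a with hρdef
  have hρ0 : 0 ≤ ρ := by rw [hρdef]; linarith
  have hρ1 : ρ < 1 := by rw [hρdef]; linarith
  have hρa : 1 - ρ = a := by rw [hρdef]; ring
  -- the choice of `m`
  obtain ⟨m, hm, hmP, hmS⟩ : ∃ m : ℕ, 0 < m ∧ (m : ℝ) ≤ ((1 - ρ) * m) ^ P ∧
      2 * r * |κ| ^ P * (2 ^ P * (2 * (m * (((1 - ρ) * m)⁻¹) ^ P))) ≤ ε₀ ^ P := by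
    rw [hρa]
    have h1 := tendsto_small hP1 ha0
    have h2 : Tendsto (fun m : ℕ => 2 * r * |κ| ^ P * (2 ^ P * (2 * ((m : ℝ) * ((a * m)⁻¹) ^ P))))
        atTop (𝓝 (2 * r * |κ| ^ P * (2 ^ P * (2 * 0)))) :=
      ((h1.const_mul 2).const_mul _).const_mul _
    simp only [mul_zero] at h2
    have e1 := h1.eventually (ge_mem_nhds zero_lt_one)
    have e2 := h2.eventually (ge_mem_nhds (by positivity : 0 < ε₀ ^ P))
    obtain ⟨m, h3, h4, h5⟩ := (e1.and (e2.and (eventually_gt_atTop 0))).exists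
    refine ⟨m, h5, ?_, h4⟩
    have hm0 : (0 : ℝ) < m := by exact_mod_cast h5
    have h6 : 0 < (a * m) ^ P := by positivity
    rw [Real.inv_rpow (by positivity), ← div_eq_mul_inv, div_le_one h6] at h3
    exact h3
  -- the choice of `L`
  obtain ⟨L, hL, hL1, hL2⟩ : ∃ L : ℕ, 2 * m < L ∧ ρ ^ L ≤ x0 / 2 ∧
      2 * r * (4 * m) * ρ ^ L ≤ ε₀ / 8 := by
    have h1 : Tendsto (fun L : ℕ => ρ ^ L) atTop (𝓝 0) :=
      tendsto_pow_atTop_nhds_zero_of_lt_one hρ0 hρ1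
    have h2 : Tendsto (fun L : ℕ => 2 * r * (4 * m) * ρ ^ L) atTop
        (𝓝 (2 * r * (4 * m) * 0)) := h1.const_mul _
    rw [mul_zero] at h2
    obtain ⟨L, h3, h4, h5⟩ := ((h1.eventually (ge_mem_nhds (by positivity : 0 < x0 / 2))).and
      ((h2.eventually (ge_mem_nhds (by positivity : 0 < ε₀ / 8))).and
      (eventually_gt_atTop (2 * m)))).exists
    exact ⟨L, h5, h3, h4⟩
  have hXP : nrm P (chi ρ L) ≤ x0 := by
    refine (nrm_chi_le hP hρ0 hρ1 L).trans ?_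
    rw [hρa]
    linarith
  have hXq : nrm q (chi ρ L) ≤ x0 := by
    refine (nrm_chi_le hq1.le hρ0 hρ1 L).trans ?_
    rw [hρa]
    linarith
  have hX1 : nrm P (chi ρ L) ≤ 1 := hXP.trans hx01
  -- the choice of `M`
  obtain ⟨M, hM, hM1⟩ : ∃ M : ℕ, 0 < M ∧
      r * r * (2 ^ (2 * r) * (2 * m * (2 * (1 + 2 * m) * (2 * m)))) * (M : ℝ) ^ (-(1 / P))
      ≤ ε₀ / 8 := by
    have h1 : Tendsto (fun M : ℕ =>
        r * r * (2 ^ (2 * r) * (2 * m * (2 * (1 + 2 * m) * (2 * m)))) * (M : ℝ) ^ (-(1 / P)))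
        atTop (𝓝 (r * r * (2 ^ (2 * r) * (2 * m * (2 * (1 + 2 * m) * (2 * m)))) * 0)) := by
      apply Tendsto.const_mul
      exact (tendsto_rpow_neg_atTop (by positivity : 0 < 1 / P)).comp
        tendsto_natCast_atTop_atTop
    rw [mul_zero] at h1
    obtain ⟨M, h3, h5⟩ := ((h1.eventually (ge_mem_nhds (by positivity : 0 < ε₀ / 8))).and
      (eventually_gt_atTop 0)).exists
    exact ⟨M, h5, h3⟩
  -- the choice of the flat function
  obtain ⟨DDm, hDDm0, hDDm⟩ : ∃ D : ℝ, 0 ≤ D ∧ ∀ ij, l1 (DD P ρ L M (r := r) ij) ≤ D := by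
    obtain ⟨D, hD⟩ := (Set.finite_range (fun ij => l1 (DD P ρ L M (r := r) ij))).bddAbove
    exact ⟨max D 0, le_max_right _ _, fun ij => (hD ⟨ij, rfl⟩).trans (le_max_left _ _)⟩
  obtain ⟨εY, hεY, hεY1⟩ : ∃ e : ℝ, 0 < e ∧
      r * r * (2 * (2 * (1 + 2 * m) * (2 * m) * DDm)) * e ≤ ε₀ / 8 := by
    obtain ⟨e, h1, _, h2⟩ := exists_small (r * r * (2 * (2 * (1 + 2 * m) * (2 * m) * DDm))) 0 0
      (ε₀ / 8) 1 (by positivity) one_pos
    exact ⟨e, h1, (h2 e h1.le le_rfl).1⟩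
  obtain ⟨g0, hg0D, hg0, hg0Y⟩ := exists_flat hp1 hp δ hεY
  -- supports
  obtain ⟨bf, hbf, hbf'⟩ := Dyad_supp hp hf
  obtain ⟨bg, hbg, hbg'⟩ := Dyad_supp hp hg0D
  obtain ⟨D, hD0, hD⟩ : ∃ D : ℝ, 0 ≤ D ∧ ∀ k, |δ k| ≤ D := by
    obtain ⟨D, hD⟩ := (Set.finite_range (fun k => |δ k|)).bddAbove
    exact ⟨max D 0, le_max_right _ _, fun k => (hD ⟨k, rfl⟩).trans (le_max_left _ _)⟩
  set b1 := bf + bg + D with hb1
  have hfb0 : R (win b1) f = f := R_win_mono (by rw [hb1]; linarith) hbf'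
  have hgb : R (win b1) g0 = g0 := R_win_mono (by rw [hb1]; linarith) hbg'
  have hfb : ∀ k, R (win b1) (T (δ k) f) = T (δ k) f := fun k =>
    R_win_mono (by rw [hb1]; linarith [hD k]) (R_win_T hbf' (δ k))
  have hgb' : ∀ k, R (win b1) (T (δ k) g0) = T (δ k) g0 := fun k =>
    R_win_mono (by rw [hb1]; linarith [hD k]) (R_win_T hbg' (δ k))
  obtain ⟨pos, hpos, hG⟩ := exists_geo P ρ r m L M b1 B
  have hL0 : 0 < L := by omega
  set D0 := fam hp hL0 hM hG f g0 δ hf1 hg0 hfb hgb with hD0'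
  set f' := fnew P ρ r L M pos f g0 with hf'
  have hν0 : 0 < nrm P (tl ρ m L) := by
    rw [nrm_tl hP0]
    have := one_le_nrm_geo hP0 ρ hL0
    linarith
  -- the error estimate
  have hY : ∀ b : VV r m, ‖YY pos δ f' b - sf ρ κ r m b • h - D0.J (SS P ρ r m L b)‖ ≤
      ε₀ * (|sf ρ κ r m b| + lpn P (SS P ρ r m L b)) := by
    intro b
    have h1 := err_bound hp hPq hρ0 hρ1 hκ hr hL hM hX1 hG f g0 h δ hf1 hg0 hfb hgb hgb' hDDm
      hg0Y hκh b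
    refine h1.trans ?_
    have h2 : errC P r m L M ρ κ (nrm P (chi ρ L)) (nrm q (chi ρ L)) DDm εY (ε₀ / 8) ≤ ε₀ := by
      have hxP := hx _ (nrm_nonneg P (chi ρ L)) hXP
      have hxq := hx _ (nrm_nonneg q (chi ρ L)) hXq
      exact errC_le hxP.1 hxq.2.1 hL2 le_rfl hεY1 hM1 hε₀.le
    have h3 := lpn_nonneg P (SS P ρ r m L b)
    have h4 := abs_nonneg (sf ρ κ r m b)
    gcongr
  have hSe : lpn P (SS P ρ r m L (ve ρ κ r m)) ≤ ε₀ := by
    have h1 := pw_SS_ve (r := r) (T := L) hP (κ := κ) hρ0 hρ1 hm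
    have h2 : lpn P (SS P ρ r m L (ve ρ κ r m)) ^ P ≤ ε₀ ^ P := by
      rw [lpn_rpow' hP0]
      exact h1.trans hmS
    exact (Real.rpow_le_rpow_iff (lpn_nonneg _ _) hε₀.le hP0).mp h2
  have hC : ∀ u, lpn P (SS P ρ r m L (RR P ρ r m L u)) ≤ Cst P * lpn P u := by
    intro u
    have h1 := pw_SS_RR_le hP hρ0 hρ1 hr hm hL hmP u
    have h2 := c0_nonneg P
    unfold Cst lpn
    rw [← Real.mul_rpow (by positivity) (by positivity)]
    exact Real.rpow_le_rpow (by positivity) h1 (by positivity)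
  have hDyα : ∀ α, Dyad (D0.e α) := by
    intro α
    apply Dyad_act hpos
    rcases α with ⟨k, n⟩ | k | ij
    · exact Dyad_T (hδ k) hf
    · exact Dyad_T (hδ k) hf
    · exact hg0D
  obtain ⟨Pr, I, hPr1, hPr2, hPr3, hPr4, hPr5, hPr6, hI1, hI2, hI3⟩ :=
    core hp1 hp D0 hDyα (B := B) (fun α => hG.dB α) hhB hh0 (YY pos δ f') (sf ρ κ r m)
      (ve ρ κ r m) (sf_ve hρ1 hκ.ne' hr hm) (SS P ρ r m L) (RR P ρ r m L)
      (fun v hv => RR_SS P hρ1 hκ.ne' hr hm hL hν0 v hv) (fun u => sf_RR P ρ κ hr hm u)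
      (Cst_nonneg P) hC hε₀.le hY hSe hsmall
  -- reindexing
  let e : Fin (Fintype.card (KK r × LF m)) ≃ KK r × LF m := (Fintype.equivFin _).symm
  let Lr : (Fin (Fintype.card (KK r × LF m)) → ℝ) ≃ₗ[ℝ] VV r m :=
    LinearEquiv.funCongrLeft ℝ ℝ e.symm
  refine ⟨f', Pr, Fintype.card (KK r × LF m),
    fun i => pos (((e i).2 : ℤ) • gz (e i).1) + δ (e i).1, I ∘ₗ Lr.toLinearMap, ?_, ?_, hPr1,
    hPr2, hPr3, hPr4, hPr5, hPr6, ?_, ?_, ?_⟩
  · rw [hf']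
    unfold fnew
    exact Dyad_add (Dyad_act hpos _ hf) (Dyad_sum _ _ (fun ij _ => Dyad_act hpos _ hg0D))
  · refine (norm_fnew_sub_le hp hr hM hX1 hG f g0 hf1 hg0 hfb0 hgb).trans_lt ?_
    exact (hx _ (nrm_nonneg P (chi ρ L)) hXP).2.2
  · exact hI1.comp Lr.injective
  · rw [LinearMap.range_comp_of_range_eq_top _ (LinearEquiv.range Lr)]
    exact hI2
  · intro b
    have h1 := hI3 (Lr b)
    have h2 : YY pos δ f' (Lr b) =
        ∑ i, b i • T (pos (((e i).2 : ℤ) • gz (e i).1) + δ (e i).1) f' := by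
      rw [YY_apply, ← Equiv.sum_comp e]
      apply Finset.sum_congr rfl
      intro i _
      have : Lr b (e i) = b i := by
        change b (e.symm (e i)) = b i
        rw [Equiv.symm_apply_apply]
      rw [this]
    rw [h2] at h1
    exact h1

/-- The single target lemma. -/
theorem single_target (hp1 : 1 < p) (hp : p ≠ ∞) :
    ∃ C : ℝ, 0 ≤ C ∧ ∀ (f h : X p), Dyad f → f ≠ 0 → Dyad h → h ≠ 0 → ∀ (B ε : ℝ), 0 < B → 0 < ε →
      R (win B) h = h → BlockAt hp C f (Submodule.span ℝ {h}) B ε := by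
  refine ⟨Cst p.toReal, Cst_nonneg _, ?_⟩
  intro f h hf hf0 _ hh0 B ε _ hε hhB
  have hn : 0 < ‖f‖ := norm_pos_iff.mpr hf0
  have hf1 : ‖(‖f‖⁻¹) • f‖ = 1 := by
    rw [norm_smul, norm_inv, norm_norm, inv_mul_cancel₀ hn.ne']
  obtain ⟨f1, Pr, n, lam, I, h1, h2, h3, h4, h5, h6, h7, h8, h9, h10, h11⟩ :=
    single_unit hp1 hp ((‖f‖⁻¹) • f) h (Dyad_smul _ hf) hf1 hh0 B (min ε (ε / ‖f‖))
      (by positivity) hhB
  refine ⟨‖f‖ • f1, Pr, n, lam, ‖f‖ • I, Dyad_smul _ h1, ?_, h3, h4, h5, h6, h7, h8, ?_, ?_, ?_⟩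
  · have e : ‖f‖ • f1 - f = ‖f‖ • (f1 - (‖f‖⁻¹) • f) := by
      rw [smul_sub, smul_smul, mul_inv_cancel₀ hn.ne', one_smul]
    rw [e, norm_smul, norm_norm]
    have := h2.trans_le (min_le_right _ _)
    rwa [lt_div_iff₀ hn, mul_comm] at this
  · intro x y hxy
    apply h9
    have hxy' : ‖f‖ • I x = ‖f‖ • I y := hxy
    exact smul_right_injective _ hn.ne' hxy'
  · rw [← h10]
    exact LinearMap.range_smul I ‖f‖ hn.ne'
  · intro b
    have e : ∑ i, b i • T (lam i) (‖f‖ • f1) - (‖f‖ • I) b =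
        ‖f‖ • (∑ i, b i • T (lam i) f1 - I b) := by
      rw [smul_sub, Finset.smul_sum, LinearMap.smul_apply]
      congr 1
      apply Finset.sum_congr rfl
      intro i _
      rw [map_smul, smul_comm]
    rw [e, LinearMap.smul_apply, norm_smul, norm_smul, norm_norm]
    have := h11 b
    calc ‖f‖ * ‖∑ i, b i • T (lam i) f1 - I b‖ ≤ ‖f‖ * (min ε (ε / ‖f‖) * ‖I b‖) := by gcongr
      _ ≤ ‖f‖ * (ε * ‖I b‖) := by
          gcongr
          exact min_le_left _ _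
      _ = _ := by ring

end

end Pool.Agent.H26
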